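import Pool.Agent.H78.BA.Table

/-! Algebras whose unary operations are permutations or constants, and idempotent
algebras, in terms of unary parts. -/

namespace H78.BA

set_option maxHeartbeats 400000

/-- the unary map with a given number -/
def mp (c : ℕ) : Fin 3 → Fin 3 := ![⟨c % 3, Nat.mod_lt _ (by norm_num)⟩,
  ⟨c / 3 % 3, Nat.mod_lt _ (by norm_num)⟩, ⟨c / 9 % 3, Nat.mod_lt _ (by norm_num)⟩]

/-- numbers of the permutations and constants -/
def cs (i : Fin 9) : ℕ :=
  match i with
  | 0 => 0
  | 1 => 5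
  | 2 => 7
  | 3 => 11
  | 4 => 13
  | 5 => 15
  | 6 => 19
  | 7 => 21
  | 8 => 26

/-- composition of the nine maps -/
def cT (i j : Fin 9) : Fin 9 :=
  ⟨(18227089373189555710946679292986649413053435941069590488964540536087762039516048260327185007509504 >>> (4 * (9 * i.1 + j.1))) % 16 % 9, Nat.mod_lt _ (by norm_num)⟩

theorem cT_ok : ∀ i j : Fin 9, cs (cT i j) = code (fun x => mp (cs i) (mp (cs j) x)) := by
  decide +kernel

/-- the table of the 24 unary parts -/
def L24 : List (ℕ × ℕ) :=
  [(2097152, 14232), (2097153, 735), (2097184, 53), (2099328, 3), (2105344, 735),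
   (2105345, 4), (2105376, 22), (2129920, 53), (2129921, 22), (2621440, 53), (2629633, 1),
   (2656416, 1), (69206016, 735), (69206017, 4), (69206049, 1), (69214208, 4),
   (69214209, 1), (69214241, 1), (69216385, 1), (69246976, 1), (69246977, 1),
   (69730304, 22), (69738497, 1), (69773473, 2)]

/-- mask of a choice among the nine maps -/
def mk (b : Fin 9 → Bool) : ℕ :=
  (if b 0 then 2 ^ 0 else 0) + (if b 1 then 2 ^ 5 else 0) + (if b 2 then 2 ^ 7 else 0) +
  (if b 3 then 2 ^ 11 else 0) + (if b 4 then 2 ^ 13 else 0) + (if b 5 then 2 ^ 15 else 0) +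
  (if b 6 then 2 ^ 19 else 0) + (if b 7 then 2 ^ 21 else 0) + (if b 8 then 2 ^ 26 else 0)

theorem mk_bit : ∀ (b : Fin 9 → Bool) (c : Fin 27),
    ((mk b).testBit c.1 = true ↔ ∃ i, b i = true ∧ cs i = c.1) := by decide +kernel

theorem mp_code : ∀ m : Fin 3 → Fin 3, mp (code m) = m := by decide +kernel

theorem cs_of : ∀ m : Fin 3 → Fin 3, (Function.Injective m ∨ ∃ c, m = fun _ => c) →
    ∃ i : Fin 9, code m = cs i := by decide +kernel

theorem mk_mem : ∀ b : Fin 9 → Bool, (b 7 = true ∧ ∀ i j, b i = true → b j = true →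
    b (cT i j) = true) → ∃ e ∈ L24, e.1 = mk b := by decide +kernel

theorem L24_ok : ∀ e ∈ L24, ∀ m : Fin 3 → Fin 3, e.1.testBit (code m) = true →
    (Function.Injective m ∨ ∃ c, m = fun _ => c) := by decide +kernel

theorem comp_mem {F : Set Op} (hF : IsAlg F) {m m' : Fin 3 → Fin 3}
    (h : m ∈ unaryPart F) (h' : m' ∈ unaryPart F) : (fun x => m (m' x)) ∈ unaryPart F :=
  hF.2.2 _ h _ h' _ h'

theorem id_mem {F : Set Op} (hF : IsAlg F) : (fun x => x) ∈ unaryPart F := hF.1

theorem perm_card (hnum : ∀ e ∈ L24, num (SM e.1) = e.2) :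
    {F : Set Op | IsAlg F ∧ ∀ m ∈ unaryPart F,
      (Function.Injective m ∨ ∃ c, m = fun _ => c)}.ncard = 16688 := by
  classical
  have e : {F : Set Op | IsAlg F ∧ ∀ m ∈ unaryPart F,
      (Function.Injective m ∨ ∃ c, m = fun _ => c)} =
      {F : Set Op | IsAlg F ∧ ∃ e ∈ L24, unaryPart F = SM e.1} := by
    ext F
    constructor
    · rintro ⟨hF, h⟩
      refine ⟨hF, ?_⟩
      let b : Fin 9 → Bool := fun i => decide (mp (cs i) ∈ unaryPart F)
      have hb : ∀ i, b i = true ↔ mp (cs i) ∈ unaryPart F := fun i => decide_eq_true_iff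
      have hU : unaryPart F = SM (mk b) := by
        ext m
        change m ∈ unaryPart F ↔ (mk b).testBit (code m) = true
        rw [mk_bit b ⟨code m, code_lt m⟩]
        constructor
        · intro hm
          obtain ⟨i, hi⟩ := cs_of m (h m hm)
          refine ⟨i, ?_, hi.symm⟩
          rw [hb, ← hi, mp_code]; exact hm
        · rintro ⟨i, hi, hc⟩
          have hc' : cs i = code m := hc
          rw [hb, hc', mp_code] at hi
          exact hi
      obtain ⟨e, he, hm⟩ := mk_mem b ⟨by
          have h7 : mp (cs 7) = fun x => x := by decide +kernel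
          rw [hb, h7]
          exact id_mem hF, by
          intro i j hi hj
          rw [hb] at hi hj ⊢
          rw [cT_ok, mp_code]
          exact comp_mem hF hi hj⟩
      exact ⟨e, he, by rw [hU, hm]⟩
    · rintro ⟨hF, e, he, hU⟩
      refine ⟨hF, fun m hm => ?_⟩
      rw [hU] at hm
      exact L24_ok e he m hm
  rw [e, union_card L24 (by decide) (by decide) hnum]
  rfl

theorem idem_card (h : num (SM 2097152) = 14232) :
    {F : Set Op | IsAlg F ∧ ∀ f ∈ F, ∀ x, f x x = x}.ncard = 14232 := by
  rw [← h]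
  unfold num
  congr 1
  ext F
  constructor
  · rintro ⟨hF, h1⟩
    refine ⟨hF, ?_⟩
    ext m
    constructor
    · intro hm
      have h2 : m = fun x => x := by
        funext x
        exact h1 _ hm x
      rw [h2]
      change (2097152 : ℕ).testBit (code fun x => x) = true
      decide
    · intro hm
      have h2 : ∀ m : Fin 3 → Fin 3, (2097152 : ℕ).testBit (code m) = true →
        m = fun x => x := by decide +kernel
      rw [h2 m hm]
      exact id_mem hF
  · rintro ⟨hF, h1⟩
    refine ⟨hF, fun f hf x => ?_⟩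
    have h3 : (fun x => f x x) ∈ unaryPart F := hF.2.2 _ hf _ hF.1 _ hF.1
    rw [h1] at h3
    have h2 : ∀ m : Fin 3 → Fin 3, (2097152 : ℕ).testBit (code m) = true →
      m = fun x => x := by decide +kernel
    exact congrFun (h2 _ h3) x

end H78.BA
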