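import Pool.Agent.H78.BA.G0
import Pool.Agent.H78.BA.G1
import Pool.Agent.H78.BA.G2
import Pool.Agent.H78.BA.G3
import Pool.Agent.H78.BA.G4
import Pool.Agent.H78.BA.G5
import Pool.Agent.H78.BA.G6
import Pool.Agent.H78.BA.G7
import Pool.Agent.H78.BA.G8
import Pool.Agent.H78.BA.G9
import Pool.Agent.H78.BA.G10
import Pool.Agent.H78.BA.G11
import Pool.Agent.H78.BA.G12
import Pool.Agent.H78.BA.G13
import Pool.Agent.H78.BA.G14
import Pool.Agent.H78.BA.G15
import Pool.Agent.H78.BA.G16
import Pool.Agent.H78.BA.G17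
import Pool.Agent.H78.BA.G18
import Pool.Agent.H78.BA.G19
import Pool.Agent.H78.BA.G20
import Pool.Agent.H78.BA.G22
import Pool.Agent.H78.BA.G23
import Pool.Agent.H78.BA.G24
import Pool.Agent.H78.BA.G27
import Pool.Agent.H78.BA.G28
import Pool.Agent.H78.BA.M2097152.Top
import Pool.Agent.H78.BA.Perm

/-! The table of numbers of algebras by unary part. -/

namespace H78.BA

set_option maxHeartbeats 0
set_option maxRecDepth 100000

/-- part 0 of the table: mask, number, permutations giving the conjugates -/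
def R0 : List (ℕ × ℕ × List ℕ) :=
  [(2097152, 14232, [0]), (2097153, 735, [0, 2, 4]), (2129920, 53, [0, 2, 4]),
   (2097217, 7680, [0, 1, 2, 3, 4, 5]), (2098184, 18, [0, 1, 2, 3, 4, 5]), (2099328, 3, [0]),
   (2101249, 837, [0, 1, 2, 3, 4, 5]), (2105345, 4, [0, 1, 3]), (2105376, 22, [0, 1, 2]),
   (2101257, 8177, [0, 1, 2, 3, 4, 5]), (2101761, 14347, [0, 1, 2, 3, 4, 5]),
   (2105353, 370, [0, 1, 2, 3, 4, 5]), (2105361, 4578, [0, 1, 2, 3, 4, 5]),
   (2367489, 227, [0, 1, 2, 3, 4, 5]), (2629633, 1, [0, 1, 3]), (7077888, 319, [0, 1, 3]),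
   (10493960, 3013, [0, 1, 2]), (69214209, 1, [0]), (2102282, 555, [0, 1, 3]),
   (2105369, 14230, [0, 1, 2, 3, 4, 5])]

theorem hR0 : ∀ r ∈ R0, num (SM r.1) = r.2.1 :=
  List.forall_mem_cons.2 ⟨M2097152.entry,
  List.forall_mem_cons.2 ⟨M2097153.entry,
  List.forall_mem_cons.2 ⟨M2097184.entry,
  List.forall_mem_cons.2 ⟨M2097217.entry,
  List.forall_mem_cons.2 ⟨M2098184.entry,
  List.forall_mem_cons.2 ⟨M2099328.entry,
  List.forall_mem_cons.2 ⟨M2101249.entry,
  List.forall_mem_cons.2 ⟨M2105345.entry,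
  List.forall_mem_cons.2 ⟨M2105376.entry,
  List.forall_mem_cons.2 ⟨M2101257.entry,
  List.forall_mem_cons.2 ⟨M2101761.entry,
  List.forall_mem_cons.2 ⟨M2105353.entry,
  List.forall_mem_cons.2 ⟨M2105361.entry,
  List.forall_mem_cons.2 ⟨M2367489.entry,
  List.forall_mem_cons.2 ⟨M2629633.entry,
  List.forall_mem_cons.2 ⟨M7077888.entry,
  List.forall_mem_cons.2 ⟨M10493960.entry,
  List.forall_mem_cons.2 ⟨M69214209.entry,
  List.forall_mem_cons.2 ⟨M2102282.entry,
  List.forall_mem_cons.2 ⟨M2105369.entry,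
  (fun _ h => absurd h List.not_mem_nil)⟩⟩⟩⟩⟩⟩⟩⟩⟩⟩⟩⟩⟩⟩⟩⟩⟩⟩⟩⟩

/-- part 1 of the table: mask, number, permutations giving the conjugates -/
def R1 : List (ℕ × ℕ × List ℕ) :=
  [(2105865, 11826, [0, 1, 2, 3, 4, 5]), (2106377, 64, [0, 1, 2, 3, 4, 5]),
   (2109449, 1025, [0, 1, 3]), (2367497, 3418, [0, 1, 2, 3, 4, 5]),
   (2367505, 2263, [0, 1, 2, 3, 4, 5]), (6684928, 14, [0, 1, 3]), (10493992, 327, [0, 1, 2]),
   (69214217, 6, [0, 1, 2, 3, 4, 5]), (69214225, 4, [0, 1, 2, 3, 4, 5]), (69214241, 1, [0, 1, 2]),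
   (2367513, 5215, [0, 1, 2, 3, 4, 5]), (2368521, 596, [0, 1, 2, 3, 4, 5]),
   (2626570, 166, [0, 1, 3]), (2630161, 100, [0, 1, 3]), (2656416, 1, [0]),
   (7086081, 35, [0, 1, 3]), (7209216, 10, [0, 1, 3]), (10514440, 42, [0, 1, 2, 3, 4, 5]),
   (69214233, 39, [0, 1, 2, 3, 4, 5]), (69214281, 29, [0, 1, 2, 3, 4, 5])]

theorem hR1 : ∀ r ∈ R1, num (SM r.1) = r.2.1 :=
  List.forall_mem_cons.2 ⟨M2105865.entry,
  List.forall_mem_cons.2 ⟨M2106377.entry,
  List.forall_mem_cons.2 ⟨M2109449.entry,
  List.forall_mem_cons.2 ⟨M2367497.entry,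
  List.forall_mem_cons.2 ⟨M2367505.entry,
  List.forall_mem_cons.2 ⟨M6684928.entry,
  List.forall_mem_cons.2 ⟨M10493992.entry,
  List.forall_mem_cons.2 ⟨M69214217.entry,
  List.forall_mem_cons.2 ⟨M69214225.entry,
  List.forall_mem_cons.2 ⟨M69214241.entry,
  List.forall_mem_cons.2 ⟨M2367513.entry,
  List.forall_mem_cons.2 ⟨M2368521.entry,
  List.forall_mem_cons.2 ⟨M2626570.entry,
  List.forall_mem_cons.2 ⟨M2630161.entry,
  List.forall_mem_cons.2 ⟨M2656416.entry,
  List.forall_mem_cons.2 ⟨M7086081.entry,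
  List.forall_mem_cons.2 ⟨M7209216.entry,
  List.forall_mem_cons.2 ⟨M10514440.entry,
  List.forall_mem_cons.2 ⟨M69214233.entry,
  List.forall_mem_cons.2 ⟨M69214281.entry,
  (fun _ h => absurd h List.not_mem_nil)⟩⟩⟩⟩⟩⟩⟩⟩⟩⟩⟩⟩⟩⟩⟩⟩⟩⟩⟩⟩

/-- part 2 of the table: mask, number, permutations giving the conjugates -/
def R2 : List (ℕ × ℕ × List ℕ) :=
  [(69214729, 12, [0, 1, 2, 3, 4, 5]), (69214737, 256, [0, 1, 3]),
   (69215241, 4, [0, 1, 2, 3, 4, 5]), (69216385, 1, [0]), (69218313, 24, [0, 1, 3]),
   (69476361, 65, [0, 2, 4]), (69476369, 18, [0, 1, 2, 3, 4, 5]), (73670657, 12, [0, 1, 3]),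
   (2110475, 39, [0, 1, 3]), (2392649, 33, [0, 2, 4]), (69214745, 1380, [0, 1, 2, 3, 4, 5]),
   (69218329, 264, [0, 1, 2, 3, 4, 5]), (69476377, 225, [0, 1, 2, 3, 4, 5]),
   (69476425, 240, [0, 1, 2, 3, 4, 5]), (69476617, 49, [0, 1, 2, 3, 4, 5]),
   (69476881, 734, [0, 1, 2, 3, 4, 5]), (69480961, 295, [0, 1, 2, 3, 4, 5]),
   (69739025, 18, [0, 1, 3]), (73670673, 106, [0, 1, 2, 3, 4, 5]), (74194945, 10, [0, 1, 3])]

theorem hR2 : ∀ r ∈ R2, num (SM r.1) = r.2.1 :=
  List.forall_mem_cons.2 ⟨M69214729.entry,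
  List.forall_mem_cons.2 ⟨M69214737.entry,
  List.forall_mem_cons.2 ⟨M69215241.entry,
  List.forall_mem_cons.2 ⟨M69216385.entry,
  List.forall_mem_cons.2 ⟨M69218313.entry,
  List.forall_mem_cons.2 ⟨M69476361.entry,
  List.forall_mem_cons.2 ⟨M69476369.entry,
  List.forall_mem_cons.2 ⟨M73670657.entry,
  List.forall_mem_cons.2 ⟨M2110475.entry,
  List.forall_mem_cons.2 ⟨M2392649.entry,
  List.forall_mem_cons.2 ⟨M69214745.entry,
  List.forall_mem_cons.2 ⟨M69218329.entry,
  List.forall_mem_cons.2 ⟨M69476377.entry,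
  List.forall_mem_cons.2 ⟨M69476425.entry,
  List.forall_mem_cons.2 ⟨M69476617.entry,
  List.forall_mem_cons.2 ⟨M69476881.entry,
  List.forall_mem_cons.2 ⟨M69480961.entry,
  List.forall_mem_cons.2 ⟨M69739025.entry,
  List.forall_mem_cons.2 ⟨M73670673.entry,
  List.forall_mem_cons.2 ⟨M74194945.entry,
  (fun _ h => absurd h List.not_mem_nil)⟩⟩⟩⟩⟩⟩⟩⟩⟩⟩⟩⟩⟩⟩⟩⟩⟩⟩⟩⟩

/-- part 3 of the table: mask, number, permutations giving the conjugates -/
def R3 : List (ℕ × ℕ × List ℕ) :=
  [(2634763, 13, [0, 1, 3]), (69215769, 80, [0, 1, 2, 3, 4, 5]), (69219339, 3, [0, 1, 3]),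
   (69476889, 8814, [0, 1, 2, 3, 4, 5]), (69476937, 66, [0, 2, 4]),
   (69477137, 21, [0, 1, 2, 3, 4, 5]), (69477641, 34, [0, 2, 4]),
   (69480969, 3246, [0, 1, 2, 3, 4, 5]), (69480977, 2680, [0, 1, 2, 3, 4, 5]),
   (70524953, 21, [0, 2, 4]), (73670681, 677, [0, 1, 2, 3, 4, 5]), (73671185, 10361, [0, 1, 3]),
   (73801985, 7, [0, 1, 3]), (77623305, 38, [0, 1, 2, 3, 4, 5]),
   (69477145, 119, [0, 1, 2, 3, 4, 5]), (69477913, 406, [0, 1, 2, 3, 4, 5]),
   (69480979, 209, [0, 1, 2, 3, 4, 5]), (69481233, 26, [0, 1, 2, 3, 4, 5]),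
   (69509705, 6, [0, 2, 4]), (69743627, 3, [0, 1, 3])]

theorem hR3 : ∀ r ∈ R3, num (SM r.1) = r.2.1 :=
  List.forall_mem_cons.2 ⟨M2634763.entry,
  List.forall_mem_cons.2 ⟨M69215769.entry,
  List.forall_mem_cons.2 ⟨M69219339.entry,
  List.forall_mem_cons.2 ⟨M69476889.entry,
  List.forall_mem_cons.2 ⟨M69476937.entry,
  List.forall_mem_cons.2 ⟨M69477137.entry,
  List.forall_mem_cons.2 ⟨M69477641.entry,
  List.forall_mem_cons.2 ⟨M69480969.entry,
  List.forall_mem_cons.2 ⟨M69480977.entry,
  List.forall_mem_cons.2 ⟨M70524953.entry,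
  List.forall_mem_cons.2 ⟨M73670681.entry,
  List.forall_mem_cons.2 ⟨M73671185.entry,
  List.forall_mem_cons.2 ⟨M73801985.entry,
  List.forall_mem_cons.2 ⟨M77623305.entry,
  List.forall_mem_cons.2 ⟨M69477145.entry,
  List.forall_mem_cons.2 ⟨M69477913.entry,
  List.forall_mem_cons.2 ⟨M69480979.entry,
  List.forall_mem_cons.2 ⟨M69481233.entry,
  List.forall_mem_cons.2 ⟨M69509705.entry,
  List.forall_mem_cons.2 ⟨M69743627.entry,
  (fun _ h => absurd h List.not_mem_nil)⟩⟩⟩⟩⟩⟩⟩⟩⟩⟩⟩⟩⟩⟩⟩⟩⟩⟩⟩⟩

/-- part 4 of the table: mask, number, permutations giving the conjugates -/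
def R4 : List (ℕ × ℕ × List ℕ) :=
  [(69773473, 2, [0]), (74195473, 233, [0, 1, 3]), (74326273, 6, [0, 1, 3]),
   (69478169, 8, [0, 1, 2, 3, 4, 5]), (69481235, 7, [0, 1, 2, 3, 4, 5]),
   (69481241, 1331, [0, 1, 2, 3, 4, 5]), (73672217, 4024, [0, 1, 2, 3, 4, 5]),
   (73802513, 53, [0, 1, 3]), (81817625, 270, [0, 1, 2]), (83107865, 7, [0, 2, 4]),
   (73802521, 78, [0, 1, 2, 3, 4, 5]), (74326801, 33, [0, 1, 3]), (81817657, 29, [0, 1, 2]),
   (70526809, 1, [0, 2, 4]), (73803545, 12, [0, 1, 2, 3, 4, 5]), (81995289, 1, [0, 1, 2, 3, 4, 5]),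
   (70559577, 1, [0, 2, 4]), (83306329, 1, [0, 2, 4]), (87308127, 75, [0, 2, 4]),
   (83339097, 1, [0, 2, 4])]

theorem hR4 : ∀ r ∈ R4, num (SM r.1) = r.2.1 :=
  List.forall_mem_cons.2 ⟨M69773473.entry,
  List.forall_mem_cons.2 ⟨M74195473.entry,
  List.forall_mem_cons.2 ⟨M74326273.entry,
  List.forall_mem_cons.2 ⟨M69478169.entry,
  List.forall_mem_cons.2 ⟨M69481235.entry,
  List.forall_mem_cons.2 ⟨M69481241.entry,
  List.forall_mem_cons.2 ⟨M73672217.entry,
  List.forall_mem_cons.2 ⟨M73802513.entry,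
  List.forall_mem_cons.2 ⟨M81817625.entry,
  List.forall_mem_cons.2 ⟨M83107865.entry,
  List.forall_mem_cons.2 ⟨M73802521.entry,
  List.forall_mem_cons.2 ⟨M74326801.entry,
  List.forall_mem_cons.2 ⟨M81817657.entry,
  List.forall_mem_cons.2 ⟨M70526809.entry,
  List.forall_mem_cons.2 ⟨M73803545.entry,
  List.forall_mem_cons.2 ⟨M81995289.entry,
  List.forall_mem_cons.2 ⟨M70559577.entry,
  List.forall_mem_cons.2 ⟨M83306329.entry,
  List.forall_mem_cons.2 ⟨M87308127.entry,
  List.forall_mem_cons.2 ⟨M83339097.entry,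
  (fun _ h => absurd h List.not_mem_nil)⟩⟩⟩⟩⟩⟩⟩⟩⟩⟩⟩⟩⟩⟩⟩⟩⟩⟩⟩⟩

/-- part 5 of the table: mask, number, permutations giving the conjugates -/
def R5 : List (ℕ × ℕ × List ℕ) :=
  [(87340895, 10, [0, 2, 4]), (133658463, 3, [0]), (133658495, 3, [0, 1, 2]), (133660639, 3, [0])]

theorem hR5 : ∀ r ∈ R5, num (SM r.1) = r.2.1 :=
  List.forall_mem_cons.2 ⟨M87340895.entry,
  List.forall_mem_cons.2 ⟨M133658463.entry,
  List.forall_mem_cons.2 ⟨M133658495.entry,
  List.forall_mem_cons.2 ⟨M133660639.entry,
  (fun _ h => absurd h List.not_mem_nil)⟩⟩⟩⟩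

/-- the table -/
def R : List (ℕ × ℕ × List ℕ) := R0 ++ (R1 ++ (R2 ++ (R3 ++ (R4 ++ (R5)))))

theorem hR : ∀ r ∈ R, num (SM r.1) = r.2.1 :=
  List.forall_mem_append.2 ⟨hR0, List.forall_mem_append.2 ⟨hR1, List.forall_mem_append.2 ⟨hR2, List.forall_mem_append.2 ⟨hR3, List.forall_mem_append.2 ⟨hR4, hR5⟩⟩⟩⟩⟩

/-- mask and number only -/
def TabL : List (ℕ × ℕ) :=
  [(2097152, 14232), (2097153, 735), (2129920, 53), (2097217, 7680), (2098184, 18), (2099328, 3),
   (2101249, 837), (2105345, 4), (2105376, 22), (2101257, 8177), (2101761, 14347), (2105353, 370),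
   (2105361, 4578), (2367489, 227), (2629633, 1), (7077888, 319), (10493960, 3013), (69214209, 1),
   (2102282, 555), (2105369, 14230), (2105865, 11826), (2106377, 64), (2109449, 1025),
   (2367497, 3418), (2367505, 2263), (6684928, 14), (10493992, 327), (69214217, 6), (69214225, 4),
   (69214241, 1), (2367513, 5215), (2368521, 596), (2626570, 166), (2630161, 100), (2656416, 1),
   (7086081, 35), (7209216, 10), (10514440, 42), (69214233, 39), (69214281, 29), (69214729, 12),
   (69214737, 256), (69215241, 4), (69216385, 1), (69218313, 24), (69476361, 65), (69476369, 18),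
   (73670657, 12), (2110475, 39), (2392649, 33), (69214745, 1380), (69218329, 264),
   (69476377, 225), (69476425, 240), (69476617, 49), (69476881, 734), (69480961, 295),
   (69739025, 18), (73670673, 106), (74194945, 10), (2634763, 13), (69215769, 80), (69219339, 3),
   (69476889, 8814), (69476937, 66), (69477137, 21), (69477641, 34), (69480969, 3246),
   (69480977, 2680), (70524953, 21), (73670681, 677), (73671185, 10361), (73801985, 7),
   (77623305, 38), (69477145, 119), (69477913, 406), (69480979, 209), (69481233, 26),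
   (69509705, 6), (69743627, 3), (69773473, 2), (74195473, 233), (74326273, 6), (69478169, 8),
   (69481235, 7), (69481241, 1331), (73672217, 4024), (73802513, 53), (81817625, 270),
   (83107865, 7), (73802521, 78), (74326801, 33), (81817657, 29), (70526809, 1), (73803545, 12),
   (81995289, 1), (70559577, 1), (83306329, 1), (87308127, 75), (83339097, 1), (87340895, 10),
   (133658463, 3), (133658495, 3), (133660639, 3)]

theorem TabL_eq : R.map (fun r => (r.1, r.2.1)) = TabL := by decide +kernel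

/-- all conjugates -/
def ExpL : List (ℕ × ℕ) :=
  [(2097152, 14232), (2097153, 735), (2105344, 735), (69206016, 735), (2129920, 53), (2097184, 53),
   (2621440, 53), (2097217, 7680), (2097665, 7680), (2121728, 7680), (2105360, 7680),
   (102760448, 7680), (70254592, 7680), (2098184, 18), (2359552, 18), (2101250, 18), (6422528, 18),
   (18874372, 18), (10551296, 18), (2099328, 3), (2101249, 837), (18874369, 837), (2105352, 837),
   (10493952, 837), (69468160, 837), (73400320, 837), (2105345, 4), (69206017, 4), (69214208, 4),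
   (2105376, 22), (69730304, 22), (2129921, 22), (2101257, 8177), (19136513, 8177),
   (2109448, 8177), (14688256, 8177), (86245376, 8177), (81788928, 8177), (2101761, 14347),
   (18874433, 14347), (2105368, 14347), (10510336, 14347), (70516736, 14347), (106954752, 14347),
   (2105353, 370), (69468161, 370), (2109441, 370), (73408512, 370), (85983233, 370),
   (77602816, 370), (2105361, 4578), (70254593, 4578), (2105857, 4578), (102768640, 4578),
   (69206081, 4578), (69230592, 4578), (2367489, 227), (69206025, 227), (6299649, 227),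
   (69218304, 227), (77594625, 227), (85991424, 227), (2629633, 1), (69206049, 1), (69246976, 1),
   (7077888, 319), (10485800, 319), (18911232, 319), (10493960, 3013), (73662464, 3013),
   (18878465, 3013), (69214209, 1), (2102282, 555), (19136772, 555), (14876672, 555),
   (2105369, 14230), (70516737, 14230), (2109953, 14230), (106962944, 14230), (85983297, 14230),
   (77619200, 14230), (2105865, 11826), (69468225, 11826), (2109457, 11826), (73424896, 11826),
   (87031809, 11826), (111157248, 11826), (2106377, 64), (69468417, 64), (2109443, 64),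
   (73539584, 64), (85983237, 64), (77668352, 64), (2109449, 1025), (86245377, 1025),
   (81797120, 1025), (2367497, 3418), (69468169, 3418), (6303745, 3418), (73412608, 3418),
   (94371841, 3418), (94380032, 3418), (2367505, 2263), (70254601, 2263), (6300161, 2263),
   (102772736, 2263), (77594689, 2263), (86007808, 2263), (6684928, 14), (10552328, 14),
   (18878470, 14), (10493992, 327), (74186752, 327), (18911233, 327), (69214217, 6), (69476353, 6),
   (69218305, 6), (73408513, 6), (85991425, 6), (77602817, 6), (69214225, 4), (70262785, 4),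
   (69214721, 4), (102768641, 4), (69214273, 4), (69230593, 4), (69214241, 1), (69738497, 1),
   (69246977, 1), (2367513, 5215), (70516745, 5215), (6304257, 5215), (106967040, 5215),
   (94371905, 5215), (94396416, 5215), (2368521, 596), (69468425, 596), (6303747, 596),
   (73543680, 596), (94371845, 596), (94445568, 596), (2626570, 166), (19136804, 166),
   (14909440, 166), (2630161, 100), (70254689, 100), (102817792, 100), (2656416, 1), (7086081, 35),
   (77594665, 35), (86028288, 35), (7209216, 10), (10552360, 10), (18911238, 10), (10514440, 42),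
   (123994112, 42), (18878537, 42), (83099648, 42), (19141121, 42), (14688280, 42), (69214233, 39),
   (70524929, 39), (69218817, 39), (106962945, 39), (85991489, 39), (77619201, 39), (69214281, 29),
   (69476865, 29), (69234689, 29), (73408529, 29), (119545857, 29), (78651393, 29), (69214729, 12),
   (69476417, 12), (69218321, 12), (73424897, 12), (87040001, 12), (111157249, 12),
   (69214737, 256), (70262849, 256), (102785025, 256), (69215241, 4), (69476609, 4), (69218307, 4),
   (73539585, 4), (85991429, 4), (77668353, 4), (69216385, 1), (69218313, 24), (86253569, 24),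
   (81797121, 24), (69476361, 65), (73412609, 65), (94380033, 65), (69476369, 18), (70262793, 18),
   (73409025, 18), (102772737, 18), (77602881, 18), (86007809, 18), (73670657, 12), (77602825, 12),
   (85995521, 12), (2110475, 39), (86245637, 39), (81993728, 39), (2392649, 33), (6320176, 33),
   (129499136, 33), (69214745, 1380), (70524993, 1380), (69218833, 1380), (106979329, 1380),
   (87040065, 1380), (111173633, 1380), (69218329, 264), (87302145, 264), (69218825, 264),
   (115351553, 264), (86253633, 264), (81813505, 264), (69476377, 225), (70524937, 225),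
   (73413121, 225), (106967041, 225), (94380097, 225), (94396417, 225), (69476425, 240),
   (69476873, 240), (73428993, 240), (73412625, 240), (127934465, 240), (95428609, 240),
   (69476617, 49), (69477385, 49), (73543681, 49), (73412611, 49), (94445569, 49), (94380037, 49),
   (69476881, 734), (70262857, 734), (73409041, 734), (102789121, 734), (78651457, 734),
   (119562241, 734), (69480961, 295), (85991497, 295), (73408537, 295), (77623297, 295),
   (78913537, 295), (123740161, 295), (69739025, 18), (70262881, 18), (102817793, 18),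
   (73670673, 106), (78651401, 106), (73671169, 106), (119549953, 106), (77602889, 106),
   (86011905, 106), (74194945, 10), (77602857, 10), (86028289, 10), (2634763, 13), (86245669, 13),
   (82026496, 13), (69215769, 80), (70525249, 80), (69218835, 80), (107110401, 80), (87040069, 80),
   (111239169, 80), (69219339, 3), (86253829, 3), (81993729, 3), (69476889, 8814),
   (70525001, 8814), (73413137, 8814), (106983425, 8814), (95428673, 8814), (127950849, 8814),
   (69476937, 66), (73429009, 66), (128983041, 66), (69477137, 21), (70263881, 21), (73540113, 21),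
   (102789123, 21), (78716993, 21), (119562245, 21), (69477641, 34), (73543683, 34),
   (94445573, 34), (69480969, 3246), (86253641, 3246), (73412633, 3246), (81817601, 3246),
   (95690753, 3246), (132128769, 3246), (69480977, 2680), (87040073, 2680), (73409049, 2680),
   (111177729, 2680), (78913601, 2680), (123756545, 2680), (70524953, 21), (106967553, 21),
   (94396481, 21), (73670681, 677), (78913545, 677), (73675265, 677), (123744257, 677),
   (94380105, 677), (94400513, 677), (73671185, 10361), (78651465, 10361), (119566337, 10361),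
   (73801985, 7), (77669385, 7), (85995527, 7), (77623305, 38), (124002305, 38), (85995593, 38),
   (83107841, 38), (86258177, 38), (81797145, 38), (69477145, 119), (70526025, 119),
   (73544209, 119), (106983427, 119), (95494209, 119), (127950853, 119), (69477913, 406),
   (70525257, 406), (73413139, 406), (107114497, 406), (95428677, 406), (128016385, 406),
   (69480979, 209), (87040077, 209), (73410073, 209), (111243265, 209), (78913857, 209),
   (123887617, 209), (69481233, 26), (87041097, 26), (73540121, 26), (111177731, 26),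
   (78979137, 26), (123756549, 26), (69509705, 6), (73429041, 6), (129507329, 6), (69743627, 3),
   (86253861, 3), (82026497, 3), (69773473, 2), (74195473, 233), (78651497, 233), (119599105, 233),
   (74326273, 6), (77669417, 6), (86028295, 6), (69478169, 8), (70526281, 8), (73544211, 8),
   (107114499, 8), (95494213, 8), (128016389, 8), (69481235, 7), (87041101, 7), (73541145, 7),
   (111243267, 7), (78979393, 7), (123887621, 7), (69481241, 1331), (87303241, 1331),
   (73544217, 1331), (115372035, 1331), (95756353, 1331), (132145157, 1331), (73672217, 4024),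
   (78913865, 4024), (73675283, 4024), (123891713, 4024), (95428685, 4024), (128020481, 4024),
   (73802513, 53), (78718025, 53), (119566343, 53), (81817625, 270), (133439489, 270),
   (86258249, 270), (83107865, 7), (124006913, 7), (94400585, 7), (73802521, 78), (78980169, 78),
   (73806609, 78), (123760647, 78), (95495241, 78), (127954951, 78), (74326801, 33),
   (78718057, 33), (119599111, 33), (81817657, 29), (133963777, 29), (86291017, 29), (70526809, 1),
   (107115027, 1), (129065029, 1), (73803545, 12), (78980425, 12), (73806611, 12), (123891719, 12),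
   (95495245, 12), (128020487, 12), (81995289, 1), (83304769, 1), (86258455, 1), (124150021, 1),
   (87045199, 1), (111244299, 1), (70559577, 1), (107115059, 1), (129589317, 1), (83306329, 1),
   (124154647, 1), (129070159, 1), (87308127, 75), (115570203, 75), (133652805, 75), (83339097, 1),
   (124154679, 1), (129594447, 1), (87340895, 10), (115570235, 10), (134177093, 10),
   (133658463, 3), (133658495, 3), (134182751, 3), (133691231, 3), (133660639, 3)]

theorem E_eq : expand R = ExpL := by decide +kernel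

theorem okO : chkO R = true := by decide +kernel

theorem ndE : nd ExpL = true := by decide +kernel

theorem lenE : ExpL.length = 443 := by decide +kernel

theorem sumE : (ExpL.map Prod.snd).sum = 662888 := by decide +kernel

theorem subE : subL L24 ExpL = true := by decide +kernel

theorem hL24 : ∀ e ∈ L24, num (SM e.1) = e.2 := by
  intro e he
  have h := subL_sound subE e he
  rw [← E_eq] at h
  exact table_num hR okO e h

theorem all_num : (∀ r ∈ R, ∀ σ : Equiv.Perm (Fin 3), num (cjS σ (SM r.1)) = r.2.1) ∧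
    {S : Set (Fin 3 → Fin 3) | ∃ r ∈ R, ∃ σ : Equiv.Perm (Fin 3),
      S = cjS σ (SM r.1)}.ncard = 443 ∧
    {F : Set Op | IsAlg F ∧ ∃ r ∈ R, ∃ σ : Equiv.Perm (Fin 3),
      unaryPart F = cjS σ (SM r.1)}.ncard = 662888 :=
  table_count hR okO (by rw [E_eq]; exact ndE) (by rw [E_eq]; exact lenE)
    (by rw [E_eq]; exact sumE)

theorem ex_TabL (P : ℕ → Prop) : (∃ r ∈ TabL, P r.1) ↔ ∃ r ∈ R, P r.1 := by
  rw [← TabL_eq]
  constructor
  · rintro ⟨r, hr, h⟩
    obtain ⟨a, ha, rfl⟩ := List.mem_map.1 hr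
    exact ⟨a, ha, h⟩
  · rintro ⟨r, hr, h⟩
    exact ⟨_, List.mem_map.2 ⟨r, hr, rfl⟩, h⟩

theorem final :
    {F : Set Op | IsAlg F ∧ ∀ f ∈ F, ∀ x, f x x = x}.ncard = 14232 ∧
    {F : Set Op | IsAlg F ∧ ∀ m ∈ unaryPart F,
      (Function.Injective m ∨ ∃ c, m = fun _ => c)}.ncard = 16688 ∧
    (∀ r ∈ TabL, ∀ σ : Equiv.Perm (Fin 3), num (cjS σ (SM r.1)) = r.2) ∧
    {S : Set (Fin 3 → Fin 3) | ∃ r ∈ TabL, ∃ σ : Equiv.Perm (Fin 3),
      S = cjS σ (SM r.1)}.ncard = 443 ∧
    {F : Set Op | IsAlg F ∧ ∃ r ∈ TabL, ∃ σ : Equiv.Perm (Fin 3),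
      unaryPart F = cjS σ (SM r.1)}.ncard = 662888 := by
  obtain ⟨h1, h2, h3⟩ := all_num
  refine ⟨idem_card M2097152.entry, perm_card hL24, ?_, ?_, ?_⟩
  · intro r hr σ
    rw [← TabL_eq] at hr
    obtain ⟨a, ha, rfl⟩ := List.mem_map.1 hr
    exact h1 a ha σ
  · rw [← h2]
    congr 1
    ext S
    exact ex_TabL (fun k => ∃ σ : Equiv.Perm (Fin 3), S = cjS σ (SM k))
  · rw [← h3]
    congr 1
    ext F
    exact and_congr Iff.rfl
      (ex_TabL (fun k => ∃ σ : Equiv.Perm (Fin 3), unaryPart F = cjS σ (SM k)))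

end H78.BA
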