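import Pool.Agent.H78.BA.Desc3

/-! No relation of the lists can be left out. -/

namespace H78.BA

set_option maxHeartbeats 400000

/-- no coded relation defines an intersection of others -/
def Irr (n : ℕ) (R : List (ℕ × ℕ)) : Prop :=
  ∀ y ∈ R, ∀ Γ : List (ℕ × ℕ), Γ ⊆ R → y ∉ Γ → Pol (SM n) Γ ≠ Pol (SM n) [y]

theorem al2_zip {α β : Type} {p : α → β → Bool} : ∀ (l : List α) (t : List β),
    al2 p l t = true → (∀ q ∈ l.zip t, p q.1 q.2 = true) ∧ ∀ b ∈ t, ∃ a, (a, b) ∈ l.zip t := by
  intro l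
  induction l with
  | nil =>
    intro t h
    cases t with
    | nil => exact ⟨by simp, by simp⟩
    | cons y t => exact absurd h (by simp [al2])
  | cons x l ih =>
    intro t h
    cases t with
    | nil => exact absurd h (by simp [al2])
    | cons y t =>
      have h' : cond (p x y) (al2 p l t) false = true := h
      obtain ⟨h1, h2⟩ := cond_false h'
      obtain ⟨h3, h4⟩ := ih t h2
      rw [List.zip_cons_cons]
      constructor
      · intro q hq
        rcases List.mem_cons.1 hq with rfl | hq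
        · exact h1
        · exact h3 q hq
      · intro b hb
        rcases List.mem_cons.1 hb with rfl | hb
        · exact ⟨x, List.mem_cons_self⟩
        · obtain ⟨a, ha⟩ := h4 b hb
          exact ⟨a, List.mem_cons_of_mem _ ha⟩

/-- equality of codes -/
def eqP (y z : ℕ × ℕ) : Bool := cond (Nat.beq y.1 z.1) (Nat.beq y.2 z.2) false

theorem eqP_iff {y z : ℕ × ℕ} (h : eqP y z = true) : y = z := by
  obtain ⟨h1, h2⟩ := cond_false h
  exact Prod.ext (Nat.eq_of_beq_eq_true h1) (Nat.eq_of_beq_eq_true h2)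

/-- intersection of the other masks which contain `Q` -/
noncomputable def upM (y : ℕ × ℕ) (Q AL : ℕ)
    (L : List ((ℕ × ℕ × Tr × List (List ℕ)) × (ℕ × ℕ))) : ℕ :=
  fr (fun q acc => cond (eqP y q.2) acc
    (cond (Nat.beq (Nat.land Q q.1.1) Q) (Nat.land acc q.1.1) acc)) AL L

theorem upM_bit (y : ℕ × ℕ) (Q AL i : ℕ) :
    ∀ L : List ((ℕ × ℕ × Tr × List (List ℕ)) × (ℕ × ℕ)),
      ((upM y Q AL L).testBit i = true → AL.testBit i = true ∧
        ∀ q ∈ L, eqP y q.2 = false → Nat.beq (Nat.land Q q.1.1) Q = true →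
          q.1.1.testBit i = true) := by
  intro L
  induction L with
  | nil => intro h; exact ⟨h, by simp⟩
  | cons q L ih =>
    intro h
    have h' : (cond (eqP y q.2) (upM y Q AL L)
      (cond (Nat.beq (Nat.land Q q.1.1) Q) (Nat.land (upM y Q AL L) q.1.1)
        (upM y Q AL L))).testBit i = true := h
    cases h1 : eqP y q.2
    · rw [h1] at h'
      cases h2 : Nat.beq (Nat.land Q q.1.1) Q
      · rw [h2] at h'
        obtain ⟨g1, g2⟩ := ih h'
        refine ⟨g1, fun q' hq' e1 e2 => ?_⟩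
        rcases List.mem_cons.1 hq' with rfl | hq'
        · rw [h2] at e2; exact absurd e2 (by simp)
        · exact g2 q' hq' e1 e2
      · rw [h2] at h'
        have h3 : ((upM y Q AL L) &&& q.1.1).testBit i = true := h'
        rw [Nat.testBit_and, Bool.and_eq_true] at h3
        obtain ⟨g1, g2⟩ := ih h3.1
        refine ⟨g1, fun q' hq' e1 e2 => ?_⟩
        rcases List.mem_cons.1 hq' with rfl | hq'
        · exact h3.2
        · exact g2 q' hq' e1 e2
    · rw [h1] at h'
      obtain ⟨g1, g2⟩ := ih h'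
      refine ⟨g1, fun q' hq' e1 e2 => ?_⟩
      rcases List.mem_cons.1 hq' with rfl | hq'
      · rw [h1] at e1; exact absurd e1 (by simp)
      · exact g2 q' hq' e1 e2

/-- check that no relation is redundant -/
noncomputable def chkI (L : List ((ℕ × ℕ × Tr × List (List ℕ)) × (ℕ × ℕ))) (AL : ℕ) :
    Bool :=
  al (fun q => st (Nat.land AL q.1.1) fun Q => st (upM q.2 Q AL L) fun w =>
    cond (Nat.beq (Nat.land w Q) w) false true) L

theorem land_eq_of {a b : ℕ} (h : ∀ i, a.testBit i = true → b.testBit i = true) :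
    Nat.beq (Nat.land a b) a = true := by
  rw [Nat.beq_eq]
  apply Nat.eq_of_testBit_eq
  intro i
  change (a &&& b).testBit i = _
  rw [Nat.testBit_and]
  cases h1 : a.testBit i
  · rfl
  · rw [h i h1]; rfl

theorem irr_of {d : Dat} {mask : ℕ} {R : List (ℕ × ℕ)} (hA : chkA d = true)
    (hV : VOk d.MJ (729 * d.k) d.VT)
    (hAL : Nat.beq d.AL (polM d.VT d.full d.rM) = true)
    (hP : chkP d.VT d.full d.rels = true) (hX : chkX d = true)
    (hM : mt d.rM 3 mask = true) (hR : chkR d.rels R = true)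
    (hI : chkI (d.rels.zip R) d.AL = true) : Irr mask R := by
  have A := chkA_sound hA
  obtain ⟨z1, z2⟩ := al2_zip _ _ hR
  have hlt : ∀ i, d.AL.testBit i = true → i < 729 * d.k := by
    intro i hi
    exact (full_bit A.hf i).1 (land_beq A.hA2 hi)
  have hM' : ∀ f : Op, PresL d.rM (enc f) ↔ Pres f (SM mask) := by
    intro f
    rw [pres_iff hM f, rel3]
  have henc : ∀ i, i < 729 * d.k → enc (dec (cod d.MJ i)) = cod d.MJ i := by
    intro i hi
    rw [enc_dec (cod_lt A.pt hi)]
  have hrel : ∀ q ∈ d.rels.zip R, ∀ i, i < 729 * d.k →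
      (q.1.1.testBit i = true ↔ Pres (dec (cod d.MJ i)) (rel q.2.1 q.2.2)) := by
    intro q hq i hi
    have hx : q.1 ∈ d.rels := (List.of_mem_zip (a := q.1) (b := q.2) hq).1
    rw [rel_bit hA hV hP hX hx hi, ← pres_iff (z1 q hq), henc i hi]
  have hS : ∀ i, i < 729 * d.k →
      (d.AL.testBit i = true ↔ Pres (dec (cod d.MJ i)) (SM mask)) := by
    intro i hi
    rw [AL_bit hA hV hAL hi, ← hM', henc i hi]
  intro y hy Γ hΓ hyΓ heq
  obtain ⟨x, hxy⟩ := z2 y hy
  have h1 := al_iff hI _ hxy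
  rw [st_eq, st_eq] at h1
  have h2 : Nat.beq (Nat.land (upM y (Nat.land d.AL x.1) d.AL (d.rels.zip R))
      (Nat.land d.AL x.1)) (upM y (Nat.land d.AL x.1) d.AL (d.rels.zip R)) ≠ true := by
    intro h
    have h1' : cond (Nat.beq (Nat.land (upM y (Nat.land d.AL x.1) d.AL (d.rels.zip R))
      (Nat.land d.AL x.1)) (upM y (Nat.land d.AL x.1) d.AL (d.rels.zip R))) false true
        = true := h1
    rw [h] at h1'
    exact absurd h1' (by simp)
  have h3 : ∃ i, (upM y (Nat.land d.AL x.1) d.AL (d.rels.zip R)).testBit i = true ∧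
      (Nat.land d.AL x.1).testBit i ≠ true := by
    by_contra hc
    push Not at hc
    exact h2 (land_eq_of hc)
  obtain ⟨i, hi1, hi2⟩ := h3
  obtain ⟨g1, g2⟩ := upM_bit _ _ _ _ _ hi1
  have hi := hlt i g1
  have hQ : ∀ j, (Nat.land d.AL x.1).testBit j = true ↔
      d.AL.testBit j = true ∧ x.1.testBit j = true := by
    intro j
    change (d.AL &&& x.1).testBit j = true ↔ _
    rw [Nat.testBit_and, Bool.and_eq_true]
  have hf : dec (cod d.MJ i) ∈ Pol (SM mask) Γ := by
    refine ⟨(hS i hi).1 g1, fun z hz => ?_⟩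
    obtain ⟨x', hxz⟩ := z2 z (hΓ hz)
    rw [← hrel _ hxz i hi]
    apply g2 _ hxz
    · cases he : eqP y z
      · rfl
      · exact absurd hz (by rw [← eqP_iff he]; exact hyΓ)
    · apply land_eq_of
      intro j hj
      rw [hQ] at hj
      have hj' := hlt j hj.1
      have h5 : dec (cod d.MJ j) ∈ Pol (SM mask) [y] := by
        refine ⟨(hS j hj').1 hj.1, fun z' hz' => ?_⟩
        rw [List.mem_singleton.1 hz']
        exact (hrel _ hxy j hj').1 hj.2
      rw [← heq] at h5
      exact (hrel _ hxz j hj').2 (h5.2 z hz)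
  rw [heq] at hf
  apply hi2
  rw [hQ]
  exact ⟨g1, (hrel _ hxy i hi).2 (hf.2 y (List.mem_singleton.2 rfl))⟩

end H78.BA
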