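import Pool.Agent.H78.BA.G1
import Pool.Agent.H78.BA.Desc4

/-! Generated: description of the algebras by relations. -/

set_option linter.all false

namespace H78.BA.M69476617

open H78.BA

/-- the relations -/
def RL : List (ℕ × ℕ) :=
  [(3, 84942917), (3, 67118097), (4, 0x101001100010001100101), (4, 0x14000000003814000500d),
    (4, 0x145225140010005160345), (4, 0x145825140010005160345), (3, 67117067), (3, 68232259),
    (3, 83900973), (3, 87302509), (3, 85336901), (3, 93593965)]

theorem cX : chkX dat = true := by decide +kernel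
theorem cR : chkR dat.rels RL = true := by decide +kernel
theorem cM : mt dat.rM 3 69476617 = true := by decide +kernel
theorem hkd0 : ∀ x ∈ kn0, ∀ F ∈ Fam dat.k dat.MJ dat.JM dat.bs x.1 x.2.1, Dsc dat.k dat.MJ dat.P dat.AL F :=
  (List.forall_mem_cons.2 ⟨sub_desc ok.1 r0, (List.forall_mem_cons.2 ⟨sub_desc ok.1 r1, (fun _ hx => absurd hx List.not_mem_nil)⟩)⟩)
theorem hkd : ∀ x ∈ kn, ∀ F ∈ Fam dat.k dat.MJ dat.JM dat.bs x.1 x.2.1, Dsc dat.k dat.MJ dat.P dat.AL F :=
  hkd0
theorem descr : Full 69476617 RL :=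
  full_of cA cB (by decide +kernel) (chkV2_sound cV) cAL cP cPT cX cM cR (dat_desc cA ok hkd rt)
theorem cI : chkI (dat.rels.zip RL) dat.AL = true := by decide +kernel
theorem irr : Irr 69476617 RL := irr_of cA (chkV2_sound cV) cAL cP cX cM cR cI

end H78.BA.M69476617

namespace H78.BA.M70524953

open H78.BA

/-- the relations -/
def RL : List (ℕ × ℕ) :=
  [(3, 84942859), (3, 67383317), (4, 0x10400010003814010500d), (4, 0x100824100019000021305),
    (3, 83960899), (3, 67252997), (3, 70529085), (3, 68172589)]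

theorem cX : chkX dat = true := by decide +kernel
theorem cR : chkR dat.rels RL = true := by decide +kernel
theorem cM : mt dat.rM 3 70524953 = true := by decide +kernel
theorem hkd0 : ∀ x ∈ kn0, ∀ F ∈ Fam dat.k dat.MJ dat.JM dat.bs x.1 x.2.1, Dsc dat.k dat.MJ dat.P dat.AL F :=
  (List.forall_mem_cons.2 ⟨sub_desc ok.1 r0, (List.forall_mem_cons.2 ⟨sub_desc ok.1 r1, (fun _ hx => absurd hx List.not_mem_nil)⟩)⟩)
theorem hkd : ∀ x ∈ kn, ∀ F ∈ Fam dat.k dat.MJ dat.JM dat.bs x.1 x.2.1, Dsc dat.k dat.MJ dat.P dat.AL F :=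
  hkd0
theorem descr : Full 70524953 RL :=
  full_of cA cB (by decide +kernel) (chkV2_sound cV) cAL cP cPT cX cM cR (dat_desc cA ok hkd rt)
theorem cI : chkI (dat.rels.zip RL) dat.AL = true := by decide +kernel
theorem irr : Irr 70524953 RL := irr_of cA (chkV2_sound cV) cAL cP cX cM cR cI

end H78.BA.M70524953

namespace H78.BA.M69481233

open H78.BA

/-- the relations -/
def RL : List (ℕ × ℕ) :=
  [(4, 0x10100110001105910171b), (4, 0x10100100001b0c810271b), (3, 84948063), (3, 84948575),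
    (3, 68166731), (4, 0x10100110001b0d910371b), (4, 0x10100110001b0d1103511), (3, 67117067)]

theorem cX : chkX dat = true := by decide +kernel
theorem cR : chkR dat.rels RL = true := by decide +kernel
theorem cM : mt dat.rM 3 69481233 = true := by decide +kernel
theorem hkd0 : ∀ x ∈ kn0, ∀ F ∈ Fam dat.k dat.MJ dat.JM dat.bs x.1 x.2.1, Dsc dat.k dat.MJ dat.P dat.AL F :=
  (List.forall_mem_cons.2 ⟨sub_desc ok.1 r0, (List.forall_mem_cons.2 ⟨sub_desc ok.1 r1, (fun _ hx => absurd hx List.not_mem_nil)⟩)⟩)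
theorem hkd : ∀ x ∈ kn, ∀ F ∈ Fam dat.k dat.MJ dat.JM dat.bs x.1 x.2.1, Dsc dat.k dat.MJ dat.P dat.AL F :=
  hkd0
theorem descr : Full 69481233 RL :=
  full_of cA cB (by decide +kernel) (chkV2_sound cV) cAL cP cPT cX cM cR (dat_desc cA ok hkd rt)
theorem cI : chkI (dat.rels.zip RL) dat.AL = true := by decide +kernel
theorem irr : Irr 69481233 RL := irr_of cA (chkV2_sound cV) cAL cP cX cM cR cI

end H78.BA.M69481233

namespace H78.BA.M2634763

open H78.BA

/-- the relations -/
def RL : List (ℕ × ℕ) :=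
  [(3, 67120697), (3, 67124795), (3, 144147), (4, 0xc00c84d801b0db00361b), (2, 319), (2, 283)]

theorem cX : chkX dat = true := by decide +kernel
theorem cR : chkR dat.rels RL = true := by decide +kernel
theorem cM : mt dat.rM 3 2634763 = true := by decide +kernel
theorem hkd0 : ∀ x ∈ kn0, ∀ F ∈ Fam dat.k dat.MJ dat.JM dat.bs x.1 x.2.1, Dsc dat.k dat.MJ dat.P dat.AL F :=
  (List.forall_mem_cons.2 ⟨sub_desc ok.1 r0, (fun _ hx => absurd hx List.not_mem_nil)⟩)
theorem hkd : ∀ x ∈ kn, ∀ F ∈ Fam dat.k dat.MJ dat.JM dat.bs x.1 x.2.1, Dsc dat.k dat.MJ dat.P dat.AL F :=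
  hkd0
theorem descr : Full 2634763 RL :=
  full_of cA cB (by decide +kernel) (chkV2_sound cV) cAL cP cPT cX cM cR (dat_desc cA ok hkd rt)
theorem cI : chkI (dat.rels.zip RL) dat.AL = true := by decide +kernel
theorem irr : Irr 2634763 RL := irr_of cA (chkV2_sound cV) cAL cP cX cM cR cI

end H78.BA.M2634763

namespace H78.BA.M69476937

open H78.BA

/-- the relations -/
def RL : List (ℕ × ℕ) :=
  [(3, 68166929), (3, 67117295), (3, 68232575), (3, 117453183), (3, 68232303), (3, 117452911),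
    (3, 83915103), (3, 76555615), (3, 95862655), (3, 85327871), (4, 0x10000100001014100504f),
    (4, 0x100020100010010060317), (3, 68232271), (3, 67511063)]

theorem cX : chkX dat = true := by decide +kernel
theorem cR : chkR dat.rels RL = true := by decide +kernel
theorem cM : mt dat.rM 3 69476937 = true := by decide +kernel
theorem hkd0 : ∀ x ∈ kn0, ∀ F ∈ Fam dat.k dat.MJ dat.JM dat.bs x.1 x.2.1, Dsc dat.k dat.MJ dat.P dat.AL F :=
  (List.forall_mem_cons.2 ⟨sub_desc ok.1 r0, (fun _ hx => absurd hx List.not_mem_nil)⟩)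
theorem hkd : ∀ x ∈ kn, ∀ F ∈ Fam dat.k dat.MJ dat.JM dat.bs x.1 x.2.1, Dsc dat.k dat.MJ dat.P dat.AL F :=
  hkd0
theorem descr : Full 69476937 RL :=
  full_of cA cB (by decide +kernel) (chkV2_sound cV) cAL cP cPT cX cM cR (dat_desc cA ok hkd rt)
theorem cI : chkI (dat.rels.zip RL) dat.AL = true := by decide +kernel
theorem irr : Irr 69476937 RL := irr_of cA (chkV2_sound cV) cAL cP cX cM cR cI

end H78.BA.M69476937

namespace H78.BA.M7209216

open H78.BA

/-- the relations -/
def RL : List (ℕ × ℕ) :=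
  [(2, 501), (4, 0x100401004011050101411), (4, 0x10060300481b0c890261b), (3, 117471271),
    (4, 0x11b00000011b88802231b), (3, 67122187), (4, 0x100000000011050001411)]

theorem cX : chkX dat = true := by decide +kernel
theorem cR : chkR dat.rels RL = true := by decide +kernel
theorem cM : mt dat.rM 3 7209216 = true := by decide +kernel
theorem hkd0 : ∀ x ∈ kn0, ∀ F ∈ Fam dat.k dat.MJ dat.JM dat.bs x.1 x.2.1, Dsc dat.k dat.MJ dat.P dat.AL F :=
  (List.forall_mem_cons.2 ⟨sub_desc ok.1 r0, (fun _ hx => absurd hx List.not_mem_nil)⟩)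
theorem hkd : ∀ x ∈ kn, ∀ F ∈ Fam dat.k dat.MJ dat.JM dat.bs x.1 x.2.1, Dsc dat.k dat.MJ dat.P dat.AL F :=
  hkd0
theorem descr : Full 7209216 RL :=
  full_of cA cB (by decide +kernel) (chkV2_sound cV) cAL cP cPT cX cM cR (dat_desc cA ok hkd rt)
theorem cI : chkI (dat.rels.zip RL) dat.AL = true := by decide +kernel
theorem irr : Irr 7209216 RL := irr_of cA (chkV2_sound cV) cAL cP cX cM cR cI

end H78.BA.M7209216

namespace H78.BA.M77623305

open H78.BA

/-- the relations -/
def RL : List (ℕ × ℕ) :=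
  [(3, 109060107), (3, 104866067), (3, 72426769), (3, 113254491), (3, 113254655), (3, 106505619),
    (4, 0x190480000010002592597), (3, 114893883), (3, 72426513), (3, 113475131), (3, 71377937)]

theorem cX : chkX dat = true := by decide +kernel
theorem cR : chkR dat.rels RL = true := by decide +kernel
theorem cM : mt dat.rM 3 77623305 = true := by decide +kernel
theorem hkd0 : ∀ x ∈ kn0, ∀ F ∈ Fam dat.k dat.MJ dat.JM dat.bs x.1 x.2.1, Dsc dat.k dat.MJ dat.P dat.AL F :=
  (List.forall_mem_cons.2 ⟨sub_desc ok.1 r0, (List.forall_mem_cons.2 ⟨sub_desc ok.1 r1, (fun _ hx => absurd hx List.not_mem_nil)⟩)⟩)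
theorem hkd : ∀ x ∈ kn, ∀ F ∈ Fam dat.k dat.MJ dat.JM dat.bs x.1 x.2.1, Dsc dat.k dat.MJ dat.P dat.AL F :=
  hkd0
theorem descr : Full 77623305 RL :=
  full_of cA cB (by decide +kernel) (chkV2_sound cV) cAL cP cPT cX cM cR (dat_desc cA ok hkd rt)
theorem cI : chkI (dat.rels.zip RL) dat.AL = true := by decide +kernel
theorem irr : Irr 77623305 RL := irr_of cA (chkV2_sound cV) cAL cP cX cM cR cI

end H78.BA.M77623305

namespace H78.BA.M2110475

open H78.BA

/-- the relations -/
def RL : List (ℕ × ℕ) :=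
  [(3, 13079), (3, 10041), (3, 67120697), (3, 67124795), (3, 179771), (4, 0x3803b0f800363b),
    (2, 319), (3, 226847), (3, 13075), (2, 383), (2, 283), (3, 117470783), (2, 447), (2, 351),
    (2, 443)]

theorem cX : chkX dat = true := by decide +kernel
theorem cR : chkR dat.rels RL = true := by decide +kernel
theorem cM : mt dat.rM 3 2110475 = true := by decide +kernel
theorem hkd0 : ∀ x ∈ kn0, ∀ F ∈ Fam dat.k dat.MJ dat.JM dat.bs x.1 x.2.1, Dsc dat.k dat.MJ dat.P dat.AL F :=
  (List.forall_mem_cons.2 ⟨sub_desc ok.1 r0, (List.forall_mem_cons.2 ⟨sub_desc ok.1 r1, (fun _ hx => absurd hx List.not_mem_nil)⟩)⟩)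
theorem hkd : ∀ x ∈ kn, ∀ F ∈ Fam dat.k dat.MJ dat.JM dat.bs x.1 x.2.1, Dsc dat.k dat.MJ dat.P dat.AL F :=
  hkd0
theorem descr : Full 2110475 RL :=
  full_of cA cB (by decide +kernel) (chkV2_sound cV) cAL cP cPT cX cM cR (dat_desc cA ok hkd rt)
theorem cI : chkI (dat.rels.zip RL) dat.AL = true := by decide +kernel
theorem irr : Irr 2110475 RL := irr_of cA (chkV2_sound cV) cAL cP cX cM cR cI

end H78.BA.M2110475

namespace H78.BA.M69214737

open H78.BA

/-- the relations -/
def RL : List (ℕ × ℕ) :=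
  [(4, 0x10000000001905810371b), (4, 0x10000000001b0c810371b), (4, 0x10000000001b0d810171b),
    (4, 0x10000000001b0d8103719), (4, 0x1000000000130d810371b), (4, 0x10000000001b0d010371b),
    (4, 0x10000000001b0d810271b), (4, 0x10000000001b0d8103513)]

theorem cX : chkX dat = true := by decide +kernel
theorem cR : chkR dat.rels RL = true := by decide +kernel
theorem cM : mt dat.rM 3 69214737 = true := by decide +kernel
theorem hkd0 : ∀ x ∈ kn0, ∀ F ∈ Fam dat.k dat.MJ dat.JM dat.bs x.1 x.2.1, Dsc dat.k dat.MJ dat.P dat.AL F :=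
  (List.forall_mem_cons.2 ⟨sub_desc ok.1 r0, (List.forall_mem_cons.2 ⟨sub_desc ok.1 r1, (fun _ hx => absurd hx List.not_mem_nil)⟩)⟩)
theorem hkd : ∀ x ∈ kn, ∀ F ∈ Fam dat.k dat.MJ dat.JM dat.bs x.1 x.2.1, Dsc dat.k dat.MJ dat.P dat.AL F :=
  hkd0
theorem descr : Full 69214737 RL :=
  full_of cA cB (by decide +kernel) (chkV2_sound cV) cAL cP cPT cX cM cR (dat_desc cA ok hkd rt)
theorem cI : chkI (dat.rels.zip RL) dat.AL = true := by decide +kernel
theorem irr : Irr 69214737 RL := irr_of cA (chkV2_sound cV) cAL cP cX cM cR cI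

end H78.BA.M69214737

namespace H78.BA.M2367489

open H78.BA

/-- the relations -/
def RL : List (ℕ × ℕ) :=
  [(3, 17834241), (2, 245), (2, 275), (3, 26616133), (3, 68165733), (3, 73795), (3, 9233),
    (3, 8203), (3, 3416109), (2, 83), (2, 213), (2, 279), (3, 93724993), (2, 85), (3, 11804709),
    (3, 4988945), (3, 76947781), (3, 68165889), (2, 467), (2, 277), (3, 76554561), (2, 309)]

theorem cX : chkX dat = true := by decide +kernel
theorem cR : chkR dat.rels RL = true := by decide +kernel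
theorem cM : mt dat.rM 3 2367489 = true := by decide +kernel
theorem hkd0 : ∀ x ∈ kn0, ∀ F ∈ Fam dat.k dat.MJ dat.JM dat.bs x.1 x.2.1, Dsc dat.k dat.MJ dat.P dat.AL F :=
  (List.forall_mem_cons.2 ⟨sub_desc ok.1 r0, (List.forall_mem_cons.2 ⟨sub_desc ok.1 r1, (List.forall_mem_cons.2 ⟨sub_desc ok.1 r2, (fun _ hx => absurd hx List.not_mem_nil)⟩)⟩)⟩)
theorem hkd : ∀ x ∈ kn, ∀ F ∈ Fam dat.k dat.MJ dat.JM dat.bs x.1 x.2.1, Dsc dat.k dat.MJ dat.P dat.AL F :=
  hkd0
theorem descr : Full 2367489 RL :=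
  full_of cA cB (by decide +kernel) (chkV2_sound cV) cAL cP cPT cX cM cR (dat_desc cA ok hkd rt)
theorem cI : chkI (dat.rels.zip RL) dat.AL = true := by decide +kernel
theorem irr : Irr 2367489 RL := irr_of cA (chkV2_sound cV) cAL cP cX cM cR cI

end H78.BA.M2367489

namespace H78.BA.M73670673

open H78.BA

/-- the relations -/
def RL : List (ℕ × ℕ) :=
  [(3, 67269381), (4, 0x10000000493d948100105), (3, 76686089), (4, 0x1000000180380f9000025),
    (3, 67248899), (4, 0x113000000113000022313), (3, 67183683), (3, 117469239), (3, 67204677),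
    (3, 67239493), (4, 0x10000000493d960100105), (3, 67117067), (3, 67118097), (3, 67137589),
    (3, 76690185), (3, 117469223)]

theorem cX : chkX dat = true := by decide +kernel
theorem cR : chkR dat.rels RL = true := by decide +kernel
theorem cM : mt dat.rM 3 73670673 = true := by decide +kernel
theorem hkd0 : ∀ x ∈ kn0, ∀ F ∈ Fam dat.k dat.MJ dat.JM dat.bs x.1 x.2.1, Dsc dat.k dat.MJ dat.P dat.AL F :=
  (List.forall_mem_cons.2 ⟨sub_desc ok.1 r0, (List.forall_mem_cons.2 ⟨sub_desc ok.1 r1, (fun _ hx => absurd hx List.not_mem_nil)⟩)⟩)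
theorem hkd : ∀ x ∈ kn, ∀ F ∈ Fam dat.k dat.MJ dat.JM dat.bs x.1 x.2.1, Dsc dat.k dat.MJ dat.P dat.AL F :=
  hkd0
theorem descr : Full 73670673 RL :=
  full_of cA cB (by decide +kernel) (chkV2_sound cV) cAL cP cPT cX cM cR (dat_desc cA ok hkd rt)
theorem cI : chkI (dat.rels.zip RL) dat.AL = true := by decide +kernel
theorem irr : Irr 73670673 RL := irr_of cA (chkV2_sound cV) cAL cP cX cM cR cI

end H78.BA.M73670673

namespace H78.BA.M83107865

open H78.BA

/-- the relations -/
def RL : List (ℕ × ℕ) :=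
  [(3, 121905171), (3, 126885899), (3, 71594005)]

theorem cX : chkX dat = true := by decide +kernel
theorem cR : chkR dat.rels RL = true := by decide +kernel
theorem cM : mt dat.rM 3 83107865 = true := by decide +kernel
theorem hkd0 : ∀ x ∈ kn0, ∀ F ∈ Fam dat.k dat.MJ dat.JM dat.bs x.1 x.2.1, Dsc dat.k dat.MJ dat.P dat.AL F :=
  (List.forall_mem_cons.2 ⟨sub_desc ok.1 r0, (fun _ hx => absurd hx List.not_mem_nil)⟩)
theorem hkd : ∀ x ∈ kn, ∀ F ∈ Fam dat.k dat.MJ dat.JM dat.bs x.1 x.2.1, Dsc dat.k dat.MJ dat.P dat.AL F :=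
  hkd0
theorem descr : Full 83107865 RL :=
  full_of cA cB (by decide +kernel) (chkV2_sound cV) cAL cP cPT cX cM cR (dat_desc cA ok hkd rt)
theorem cI : chkI (dat.rels.zip RL) dat.AL = true := by decide +kernel
theorem irr : Irr 83107865 RL := irr_of cA (chkV2_sound cV) cAL cP cX cM cR cI

end H78.BA.M83107865

namespace H78.BA.M69476425

open H78.BA

/-- the relations -/
def RL : List (ℕ × ℕ) :=
  [(3, 68166929), (3, 68165905), (3, 68165889), (3, 67117135), (3, 76554589), (3, 68166933),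
    (4, 0x100020100010000060305), (3, 68559623), (3, 67117391), (3, 68232301), (3, 67511045),
    (3, 84163181), (4, 0x14000100003814100504d), (3, 85327685), (3, 83915101), (3, 68232263)]

theorem cX : chkX dat = true := by decide +kernel
theorem cR : chkR dat.rels RL = true := by decide +kernel
theorem cM : mt dat.rM 3 69476425 = true := by decide +kernel
theorem hkd0 : ∀ x ∈ kn0, ∀ F ∈ Fam dat.k dat.MJ dat.JM dat.bs x.1 x.2.1, Dsc dat.k dat.MJ dat.P dat.AL F :=
  (List.forall_mem_cons.2 ⟨sub_desc ok.1 r0, (List.forall_mem_cons.2 ⟨sub_desc ok.1 r1, (fun _ hx => absurd hx List.not_mem_nil)⟩)⟩)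
theorem hkd : ∀ x ∈ kn, ∀ F ∈ Fam dat.k dat.MJ dat.JM dat.bs x.1 x.2.1, Dsc dat.k dat.MJ dat.P dat.AL F :=
  hkd0
theorem descr : Full 69476425 RL :=
  full_of cA cB (by decide +kernel) (chkV2_sound cV) cAL cP cPT cX cM cR (dat_desc cA ok hkd rt)
theorem cI : chkI (dat.rels.zip RL) dat.AL = true := by decide +kernel
theorem irr : Irr 69476425 RL := irr_of cA (chkV2_sound cV) cAL cP cX cM cR cI

end H78.BA.M69476425

namespace H78.BA.M69477641

open H78.BA

/-- the relations -/
def RL : List (ℕ × ℕ) :=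
  [(3, 84942917), (3, 67122187), (4, 0x101001100010001100101), (4, 0x100000000011050001411),
    (4, 0x14000000001f1d800761f), (4, 0x14000000003b1d800761f), (4, 0x145225140010085160345),
    (4, 0x145825140010085160345), (3, 87303533), (3, 68236891), (3, 83902015), (3, 83916351),
    (3, 85336917), (3, 93594989)]

theorem cX : chkX dat = true := by decide +kernel
theorem cR : chkR dat.rels RL = true := by decide +kernel
theorem cM : mt dat.rM 3 69477641 = true := by decide +kernel
theorem hkd0 : ∀ x ∈ kn0, ∀ F ∈ Fam dat.k dat.MJ dat.JM dat.bs x.1 x.2.1, Dsc dat.k dat.MJ dat.P dat.AL F :=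
  (List.forall_mem_cons.2 ⟨sub_desc ok.1 r0, (List.forall_mem_cons.2 ⟨sub_desc ok.1 r1, (fun _ hx => absurd hx List.not_mem_nil)⟩)⟩)
theorem hkd : ∀ x ∈ kn, ∀ F ∈ Fam dat.k dat.MJ dat.JM dat.bs x.1 x.2.1, Dsc dat.k dat.MJ dat.P dat.AL F :=
  hkd0
theorem descr : Full 69477641 RL :=
  full_of cA cB (by decide +kernel) (chkV2_sound cV) cAL cP cPT cX cM cR (dat_desc cA ok hkd rt)
theorem cI : chkI (dat.rels.zip RL) dat.AL = true := by decide +kernel
theorem irr : Irr 69477641 RL := irr_of cA (chkV2_sound cV) cAL cP cX cM cR cI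

end H78.BA.M69477641

namespace H78.BA.M69215769

open H78.BA

/-- the relations -/
def RL : List (ℕ × ℕ) :=
  [(4, 0x1000000000130d8103719), (4, 0x100000000019058103513), (3, 67121939),
    (5, 0x400020000000000000000000000000361b20064060000000001809800361b),
    (4, 0x10000000001b09a00323b), (4, 0x10000000001a0d900362b),
    (5, 0x400020000000000000000000000000361b20068060000000001805800361b),
    (4, 0x10000000001b0d082161b), (4, 0x10000000001b0c810271b)]

theorem cX : chkX dat = true := by decide +kernel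
theorem cR : chkR dat.rels RL = true := by decide +kernel
theorem cM : mt dat.rM 3 69215769 = true := by decide +kernel
theorem hkd0 : ∀ x ∈ kn0, ∀ F ∈ Fam dat.k dat.MJ dat.JM dat.bs x.1 x.2.1, Dsc dat.k dat.MJ dat.P dat.AL F :=
  (List.forall_mem_cons.2 ⟨sub_desc ok.1 r0, (List.forall_mem_cons.2 ⟨sub_desc ok.1 r1, (fun _ hx => absurd hx List.not_mem_nil)⟩)⟩)
theorem hkd : ∀ x ∈ kn, ∀ F ∈ Fam dat.k dat.MJ dat.JM dat.bs x.1 x.2.1, Dsc dat.k dat.MJ dat.P dat.AL F :=
  hkd0
theorem descr : Full 69215769 RL :=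
  full_of cA cB (by decide +kernel) (chkV2_sound cV) cAL cP cPT cX cM cR (dat_desc cA ok hkd rt)
theorem cI : chkI (dat.rels.zip RL) dat.AL = true := by decide +kernel
theorem irr : Irr 69215769 RL := irr_of cA (chkV2_sound cV) cAL cP cX cM cR cI

end H78.BA.M69215769

namespace H78.BA.M10514440

open H78.BA

/-- the relations -/
def RL : List (ℕ × ℕ) :=
  [(3, 109060175), (3, 104866067), (3, 113254491), (3, 113254655), (3, 106505619), (3, 72426769),
    (4, 0x190480000010002592597), (2, 403), (3, 114893883), (3, 72426513), (2, 186), (3, 113475131)]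

theorem cX : chkX dat = true := by decide +kernel
theorem cR : chkR dat.rels RL = true := by decide +kernel
theorem cM : mt dat.rM 3 10514440 = true := by decide +kernel
theorem hkd0 : ∀ x ∈ kn0, ∀ F ∈ Fam dat.k dat.MJ dat.JM dat.bs x.1 x.2.1, Dsc dat.k dat.MJ dat.P dat.AL F :=
  (List.forall_mem_cons.2 ⟨sub_desc ok.1 r0, (List.forall_mem_cons.2 ⟨sub_desc ok.1 r1, (fun _ hx => absurd hx List.not_mem_nil)⟩)⟩)
theorem hkd : ∀ x ∈ kn, ∀ F ∈ Fam dat.k dat.MJ dat.JM dat.bs x.1 x.2.1, Dsc dat.k dat.MJ dat.P dat.AL F :=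
  hkd0
theorem descr : Full 10514440 RL :=
  full_of cA cB (by decide +kernel) (chkV2_sound cV) cAL cP cPT cX cM cR (dat_desc cA ok hkd rt)
theorem cI : chkI (dat.rels.zip RL) dat.AL = true := by decide +kernel
theorem irr : Irr 10514440 RL := irr_of cA (chkV2_sound cV) cAL cP cX cM cR cI

end H78.BA.M10514440

namespace H78.BA.M69476377

open H78.BA

/-- the relations -/
def RL : List (ℕ × ℕ) :=
  [(4, 0x10000000001809900002d), (3, 67122245), (3, 68166409), (4, 0x103000000013000022313),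
    (3, 67121173), (3, 68170505), (3, 67117827), (3, 67118097), (3, 67138309),
    (4, 0x10000000003814000500d), (4, 0x100824100019000021305), (3, 67188293), (3, 67122757),
    (3, 67117067), (3, 67183683), (3, 67252997), (3, 70529085), (3, 67123757)]

theorem cX : chkX dat = true := by decide +kernel
theorem cR : chkR dat.rels RL = true := by decide +kernel
theorem cM : mt dat.rM 3 69476377 = true := by decide +kernel
theorem hkd0 : ∀ x ∈ kn0, ∀ F ∈ Fam dat.k dat.MJ dat.JM dat.bs x.1 x.2.1, Dsc dat.k dat.MJ dat.P dat.AL F :=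
  (List.forall_mem_cons.2 ⟨sub_desc ok.1 r0, (List.forall_mem_cons.2 ⟨sub_desc ok.1 r1, (List.forall_mem_cons.2 ⟨sub_desc ok.1 r2, (List.forall_mem_cons.2 ⟨sub_desc ok.1 r3, (fun _ hx => absurd hx List.not_mem_nil)⟩)⟩)⟩)⟩)
theorem hkd : ∀ x ∈ kn, ∀ F ∈ Fam dat.k dat.MJ dat.JM dat.bs x.1 x.2.1, Dsc dat.k dat.MJ dat.P dat.AL F :=
  hkd0
theorem descr : Full 69476377 RL :=
  full_of cA cB (by decide +kernel) (chkV2_sound cV) cAL cP cPT cX cM cR (dat_desc cA ok hkd rt)
theorem cI : chkI (dat.rels.zip RL) dat.AL = true := by decide +kernel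
theorem irr : Irr 69476377 RL := irr_of cA (chkV2_sound cV) cAL cP cX cM cR cI

end H78.BA.M69476377
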