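import Pool.Agent.H78.BA.G10
import Pool.Agent.H78.BA.Desc4

/-! Generated: description of the algebras by relations. -/

set_option linter.all false

namespace H78.BA.M2367505

open H78.BA

/-- the relations -/
def RL : List (ℕ × ℕ) :=
  [(3, 1061643), (3, 17834763), (3, 83898423), (3, 68167451),
    (5, 0x4240000000020000004040000000003219000003301000000019088000119), (3, 12309), (3, 8963),
    (2, 255), (3, 68171545), (3, 9233), (2, 275), (3, 26621791), (3, 67122223), (3, 68171547),
    (3, 67121199), (2, 339), (3, 67121719), (4, 0x10400000001b00002331f),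
    (4, 0x10300000001b0c802271b), (4, 0x10300000001b09802331b), (2, 283), (4, 0x1b0d1100101),
    (2, 223), (4, 0x4400000001b0d802351b),
    (5, 0x24000000002000000400000000000361b0006c370000000001b09800361b),
    (5, 0x24000000002000000400000000000361b0006c370000000001b0d800321b),
    (5, 0x42400000000200000040000000000036130006c360000000001b0d800321b), (2, 287),
    (5, 0x424000000002000000400000000000361b00064360000000001b09800361b),
    (5, 0x400002400000000000000000000000301b00000000000002001805c00301f),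
    (4, 0x300000001b0d802331b), (4, 0x300000001b09802371b), (2, 95),
    (5, 0x24000100002000100514000000000361200064240100004001b090043757),
    (4, 0x980514001b09904375f), (4, 0x980514001b0d8043757), (3, 13509),
    (5, 0x2400010000200010051400000000036120006c240100104001b090043357),
    (4, 0x4400000001b0d002371b),
    (5, 0x24000000002000000400000000000361b0006c370000000001b0c800261b), (3, 17839899),
    (5, 0x42400000000200000040400000000036130006c360000000001b0d800321b),
    (5, 0x424000000002000000404000000000361b00064360000000001b09800361b),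
    (5, 0x2400000000200000040400000000036190004c360100000001b0d800371b),
    (5, 0x2400000000200000040400000000036130006c360100000001b0d800371b),
    (5, 0x24000000002000000404000000000361b00064360100000001b0d800371b), (3, 50607991),
    (4, 0x400000001b0d802331f), (4, 0x400000001b0c802371f), (3, 1062685), (3, 16791095),
    (3, 16790591), (3, 9713501), (3, 13381), (4, 0x500000001b0d802335f),
    (5, 0x24000000002000000404000000000361b0006c360100000001b09800371b),
    (5, 0x24000000002000000404000000000361b0006c360100000001b0c800271b),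
    (5, 0x24000000002000000404000000000361b0006c360100000001b0d800331b),
    (4, 0x500000001b0c802375f), (4, 0x1b0d0100105), (4, 0x400000001b0d002371f),
    (4, 0x400000001b0d802351f)]

theorem cX : chkX dat = true := by decide +kernel
theorem cR : chkR dat.rels RL = true := by decide +kernel
theorem cM : mt dat.rM 3 2367505 = true := by decide +kernel
theorem hkd0 : ∀ x ∈ kn0, ∀ F ∈ Fam dat.k dat.MJ dat.JM dat.bs x.1 x.2.1, Dsc dat.k dat.MJ dat.P dat.AL F :=
  (List.forall_mem_cons.2 ⟨sub_desc ok.1 r0, (List.forall_mem_cons.2 ⟨sub_desc ok.1 r1, (List.forall_mem_cons.2 ⟨sub_desc ok.1 r2, (List.forall_mem_cons.2 ⟨sub_desc ok.1 r3, (List.forall_mem_cons.2 ⟨sub_desc ok.1 r4, (List.forall_mem_cons.2 ⟨sub_desc ok.1 r5, (List.forall_mem_cons.2 ⟨sub_desc ok.1 r6, (List.forall_mem_cons.2 ⟨sub_desc ok.1 r7, (List.forall_mem_cons.2 ⟨sub_desc ok.1 r8, (List.forall_mem_cons.2 ⟨sub_desc ok.1 r9, (List.forall_mem_cons.2 ⟨sub_desc ok.1 r10, (List.forall_mem_cons.2 ⟨sub_desc ok.1 r11, (List.forall_mem_cons.2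 ⟨sub_desc ok.1 r12, (List.forall_mem_cons.2 ⟨sub_desc ok.1 r13, (List.forall_mem_cons.2 ⟨sub_desc ok.1 r14, (List.forall_mem_cons.2 ⟨sub_desc ok.1 r15, (List.forall_mem_cons.2 ⟨sub_desc ok.1 r16, (List.forall_mem_cons.2 ⟨sub_desc ok.1 r17, (List.forall_mem_cons.2 ⟨sub_desc ok.1 r18, (List.forall_mem_cons.2 ⟨sub_desc ok.1 r19, (fun _ hx => absurd hx List.not_mem_nil)⟩)⟩)⟩)⟩)⟩)⟩)⟩)⟩)⟩)⟩)⟩)⟩)⟩)⟩)⟩)⟩)⟩)⟩)⟩)⟩)
theorem hkd1 : ∀ x ∈ kn1, ∀ F ∈ Fam dat.k dat.MJ dat.JM dat.bs x.1 x.2.1, Dsc dat.k dat.MJ dat.P dat.AL F :=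
  (List.forall_mem_cons.2 ⟨sub_desc ok.1 r20, (List.forall_mem_cons.2 ⟨sub_desc ok.1 r21, (List.forall_mem_cons.2 ⟨sub_desc ok.1 r22, (List.forall_mem_cons.2 ⟨sub_desc ok.1 r23, (List.forall_mem_cons.2 ⟨sub_desc ok.1 r24, (List.forall_mem_cons.2 ⟨sub_desc ok.1 r25, (List.forall_mem_cons.2 ⟨sub_desc ok.1 r26, (List.forall_mem_cons.2 ⟨sub_desc ok.1 r27, (fun _ hx => absurd hx List.not_mem_nil)⟩)⟩)⟩)⟩)⟩)⟩)⟩)⟩)
theorem hkd : ∀ x ∈ kn, ∀ F ∈ Fam dat.k dat.MJ dat.JM dat.bs x.1 x.2.1, Dsc dat.k dat.MJ dat.P dat.AL F :=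
  List.forall_mem_append.2 ⟨hkd0, hkd1⟩
theorem descr : Full 2367505 RL :=
  full_of cA cB (by decide +kernel) (chkV2_sound cV) cAL cP cPT cX cM cR (dat_desc cA ok hkd rt)
theorem cI : chkI (dat.rels.zip RL) dat.AL = true := by decide +kernel
theorem irr : Irr 2367505 RL := irr_of cA (chkV2_sound cV) cAL cP cX cM cR cI

end H78.BA.M2367505
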