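import Pool.Agent.H78.BA.G11
import Pool.Agent.H78.BA.Desc4

/-! Generated: description of the algebras by relations. -/

set_option linter.all false

namespace H78.BA.M2105361

open H78.BA

/-- the relations -/
def RL : List (ℕ × ℕ) :=
  [(3, 1061643), (3, 1058587), (2, 339), (3, 8963), (3, 67121199), (2, 275), (2, 403),
    (3, 67122219), (3, 67121715), (4, 0x400000001b0c802371b),
    (5, 0x24000000002000000400000000000361b00064360000000001b0d800361b),
    (5, 0x24000000002000000400000000000361b0006c360000000001b09800361b),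
    (5, 0x24000000002000000400000000000361b0006c360000000001b0c800261b),
    (5, 0x24000000002000000400000000000361b0006c360000000001b0d800321b), (3, 1062681),
    (4, 0x400000001b0d802331b),
    (5, 0x2400000000200000040000000000036190004c360000000001b0d800361b),
    (5, 0x2400000000200000040000000000036130006c360000000001b0d800361b),
    (5, 0x20000000002000000000000000000361a0006c260000000001b0d800361b),
    (5, 0x20000000002000000000000000000361b0006c360000000001b0d8003419),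
    (5, 0x20000000002000000000000000000361b00068320000000001b0d800361b),
    (5, 0x20000000002000000000000000000361b0006c360000000001b0d0003613),
    (6, 0x8000000000000000000000000000008000000000000000000000000000000000000000000000000000000012090002412000000000090480012090000000000000000000000000000002412000482400000000012090002411),
    (2, 159), (5, 0x20000000002000000000000000000361b0006c340000000001b0d800361b)]

theorem cX : chkX dat = true := by decide +kernel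
theorem cR : chkR dat.rels RL = true := by decide +kernel
theorem cM : mt dat.rM 3 2105361 = true := by decide +kernel
theorem hkd0 : ∀ x ∈ kn0, ∀ F ∈ Fam dat.k dat.MJ dat.JM dat.bs x.1 x.2.1, Dsc dat.k dat.MJ dat.P dat.AL F :=
  (List.forall_mem_cons.2 ⟨sub_desc ok.1 r0, (List.forall_mem_cons.2 ⟨sub_desc ok.1 r1, (List.forall_mem_cons.2 ⟨sub_desc ok.1 r2, (List.forall_mem_cons.2 ⟨sub_desc ok.1 r3, (List.forall_mem_cons.2 ⟨sub_desc ok.1 r4, (List.forall_mem_cons.2 ⟨sub_desc ok.1 r5, (List.forall_mem_cons.2 ⟨sub_desc ok.1 r6, (List.forall_mem_cons.2 ⟨sub_desc ok.1 r7, (List.forall_mem_cons.2 ⟨sub_desc ok.1 r8, (List.forall_mem_cons.2 ⟨sub_desc ok.1 r9, (List.forall_mem_cons.2 ⟨sub_desc ok.1 r10, (List.forall_mem_cons.2 ⟨sub_desc ok.1 r11, (List.forall_mem_cons.2 ⟨sub_desc ok.1 r12, (List.forall_mem_cons.2 ⟨sub_desc ok.1 r13, (List.forall_mem_cons.2 ⟨sub_desc ok.1 r14, (List.forall_mem_cons.2 ⟨sub_desc ok.1 r15,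 (List.forall_mem_cons.2 ⟨sub_desc ok.1 r16, (List.forall_mem_cons.2 ⟨sub_desc ok.1 r17, (List.forall_mem_cons.2 ⟨sub_desc ok.1 r18, (List.forall_mem_cons.2 ⟨sub_desc ok.1 r19, (fun _ hx => absurd hx List.not_mem_nil)⟩)⟩)⟩)⟩)⟩)⟩)⟩)⟩)⟩)⟩)⟩)⟩)⟩)⟩)⟩)⟩)⟩)⟩)⟩)⟩)
theorem hkd1 : ∀ x ∈ kn1, ∀ F ∈ Fam dat.k dat.MJ dat.JM dat.bs x.1 x.2.1, Dsc dat.k dat.MJ dat.P dat.AL F :=
  (List.forall_mem_cons.2 ⟨sub_desc ok.1 r20, (List.forall_mem_cons.2 ⟨sub_desc ok.1 r21, (List.forall_mem_cons.2 ⟨sub_desc ok.1 r22, (List.forall_mem_cons.2 ⟨sub_desc ok.1 r23, (List.forall_mem_cons.2 ⟨sub_desc ok.1 r24, (List.forall_mem_cons.2 ⟨sub_desc ok.1 r25, (List.forall_mem_cons.2 ⟨sub_desc ok.1 r26, (List.forall_mem_cons.2 ⟨sub_desc ok.1 r27, (List.forall_mem_cons.2 ⟨sub_desc ok.1 r28, (List.forall_mem_cons.2 ⟨sub_desc ok.1 r29, (List.forall_mem_cons.2 ⟨sub_desc ok.1 r30, (List.forall_mem_cons.2 ⟨sub_desc ok.1 r31, (List.forall_mem_cons.2 ⟨sub_desc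 ok.1 r32, (List.forall_mem_cons.2 ⟨sub_desc ok.1 r33, (List.forall_mem_cons.2 ⟨sub_desc ok.1 r34, (List.forall_mem_cons.2 ⟨sub_desc ok.1 r35, (List.forall_mem_cons.2 ⟨sub_desc ok.1 r36, (List.forall_mem_cons.2 ⟨sub_desc ok.1 r37, (List.forall_mem_cons.2 ⟨sub_desc ok.1 r38, (List.forall_mem_cons.2 ⟨sub_desc ok.1 r39, (fun _ hx => absurd hx List.not_mem_nil)⟩)⟩)⟩)⟩)⟩)⟩)⟩)⟩)⟩)⟩)⟩)⟩)⟩)⟩)⟩)⟩)⟩)⟩)⟩)⟩)
theorem hkd2 : ∀ x ∈ kn2, ∀ F ∈ Fam dat.k dat.MJ dat.JM dat.bs x.1 x.2.1, Dsc dat.k dat.MJ dat.P dat.AL F :=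
  (List.forall_mem_cons.2 ⟨sub_desc ok.1 r40, (List.forall_mem_cons.2 ⟨sub_desc ok.1 r41, (List.forall_mem_cons.2 ⟨sub_desc ok.1 r42, (List.forall_mem_cons.2 ⟨sub_desc ok.1 r43, (List.forall_mem_cons.2 ⟨sub_desc ok.1 r44, (List.forall_mem_cons.2 ⟨sub_desc ok.1 r45, (fun _ hx => absurd hx List.not_mem_nil)⟩)⟩)⟩)⟩)⟩)⟩)
theorem hkd : ∀ x ∈ kn, ∀ F ∈ Fam dat.k dat.MJ dat.JM dat.bs x.1 x.2.1, Dsc dat.k dat.MJ dat.P dat.AL F :=
  List.forall_mem_append.2 ⟨hkd0, List.forall_mem_append.2 ⟨hkd1, hkd2⟩⟩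
theorem descr : Full 2105361 RL :=
  full_of cA cB (by decide +kernel) (chkV2_sound cV) cAL cP cPT cX cM cR (dat_desc cA ok hkd rt)
theorem cI : chkI (dat.rels.zip RL) dat.AL = true := by decide +kernel
theorem irr : Irr 2105361 RL := irr_of cA (chkV2_sound cV) cAL cP cX cM cR cI

end H78.BA.M2105361
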