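import Pool.Agent.H78.BA.G12
import Pool.Agent.H78.BA.Desc4

/-! Generated: description of the algebras by relations. -/

set_option linter.all false

namespace H78.BA.M2630161

open H78.BA

/-- the relations -/
def RL : List (ℕ × ℕ) :=
  [(4, 0x4911850921511), (4, 0x4119058103513), (4, 0x49138d8923719), (3, 67139623), (3, 67124795),
    (4, 0x1b00000011b88802231b), (2, 319),
    (6, 0xc84c00000000000000000000c00000080000000000004000000c000000000000000000000000000000000001b0d80034130000000000d04c001b0d800000000000000000000000000000361b00064160000000001905800361b),
    (4, 0x491b8c892271b), (5, 0x32136000000c000000000000000361b00064160000000001a09800361b),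
    (4, 0x401b0c810261b),
    (6, 0xc84c00000000000000000000c00000080000000000004000000c000000000000000000000000000000000001b0d800320b0000000000c82c001b0d800000000000000000000000000000361b00068260000000001a09800361b),
    (6, 0x840000000000000000000000000000800000000000040000000000000000000000000000000000000000001a09800261b0000000000986c001b0d800000000000000000000000000000361b0006c320000000001b0c800320b),
    (6, 0x840000000000000000000000000000800000000000040000000000000000000000000000000000000000001b0d80036190000000000d86400190580000000000000000000000000000034130004c36000000000130d800361b),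
    (6, 0x84000000000000000000000000000080000000000004000000000000000000000000000000000000000000130d800361b0000000000d86c001b0d800000000000000000000000000000361b0006c360000000001b0d8003619),
    (6, 0x840000000000000000000000000000800000000000040000000000000000000000000000000000000000001b0d800361b0000000000d86c001b0c800000000000000000000000000000261b0006c360000000001b0d800361b)]

theorem cX : chkX dat = true := by decide +kernel
theorem cR : chkR dat.rels RL = true := by decide +kernel
theorem cM : mt dat.rM 3 2630161 = true := by decide +kernel
theorem hkd0 : ∀ x ∈ kn0, ∀ F ∈ Fam dat.k dat.MJ dat.JM dat.bs x.1 x.2.1, Dsc dat.k dat.MJ dat.P dat.AL F :=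
  (List.forall_mem_cons.2 ⟨sub_desc ok.1 r0, (List.forall_mem_cons.2 ⟨sub_desc ok.1 r1, (fun _ hx => absurd hx List.not_mem_nil)⟩)⟩)
theorem hkd : ∀ x ∈ kn, ∀ F ∈ Fam dat.k dat.MJ dat.JM dat.bs x.1 x.2.1, Dsc dat.k dat.MJ dat.P dat.AL F :=
  hkd0
theorem descr : Full 2630161 RL :=
  full_of cA cB (by decide +kernel) (chkV2_sound cV) cAL cP cPT cX cM cR (dat_desc cA ok hkd rt)
theorem cI : chkI (dat.rels.zip RL) dat.AL = true := by decide +kernel
theorem irr : Irr 2630161 RL := irr_of cA (chkV2_sound cV) cAL cP cX cM cR cI

end H78.BA.M2630161
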