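import Pool.Agent.H78.BA.G13
import Pool.Agent.H78.BA.Desc4

/-! Generated: description of the algebras by relations. -/

set_option linter.all false

namespace H78.BA.M7077888

open H78.BA

/-- the relations -/
def RL : List (ℕ × ℕ) :=
  [(3, 130287), (3, 95311), (4, 0xd86da69b6db65b65b), (4, 0x1803f0bb00723f), (3, 78923),
    (3, 111819), (4, 0x8844261b0d864361b), (4, 0x4811050901411), (4, 0x1803e1bb007a2f), (3, 13323),
    (4, 0x1003f09900323f), (4, 0x4011050101411), (4, 0x4813058903419), (3, 117471271),
    (5, 0x44140005044008020000361b0006c360040100001b0d800361b), (4, 0x11050001411), (3, 30759),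
    (2, 255), (3, 256485), (4, 0x481b0c890261b), (4, 0x48190d0901613), (4, 0x401b0c810261b),
    (4, 0x40190d0101613), (4, 0x11b00000011b88802231b), (2, 283),
    (6, 0x190d000161300000000000000000000000000000000000000000000000000000000000000060300001b0d800361b0010100000c868000b09800000000000000000000004040000321a0002c260060300001b0d800361b),
    (5, 0x4c16000d064008020000361b0006c360040100001b0d800361b),
    (5, 0x6c32000986c008020000361b0006c360040100001b0d800361b), (2, 484), (3, 95839), (3, 79451),
    (2, 53), (4, 0x11b88802231b), (5, 0x6434000584c008020000361b0006c360040100001b0d800361b)]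

theorem cX : chkX dat = true := by decide +kernel
theorem cR : chkR dat.rels RL = true := by decide +kernel
theorem cM : mt dat.rM 3 7077888 = true := by decide +kernel
theorem hkd0 : ∀ x ∈ kn0, ∀ F ∈ Fam dat.k dat.MJ dat.JM dat.bs x.1 x.2.1, Dsc dat.k dat.MJ dat.P dat.AL F :=
  (List.forall_mem_cons.2 ⟨sub_desc ok.1 r0, (List.forall_mem_cons.2 ⟨sub_desc ok.1 r1, (List.forall_mem_cons.2 ⟨sub_desc ok.1 r2, (fun _ hx => absurd hx List.not_mem_nil)⟩)⟩)⟩)
theorem hkd : ∀ x ∈ kn, ∀ F ∈ Fam dat.k dat.MJ dat.JM dat.bs x.1 x.2.1, Dsc dat.k dat.MJ dat.P dat.AL F :=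
  hkd0
theorem descr : Full 7077888 RL :=
  full_of cA cB (by decide +kernel) (chkV2_sound cV) cAL cP cPT cX cM cR (dat_desc cA ok hkd rt)
theorem cI : chkI (dat.rels.zip RL) dat.AL = true := by decide +kernel
theorem irr : Irr 7077888 RL := irr_of cA (chkV2_sound cV) cAL cP cX cM cR cI

end H78.BA.M7077888
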