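import Pool.Agent.H78.BA.G16
import Pool.Agent.H78.BA.Desc4

/-! Generated: description of the algebras by relations. -/

set_option linter.all false

namespace H78.BA.M69476889

open H78.BA

/-- the relations -/
def RL : List (ℕ × ℕ) :=
  [(4, 0x10000000001b0d8103513), (4, 0x10000000001b0dc103719), (3, 68171545), (3, 67122967),
    (4, 0x10000000001b0dc10271b), (4, 0x10000000001b0cc10371b), (4, 0x10000000001905810371b),
    (3, 68166681), (4, 0x10000000001b0d010371f), (3, 67122927), (4, 0x103000000013000022313),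
    (3, 68167451), (3, 67121175), (4, 0x10000000001809900303f), (4, 0x1000000000130dc10371b),
    (4, 0x10000000001b0d810271b),
    (5, 0x40000000000000000000000000000026000004c2603000000013000022313), (3, 67141407),
    (3, 68171547), (4, 0x10000000001b0d810171f),
    (5, 0x4000000000000000000000000000002600000442603000000013000022713), (3, 67122895),
    (4, 0x1000000000180d900302f), (3, 67118097), (3, 67122767), (3, 67139391),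
    (4, 0x10000000001814000500f), (3, 67221087), (3, 67188447), (3, 67122783), (3, 117452847),
    (4, 0x10000000001b0d810271f), (4, 0x10000000001b0c810371f), (3, 67121951), (3, 67183691),
    (3, 70530623), (4, 0x10082410001b0d802371f), (3, 76693311), (3, 76560159), (3, 83898415),
    (3, 67117843), (3, 67254047)]

theorem cX : chkX dat = true := by decide +kernel
theorem cR : chkR dat.rels RL = true := by decide +kernel
theorem cM : mt dat.rM 3 69476889 = true := by decide +kernel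
theorem hkd0 : ∀ x ∈ kn0, ∀ F ∈ Fam dat.k dat.MJ dat.JM dat.bs x.1 x.2.1, Dsc dat.k dat.MJ dat.P dat.AL F :=
  (List.forall_mem_cons.2 ⟨sub_desc ok.1 r0, (List.forall_mem_cons.2 ⟨sub_desc ok.1 r1, (List.forall_mem_cons.2 ⟨sub_desc ok.1 r2, (List.forall_mem_cons.2 ⟨sub_desc ok.1 r3, (List.forall_mem_cons.2 ⟨sub_desc ok.1 r4, (List.forall_mem_cons.2 ⟨sub_desc ok.1 r5, (List.forall_mem_cons.2 ⟨sub_desc ok.1 r6, (List.forall_mem_cons.2 ⟨sub_desc ok.1 r7, (List.forall_mem_cons.2 ⟨sub_desc ok.1 r8, (List.forall_mem_cons.2 ⟨sub_desc ok.1 r9, (List.forall_mem_cons.2 ⟨sub_desc ok.1 r10, (List.forall_mem_cons.2 ⟨sub_desc ok.1 r11, (List.forall_mem_cons.2 ⟨sub_desc ok.1 r12, (List.forall_mem_cons.2 ⟨sub_desc ok.1 r13, (List.forall_mem_cons.2 ⟨sub_desc ok.1 r14, (List.forall_mem_cons.2 ⟨sub_desc ok.1 r15, (List.forall_mem_cons.2 ⟨sub_desc ok.1 r16, (List.forall_mem_cons.2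 ⟨sub_desc ok.1 r17, (List.forall_mem_cons.2 ⟨sub_desc ok.1 r18, (List.forall_mem_cons.2 ⟨sub_desc ok.1 r19, (fun _ hx => absurd hx List.not_mem_nil)⟩)⟩)⟩)⟩)⟩)⟩)⟩)⟩)⟩)⟩)⟩)⟩)⟩)⟩)⟩)⟩)⟩)⟩)⟩)⟩)
theorem hkd1 : ∀ x ∈ kn1, ∀ F ∈ Fam dat.k dat.MJ dat.JM dat.bs x.1 x.2.1, Dsc dat.k dat.MJ dat.P dat.AL F :=
  (List.forall_mem_cons.2 ⟨sub_desc ok.1 r20, (List.forall_mem_cons.2 ⟨sub_desc ok.1 r21, (List.forall_mem_cons.2 ⟨sub_desc ok.1 r22, (List.forall_mem_cons.2 ⟨sub_desc ok.1 r23, (List.forall_mem_cons.2 ⟨sub_desc ok.1 r24, (List.forall_mem_cons.2 ⟨sub_desc ok.1 r25, (List.forall_mem_cons.2 ⟨sub_desc ok.1 r26, (List.forall_mem_cons.2 ⟨sub_desc ok.1 r27, (List.forall_mem_cons.2 ⟨sub_desc ok.1 r28, (List.forall_mem_cons.2 ⟨sub_desc ok.1 r29, (List.forall_mem_cons.2 ⟨sub_desc ok.1 r30, (List.forall_mem_cons.2 ⟨sub_desc ok.1 r31, (List.forall_mem_cons.2 ⟨sub_desc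 ok.1 r32, (List.forall_mem_cons.2 ⟨sub_desc ok.1 r33, (List.forall_mem_cons.2 ⟨sub_desc ok.1 r34, (List.forall_mem_cons.2 ⟨sub_desc ok.1 r35, (List.forall_mem_cons.2 ⟨sub_desc ok.1 r36, (List.forall_mem_cons.2 ⟨sub_desc ok.1 r37, (List.forall_mem_cons.2 ⟨sub_desc ok.1 r38, (List.forall_mem_cons.2 ⟨sub_desc ok.1 r39, (fun _ hx => absurd hx List.not_mem_nil)⟩)⟩)⟩)⟩)⟩)⟩)⟩)⟩)⟩)⟩)⟩)⟩)⟩)⟩)⟩)⟩)⟩)⟩)⟩)⟩)
theorem hkd2 : ∀ x ∈ kn2, ∀ F ∈ Fam dat.k dat.MJ dat.JM dat.bs x.1 x.2.1, Dsc dat.k dat.MJ dat.P dat.AL F :=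
  (List.forall_mem_cons.2 ⟨sub_desc ok.1 r40, (List.forall_mem_cons.2 ⟨sub_desc ok.1 r41, (List.forall_mem_cons.2 ⟨sub_desc ok.1 r42, (List.forall_mem_cons.2 ⟨sub_desc ok.1 r43, (List.forall_mem_cons.2 ⟨sub_desc ok.1 r44, (List.forall_mem_cons.2 ⟨sub_desc ok.1 r45, (List.forall_mem_cons.2 ⟨sub_desc ok.1 r46, (List.forall_mem_cons.2 ⟨sub_desc ok.1 r47, (List.forall_mem_cons.2 ⟨sub_desc ok.1 r48, (List.forall_mem_cons.2 ⟨sub_desc ok.1 r49, (List.forall_mem_cons.2 ⟨sub_desc ok.1 r50, (List.forall_mem_cons.2 ⟨sub_desc ok.1 r51, (List.forall_mem_cons.2 ⟨sub_desc ok.1 r52, (List.forall_mem_cons.2 ⟨sub_desc ok.1 r53, (List.forall_mem_cons.2 ⟨sub_desc ok.1 r54, (List.forall_mem_cons.2 ⟨sub_desc ok.1 r55, (List.forall_mem_cons.2 ⟨sub_desc ok.1 r56, (List.forall_mem_cons.2 ⟨sub_desc ok.1 r57, (List.forall_mem_cons.2 ⟨sub_desc ok.1 r58, (List.forall_mem_cons.2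 ⟨sub_desc ok.1 r59, (fun _ hx => absurd hx List.not_mem_nil)⟩)⟩)⟩)⟩)⟩)⟩)⟩)⟩)⟩)⟩)⟩)⟩)⟩)⟩)⟩)⟩)⟩)⟩)⟩)⟩)
theorem hkd3 : ∀ x ∈ kn3, ∀ F ∈ Fam dat.k dat.MJ dat.JM dat.bs x.1 x.2.1, Dsc dat.k dat.MJ dat.P dat.AL F :=
  (List.forall_mem_cons.2 ⟨sub_desc ok.1 r60, (List.forall_mem_cons.2 ⟨sub_desc ok.1 r61, (List.forall_mem_cons.2 ⟨sub_desc ok.1 r62, (List.forall_mem_cons.2 ⟨sub_desc ok.1 r63, (List.forall_mem_cons.2 ⟨sub_desc ok.1 r64, (List.forall_mem_cons.2 ⟨sub_desc ok.1 r65, (List.forall_mem_cons.2 ⟨sub_desc ok.1 r66, (List.forall_mem_cons.2 ⟨sub_desc ok.1 r67, (List.forall_mem_cons.2 ⟨sub_desc ok.1 r68, (List.forall_mem_cons.2 ⟨sub_desc ok.1 r69, (List.forall_mem_cons.2 ⟨sub_desc ok.1 r70, (List.forall_mem_cons.2 ⟨sub_desc ok.1 r71, (List.forall_mem_cons.2 ⟨sub_desc ok.1 r72, (List.forall_mem_cons.2 ⟨sub_desc ok.1 r73, (List.forall_mem_cons.2 ⟨sub_desc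 ok.1 r74, (List.forall_mem_cons.2 ⟨sub_desc ok.1 r75, (List.forall_mem_cons.2 ⟨sub_desc ok.1 r76, (List.forall_mem_cons.2 ⟨sub_desc ok.1 r77, (List.forall_mem_cons.2 ⟨sub_desc ok.1 r78, (List.forall_mem_cons.2 ⟨sub_desc ok.1 r79, (fun _ hx => absurd hx List.not_mem_nil)⟩)⟩)⟩)⟩)⟩)⟩)⟩)⟩)⟩)⟩)⟩)⟩)⟩)⟩)⟩)⟩)⟩)⟩)⟩)⟩)
theorem hkd4 : ∀ x ∈ kn4, ∀ F ∈ Fam dat.k dat.MJ dat.JM dat.bs x.1 x.2.1, Dsc dat.k dat.MJ dat.P dat.AL F :=
  (List.forall_mem_cons.2 ⟨sub_desc ok.1 r80, (List.forall_mem_cons.2 ⟨sub_desc ok.1 r81, (List.forall_mem_cons.2 ⟨sub_desc ok.1 r82, (List.forall_mem_cons.2 ⟨sub_desc ok.1 r83, (List.forall_mem_cons.2 ⟨sub_desc ok.1 r84, (List.forall_mem_cons.2 ⟨sub_desc ok.1 r85, (List.forall_mem_cons.2 ⟨sub_desc ok.1 r86, (List.forall_mem_cons.2 ⟨sub_desc ok.1 r87, (List.forall_mem_cons.2 ⟨sub_desc ok.1 r88, (List.forall_mem_cons.2 ⟨sub_desc ok.1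 r89, (List.forall_mem_cons.2 ⟨sub_desc ok.1 r90, (List.forall_mem_cons.2 ⟨sub_desc ok.1 r91, (List.forall_mem_cons.2 ⟨sub_desc ok.1 r92, (List.forall_mem_cons.2 ⟨sub_desc ok.1 r93, (List.forall_mem_cons.2 ⟨sub_desc ok.1 r94, (fun _ hx => absurd hx List.not_mem_nil)⟩)⟩)⟩)⟩)⟩)⟩)⟩)⟩)⟩)⟩)⟩)⟩)⟩)⟩)⟩)
theorem hkd : ∀ x ∈ kn, ∀ F ∈ Fam dat.k dat.MJ dat.JM dat.bs x.1 x.2.1, Dsc dat.k dat.MJ dat.P dat.AL F :=
  List.forall_mem_append.2 ⟨hkd0, List.forall_mem_append.2 ⟨hkd1, List.forall_mem_append.2 ⟨hkd2, List.forall_mem_append.2 ⟨hkd3, hkd4⟩⟩⟩⟩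
theorem descr : Full 69476889 RL :=
  full_of cA cB (by decide +kernel) (chkV2_sound cV) cAL cP cPT cX cM cR (dat_desc cA ok hkd rt)
theorem cI : chkI (dat.rels.zip RL) dat.AL = true := by decide +kernel
theorem irr : Irr 69476889 RL := irr_of cA (chkV2_sound cV) cAL cP cX cM cR cI

end H78.BA.M69476889
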