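import Pool.Agent.H78.BA.G17
import Pool.Agent.H78.BA.Desc4

/-! Generated: description of the algebras by relations. -/

set_option linter.all false

namespace H78.BA.M2367513

open H78.BA

/-- the relations -/
def RL : List (ℕ × ℕ) :=
  [(5, 0x4240000000020000004040000000003219000003301000000019088000119), (3, 1061643),
    (4, 0x6400000001b0d002371b), (4, 0x1b0d1100101), (3, 9844573), (3, 17834763), (3, 68167451),
    (3, 68171545), (4, 0x4400000001b0d002371b), (3, 95301), (5, 0x361b000683644000000000000020301),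
    (3, 67122223), (3, 12309), (4, 0x1b0d0100105), (3, 50345023),
    (5, 0x24000100002000100514000000000361200064240100004001b09804375f),
    (4, 0x980514001b09904375f), (5, 0x201400000041001040000000002412000482400000040012091042253),
    (5, 0x2400010000200010051400000000036120006c240100104001b09804335f), (3, 8963),
    (5, 0x24000000002000000400000000000361b0006c370000000001b0d800321b),
    (5, 0x42400000000200000040000000000036130006c360000000001b0d800321b),
    (4, 0x10400000001b00002331f),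
    (5, 0x24000000002000000400000000000361b0006c370000000001b09800361b),
    (5, 0x424000000002000000400000000000361b00064360000000001b09800361b),
    (4, 0x10300000001b0c802271b), (4, 0x10300000001b09802331b), (4, 0x2400000001b0d0027f3f),
    (3, 16790591), (4, 0x984c24001b0d8263719), (3, 9713501), (4, 0x517f1d1140145),
    (4, 0x1b09900002d), (4, 0x1001b09904016d), (3, 17839899), (3, 9600829),
    (5, 0x24000000002000000400000000000361b0006c370000000001b0c800261b),
    (5, 0x42400000000202000042400000000032110000032000000000190c8000019), (3, 9233),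
    (4, 0x400000001b0d0023f1f),
    (5, 0x42400000000202000042400000000036130006c360000000001b0d800321b),
    (5, 0x424000000002020000424000000000361b00064360000000001b09800361b), (3, 78917),
    (5, 0x2400000000200000040400000000036190004c360100000001b0d800371b),
    (4, 0x300000001b0d802331b),
    (5, 0x2400000000200000040400000000036130006c360100000001b0d800371b),
    (5, 0x24000000002000000404000000000361b00064360100000001b0d800371b),
    (4, 0x300000001b09802371b), (3, 68171547), (3, 67121199), (3, 96069),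
    (4, 0x22514001b000023745), (4, 0x82514001b000023745), (3, 8203), (3, 1062685), (3, 9451325),
    (3, 95813), (2, 255), (3, 13381),
    (5, 0x24000000002020000424000000000361b0006c360900000001b8d800331b), (3, 79685), (3, 28701),
    (3, 145221), (3, 9711677), (3, 14893), (3, 130885), (2, 275), (4, 0x400000001b0d8023b1f),
    (4, 0x400000001b0c8023f1f), (4, 0x114914c00120914d24d3), (4, 0x500000001b0d802335f),
    (5, 0x24000000002000000404000000000361b0006c360100000001b09800371b),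
    (5, 0x24000000002000000404000000000361b0006c360100000001b0c800271b),
    (4, 0x500000001b0c802375f), (2, 339), (2, 283), (4, 0x3814000500d),
    (4, 0x534934c00120934d24d3),
    (5, 0x2400000000202000042400000000036130006c360000000001b0d800361b),
    (5, 0x24000000002020000424000000000361b00064360000000001b0d800361b),
    (5, 0x2400000000202000042400000000036190004c360000000001b0d800361b), (3, 79429), (3, 28770175),
    (2, 287), (4, 0x17f00000db45), (3, 7614525), (3, 3420221),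
    (5, 0x361b000683604000000000000020b05), (2, 223), (3, 74819),
    (5, 0x24000000002020000424000000000361b0006c360000000001b0c800261b),
    (5, 0x24000000002020000424000000000361b0006c360000000001b09800361b), (2, 95)]

theorem cX : chkX dat = true := by decide +kernel
theorem cR : chkR dat.rels RL = true := by decide +kernel
theorem cM : mt dat.rM 3 2367513 = true := by decide +kernel
theorem hkd0 : ∀ x ∈ kn0, ∀ F ∈ Fam dat.k dat.MJ dat.JM dat.bs x.1 x.2.1, Dsc dat.k dat.MJ dat.P dat.AL F :=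
  (List.forall_mem_cons.2 ⟨sub_desc ok.1 r0, (List.forall_mem_cons.2 ⟨sub_desc ok.1 r1, (List.forall_mem_cons.2 ⟨sub_desc ok.1 r2, (List.forall_mem_cons.2 ⟨sub_desc ok.1 r3, (List.forall_mem_cons.2 ⟨sub_desc ok.1 r4, (List.forall_mem_cons.2 ⟨sub_desc ok.1 r5, (List.forall_mem_cons.2 ⟨sub_desc ok.1 r6, (List.forall_mem_cons.2 ⟨sub_desc ok.1 r7, (List.forall_mem_cons.2 ⟨sub_desc ok.1 r8, (List.forall_mem_cons.2 ⟨sub_desc ok.1 r9, (List.forall_mem_cons.2 ⟨sub_desc ok.1 r10, (List.forall_mem_cons.2 ⟨sub_desc ok.1 r11, (List.forall_mem_cons.2 ⟨sub_desc ok.1 r12, (List.forall_mem_cons.2 ⟨sub_desc ok.1 r13, (List.forall_mem_cons.2 ⟨sub_desc ok.1 r14, (List.forall_mem_cons.2 ⟨sub_desc ok.1 r15, (List.forall_mem_cons.2 ⟨sub_desc ok.1 r16, (List.forall_mem_cons.2 ⟨sub_desc ok.1 r17, (List.forall_mem_cons.2 ⟨sub_desc ok.1 r18, (List.forall_mem_cons.2 ⟨sub_desc ok.1 r19, (fun _ hx => absurd hx List.not_mem_nil)⟩)⟩)⟩)⟩)⟩)⟩)⟩)⟩)⟩)⟩)⟩)⟩)⟩)⟩)⟩)⟩)⟩)⟩)⟩)⟩)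
theorem hkd1 : ∀ x ∈ kn1, ∀ F ∈ Fam dat.k dat.MJ dat.JM dat.bs x.1 x.2.1, Dsc dat.k dat.MJ dat.P dat.AL F :=
  (List.forall_mem_cons.2 ⟨sub_desc ok.1 r20, (List.forall_mem_cons.2 ⟨sub_desc ok.1 r21, (List.forall_mem_cons.2 ⟨sub_desc ok.1 r22, (List.forall_mem_cons.2 ⟨sub_desc ok.1 r23, (List.forall_mem_cons.2 ⟨sub_desc ok.1 r24, (List.forall_mem_cons.2 ⟨sub_desc ok.1 r25, (List.forall_mem_cons.2 ⟨sub_desc ok.1 r26, (List.forall_mem_cons.2 ⟨sub_desc ok.1 r27, (List.forall_mem_cons.2 ⟨sub_desc ok.1 r28, (List.forall_mem_cons.2 ⟨sub_desc ok.1 r29, (List.forall_mem_cons.2 ⟨sub_desc ok.1 r30, (List.forall_mem_cons.2 ⟨sub_desc ok.1 r31, (List.forall_mem_cons.2 ⟨sub_desc ok.1 r32, (List.forall_mem_cons.2 ⟨sub_desc ok.1 r33, (List.forall_mem_cons.2 ⟨sub_desc ok.1 r34, (List.forall_mem_cons.2 ⟨sub_desc ok.1 r35, (List.forall_mem_cons.2 ⟨sub_desc ok.1 r36, (List.forall_mem_cons.2 ⟨sub_desc ok.1 r37, (List.forall_mem_cons.2 ⟨sub_desc ok.1 r38, (List.forall_mem_cons.2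 ⟨sub_desc ok.1 r39, (fun _ hx => absurd hx List.not_mem_nil)⟩)⟩)⟩)⟩)⟩)⟩)⟩)⟩)⟩)⟩)⟩)⟩)⟩)⟩)⟩)⟩)⟩)⟩)⟩)⟩)
theorem hkd2 : ∀ x ∈ kn2, ∀ F ∈ Fam dat.k dat.MJ dat.JM dat.bs x.1 x.2.1, Dsc dat.k dat.MJ dat.P dat.AL F :=
  (List.forall_mem_cons.2 ⟨sub_desc ok.1 r40, (List.forall_mem_cons.2 ⟨sub_desc ok.1 r41, (List.forall_mem_cons.2 ⟨sub_desc ok.1 r42, (List.forall_mem_cons.2 ⟨sub_desc ok.1 r43, (List.forall_mem_cons.2 ⟨sub_desc ok.1 r44, (List.forall_mem_cons.2 ⟨sub_desc ok.1 r45, (List.forall_mem_cons.2 ⟨sub_desc ok.1 r46, (List.forall_mem_cons.2 ⟨sub_desc ok.1 r47, (List.forall_mem_cons.2 ⟨sub_desc ok.1 r48, (List.forall_mem_cons.2 ⟨sub_desc ok.1 r49, (List.forall_mem_cons.2 ⟨sub_desc ok.1 r50, (List.forall_mem_cons.2 ⟨sub_desc ok.1 r51, (List.forall_mem_cons.2 ⟨sub_desc ok.1 r52, (List.forall_mem_cons.2 ⟨sub_desc ok.1 r53, (List.forall_mem_cons.2 ⟨sub_desc ok.1 r54, (List.forall_mem_cons.2 ⟨sub_desc ok.1 r55, (List.forall_mem_cons.2 ⟨sub_desc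 ok.1 r56, (List.forall_mem_cons.2 ⟨sub_desc ok.1 r57, (List.forall_mem_cons.2 ⟨sub_desc ok.1 r58, (List.forall_mem_cons.2 ⟨sub_desc ok.1 r59, (fun _ hx => absurd hx List.not_mem_nil)⟩)⟩)⟩)⟩)⟩)⟩)⟩)⟩)⟩)⟩)⟩)⟩)⟩)⟩)⟩)⟩)⟩)⟩)⟩)⟩)
theorem hkd3 : ∀ x ∈ kn3, ∀ F ∈ Fam dat.k dat.MJ dat.JM dat.bs x.1 x.2.1, Dsc dat.k dat.MJ dat.P dat.AL F :=
  (List.forall_mem_cons.2 ⟨sub_desc ok.1 r60, (fun _ hx => absurd hx List.not_mem_nil)⟩)
theorem hkd : ∀ x ∈ kn, ∀ F ∈ Fam dat.k dat.MJ dat.JM dat.bs x.1 x.2.1, Dsc dat.k dat.MJ dat.P dat.AL F :=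
  List.forall_mem_append.2 ⟨hkd0, List.forall_mem_append.2 ⟨hkd1, List.forall_mem_append.2 ⟨hkd2, hkd3⟩⟩⟩
theorem descr : Full 2367513 RL :=
  full_of cA cB (by decide +kernel) (chkV2_sound cV) cAL cP cPT cX cM cR (dat_desc cA ok hkd rt)
theorem cI : chkI (dat.rels.zip RL) dat.AL = true := by decide +kernel
theorem irr : Irr 2367513 RL := irr_of cA (chkV2_sound cV) cAL cP cX cM cR cI

end H78.BA.M2367513
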