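import Pool.Agent.H78.BA.G18
import Pool.Agent.H78.BA.Desc4

/-! Generated: description of the algebras by relations. -/

set_option linter.all false

namespace H78.BA.M2097217

open H78.BA

/-- the relations -/
def RL : List (ℕ × ℕ) :=
  [(3, 22086929), (3, 85278977), (4, 0x144144150400415045045), (3, 84951301), (3, 17826133),
    (3, 89466193), (3, 68157697), (2, 69), (2, 261), (3, 76941669), (3, 76554593), (2, 279),
    (2, 277), (3, 106759639), (2, 405), (3, 17826049), (3, 68165741), (3, 85263469), (3, 18341701),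
    (3, 18341871), (3, 18336581), (2, 199), (2, 263), (3, 84164933), (3, 96747893), (3, 85409861),
    (2, 389), (4, 0x145005140082001145345), (3, 68157541), (3, 84151125), (3, 76939589),
    (4, 0x10500514008200516db45), (2, 239), (3, 18108797), (2, 111), (3, 85262437),
    (4, 0x4500514008000516cb45), (3, 28740461), (3, 18090861), (3, 68419925),
    (4, 0x14500114000014514214d), (2, 79), (3, 72680789), (3, 84164989), (3, 85314117),
    (4, 0x14500114008000516cb45), (3, 68486509), (3, 84942949), (4, 0x145005140080001144345),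
    (4, 0x10500514008000516cb45), (4, 0x145001140000401144145), (2, 71), (3, 68428129),
    (4, 0x145005040000145142145), (3, 68420949), (4, 0x144085144000145142145), (3, 68485477),
    (4, 0x145085044000145142145), (4, 0x141005140000825144145), (3, 68945367),
    (4, 0x105005b40000145b4216d), (3, 18613719), (3, 68421989), (4, 0x145801140080005164145),
    (5, 0x5168a45000200145005140002000000000000000145005140000005140145), (3, 102499799),
    (4, 0x144005140000145142145),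
    (5, 0x4040145000200145005140002000000000000000145005140000005140345), (3, 68422485),
    (4, 0x145104140080005144145),
    (5, 0x5100145000a00145005140082000000000000080145005140008005140145),
    (5, 0x5140145000a00105005140082000000000000080141005140008005140145),
    (5, 0x5140145000a00145004140082000000000000080145005040008005140145),
    (5, 0x5140145000a00145005140082000000000000080145005140008005140045),
    (5, 0x5140144000a00145005140082000000000000080145005140008005140145),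
    (4, 0x149005b40000105b4216d), (3, 92553589), (4, 0x161005940000105942165),
    (4, 0x145105140080005144045),
    (5, 0x5148b4500020004522d14000200000000000000004522d140000005168b45),
    (5, 0x5140145000a00145005140082000000000000080145005140008001140145),
    (5, 0x5148a45000200145a2d140002000000000000000145a2d140000005168b45),
    (5, 0x5141045010000045005140000000000000000000145005140000005140145),
    (4, 0x101005140000405144145),
    (5, 0x1141145010000145005140000000000000000000145005140000005140145),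
    (5, 0x1148b45000200145a2d140002000000000000000145a2d140000005168b45),
    (5, 0x5141145010000145005140000000000000000000045005140000005140145),
    (4, 0x105005140000805144145),
    (5, 0x5140145000200145001140002000000000000000145001140000005140145),
    (5, 0x5140101000200145005140002000000000000000145005140000005140145)]

theorem cX : chkX dat = true := by decide +kernel
theorem cR : chkR dat.rels RL = true := by decide +kernel
theorem cM : mt dat.rM 3 2097217 = true := by decide +kernel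
theorem hkd0 : ∀ x ∈ kn0, ∀ F ∈ Fam dat.k dat.MJ dat.JM dat.bs x.1 x.2.1, Dsc dat.k dat.MJ dat.P dat.AL F :=
  (List.forall_mem_cons.2 ⟨sub_desc ok.1 r0, (List.forall_mem_cons.2 ⟨sub_desc ok.1 r1, (List.forall_mem_cons.2 ⟨sub_desc ok.1 r2, (List.forall_mem_cons.2 ⟨sub_desc ok.1 r3, (List.forall_mem_cons.2 ⟨sub_desc ok.1 r4, (List.forall_mem_cons.2 ⟨sub_desc ok.1 r5, (List.forall_mem_cons.2 ⟨sub_desc ok.1 r6, (List.forall_mem_cons.2 ⟨sub_desc ok.1 r7, (List.forall_mem_cons.2 ⟨sub_desc ok.1 r8, (List.forall_mem_cons.2 ⟨sub_desc ok.1 r9, (List.forall_mem_cons.2 ⟨sub_desc ok.1 r10, (List.forall_mem_cons.2 ⟨sub_desc ok.1 r11, (List.forall_mem_cons.2 ⟨sub_desc ok.1 r12, (List.forall_mem_cons.2 ⟨sub_desc ok.1 r13, (List.forall_mem_cons.2 ⟨sub_desc ok.1 r14, (List.forall_mem_cons.2 ⟨sub_desc ok.1 r15, (List.forall_mem_cons.2 ⟨sub_desc ok.1 r16, (List.forall_mem_cons.2 ⟨sub_desc ok.1 r17, (List.forall_mem_cons.2 ⟨sub_desc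 ok.1 r18, (List.forall_mem_cons.2 ⟨sub_desc ok.1 r19, (fun _ hx => absurd hx List.not_mem_nil)⟩)⟩)⟩)⟩)⟩)⟩)⟩)⟩)⟩)⟩)⟩)⟩)⟩)⟩)⟩)⟩)⟩)⟩)⟩)⟩)
theorem hkd1 : ∀ x ∈ kn1, ∀ F ∈ Fam dat.k dat.MJ dat.JM dat.bs x.1 x.2.1, Dsc dat.k dat.MJ dat.P dat.AL F :=
  (List.forall_mem_cons.2 ⟨sub_desc ok.1 r20, (List.forall_mem_cons.2 ⟨sub_desc ok.1 r21, (List.forall_mem_cons.2 ⟨sub_desc ok.1 r22, (List.forall_mem_cons.2 ⟨sub_desc ok.1 r23, (List.forall_mem_cons.2 ⟨sub_desc ok.1 r24, (List.forall_mem_cons.2 ⟨sub_desc ok.1 r25, (List.forall_mem_cons.2 ⟨sub_desc ok.1 r26, (List.forall_mem_cons.2 ⟨sub_desc ok.1 r27, (List.forall_mem_cons.2 ⟨sub_desc ok.1 r28, (List.forall_mem_cons.2 ⟨sub_desc ok.1 r29, (List.forall_mem_cons.2 ⟨sub_desc ok.1 r30, (List.forall_mem_cons.2 ⟨sub_desc ok.1 r31, (List.forall_mem_cons.2 ⟨sub_desc ok.1 r32, (List.forall_mem_cons.2 ⟨sub_desc ok.1 r33, (List.forall_mem_cons.2 ⟨sub_desc ok.1 r34, (List.forall_mem_cons.2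 ⟨sub_desc ok.1 r35, (List.forall_mem_cons.2 ⟨sub_desc ok.1 r36, (List.forall_mem_cons.2 ⟨sub_desc ok.1 r37, (List.forall_mem_cons.2 ⟨sub_desc ok.1 r38, (List.forall_mem_cons.2 ⟨sub_desc ok.1 r39, (fun _ hx => absurd hx List.not_mem_nil)⟩)⟩)⟩)⟩)⟩)⟩)⟩)⟩)⟩)⟩)⟩)⟩)⟩)⟩)⟩)⟩)⟩)⟩)⟩)⟩)
theorem hkd2 : ∀ x ∈ kn2, ∀ F ∈ Fam dat.k dat.MJ dat.JM dat.bs x.1 x.2.1, Dsc dat.k dat.MJ dat.P dat.AL F :=
  (List.forall_mem_cons.2 ⟨sub_desc ok.1 r40, (List.forall_mem_cons.2 ⟨sub_desc ok.1 r41, (List.forall_mem_cons.2 ⟨sub_desc ok.1 r42, (List.forall_mem_cons.2 ⟨sub_desc ok.1 r43, (List.forall_mem_cons.2 ⟨sub_desc ok.1 r44, (List.forall_mem_cons.2 ⟨sub_desc ok.1 r45, (List.forall_mem_cons.2 ⟨sub_desc ok.1 r46, (List.forall_mem_cons.2 ⟨sub_desc ok.1 r47, (List.forall_mem_cons.2 ⟨sub_desc ok.1 r48, (List.forall_mem_cons.2 ⟨sub_desc ok.1 r49, (List.forall_mem_cons.2 ⟨sub_desc ok.1 r50, (List.forall_mem_cons.2 ⟨sub_desc ok.1 r51, (List.forall_mem_cons.2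 ⟨sub_desc ok.1 r52, (List.forall_mem_cons.2 ⟨sub_desc ok.1 r53, (List.forall_mem_cons.2 ⟨sub_desc ok.1 r54, (List.forall_mem_cons.2 ⟨sub_desc ok.1 r55, (List.forall_mem_cons.2 ⟨sub_desc ok.1 r56, (List.forall_mem_cons.2 ⟨sub_desc ok.1 r57, (List.forall_mem_cons.2 ⟨sub_desc ok.1 r58, (List.forall_mem_cons.2 ⟨sub_desc ok.1 r59, (fun _ hx => absurd hx List.not_mem_nil)⟩)⟩)⟩)⟩)⟩)⟩)⟩)⟩)⟩)⟩)⟩)⟩)⟩)⟩)⟩)⟩)⟩)⟩)⟩)⟩)
theorem hkd3 : ∀ x ∈ kn3, ∀ F ∈ Fam dat.k dat.MJ dat.JM dat.bs x.1 x.2.1, Dsc dat.k dat.MJ dat.P dat.AL F :=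
  (List.forall_mem_cons.2 ⟨sub_desc ok.1 r60, (List.forall_mem_cons.2 ⟨sub_desc ok.1 r61, (List.forall_mem_cons.2 ⟨sub_desc ok.1 r62, (List.forall_mem_cons.2 ⟨sub_desc ok.1 r63, (List.forall_mem_cons.2 ⟨sub_desc ok.1 r64, (List.forall_mem_cons.2 ⟨sub_desc ok.1 r65, (List.forall_mem_cons.2 ⟨sub_desc ok.1 r66, (List.forall_mem_cons.2 ⟨sub_desc ok.1 r67, (List.forall_mem_cons.2 ⟨sub_desc ok.1 r68, (List.forall_mem_cons.2 ⟨sub_desc ok.1 r69, (List.forall_mem_cons.2 ⟨sub_desc ok.1 r70, (List.forall_mem_cons.2 ⟨sub_desc ok.1 r71, (List.forall_mem_cons.2 ⟨sub_desc ok.1 r72, (List.forall_mem_cons.2 ⟨sub_desc ok.1 r73, (List.forall_mem_cons.2 ⟨sub_desc ok.1 r74, (List.forall_mem_cons.2 ⟨sub_desc ok.1 r75, (List.forall_mem_cons.2 ⟨sub_desc ok.1 r76, (List.forall_mem_cons.2 ⟨sub_desc ok.1 r77, (List.forall_mem_cons.2 ⟨sub_desc ok.1 r78, (List.forall_mem_cons.2 ⟨sub_desc ok.1 r79, (fun _ hx => absurd hx List.not_mem_nil)⟩)⟩)⟩)⟩)⟩)⟩)⟩)⟩)⟩)⟩)⟩)⟩)⟩)⟩)⟩)⟩)⟩)⟩)⟩)⟩)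
theorem hkd4 : ∀ x ∈ kn4, ∀ F ∈ Fam dat.k dat.MJ dat.JM dat.bs x.1 x.2.1, Dsc dat.k dat.MJ dat.P dat.AL F :=
  (List.forall_mem_cons.2 ⟨sub_desc ok.1 r80, (List.forall_mem_cons.2 ⟨sub_desc ok.1 r81, (List.forall_mem_cons.2 ⟨sub_desc ok.1 r82, (List.forall_mem_cons.2 ⟨sub_desc ok.1 r83, (List.forall_mem_cons.2 ⟨sub_desc ok.1 r84, (List.forall_mem_cons.2 ⟨sub_desc ok.1 r85, (List.forall_mem_cons.2 ⟨sub_desc ok.1 r86, (List.forall_mem_cons.2 ⟨sub_desc ok.1 r87, (List.forall_mem_cons.2 ⟨sub_desc ok.1 r88, (List.forall_mem_cons.2 ⟨sub_desc ok.1 r89, (fun _ hx => absurd hx List.not_mem_nil)⟩)⟩)⟩)⟩)⟩)⟩)⟩)⟩)⟩)⟩)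
theorem hkd : ∀ x ∈ kn, ∀ F ∈ Fam dat.k dat.MJ dat.JM dat.bs x.1 x.2.1, Dsc dat.k dat.MJ dat.P dat.AL F :=
  List.forall_mem_append.2 ⟨hkd0, List.forall_mem_append.2 ⟨hkd1, List.forall_mem_append.2 ⟨hkd2, List.forall_mem_append.2 ⟨hkd3, hkd4⟩⟩⟩⟩
theorem descr : Full 2097217 RL :=
  full_of cA cB (by decide +kernel) (chkV2_sound cV) cAL cP cPT cX cM cR (dat_desc cA ok hkd rt)
theorem cI : chkI (dat.rels.zip RL) dat.AL = true := by decide +kernel
theorem irr : Irr 2097217 RL := irr_of cA (chkV2_sound cV) cAL cP cX cM cR cI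

end H78.BA.M2097217
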