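import Pool.Agent.H78.BA.G19
import Pool.Agent.H78.BA.Desc4

/-! Generated: description of the algebras by relations. -/

set_option linter.all false

namespace H78.BA.M73671185

open H78.BA

/-- the relations -/
def RL : List (ℕ × ℕ) :=
  [(4, 0x10000000491985892371b), (4, 0x10000000491b8d8923513), (3, 67270463), (3, 67272479),
    (4, 0x10000000491b8c892371b), (4, 0x10000000491b8d892271b), (4, 0x1db60300001b0d800261b),
    (4, 0x1db60300001b0c800361b), (4, 0x1db60300001b0d000361b), (3, 76691225), (3, 76687131),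
    (4, 0x1db60300001b0d800161b), (3, 117469231), (3, 117469239), (4, 0x11b69b6c001b0d800361b),
    (3, 67271487), (4, 0x11b6db64001b0d800361b), (3, 67272503), (3, 67183707), (3, 67248915),
    (4, 0x113000000113000022313), (3, 67137591), (3, 67183819), (3, 76555289),
    (4, 0x1000000180381fb00702f),
    (5, 0x4003603000000000000000000003003603600640600000000000003003603),
    (5, 0x4003603000000000000000000003003603600680600000000000003003603),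
    (4, 0x100000002713898462713), (4, 0x1000000180380fb00703f), (4, 0x1000000180381bb00703f),
    (3, 67239519), (3, 67117067), (3, 67118097), (3, 67239679), (3, 76691227),
    (4, 0x11b6db6c00130d800261b), (3, 67204863), (4, 0x11b6db6c00130d800361b),
    (4, 0x11b6db6c001b0d8003619), (4, 0x11b6db6c001b0c8003619), (3, 117469223),
    (4, 0x11b6db6c001b0d800261b), (4, 0x11b6db6c001b0c800361b)]

theorem cX : chkX dat = true := by decide +kernel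
theorem cR : chkR dat.rels RL = true := by decide +kernel
theorem cM : mt dat.rM 3 73671185 = true := by decide +kernel
theorem hkd0 : ∀ x ∈ kn0, ∀ F ∈ Fam dat.k dat.MJ dat.JM dat.bs x.1 x.2.1, Dsc dat.k dat.MJ dat.P dat.AL F :=
  (List.forall_mem_cons.2 ⟨sub_desc ok.1 r0, (List.forall_mem_cons.2 ⟨sub_desc ok.1 r1, (List.forall_mem_cons.2 ⟨sub_desc ok.1 r2, (List.forall_mem_cons.2 ⟨sub_desc ok.1 r3, (List.forall_mem_cons.2 ⟨sub_desc ok.1 r4, (List.forall_mem_cons.2 ⟨sub_desc ok.1 r5, (List.forall_mem_cons.2 ⟨sub_desc ok.1 r6, (List.forall_mem_cons.2 ⟨sub_desc ok.1 r7, (List.forall_mem_cons.2 ⟨sub_desc ok.1 r8, (List.forall_mem_cons.2 ⟨sub_desc ok.1 r9, (List.forall_mem_cons.2 ⟨sub_desc ok.1 r10, (List.forall_mem_cons.2 ⟨sub_desc ok.1 r11, (List.forall_mem_cons.2 ⟨sub_desc ok.1 r12, (List.forall_mem_cons.2 ⟨sub_desc ok.1 r13, (List.forall_mem_cons.2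 ⟨sub_desc ok.1 r14, (List.forall_mem_cons.2 ⟨sub_desc ok.1 r15, (List.forall_mem_cons.2 ⟨sub_desc ok.1 r16, (List.forall_mem_cons.2 ⟨sub_desc ok.1 r17, (List.forall_mem_cons.2 ⟨sub_desc ok.1 r18, (List.forall_mem_cons.2 ⟨sub_desc ok.1 r19, (fun _ hx => absurd hx List.not_mem_nil)⟩)⟩)⟩)⟩)⟩)⟩)⟩)⟩)⟩)⟩)⟩)⟩)⟩)⟩)⟩)⟩)⟩)⟩)⟩)⟩)
theorem hkd1 : ∀ x ∈ kn1, ∀ F ∈ Fam dat.k dat.MJ dat.JM dat.bs x.1 x.2.1, Dsc dat.k dat.MJ dat.P dat.AL F :=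
  (List.forall_mem_cons.2 ⟨sub_desc ok.1 r20, (List.forall_mem_cons.2 ⟨sub_desc ok.1 r21, (List.forall_mem_cons.2 ⟨sub_desc ok.1 r22, (List.forall_mem_cons.2 ⟨sub_desc ok.1 r23, (List.forall_mem_cons.2 ⟨sub_desc ok.1 r24, (List.forall_mem_cons.2 ⟨sub_desc ok.1 r25, (List.forall_mem_cons.2 ⟨sub_desc ok.1 r26, (List.forall_mem_cons.2 ⟨sub_desc ok.1 r27, (List.forall_mem_cons.2 ⟨sub_desc ok.1 r28, (List.forall_mem_cons.2 ⟨sub_desc ok.1 r29, (List.forall_mem_cons.2 ⟨sub_desc ok.1 r30, (List.forall_mem_cons.2 ⟨sub_desc ok.1 r31, (List.forall_mem_cons.2 ⟨sub_desc ok.1 r32, (List.forall_mem_cons.2 ⟨sub_desc ok.1 r33, (List.forall_mem_cons.2 ⟨sub_desc ok.1 r34, (List.forall_mem_cons.2 ⟨sub_desc ok.1 r35, (List.forall_mem_cons.2 ⟨sub_desc ok.1 r36, (List.forall_mem_cons.2 ⟨sub_desc ok.1 r37, (List.forall_mem_cons.2 ⟨sub_desc ok.1 r38, (List.forall_mem_cons.2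 ⟨sub_desc ok.1 r39, (fun _ hx => absurd hx List.not_mem_nil)⟩)⟩)⟩)⟩)⟩)⟩)⟩)⟩)⟩)⟩)⟩)⟩)⟩)⟩)⟩)⟩)⟩)⟩)⟩)⟩)
theorem hkd2 : ∀ x ∈ kn2, ∀ F ∈ Fam dat.k dat.MJ dat.JM dat.bs x.1 x.2.1, Dsc dat.k dat.MJ dat.P dat.AL F :=
  (List.forall_mem_cons.2 ⟨sub_desc ok.1 r40, (List.forall_mem_cons.2 ⟨sub_desc ok.1 r41, (List.forall_mem_cons.2 ⟨sub_desc ok.1 r42, (List.forall_mem_cons.2 ⟨sub_desc ok.1 r43, (List.forall_mem_cons.2 ⟨sub_desc ok.1 r44, (List.forall_mem_cons.2 ⟨sub_desc ok.1 r45, (List.forall_mem_cons.2 ⟨sub_desc ok.1 r46, (List.forall_mem_cons.2 ⟨sub_desc ok.1 r47, (List.forall_mem_cons.2 ⟨sub_desc ok.1 r48, (List.forall_mem_cons.2 ⟨sub_desc ok.1 r49, (List.forall_mem_cons.2 ⟨sub_desc ok.1 r50, (List.forall_mem_cons.2 ⟨sub_desc ok.1 r51, (List.forall_mem_cons.2 ⟨sub_desc ok.1 r52, (List.forall_mem_cons.2 ⟨sub_desc ok.1 r53, (List.forall_mem_cons.2 ⟨sub_desc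 ok.1 r54, (List.forall_mem_cons.2 ⟨sub_desc ok.1 r55, (List.forall_mem_cons.2 ⟨sub_desc ok.1 r56, (List.forall_mem_cons.2 ⟨sub_desc ok.1 r57, (List.forall_mem_cons.2 ⟨sub_desc ok.1 r58, (List.forall_mem_cons.2 ⟨sub_desc ok.1 r59, (fun _ hx => absurd hx List.not_mem_nil)⟩)⟩)⟩)⟩)⟩)⟩)⟩)⟩)⟩)⟩)⟩)⟩)⟩)⟩)⟩)⟩)⟩)⟩)⟩)⟩)
theorem hkd3 : ∀ x ∈ kn3, ∀ F ∈ Fam dat.k dat.MJ dat.JM dat.bs x.1 x.2.1, Dsc dat.k dat.MJ dat.P dat.AL F :=
  (List.forall_mem_cons.2 ⟨sub_desc ok.1 r60, (List.forall_mem_cons.2 ⟨sub_desc ok.1 r61, (List.forall_mem_cons.2 ⟨sub_desc ok.1 r62, (List.forall_mem_cons.2 ⟨sub_desc ok.1 r63, (List.forall_mem_cons.2 ⟨sub_desc ok.1 r64, (List.forall_mem_cons.2 ⟨sub_desc ok.1 r65, (List.forall_mem_cons.2 ⟨sub_desc ok.1 r66, (List.forall_mem_cons.2 ⟨sub_desc ok.1 r67, (List.forall_mem_cons.2 ⟨sub_desc ok.1 r68, (List.forall_mem_cons.2 ⟨sub_desc ok.1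 r69, (List.forall_mem_cons.2 ⟨sub_desc ok.1 r70, (List.forall_mem_cons.2 ⟨sub_desc ok.1 r71, (List.forall_mem_cons.2 ⟨sub_desc ok.1 r72, (List.forall_mem_cons.2 ⟨sub_desc ok.1 r73, (List.forall_mem_cons.2 ⟨sub_desc ok.1 r74, (List.forall_mem_cons.2 ⟨sub_desc ok.1 r75, (List.forall_mem_cons.2 ⟨sub_desc ok.1 r76, (List.forall_mem_cons.2 ⟨sub_desc ok.1 r77, (List.forall_mem_cons.2 ⟨sub_desc ok.1 r78, (List.forall_mem_cons.2 ⟨sub_desc ok.1 r79, (fun _ hx => absurd hx List.not_mem_nil)⟩)⟩)⟩)⟩)⟩)⟩)⟩)⟩)⟩)⟩)⟩)⟩)⟩)⟩)⟩)⟩)⟩)⟩)⟩)⟩)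
theorem hkd4 : ∀ x ∈ kn4, ∀ F ∈ Fam dat.k dat.MJ dat.JM dat.bs x.1 x.2.1, Dsc dat.k dat.MJ dat.P dat.AL F :=
  (List.forall_mem_cons.2 ⟨sub_desc ok.1 r80, (List.forall_mem_cons.2 ⟨sub_desc ok.1 r81, (List.forall_mem_cons.2 ⟨sub_desc ok.1 r82, (List.forall_mem_cons.2 ⟨sub_desc ok.1 r83, (List.forall_mem_cons.2 ⟨sub_desc ok.1 r84, (List.forall_mem_cons.2 ⟨sub_desc ok.1 r85, (List.forall_mem_cons.2 ⟨sub_desc ok.1 r86, (List.forall_mem_cons.2 ⟨sub_desc ok.1 r87, (List.forall_mem_cons.2 ⟨sub_desc ok.1 r88, (List.forall_mem_cons.2 ⟨sub_desc ok.1 r89, (List.forall_mem_cons.2 ⟨sub_desc ok.1 r90, (fun _ hx => absurd hx List.not_mem_nil)⟩)⟩)⟩)⟩)⟩)⟩)⟩)⟩)⟩)⟩)⟩)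
theorem hkd : ∀ x ∈ kn, ∀ F ∈ Fam dat.k dat.MJ dat.JM dat.bs x.1 x.2.1, Dsc dat.k dat.MJ dat.P dat.AL F :=
  List.forall_mem_append.2 ⟨hkd0, List.forall_mem_append.2 ⟨hkd1, List.forall_mem_append.2 ⟨hkd2, List.forall_mem_append.2 ⟨hkd3, hkd4⟩⟩⟩⟩
theorem descr : Full 73671185 RL :=
  full_of cA cB (by decide +kernel) (chkV2_sound cV) cAL cP cPT cX cM cR (dat_desc cA ok hkd rt)
theorem cI : chkI (dat.rels.zip RL) dat.AL = true := by decide +kernel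
theorem irr : Irr 73671185 RL := irr_of cA (chkV2_sound cV) cAL cP cX cM cR cI

end H78.BA.M73671185
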