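import Pool.Agent.H78.BA.G2
import Pool.Agent.H78.BA.Desc4

/-! Generated: description of the algebras by relations. -/

set_option linter.all false

namespace H78.BA.M2105353

open H78.BA

/-- the relations -/
def RL : List (ℕ × ℕ) :=
  [(3, 76950381), (3, 9233), (3, 139781), (3, 17834241), (3, 172551), (3, 8203), (2, 275),
    (2, 59), (2, 467), (2, 403), (3, 76554349), (2, 279), (2, 277), (3, 14893), (3, 31273),
    (3, 68165889), (3, 11542569), (2, 407), (2, 85), (3, 195181), (2, 255), (2, 83), (3, 28769133)]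

theorem cX : chkX dat = true := by decide +kernel
theorem cR : chkR dat.rels RL = true := by decide +kernel
theorem cM : mt dat.rM 3 2105353 = true := by decide +kernel
theorem hkd0 : ∀ x ∈ kn0, ∀ F ∈ Fam dat.k dat.MJ dat.JM dat.bs x.1 x.2.1, Dsc dat.k dat.MJ dat.P dat.AL F :=
  (List.forall_mem_cons.2 ⟨sub_desc ok.1 r0, (List.forall_mem_cons.2 ⟨sub_desc ok.1 r1, (List.forall_mem_cons.2 ⟨sub_desc ok.1 r2, (List.forall_mem_cons.2 ⟨sub_desc ok.1 r3, (fun _ hx => absurd hx List.not_mem_nil)⟩)⟩)⟩)⟩)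
theorem hkd : ∀ x ∈ kn, ∀ F ∈ Fam dat.k dat.MJ dat.JM dat.bs x.1 x.2.1, Dsc dat.k dat.MJ dat.P dat.AL F :=
  hkd0
theorem descr : Full 2105353 RL :=
  full_of cA cB (by decide +kernel) (chkV2_sound cV) cAL cP cPT cX cM cR (dat_desc cA ok hkd rt)
theorem cI : chkI (dat.rels.zip RL) dat.AL = true := by decide +kernel
theorem irr : Irr 2105353 RL := irr_of cA (chkV2_sound cV) cAL cP cX cM cR cI

end H78.BA.M2105353

namespace H78.BA.M69480961

open H78.BA

/-- the relations -/
def RL : List (ℕ × ℕ) :=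
  [(3, 68166929), (3, 67199055), (3, 68166673), (4, 0x100000000412000042313),
    (4, 0x103000000013000022313), (3, 67182671), (3, 67133719), (3, 67182667),
    (4, 0x100000004130000102d37), (3, 67118097), (3, 67117135), (4, 0x10000000001000034163f),
    (3, 67182687), (3, 67133463), (3, 68166931), (3, 67117151), (3, 73147959), (3, 76688695),
    (3, 76555543), (3, 67117067), (3, 67117131), (4, 0x100824100012090022517)]

theorem cX : chkX dat = true := by decide +kernel
theorem cR : chkR dat.rels RL = true := by decide +kernel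
theorem cM : mt dat.rM 3 69480961 = true := by decide +kernel
theorem hkd0 : ∀ x ∈ kn0, ∀ F ∈ Fam dat.k dat.MJ dat.JM dat.bs x.1 x.2.1, Dsc dat.k dat.MJ dat.P dat.AL F :=
  (List.forall_mem_cons.2 ⟨sub_desc ok.1 r0, (List.forall_mem_cons.2 ⟨sub_desc ok.1 r1, (List.forall_mem_cons.2 ⟨sub_desc ok.1 r2, (List.forall_mem_cons.2 ⟨sub_desc ok.1 r3, (fun _ hx => absurd hx List.not_mem_nil)⟩)⟩)⟩)⟩)
theorem hkd : ∀ x ∈ kn, ∀ F ∈ Fam dat.k dat.MJ dat.JM dat.bs x.1 x.2.1, Dsc dat.k dat.MJ dat.P dat.AL F :=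
  hkd0
theorem descr : Full 69480961 RL :=
  full_of cA cB (by decide +kernel) (chkV2_sound cV) cAL cP cPT cX cM cR (dat_desc cA ok hkd rt)
theorem cI : chkI (dat.rels.zip RL) dat.AL = true := by decide +kernel
theorem irr : Irr 69480961 RL := irr_of cA (chkV2_sound cV) cAL cP cX cM cR cI

end H78.BA.M69480961

namespace H78.BA.M2097184

open H78.BA

/-- the relations -/
def RL : List (ℕ × ℕ) :=
  [(2, 278), (3, 109142022), (2, 161), (4, 0x1b0c800261b0000000110), (3, 71442864), (2, 433),
    (4, 0x1b05000141b00000001b0), (3, 113467664), (4, 0x1b1d8cc363b1c80000000), (3, 105013520),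
    (4, 0x110d80036110000000110), (2, 79), (2, 510), (3, 114517264), (3, 115597318)]

theorem cX : chkX dat = true := by decide +kernel
theorem cR : chkR dat.rels RL = true := by decide +kernel
theorem cM : mt dat.rM 3 2129920 = true := by decide +kernel
theorem hkd0 : ∀ x ∈ kn0, ∀ F ∈ Fam dat.k dat.MJ dat.JM dat.bs x.1 x.2.1, Dsc dat.k dat.MJ dat.P dat.AL F :=
  (List.forall_mem_cons.2 ⟨sub_desc ok.1 r0, (List.forall_mem_cons.2 ⟨sub_desc ok.1 r1, (fun _ hx => absurd hx List.not_mem_nil)⟩)⟩)
theorem hkd : ∀ x ∈ kn, ∀ F ∈ Fam dat.k dat.MJ dat.JM dat.bs x.1 x.2.1, Dsc dat.k dat.MJ dat.P dat.AL F :=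
  hkd0
theorem descr : Full 2129920 RL :=
  full_of cA cB (by decide +kernel) (chkV2_sound cV) cAL cP cPT cX cM cR (dat_desc cA ok hkd rt)
theorem cI : chkI (dat.rels.zip RL) dat.AL = true := by decide +kernel
theorem irr : Irr 2129920 RL := irr_of cA (chkV2_sound cV) cAL cP cX cM cR cI

end H78.BA.M2097184

namespace H78.BA.M73803545

open H78.BA

/-- the relations -/
def RL : List (ℕ × ℕ) :=
  [(4, 0x11b60300491b8c892271b), (4, 0x111501114111051101511), (3, 127008511), (3, 131561311),
    (4, 0x11b72391c91b8db92371b), (4, 0x11988c46231388c462319)]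

theorem cX : chkX dat = true := by decide +kernel
theorem cR : chkR dat.rels RL = true := by decide +kernel
theorem cM : mt dat.rM 3 73803545 = true := by decide +kernel
theorem hkd0 : ∀ x ∈ kn0, ∀ F ∈ Fam dat.k dat.MJ dat.JM dat.bs x.1 x.2.1, Dsc dat.k dat.MJ dat.P dat.AL F :=
  (List.forall_mem_cons.2 ⟨sub_desc ok.1 r0, (fun _ hx => absurd hx List.not_mem_nil)⟩)
theorem hkd : ∀ x ∈ kn, ∀ F ∈ Fam dat.k dat.MJ dat.JM dat.bs x.1 x.2.1, Dsc dat.k dat.MJ dat.P dat.AL F :=
  hkd0
theorem descr : Full 73803545 RL :=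
  full_of cA cB (by decide +kernel) (chkV2_sound cV) cAL cP cPT cX cM cR (dat_desc cA ok hkd rt)
theorem cI : chkI (dat.rels.zip RL) dat.AL = true := by decide +kernel
theorem irr : Irr 73803545 RL := irr_of cA (chkV2_sound cV) cAL cP cX cM cR cI

end H78.BA.M73803545

namespace H78.BA.M69218329

open H78.BA

/-- the relations -/
def RL : List (ℕ × ℕ) :=
  [(3, 75637257), (3, 75506457), (3, 68167451), (3, 67248643), (3, 68171545),
    (4, 0x10000000001b0d8103719), (4, 0x100000000019048822209), (4, 0x10000000001b0d8103513),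
    (3, 67122967),
    (6, 0x100008000000000000000000000000000008000000000000000000000000000000000000000000000000000000013000003600000000000000000000000000000000000000000000000000002603000640600000000000000003603),
    (5, 0x4000000000000000000000000000002600000442602000000003000022613), (3, 67122271),
    (3, 67117843), (3, 67253767), (3, 67138329), (3, 67117067), (3, 68166681),
    (4, 0x10000000001b0c810071f), (3, 67121175),
    (6, 0x100008000000000000000000000000000008001000000000000000000000000000000000000000000000000000013000003600000000000000000000000000000000000000000000000000002602000640600000000000000002603),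
    (4, 0x100000010018098000039), (3, 67187719), (4, 0x10000000001b0d010371f), (3, 67124799),
    (3, 67141179), (3, 67118097), (4, 0x10000000001b000017401), (3, 67138321), (3, 67137553),
    (3, 67122363)]

theorem cX : chkX dat = true := by decide +kernel
theorem cR : chkR dat.rels RL = true := by decide +kernel
theorem cM : mt dat.rM 3 69218329 = true := by decide +kernel
theorem hkd0 : ∀ x ∈ kn0, ∀ F ∈ Fam dat.k dat.MJ dat.JM dat.bs x.1 x.2.1, Dsc dat.k dat.MJ dat.P dat.AL F :=
  (List.forall_mem_cons.2 ⟨sub_desc ok.1 r0, (List.forall_mem_cons.2 ⟨sub_desc ok.1 r1, (fun _ hx => absurd hx List.not_mem_nil)⟩)⟩)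
theorem hkd : ∀ x ∈ kn, ∀ F ∈ Fam dat.k dat.MJ dat.JM dat.bs x.1 x.2.1, Dsc dat.k dat.MJ dat.P dat.AL F :=
  hkd0
theorem descr : Full 69218329 RL :=
  full_of cA cB (by decide +kernel) (chkV2_sound cV) cAL cP cPT cX cM cR (dat_desc cA ok hkd rt)
theorem cI : chkI (dat.rels.zip RL) dat.AL = true := by decide +kernel
theorem irr : Irr 69218329 RL := irr_of cA (chkV2_sound cV) cAL cP cX cM cR cI

end H78.BA.M69218329

namespace H78.BA.M69480979

open H78.BA

/-- the relations -/
def RL : List (ℕ × ℕ) :=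
  [(4, 0x100000000019058103513), (4, 0x1000000000130dc103719), (4, 0x10000000001b0cc10271b),
    (3, 67121943), (3, 67121939), (3, 67139359), (3, 68171547), (4, 0x10300000001b08802231b),
    (3, 76693311), (3, 76560159), (4, 0x10000000001b0c810271f),
    (5, 0x400020100000000000000000000000361b20068060000000001805900361b),
    (4, 0x10000000041b09804331b), (4, 0x10000000001b09900323f), (3, 67188319),
    (5, 0x400020100000000000000000000000361b20064060000000001809900361b),
    (4, 0x10000000001b0d010171f), (3, 67122783)]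

theorem cX : chkX dat = true := by decide +kernel
theorem cR : chkR dat.rels RL = true := by decide +kernel
theorem cM : mt dat.rM 3 69480979 = true := by decide +kernel
theorem hkd0 : ∀ x ∈ kn0, ∀ F ∈ Fam dat.k dat.MJ dat.JM dat.bs x.1 x.2.1, Dsc dat.k dat.MJ dat.P dat.AL F :=
  (List.forall_mem_cons.2 ⟨sub_desc ok.1 r0, (List.forall_mem_cons.2 ⟨sub_desc ok.1 r1, (fun _ hx => absurd hx List.not_mem_nil)⟩)⟩)
theorem hkd : ∀ x ∈ kn, ∀ F ∈ Fam dat.k dat.MJ dat.JM dat.bs x.1 x.2.1, Dsc dat.k dat.MJ dat.P dat.AL F :=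
  hkd0
theorem descr : Full 69480979 RL :=
  full_of cA cB (by decide +kernel) (chkV2_sound cV) cAL cP cPT cX cM cR (dat_desc cA ok hkd rt)
theorem cI : chkI (dat.rels.zip RL) dat.AL = true := by decide +kernel
theorem irr : Irr 69480979 RL := irr_of cA (chkV2_sound cV) cAL cP cX cM cR cI

end H78.BA.M69480979

namespace H78.BA.M69477145

open H78.BA

/-- the relations -/
def RL : List (ℕ × ℕ) :=
  [(4, 0x10100110001b0d1103511), (4, 0x10100100001b0c810271b), (3, 84948559), (3, 83898391),
    (3, 84948575), (4, 0x10100110001105910171b), (3, 85276511), (4, 0x10100110001b0d910371b),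
    (3, 67118097), (4, 0x14000000001814000500f), (4, 0x14d00594001b0dd94375f),
    (4, 0x16d00594001b0dd14375f), (3, 117452847), (3, 68232267), (3, 87308159), (3, 95862655),
    (3, 85342047), (3, 93599615)]

theorem cX : chkX dat = true := by decide +kernel
theorem cR : chkR dat.rels RL = true := by decide +kernel
theorem cM : mt dat.rM 3 69477145 = true := by decide +kernel
theorem hkd0 : ∀ x ∈ kn0, ∀ F ∈ Fam dat.k dat.MJ dat.JM dat.bs x.1 x.2.1, Dsc dat.k dat.MJ dat.P dat.AL F :=
  (List.forall_mem_cons.2 ⟨sub_desc ok.1 r0, (List.forall_mem_cons.2 ⟨sub_desc ok.1 r1, (fun _ hx => absurd hx List.not_mem_nil)⟩)⟩)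
theorem hkd : ∀ x ∈ kn, ∀ F ∈ Fam dat.k dat.MJ dat.JM dat.bs x.1 x.2.1, Dsc dat.k dat.MJ dat.P dat.AL F :=
  hkd0
theorem descr : Full 69477145 RL :=
  full_of cA cB (by decide +kernel) (chkV2_sound cV) cAL cP cPT cX cM cR (dat_desc cA ok hkd rt)
theorem cI : chkI (dat.rels.zip RL) dat.AL = true := by decide +kernel
theorem irr : Irr 69477145 RL := irr_of cA (chkV2_sound cV) cAL cP cX cM cR cI

end H78.BA.M69477145

namespace H78.BA.M74326801

open H78.BA

/-- the relations -/
def RL : List (ℕ × ℕ) :=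
  [(4, 0x11b60300491b8c892271b), (3, 131561311), (4, 0x11b72391c911853921511), (3, 127008511),
    (4, 0x11b72391c91b8db92371b), (3, 76625499), (4, 0x10060300481b0c890261b), (3, 67122187),
    (4, 0x100603004811050901411), (4, 0x100000000011050001411)]

theorem cX : chkX dat = true := by decide +kernel
theorem cR : chkR dat.rels RL = true := by decide +kernel
theorem cM : mt dat.rM 3 74326801 = true := by decide +kernel
theorem hkd0 : ∀ x ∈ kn0, ∀ F ∈ Fam dat.k dat.MJ dat.JM dat.bs x.1 x.2.1, Dsc dat.k dat.MJ dat.P dat.AL F :=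
  (List.forall_mem_cons.2 ⟨sub_desc ok.1 r0, (List.forall_mem_cons.2 ⟨sub_desc ok.1 r1, (fun _ hx => absurd hx List.not_mem_nil)⟩)⟩)
theorem hkd : ∀ x ∈ kn, ∀ F ∈ Fam dat.k dat.MJ dat.JM dat.bs x.1 x.2.1, Dsc dat.k dat.MJ dat.P dat.AL F :=
  hkd0
theorem descr : Full 74326801 RL :=
  full_of cA cB (by decide +kernel) (chkV2_sound cV) cAL cP cPT cX cM cR (dat_desc cA ok hkd rt)
theorem cI : chkI (dat.rels.zip RL) dat.AL = true := by decide +kernel
theorem irr : Irr 74326801 RL := irr_of cA (chkV2_sound cV) cAL cP cX cM cR cI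

end H78.BA.M74326801

namespace H78.BA.M73802513

open H78.BA

/-- the relations -/
def RL : List (ℕ × ℕ) :=
  [(3, 131561311), (4, 0x11b72391c91185b92171b), (4, 0x11b60300491b8c892271b),
    (4, 0x11b72391c91b8d3923511), (3, 127008511), (4, 0x11b72391c91b8db92371b), (3, 76620891),
    (3, 76621003), (3, 117469239), (3, 67117067), (3, 67118097)]

theorem cX : chkX dat = true := by decide +kernel
theorem cR : chkR dat.rels RL = true := by decide +kernel
theorem cM : mt dat.rM 3 73802513 = true := by decide +kernel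
theorem hkd0 : ∀ x ∈ kn0, ∀ F ∈ Fam dat.k dat.MJ dat.JM dat.bs x.1 x.2.1, Dsc dat.k dat.MJ dat.P dat.AL F :=
  (List.forall_mem_cons.2 ⟨sub_desc ok.1 r0, (List.forall_mem_cons.2 ⟨sub_desc ok.1 r1, (fun _ hx => absurd hx List.not_mem_nil)⟩)⟩)
theorem hkd : ∀ x ∈ kn, ∀ F ∈ Fam dat.k dat.MJ dat.JM dat.bs x.1 x.2.1, Dsc dat.k dat.MJ dat.P dat.AL F :=
  hkd0
theorem descr : Full 73802513 RL :=
  full_of cA cB (by decide +kernel) (chkV2_sound cV) cAL cP cPT cX cM cR (dat_desc cA ok hkd rt)
theorem cI : chkI (dat.rels.zip RL) dat.AL = true := by decide +kernel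
theorem irr : Irr 73802513 RL := irr_of cA (chkV2_sound cV) cAL cP cX cM cR cI

end H78.BA.M73802513

namespace H78.BA.M69477913

open H78.BA

/-- the relations -/
def RL : List (ℕ × ℕ) :=
  [(4, 0x100000000019058103513), (4, 0x1000000000130dc103719), (4, 0x10000000001b0cc10271b),
    (3, 67121943), (3, 67121939), (3, 68171547), (3, 76560159), (3, 67139359),
    (4, 0x10300000001b08802231b), (3, 67254047), (3, 76693311), (4, 0x10000000001b0d010171f),
    (4, 0x10000000001b09900323f),
    (5, 0x400020100000000000000000000000361b20068060000000001805900361b),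
    (5, 0x400020100000000000000000000000361b20064060000000001809900361b),
    (4, 0x10000000001a0d900362f), (4, 0x10000000001b0c810271f), (3, 67188319), (3, 67122783)]

theorem cX : chkX dat = true := by decide +kernel
theorem cR : chkR dat.rels RL = true := by decide +kernel
theorem cM : mt dat.rM 3 69477913 = true := by decide +kernel
theorem hkd0 : ∀ x ∈ kn0, ∀ F ∈ Fam dat.k dat.MJ dat.JM dat.bs x.1 x.2.1, Dsc dat.k dat.MJ dat.P dat.AL F :=
  (List.forall_mem_cons.2 ⟨sub_desc ok.1 r0, (List.forall_mem_cons.2 ⟨sub_desc ok.1 r1, (List.forall_mem_cons.2 ⟨sub_desc ok.1 r2, (fun _ hx => absurd hx List.not_mem_nil)⟩)⟩)⟩)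
theorem hkd : ∀ x ∈ kn, ∀ F ∈ Fam dat.k dat.MJ dat.JM dat.bs x.1 x.2.1, Dsc dat.k dat.MJ dat.P dat.AL F :=
  hkd0
theorem descr : Full 69477913 RL :=
  full_of cA cB (by decide +kernel) (chkV2_sound cV) cAL cP cPT cX cM cR (dat_desc cA ok hkd rt)
theorem cI : chkI (dat.rels.zip RL) dat.AL = true := by decide +kernel
theorem irr : Irr 69477913 RL := irr_of cA (chkV2_sound cV) cAL cP cX cM cR cI

end H78.BA.M69477913
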