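import Pool.Agent.H78.BA.G20
import Pool.Agent.H78.BA.Desc4

/-! Generated: description of the algebras by relations. -/

set_option linter.all false

namespace H78.BA.M2105865

open H78.BA

/-- the relations -/
def RL : List (ℕ × ℕ) :=
  [(3, 1062681), (3, 1062163), (3, 1057809), (3, 9233), (3, 10795), (3, 67117167), (2, 279),
    (3, 8271), (3, 8363), (3, 83898415), (3, 67121199), (2, 275), (4, 0x10000a29e3f),
    (4, 0x1000104167b), (5, 0x200000000000200008000b0d80abe1b), (3, 8335), (4, 0x100020816bb),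
    (3, 139807),
    (6, 0x8000000000000000000000000000008000008000000000000000008040000000000000000000000000000011048001209000000000048240009048000000000000000000000000000001209000241200000000009048001209),
    (3, 67122223), (3, 33567291), (3, 16790075), (2, 283), (4, 0x200000001b0d802321b),
    (4, 0x200000001b0c802261b), (4, 0x200000001b09802361b), (3, 33568299), (3, 16791083), (2, 287),
    (3, 1058591), (3, 8531519),
    (5, 0x2000000000202000002000000000036130006c360800000001b8d800361b),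
    (4, 0x2800000001b0d8029e3f), (4, 0x200000001305802361b), (4, 0x2000000001b0d8021e3f),
    (4, 0x400000001b0d8021e1f), (4, 0x20000000190d802161b), (4, 0x2000000001b058023e3f),
    (4, 0x400000001b058023e1f), (3, 8398655), (4, 0x200000000130d8023e3f),
    (4, 0x40000000130d8023e1f),
    (5, 0x20000000002020000024000000000361b0006c360000000000b0d800361b),
    (5, 0x20000000002020000024000000000260b0006c360000000001b0d800361b),
    (5, 0x20000000002020000024000000000321b0002c360000000001b0d800361b),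
    (5, 0x2000000000202000002000000000036190004c360000000001b0d800361b),
    (5, 0x20000000002020000020000000000361b00064360000000001b0d800361b),
    (5, 0x20000000002020000020000000000361b0006c36000000000190d800161b),
    (5, 0x20000000002020000020000000000361b0006c360000000001b0c800261b),
    (5, 0x20000000002020000020000000000361b0006c360000000001b0d800321b),
    (5, 0x20000000002020000020000000000361b0006c360000000001305800361b),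
    (5, 0x20000000002020000020000000000361b0006c360000000001b09800361b)]

theorem cX : chkX dat = true := by decide +kernel
theorem cR : chkR dat.rels RL = true := by decide +kernel
theorem cM : mt dat.rM 3 2105865 = true := by decide +kernel
theorem hkd0 : ∀ x ∈ kn0, ∀ F ∈ Fam dat.k dat.MJ dat.JM dat.bs x.1 x.2.1, Dsc dat.k dat.MJ dat.P dat.AL F :=
  (List.forall_mem_cons.2 ⟨sub_desc ok.1 r0, (List.forall_mem_cons.2 ⟨sub_desc ok.1 r1, (List.forall_mem_cons.2 ⟨sub_desc ok.1 r2, (List.forall_mem_cons.2 ⟨sub_desc ok.1 r3, (List.forall_mem_cons.2 ⟨sub_desc ok.1 r4, (List.forall_mem_cons.2 ⟨sub_desc ok.1 r5, (List.forall_mem_cons.2 ⟨sub_desc ok.1 r6, (List.forall_mem_cons.2 ⟨sub_desc ok.1 r7, (List.forall_mem_cons.2 ⟨sub_desc ok.1 r8, (List.forall_mem_cons.2 ⟨sub_desc ok.1 r9, (List.forall_mem_cons.2 ⟨sub_desc ok.1 r10, (List.forall_mem_cons.2 ⟨sub_desc ok.1 r11,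 (List.forall_mem_cons.2 ⟨sub_desc ok.1 r12, (List.forall_mem_cons.2 ⟨sub_desc ok.1 r13, (List.forall_mem_cons.2 ⟨sub_desc ok.1 r14, (List.forall_mem_cons.2 ⟨sub_desc ok.1 r15, (List.forall_mem_cons.2 ⟨sub_desc ok.1 r16, (List.forall_mem_cons.2 ⟨sub_desc ok.1 r17, (List.forall_mem_cons.2 ⟨sub_desc ok.1 r18, (List.forall_mem_cons.2 ⟨sub_desc ok.1 r19, (fun _ hx => absurd hx List.not_mem_nil)⟩)⟩)⟩)⟩)⟩)⟩)⟩)⟩)⟩)⟩)⟩)⟩)⟩)⟩)⟩)⟩)⟩)⟩)⟩)⟩)
theorem hkd1 : ∀ x ∈ kn1, ∀ F ∈ Fam dat.k dat.MJ dat.JM dat.bs x.1 x.2.1, Dsc dat.k dat.MJ dat.P dat.AL F :=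
  (List.forall_mem_cons.2 ⟨sub_desc ok.1 r20, (List.forall_mem_cons.2 ⟨sub_desc ok.1 r21, (List.forall_mem_cons.2 ⟨sub_desc ok.1 r22, (List.forall_mem_cons.2 ⟨sub_desc ok.1 r23, (List.forall_mem_cons.2 ⟨sub_desc ok.1 r24, (List.forall_mem_cons.2 ⟨sub_desc ok.1 r25, (List.forall_mem_cons.2 ⟨sub_desc ok.1 r26, (List.forall_mem_cons.2 ⟨sub_desc ok.1 r27, (List.forall_mem_cons.2 ⟨sub_desc ok.1 r28, (List.forall_mem_cons.2 ⟨sub_desc ok.1 r29, (List.forall_mem_cons.2 ⟨sub_desc ok.1 r30, (List.forall_mem_cons.2 ⟨sub_desc ok.1 r31, (List.forall_mem_cons.2 ⟨sub_desc ok.1 r32, (List.forall_mem_cons.2 ⟨sub_desc ok.1 r33, (List.forall_mem_cons.2 ⟨sub_desc ok.1 r34, (List.forall_mem_cons.2 ⟨sub_desc ok.1 r35, (List.forall_mem_cons.2 ⟨sub_desc ok.1 r36, (List.forall_mem_cons.2 ⟨sub_desc ok.1 r37, (List.forall_mem_cons.2 ⟨sub_desc ok.1 r38, (List.forall_mem_cons.2 ⟨sub_desc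 ok.1 r39, (fun _ hx => absurd hx List.not_mem_nil)⟩)⟩)⟩)⟩)⟩)⟩)⟩)⟩)⟩)⟩)⟩)⟩)⟩)⟩)⟩)⟩)⟩)⟩)⟩)⟩)
theorem hkd2 : ∀ x ∈ kn2, ∀ F ∈ Fam dat.k dat.MJ dat.JM dat.bs x.1 x.2.1, Dsc dat.k dat.MJ dat.P dat.AL F :=
  (List.forall_mem_cons.2 ⟨sub_desc ok.1 r40, (List.forall_mem_cons.2 ⟨sub_desc ok.1 r41, (List.forall_mem_cons.2 ⟨sub_desc ok.1 r42, (List.forall_mem_cons.2 ⟨sub_desc ok.1 r43, (List.forall_mem_cons.2 ⟨sub_desc ok.1 r44, (List.forall_mem_cons.2 ⟨sub_desc ok.1 r45, (List.forall_mem_cons.2 ⟨sub_desc ok.1 r46, (List.forall_mem_cons.2 ⟨sub_desc ok.1 r47, (List.forall_mem_cons.2 ⟨sub_desc ok.1 r48, (List.forall_mem_cons.2 ⟨sub_desc ok.1 r49, (List.forall_mem_cons.2 ⟨sub_desc ok.1 r50, (List.forall_mem_cons.2 ⟨sub_desc ok.1 r51, (List.forall_mem_cons.2 ⟨sub_desc ok.1 r52, (List.forall_mem_cons.2 ⟨sub_desc ok.1 r53, (List.forall_mem_cons.2 ⟨sub_desc ok.1 r54, (List.forall_mem_cons.2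 ⟨sub_desc ok.1 r55, (List.forall_mem_cons.2 ⟨sub_desc ok.1 r56, (List.forall_mem_cons.2 ⟨sub_desc ok.1 r57, (List.forall_mem_cons.2 ⟨sub_desc ok.1 r58, (List.forall_mem_cons.2 ⟨sub_desc ok.1 r59, (fun _ hx => absurd hx List.not_mem_nil)⟩)⟩)⟩)⟩)⟩)⟩)⟩)⟩)⟩)⟩)⟩)⟩)⟩)⟩)⟩)⟩)⟩)⟩)⟩)⟩)
theorem hkd3 : ∀ x ∈ kn3, ∀ F ∈ Fam dat.k dat.MJ dat.JM dat.bs x.1 x.2.1, Dsc dat.k dat.MJ dat.P dat.AL F :=
  (List.forall_mem_cons.2 ⟨sub_desc ok.1 r60, (List.forall_mem_cons.2 ⟨sub_desc ok.1 r61, (List.forall_mem_cons.2 ⟨sub_desc ok.1 r62, (List.forall_mem_cons.2 ⟨sub_desc ok.1 r63, (List.forall_mem_cons.2 ⟨sub_desc ok.1 r64, (List.forall_mem_cons.2 ⟨sub_desc ok.1 r65, (List.forall_mem_cons.2 ⟨sub_desc ok.1 r66, (List.forall_mem_cons.2 ⟨sub_desc ok.1 r67, (List.forall_mem_cons.2 ⟨sub_desc ok.1 r68, (List.forall_mem_cons.2 ⟨sub_desc ok.1 r69, (List.forall_mem_cons.2 ⟨sub_desc ok.1 r70,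 (List.forall_mem_cons.2 ⟨sub_desc ok.1 r71, (List.forall_mem_cons.2 ⟨sub_desc ok.1 r72, (List.forall_mem_cons.2 ⟨sub_desc ok.1 r73, (List.forall_mem_cons.2 ⟨sub_desc ok.1 r74, (List.forall_mem_cons.2 ⟨sub_desc ok.1 r75, (List.forall_mem_cons.2 ⟨sub_desc ok.1 r76, (List.forall_mem_cons.2 ⟨sub_desc ok.1 r77, (List.forall_mem_cons.2 ⟨sub_desc ok.1 r78, (List.forall_mem_cons.2 ⟨sub_desc ok.1 r79, (fun _ hx => absurd hx List.not_mem_nil)⟩)⟩)⟩)⟩)⟩)⟩)⟩)⟩)⟩)⟩)⟩)⟩)⟩)⟩)⟩)⟩)⟩)⟩)⟩)⟩)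
theorem hkd4 : ∀ x ∈ kn4, ∀ F ∈ Fam dat.k dat.MJ dat.JM dat.bs x.1 x.2.1, Dsc dat.k dat.MJ dat.P dat.AL F :=
  (List.forall_mem_cons.2 ⟨sub_desc ok.1 r80, (List.forall_mem_cons.2 ⟨sub_desc ok.1 r81, (List.forall_mem_cons.2 ⟨sub_desc ok.1 r82, (List.forall_mem_cons.2 ⟨sub_desc ok.1 r83, (List.forall_mem_cons.2 ⟨sub_desc ok.1 r84, (List.forall_mem_cons.2 ⟨sub_desc ok.1 r85, (List.forall_mem_cons.2 ⟨sub_desc ok.1 r86, (List.forall_mem_cons.2 ⟨sub_desc ok.1 r87, (List.forall_mem_cons.2 ⟨sub_desc ok.1 r88, (List.forall_mem_cons.2 ⟨sub_desc ok.1 r89, (List.forall_mem_cons.2 ⟨sub_desc ok.1 r90, (List.forall_mem_cons.2 ⟨sub_desc ok.1 r91, (List.forall_mem_cons.2 ⟨sub_desc ok.1 r92, (List.forall_mem_cons.2 ⟨sub_desc ok.1 r93, (List.forall_mem_cons.2 ⟨sub_desc ok.1 r94, (List.forall_mem_cons.2 ⟨sub_desc ok.1 r95, (List.forall_mem_cons.2 ⟨sub_desc ok.1 r96, (List.forall_mem_cons.2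 ⟨sub_desc ok.1 r97, (List.forall_mem_cons.2 ⟨sub_desc ok.1 r98, (List.forall_mem_cons.2 ⟨sub_desc ok.1 r99, (fun _ hx => absurd hx List.not_mem_nil)⟩)⟩)⟩)⟩)⟩)⟩)⟩)⟩)⟩)⟩)⟩)⟩)⟩)⟩)⟩)⟩)⟩)⟩)⟩)⟩)
theorem hkd5 : ∀ x ∈ kn5, ∀ F ∈ Fam dat.k dat.MJ dat.JM dat.bs x.1 x.2.1, Dsc dat.k dat.MJ dat.P dat.AL F :=
  (List.forall_mem_cons.2 ⟨sub_desc ok.1 r100, (List.forall_mem_cons.2 ⟨sub_desc ok.1 r101, (List.forall_mem_cons.2 ⟨sub_desc ok.1 r102, (List.forall_mem_cons.2 ⟨sub_desc ok.1 r103, (List.forall_mem_cons.2 ⟨sub_desc ok.1 r104, (List.forall_mem_cons.2 ⟨sub_desc ok.1 r105, (List.forall_mem_cons.2 ⟨sub_desc ok.1 r106, (List.forall_mem_cons.2 ⟨sub_desc ok.1 r107, (List.forall_mem_cons.2 ⟨sub_desc ok.1 r108, (List.forall_mem_cons.2 ⟨sub_desc ok.1 r109, (List.forall_mem_cons.2 ⟨sub_desc ok.1 r110, (List.forall_mem_cons.2 ⟨sub_desc ok.1 r111, (fun _ hx => absurd hx List.not_mem_nil)⟩)⟩)⟩)⟩)⟩)⟩)⟩)⟩)⟩)⟩)⟩)⟩)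
theorem hkd : ∀ x ∈ kn, ∀ F ∈ Fam dat.k dat.MJ dat.JM dat.bs x.1 x.2.1, Dsc dat.k dat.MJ dat.P dat.AL F :=
  List.forall_mem_append.2 ⟨hkd0, List.forall_mem_append.2 ⟨hkd1, List.forall_mem_append.2 ⟨hkd2, List.forall_mem_append.2 ⟨hkd3, List.forall_mem_append.2 ⟨hkd4, hkd5⟩⟩⟩⟩⟩
theorem descr : Full 2105865 RL :=
  full_of cA cB (by decide +kernel) (chkV2_sound cV) cAL cP cPT cX cM cR (dat_desc cA ok hkd rt)
theorem cI : chkI (dat.rels.zip RL) dat.AL = true := by decide +kernel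
theorem irr : Irr 2105865 RL := irr_of cA (chkV2_sound cV) cAL cP cX cM cR cI

end H78.BA.M2105865
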