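import Pool.Agent.H78.BA.G22
import Pool.Agent.H78.BA.Desc4

/-! Generated: description of the algebras by relations. -/

set_option linter.all false

namespace H78.BA.M2101257

open H78.BA

/-- the relations -/
def RL : List (ℕ × ℕ) :=
  [(3, 8532491), (3, 8532495), (3, 42345039), (3, 76951423), (3, 67120697), (3, 1078547),
    (3, 22115601), (2, 255), (3, 62832639), (3, 95862655), (3, 9578267), (3, 27701839),
    (3, 27718217), (3, 39396759), (3, 10366975), (3, 139783), (3, 8531519), (3, 9598745),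
    (3, 76709689), (3, 39417235), (3, 29278207), (3, 15935), (3, 28770175), (2, 31), (3, 180223),
    (2, 351), (2, 383), (2, 11), (3, 9447195), (3, 143879), (4, 0x481b05800011b), (3, 66846651),
    (3, 115048379), (3, 144903), (3, 67124795), (3, 261691), (3, 30719), (2, 23), (2, 279),
    (2, 407), (3, 8551993), (3, 8550169), (3, 75642649), (3, 76691225), (3, 15990585),
    (3, 80969529), (4, 0x200000000191d8027e1b), (3, 29503), (3, 226823), (3, 50069435),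
    (3, 16285243), (2, 191), (3, 32315), (3, 47939519), (2, 59), (2, 447), (3, 130619), (2, 283),
    (2, 319), (3, 59914011), (3, 76691227), (3, 113473307), (2, 159), (3, 30591), (3, 48854715),
    (3, 40466107), (3, 32607), (2, 275), (2, 403), (3, 139779),
    (5, 0x20000000002140004000000000000361b0006c340000000001b0d800361b),
    (5, 0x20000000062300000000000000000361b0006c340000000001b0d800361b), (3, 8549913), (3, 163385),
    (5, 0x2004004406000880c0000000002613000442600000000013098002613), (3, 75642393), (3, 9233),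
    (3, 9467449), (4, 0x1411b0d0000001), (4, 0x413f1d0000001), (3, 28689), (3, 95233),
    (3, 8401727), (4, 0x200000000190d8027e3f), (4, 0x40191f8027e3f), (2, 443), (2, 187),
    (4, 0x3803b0f800003f), (3, 117470783), (3, 15758907), (3, 10944127), (3, 10944123),
    (5, 0x100002024040004000000000000361b0006c340000000001b0d800361b),
    (5, 0x10000206c000000000000000000361b0006c340000000001b0d800361b), (4, 0x83f0d8027619),
    (4, 0x413b0d8027619), (4, 0x2000000003b0d8027619), (4, 0x2413b0d8023619),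
    (4, 0x2000000003f0c8027e3f), (3, 9450521), (4, 0xa000000011b0d002361b),
    (4, 0x2000000013f1d0027e3b), (3, 13858585), (3, 15758393), (4, 0x40d064081b0d810361b),
    (3, 196155), (4, 0x493f0d8027619), (4, 0x413f1f8023619), (4, 0x9a49248001b0d000361b),
    (3, 10681913), (3, 33584187), (4, 0x48000009b000007401), (3, 12810009), (3, 9466939),
    (4, 0x88d864111b0d822361b), (4, 0x2000000003f1f8027e39),
    (5, 0x1008000000000000000008361b0000000000000001bb0d0000001),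
    (5, 0x2000000006e36000d064100000000371b0006c360800000001b8d800361b),
    (5, 0x2000000006e36000d868100000000371b0006c360800000001b8d800361b),
    (5, 0x20000000002120000020000000000361b0006c340800000001b8d800361b), (3, 34092219),
    (4, 0x83f1f8023619), (5, 0x2000000006e36000d868000000000361b0006c340000000001b0d800361b),
    (5, 0x10000206030000c060000000000361b0006c340000000001b0d800361b),
    (5, 0x2000000006e36000d060000000000361b0006c360000000001b0d8003419),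
    (4, 0x200000001b0d0023613),
    (6, 0x400000000000000000000000000c06040180c00000000006030000c04000000000000000000000000000000180c00030180000000000c06000180c00000000000000000000000000000030180006030000000000180c0003011),
    (5, 0x1000000000000000000000361b00000000000000011b0d0000001)]

theorem cX : chkX dat = true := by decide +kernel
theorem cR : chkR dat.rels RL = true := by decide +kernel
theorem cM : mt dat.rM 3 2101257 = true := by decide +kernel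
theorem hkd0 : ∀ x ∈ kn0, ∀ F ∈ Fam dat.k dat.MJ dat.JM dat.bs x.1 x.2.1, Dsc dat.k dat.MJ dat.P dat.AL F :=
  (List.forall_mem_cons.2 ⟨sub_desc ok.1 r0, (List.forall_mem_cons.2 ⟨sub_desc ok.1 r1, (List.forall_mem_cons.2 ⟨sub_desc ok.1 r2, (List.forall_mem_cons.2 ⟨sub_desc ok.1 r3, (List.forall_mem_cons.2 ⟨sub_desc ok.1 r4, (List.forall_mem_cons.2 ⟨sub_desc ok.1 r5, (List.forall_mem_cons.2 ⟨sub_desc ok.1 r6, (List.forall_mem_cons.2 ⟨sub_desc ok.1 r7, (List.forall_mem_cons.2 ⟨sub_desc ok.1 r8, (List.forall_mem_cons.2 ⟨sub_desc ok.1 r9, (List.forall_mem_cons.2 ⟨sub_desc ok.1 r10, (List.forall_mem_cons.2 ⟨sub_desc ok.1 r11, (List.forall_mem_cons.2 ⟨sub_desc ok.1 r12, (List.forall_mem_cons.2 ⟨sub_desc ok.1 r13, (List.forall_mem_cons.2 ⟨sub_desc ok.1 r14, (List.forall_mem_cons.2 ⟨sub_desc ok.1 r15, (List.forall_mem_cons.2 ⟨sub_desc ok.1 r16, (List.forall_mem_cons.2 ⟨sub_desc ok.1 r17, (List.forall_mem_cons.2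 ⟨sub_desc ok.1 r18, (List.forall_mem_cons.2 ⟨sub_desc ok.1 r19, (fun _ hx => absurd hx List.not_mem_nil)⟩)⟩)⟩)⟩)⟩)⟩)⟩)⟩)⟩)⟩)⟩)⟩)⟩)⟩)⟩)⟩)⟩)⟩)⟩)⟩)
theorem hkd1 : ∀ x ∈ kn1, ∀ F ∈ Fam dat.k dat.MJ dat.JM dat.bs x.1 x.2.1, Dsc dat.k dat.MJ dat.P dat.AL F :=
  (List.forall_mem_cons.2 ⟨sub_desc ok.1 r20, (List.forall_mem_cons.2 ⟨sub_desc ok.1 r21, (List.forall_mem_cons.2 ⟨sub_desc ok.1 r22, (List.forall_mem_cons.2 ⟨sub_desc ok.1 r23, (List.forall_mem_cons.2 ⟨sub_desc ok.1 r24, (List.forall_mem_cons.2 ⟨sub_desc ok.1 r25, (List.forall_mem_cons.2 ⟨sub_desc ok.1 r26, (List.forall_mem_cons.2 ⟨sub_desc ok.1 r27, (List.forall_mem_cons.2 ⟨sub_desc ok.1 r28, (List.forall_mem_cons.2 ⟨sub_desc ok.1 r29, (List.forall_mem_cons.2 ⟨sub_desc ok.1 r30, (List.forall_mem_cons.2 ⟨sub_desc ok.1 r31, (List.forall_mem_cons.2 ⟨sub_desc ok.1 r32, (List.forall_mem_cons.2 ⟨sub_desc ok.1 r33, (List.forall_mem_cons.2 ⟨sub_desc ok.1 r34,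 (List.forall_mem_cons.2 ⟨sub_desc ok.1 r35, (List.forall_mem_cons.2 ⟨sub_desc ok.1 r36, (List.forall_mem_cons.2 ⟨sub_desc ok.1 r37, (List.forall_mem_cons.2 ⟨sub_desc ok.1 r38, (List.forall_mem_cons.2 ⟨sub_desc ok.1 r39, (fun _ hx => absurd hx List.not_mem_nil)⟩)⟩)⟩)⟩)⟩)⟩)⟩)⟩)⟩)⟩)⟩)⟩)⟩)⟩)⟩)⟩)⟩)⟩)⟩)⟩)
theorem hkd2 : ∀ x ∈ kn2, ∀ F ∈ Fam dat.k dat.MJ dat.JM dat.bs x.1 x.2.1, Dsc dat.k dat.MJ dat.P dat.AL F :=
  (List.forall_mem_cons.2 ⟨sub_desc ok.1 r40, (List.forall_mem_cons.2 ⟨sub_desc ok.1 r41, (List.forall_mem_cons.2 ⟨sub_desc ok.1 r42, (List.forall_mem_cons.2 ⟨sub_desc ok.1 r43, (List.forall_mem_cons.2 ⟨sub_desc ok.1 r44, (List.forall_mem_cons.2 ⟨sub_desc ok.1 r45, (List.forall_mem_cons.2 ⟨sub_desc ok.1 r46, (List.forall_mem_cons.2 ⟨sub_desc ok.1 r47, (List.forall_mem_cons.2 ⟨sub_desc ok.1 r48, (List.forall_mem_cons.2 ⟨sub_desc ok.1 r49, (List.forall_mem_cons.2 ⟨sub_desc ok.1 r50, (List.forall_mem_cons.2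 ⟨sub_desc ok.1 r51, (List.forall_mem_cons.2 ⟨sub_desc ok.1 r52, (List.forall_mem_cons.2 ⟨sub_desc ok.1 r53, (List.forall_mem_cons.2 ⟨sub_desc ok.1 r54, (List.forall_mem_cons.2 ⟨sub_desc ok.1 r55, (List.forall_mem_cons.2 ⟨sub_desc ok.1 r56, (List.forall_mem_cons.2 ⟨sub_desc ok.1 r57, (List.forall_mem_cons.2 ⟨sub_desc ok.1 r58, (List.forall_mem_cons.2 ⟨sub_desc ok.1 r59, (fun _ hx => absurd hx List.not_mem_nil)⟩)⟩)⟩)⟩)⟩)⟩)⟩)⟩)⟩)⟩)⟩)⟩)⟩)⟩)⟩)⟩)⟩)⟩)⟩)⟩)
theorem hkd3 : ∀ x ∈ kn3, ∀ F ∈ Fam dat.k dat.MJ dat.JM dat.bs x.1 x.2.1, Dsc dat.k dat.MJ dat.P dat.AL F :=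
  (List.forall_mem_cons.2 ⟨sub_desc ok.1 r60, (List.forall_mem_cons.2 ⟨sub_desc ok.1 r61, (List.forall_mem_cons.2 ⟨sub_desc ok.1 r62, (List.forall_mem_cons.2 ⟨sub_desc ok.1 r63, (List.forall_mem_cons.2 ⟨sub_desc ok.1 r64, (List.forall_mem_cons.2 ⟨sub_desc ok.1 r65, (List.forall_mem_cons.2 ⟨sub_desc ok.1 r66, (List.forall_mem_cons.2 ⟨sub_desc ok.1 r67, (List.forall_mem_cons.2 ⟨sub_desc ok.1 r68, (List.forall_mem_cons.2 ⟨sub_desc ok.1 r69, (List.forall_mem_cons.2 ⟨sub_desc ok.1 r70, (List.forall_mem_cons.2 ⟨sub_desc ok.1 r71, (List.forall_mem_cons.2 ⟨sub_desc ok.1 r72, (List.forall_mem_cons.2 ⟨sub_desc ok.1 r73, (List.forall_mem_cons.2 ⟨sub_desc ok.1 r74, (fun _ hx => absurd hx List.not_mem_nil)⟩)⟩)⟩)⟩)⟩)⟩)⟩)⟩)⟩)⟩)⟩)⟩)⟩)⟩)⟩)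
theorem hkd : ∀ x ∈ kn, ∀ F ∈ Fam dat.k dat.MJ dat.JM dat.bs x.1 x.2.1, Dsc dat.k dat.MJ dat.P dat.AL F :=
  List.forall_mem_append.2 ⟨hkd0, List.forall_mem_append.2 ⟨hkd1, List.forall_mem_append.2 ⟨hkd2, hkd3⟩⟩⟩
theorem descr : Full 2101257 RL :=
  full_of cA cB (by decide +kernel) (chkV2_sound cV) cAL cP cPT cX cM cR (dat_desc cA ok hkd rt)
theorem cI : chkI (dat.rels.zip RL) dat.AL = true := by decide +kernel
theorem irr : Irr 2101257 RL := irr_of cA (chkV2_sound cV) cAL cP cX cM cR cI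

end H78.BA.M2101257
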