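import Pool.Agent.H78.BA.G23
import Pool.Agent.H78.BA.Desc4

/-! Generated: description of the algebras by relations. -/

set_option linter.all false

namespace H78.BA.M2101761

open H78.BA

/-- the relations -/
def RL : List (ℕ × ℕ) :=
  [(3, 75642393), (3, 73739), (3, 8533011), (3, 42087441), (3, 90123), (3, 8397841),
    (4, 0x413000000161b), (2, 279), (4, 0x1209000000163b), (3, 73743),
    (5, 0x400000000600000000000000000000b0d802761b), (3, 2102843), (2, 11), (3, 139323),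
    (3, 9596735), (3, 67137587), (3, 42087963), (2, 275), (3, 9233), (3, 67138099),
    (4, 0x1200000011b0c802261b), (4, 0x1200000011b0d802321b),
    (5, 0x4000000004000000000000000000190d802361b), (4, 0x2000000003b05802761b),
    (4, 0x1200000011b09802361b), (3, 8546107), (4, 0x2000000013b09802761b), (3, 8545819),
    (3, 1077055), (3, 75642395),
    (5, 0x60000000462200000000000000000361b0006c360000000001b0d800321b), (3, 221215), (2, 31),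
    (2, 255), (2, 283), (3, 221467), (3, 27699),
    (5, 0x20000000022200000000100000000371b00064360000000001b0d800361b),
    (4, 0x2000000013b0d802661b), (4, 0x2000000001b05802761b), (2, 15), (3, 5849023), (2, 307),
    (5, 0x60000000462200000000000000000361b0006c360000000001b0c800261b),
    (5, 0x6000000040200000000000000000036190004c360000000001b0d800361b),
    (5, 0x60000000402000000000000000000361b00064360000000001b0d800361b),
    (5, 0x60000000462200000000000000000361b0006c360000000001b09800361b), (3, 8415035),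
    (4, 0x40000000370d8027e1b),
    (5, 0x6000000040200000000000000000036130006c360000000001b0d800361b),
    (4, 0x200000000330d802761b),
    (5, 0x20000000062300000000000000000361b0006c360000000000b0d800361b), (2, 315),
    (4, 0x30000016058036c1b), (3, 2110011), (3, 5865407), (2, 95), (3, 47939519),
    (5, 0x20000000062200000000000000000361b0006c360000000001305800361b),
    (5, 0x20000000062200000000000000000361b0006c36000000000190d800161b),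
    (4, 0x400000001f058027e1b),
    (6, 0x400000000000000000000000000400040180000000000000000000000000000000000000000000000000000190180036030000000000180c00030180000000000000000000000000000006030000c0600000000003018000603),
    (3, 1584695), (3, 11319), (4, 0x24000005805800701b),
    (5, 0x1000000200000000000008000003203180ec0600000000003018000603), (2, 159), (3, 5795383),
    (2, 191), (4, 0x600000001f058037e1b), (3, 33567291),
    (5, 0x20000000022300000000000000000321b0002c360000000001b0d800361b), (3, 16790075), (2, 187),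
    (4, 0x200000001305802361b), (2, 23),
    (6, 0x8000000000000000000000000008010010000000000000000000000000000000000000000000000000000009048002209000000000048240009048000000000000000000000000000001209000241200000000009048001209),
    (5, 0x2000000002220000000000000000036130006c360000000001b0d800361b),
    (5, 0x2000000002220000000000000000036190004c360000000001b0d800361b)]

theorem cX : chkX dat = true := by decide +kernel
theorem cR : chkR dat.rels RL = true := by decide +kernel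
theorem cM : mt dat.rM 3 2101761 = true := by decide +kernel
theorem hkd0 : ∀ x ∈ kn0, ∀ F ∈ Fam dat.k dat.MJ dat.JM dat.bs x.1 x.2.1, Dsc dat.k dat.MJ dat.P dat.AL F :=
  (List.forall_mem_cons.2 ⟨sub_desc ok.1 r0, (List.forall_mem_cons.2 ⟨sub_desc ok.1 r1, (List.forall_mem_cons.2 ⟨sub_desc ok.1 r2, (List.forall_mem_cons.2 ⟨sub_desc ok.1 r3, (List.forall_mem_cons.2 ⟨sub_desc ok.1 r4, (List.forall_mem_cons.2 ⟨sub_desc ok.1 r5, (List.forall_mem_cons.2 ⟨sub_desc ok.1 r6, (List.forall_mem_cons.2 ⟨sub_desc ok.1 r7, (List.forall_mem_cons.2 ⟨sub_desc ok.1 r8, (List.forall_mem_cons.2 ⟨sub_desc ok.1 r9, (List.forall_mem_cons.2 ⟨sub_desc ok.1 r10, (List.forall_mem_cons.2 ⟨sub_desc ok.1 r11, (List.forall_mem_cons.2 ⟨sub_desc ok.1 r12, (List.forall_mem_cons.2 ⟨sub_desc ok.1 r13, (List.forall_mem_cons.2 ⟨sub_desc ok.1 r14, (List.forall_mem_cons.2 ⟨sub_desc ok.1 r15, (List.forall_mem_cons.2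 ⟨sub_desc ok.1 r16, (List.forall_mem_cons.2 ⟨sub_desc ok.1 r17, (List.forall_mem_cons.2 ⟨sub_desc ok.1 r18, (List.forall_mem_cons.2 ⟨sub_desc ok.1 r19, (fun _ hx => absurd hx List.not_mem_nil)⟩)⟩)⟩)⟩)⟩)⟩)⟩)⟩)⟩)⟩)⟩)⟩)⟩)⟩)⟩)⟩)⟩)⟩)⟩)⟩)
theorem hkd1 : ∀ x ∈ kn1, ∀ F ∈ Fam dat.k dat.MJ dat.JM dat.bs x.1 x.2.1, Dsc dat.k dat.MJ dat.P dat.AL F :=
  (List.forall_mem_cons.2 ⟨sub_desc ok.1 r20, (List.forall_mem_cons.2 ⟨sub_desc ok.1 r21, (List.forall_mem_cons.2 ⟨sub_desc ok.1 r22, (List.forall_mem_cons.2 ⟨sub_desc ok.1 r23, (List.forall_mem_cons.2 ⟨sub_desc ok.1 r24, (List.forall_mem_cons.2 ⟨sub_desc ok.1 r25, (List.forall_mem_cons.2 ⟨sub_desc ok.1 r26, (List.forall_mem_cons.2 ⟨sub_desc ok.1 r27, (List.forall_mem_cons.2 ⟨sub_desc ok.1 r28, (List.forall_mem_cons.2 ⟨sub_desc ok.1 r29, (List.forall_mem_cons.2 ⟨sub_desc ok.1 r30, (List.forall_mem_cons.2 ⟨sub_desc ok.1 r31, (List.forall_mem_cons.2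 ⟨sub_desc ok.1 r32, (List.forall_mem_cons.2 ⟨sub_desc ok.1 r33, (List.forall_mem_cons.2 ⟨sub_desc ok.1 r34, (List.forall_mem_cons.2 ⟨sub_desc ok.1 r35, (List.forall_mem_cons.2 ⟨sub_desc ok.1 r36, (List.forall_mem_cons.2 ⟨sub_desc ok.1 r37, (List.forall_mem_cons.2 ⟨sub_desc ok.1 r38, (List.forall_mem_cons.2 ⟨sub_desc ok.1 r39, (fun _ hx => absurd hx List.not_mem_nil)⟩)⟩)⟩)⟩)⟩)⟩)⟩)⟩)⟩)⟩)⟩)⟩)⟩)⟩)⟩)⟩)⟩)⟩)⟩)⟩)
theorem hkd2 : ∀ x ∈ kn2, ∀ F ∈ Fam dat.k dat.MJ dat.JM dat.bs x.1 x.2.1, Dsc dat.k dat.MJ dat.P dat.AL F :=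
  (List.forall_mem_cons.2 ⟨sub_desc ok.1 r40, (List.forall_mem_cons.2 ⟨sub_desc ok.1 r41, (List.forall_mem_cons.2 ⟨sub_desc ok.1 r42, (List.forall_mem_cons.2 ⟨sub_desc ok.1 r43, (List.forall_mem_cons.2 ⟨sub_desc ok.1 r44, (List.forall_mem_cons.2 ⟨sub_desc ok.1 r45, (List.forall_mem_cons.2 ⟨sub_desc ok.1 r46, (List.forall_mem_cons.2 ⟨sub_desc ok.1 r47, (List.forall_mem_cons.2 ⟨sub_desc ok.1 r48, (List.forall_mem_cons.2 ⟨sub_desc ok.1 r49, (List.forall_mem_cons.2 ⟨sub_desc ok.1 r50, (List.forall_mem_cons.2 ⟨sub_desc ok.1 r51, (List.forall_mem_cons.2 ⟨sub_desc ok.1 r52, (List.forall_mem_cons.2 ⟨sub_desc ok.1 r53, (List.forall_mem_cons.2 ⟨sub_desc ok.1 r54, (List.forall_mem_cons.2 ⟨sub_desc ok.1 r55, (List.forall_mem_cons.2 ⟨sub_desc ok.1 r56, (List.forall_mem_cons.2 ⟨sub_desc ok.1 r57, (List.forall_mem_cons.2 ⟨sub_desc ok.1 r58, (List.forall_mem_cons.2 ⟨sub_desc ok.1 r59, (fun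 _ hx => absurd hx List.not_mem_nil)⟩)⟩)⟩)⟩)⟩)⟩)⟩)⟩)⟩)⟩)⟩)⟩)⟩)⟩)⟩)⟩)⟩)⟩)⟩)⟩)
theorem hkd3 : ∀ x ∈ kn3, ∀ F ∈ Fam dat.k dat.MJ dat.JM dat.bs x.1 x.2.1, Dsc dat.k dat.MJ dat.P dat.AL F :=
  (List.forall_mem_cons.2 ⟨sub_desc ok.1 r60, (List.forall_mem_cons.2 ⟨sub_desc ok.1 r61, (List.forall_mem_cons.2 ⟨sub_desc ok.1 r62, (List.forall_mem_cons.2 ⟨sub_desc ok.1 r63, (List.forall_mem_cons.2 ⟨sub_desc ok.1 r64, (List.forall_mem_cons.2 ⟨sub_desc ok.1 r65, (List.forall_mem_cons.2 ⟨sub_desc ok.1 r66, (List.forall_mem_cons.2 ⟨sub_desc ok.1 r67, (List.forall_mem_cons.2 ⟨sub_desc ok.1 r68, (List.forall_mem_cons.2 ⟨sub_desc ok.1 r69, (List.forall_mem_cons.2 ⟨sub_desc ok.1 r70, (List.forall_mem_cons.2 ⟨sub_desc ok.1 r71, (List.forall_mem_cons.2 ⟨sub_desc ok.1 r72, (List.forall_mem_cons.2 ⟨sub_desc ok.1 r73, (List.forall_mem_cons.2 ⟨sub_desc ok.1 r74, (List.forall_mem_cons.2 ⟨sub_desc ok.1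 r75, (List.forall_mem_cons.2 ⟨sub_desc ok.1 r76, (List.forall_mem_cons.2 ⟨sub_desc ok.1 r77, (List.forall_mem_cons.2 ⟨sub_desc ok.1 r78, (List.forall_mem_cons.2 ⟨sub_desc ok.1 r79, (fun _ hx => absurd hx List.not_mem_nil)⟩)⟩)⟩)⟩)⟩)⟩)⟩)⟩)⟩)⟩)⟩)⟩)⟩)⟩)⟩)⟩)⟩)⟩)⟩)⟩)
theorem hkd4 : ∀ x ∈ kn4, ∀ F ∈ Fam dat.k dat.MJ dat.JM dat.bs x.1 x.2.1, Dsc dat.k dat.MJ dat.P dat.AL F :=
  (List.forall_mem_cons.2 ⟨sub_desc ok.1 r80, (List.forall_mem_cons.2 ⟨sub_desc ok.1 r81, (List.forall_mem_cons.2 ⟨sub_desc ok.1 r82, (List.forall_mem_cons.2 ⟨sub_desc ok.1 r83, (List.forall_mem_cons.2 ⟨sub_desc ok.1 r84, (List.forall_mem_cons.2 ⟨sub_desc ok.1 r85, (List.forall_mem_cons.2 ⟨sub_desc ok.1 r86, (List.forall_mem_cons.2 ⟨sub_desc ok.1 r87, (List.forall_mem_cons.2 ⟨sub_desc ok.1 r88, (List.forall_mem_cons.2 ⟨sub_desc ok.1 r89, (List.forall_mem_cons.2 ⟨sub_desc ok.1 r90, (List.forall_mem_cons.2 ⟨sub_desc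 ok.1 r91, (List.forall_mem_cons.2 ⟨sub_desc ok.1 r92, (List.forall_mem_cons.2 ⟨sub_desc ok.1 r93, (List.forall_mem_cons.2 ⟨sub_desc ok.1 r94, (List.forall_mem_cons.2 ⟨sub_desc ok.1 r95, (List.forall_mem_cons.2 ⟨sub_desc ok.1 r96, (List.forall_mem_cons.2 ⟨sub_desc ok.1 r97, (List.forall_mem_cons.2 ⟨sub_desc ok.1 r98, (List.forall_mem_cons.2 ⟨sub_desc ok.1 r99, (fun _ hx => absurd hx List.not_mem_nil)⟩)⟩)⟩)⟩)⟩)⟩)⟩)⟩)⟩)⟩)⟩)⟩)⟩)⟩)⟩)⟩)⟩)⟩)⟩)⟩)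
theorem hkd5 : ∀ x ∈ kn5, ∀ F ∈ Fam dat.k dat.MJ dat.JM dat.bs x.1 x.2.1, Dsc dat.k dat.MJ dat.P dat.AL F :=
  (List.forall_mem_cons.2 ⟨sub_desc ok.1 r100, (List.forall_mem_cons.2 ⟨sub_desc ok.1 r101, (List.forall_mem_cons.2 ⟨sub_desc ok.1 r102, (List.forall_mem_cons.2 ⟨sub_desc ok.1 r103, (List.forall_mem_cons.2 ⟨sub_desc ok.1 r104, (List.forall_mem_cons.2 ⟨sub_desc ok.1 r105, (List.forall_mem_cons.2 ⟨sub_desc ok.1 r106, (List.forall_mem_cons.2 ⟨sub_desc ok.1 r107, (List.forall_mem_cons.2 ⟨sub_desc ok.1 r108, (List.forall_mem_cons.2 ⟨sub_desc ok.1 r109, (List.forall_mem_cons.2 ⟨sub_desc ok.1 r110, (List.forall_mem_cons.2 ⟨sub_desc ok.1 r111, (List.forall_mem_cons.2 ⟨sub_desc ok.1 r112, (List.forall_mem_cons.2 ⟨sub_desc ok.1 r113, (List.forall_mem_cons.2 ⟨sub_desc ok.1 r114, (List.forall_mem_cons.2 ⟨sub_desc ok.1 r115, (List.forall_mem_cons.2 ⟨sub_desc ok.1 r116, (List.forall_mem_cons.2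 ⟨sub_desc ok.1 r117, (List.forall_mem_cons.2 ⟨sub_desc ok.1 r118, (List.forall_mem_cons.2 ⟨sub_desc ok.1 r119, (fun _ hx => absurd hx List.not_mem_nil)⟩)⟩)⟩)⟩)⟩)⟩)⟩)⟩)⟩)⟩)⟩)⟩)⟩)⟩)⟩)⟩)⟩)⟩)⟩)⟩)
theorem hkd6 : ∀ x ∈ kn6, ∀ F ∈ Fam dat.k dat.MJ dat.JM dat.bs x.1 x.2.1, Dsc dat.k dat.MJ dat.P dat.AL F :=
  (List.forall_mem_cons.2 ⟨sub_desc ok.1 r120, (List.forall_mem_cons.2 ⟨sub_desc ok.1 r121, (List.forall_mem_cons.2 ⟨sub_desc ok.1 r122, (List.forall_mem_cons.2 ⟨sub_desc ok.1 r123, (List.forall_mem_cons.2 ⟨sub_desc ok.1 r124, (List.forall_mem_cons.2 ⟨sub_desc ok.1 r125, (List.forall_mem_cons.2 ⟨sub_desc ok.1 r126, (List.forall_mem_cons.2 ⟨sub_desc ok.1 r127, (List.forall_mem_cons.2 ⟨sub_desc ok.1 r128, (List.forall_mem_cons.2 ⟨sub_desc ok.1 r129, (List.forall_mem_cons.2 ⟨sub_desc ok.1 r130, (List.forall_mem_cons.2 ⟨sub_desc ok.1 r131, (List.forall_mem_cons.2 ⟨sub_desc ok.1 r132,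 (List.forall_mem_cons.2 ⟨sub_desc ok.1 r133, (List.forall_mem_cons.2 ⟨sub_desc ok.1 r134, (List.forall_mem_cons.2 ⟨sub_desc ok.1 r135, (List.forall_mem_cons.2 ⟨sub_desc ok.1 r136, (fun _ hx => absurd hx List.not_mem_nil)⟩)⟩)⟩)⟩)⟩)⟩)⟩)⟩)⟩)⟩)⟩)⟩)⟩)⟩)⟩)⟩)⟩)
theorem hkd : ∀ x ∈ kn, ∀ F ∈ Fam dat.k dat.MJ dat.JM dat.bs x.1 x.2.1, Dsc dat.k dat.MJ dat.P dat.AL F :=
  List.forall_mem_append.2 ⟨hkd0, List.forall_mem_append.2 ⟨hkd1, List.forall_mem_append.2 ⟨hkd2, List.forall_mem_append.2 ⟨hkd3, List.forall_mem_append.2 ⟨hkd4, List.forall_mem_append.2 ⟨hkd5, hkd6⟩⟩⟩⟩⟩⟩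
theorem descr : Full 2101761 RL :=
  full_of cA cB (by decide +kernel) (chkV2_sound cV) cAL cP cPT cX cM cR (dat_desc cA ok hkd rt)
theorem cI : chkI (dat.rels.zip RL) dat.AL = true := by decide +kernel
theorem irr : Irr 2101761 RL := irr_of cA (chkV2_sound cV) cAL cP cX cM cR cI

end H78.BA.M2101761
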