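import Pool.Agent.H78.BA.G24
import Pool.Agent.H78.BA.Desc4

/-! Generated: description of the algebras by relations. -/

set_option linter.all false

namespace H78.BA.M2105369

open H78.BA

/-- the relations -/
def RL : List (ℕ × ℕ) :=
  [(3, 1058587), (3, 1061643), (3, 12309), (2, 403), (4, 0x1b0d0100105), (3, 13381), (3, 8963),
    (3, 67121199), (5, 0x10000361b0006c7400000000000004000005), (4, 0x41b0d0000145), (3, 78853),
    (3, 9233), (4, 0x1b000017401), (3, 144901), (3, 1060921), (2, 339), (3, 9600829),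
    (4, 0x400000001b0d0023e1f), (3, 67122223), (5, 0x361b000683202000000000000020203),
    (4, 0x300000001b0c802271b), (4, 0x300000001b09802371b), (4, 0x300000001b0d802331b), (2, 287),
    (2, 275), (2, 59), (3, 30533), (3, 8551997), (3, 1062685), (3, 9451325),
    (4, 0x400000001b0d8023b1f),
    (5, 0x24000000002020000424000000000361b00064360000000001b0d800361b),
    (4, 0x400000001b0c8023f1f), (4, 0x400000001b0d0023e1b), (3, 10944123), (3, 28689),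
    (5, 0x20000000002020000020000000000361b0006c360800000001b8d800321b), (2, 283), (3, 10944127),
    (2, 187), (5, 0x20000000002120000024000000000361b0006c340000000001b0d800361b),
    (4, 0x2000000001b0d8027e3d), (4, 0x400000001b0d8023e1d), (3, 8402749),
    (5, 0x24000000002000000400000000000361b0006c360000000001b0c800261b),
    (5, 0x24000000002000000400000000000361b0006c360000000001b0d800321b),
    (5, 0x2400000000202000042400000000036130006c360000000001b0d800361b),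
    (5, 0x24000000002000000400000000000361b0006c360000000001b09800361b),
    (5, 0x2400000000202000042400000000036190004c360000000001b0d800361b),
    (5, 0x20000000002020000024000000000361a0006c260000000001b0d800361b),
    (5, 0x20000000002020000024000000000361b00068320000000001b0d800361b),
    (4, 0x2000000001b0d0027e3b),
    (6, 0x80000000000000000000000000000080010080000000000000000080000000000000000000000000000000120900024120000000000904800120900000000000000000000000000000024120004c2600000000012090002611),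
    (4, 0x1b0d0a2da29), (3, 13499), (3, 196137), (3, 31273), (3, 196205), (2, 255), (2, 159),
    (5, 0x20000000002120000020000000000361b0006c360000000001b0d8003419),
    (5, 0x2000000000000080000000000024122084ca600008000012090002611), (4, 0x1b0d20800bb),
    (3, 16790587), (4, 0x2800000001b0d002fe3b), (3, 33567803), (3, 8203), (3, 28770175),
    (4, 0x200000001b0d0023613), (3, 14893),
    (5, 0x20000000002020000020000000000361b0006c360000000001b0c800261b),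
    (5, 0x20000000002020000020000000000361b0006c360000000001b09800361b),
    (6, 0x8000000000000000000000000000008000008000000000000000008000000000000000000000000000000012090002412000000000090480012090000000000000000000000000000002412000482200000000012090002213)]

theorem cX : chkX dat = true := by decide +kernel
theorem cR : chkR dat.rels RL = true := by decide +kernel
theorem cM : mt dat.rM 3 2105369 = true := by decide +kernel
theorem hkd0 : ∀ x ∈ kn0, ∀ F ∈ Fam dat.k dat.MJ dat.JM dat.bs x.1 x.2.1, Dsc dat.k dat.MJ dat.P dat.AL F :=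
  (List.forall_mem_cons.2 ⟨sub_desc ok.1 r0, (List.forall_mem_cons.2 ⟨sub_desc ok.1 r1, (List.forall_mem_cons.2 ⟨sub_desc ok.1 r2, (List.forall_mem_cons.2 ⟨sub_desc ok.1 r3, (List.forall_mem_cons.2 ⟨sub_desc ok.1 r4, (List.forall_mem_cons.2 ⟨sub_desc ok.1 r5, (List.forall_mem_cons.2 ⟨sub_desc ok.1 r6, (List.forall_mem_cons.2 ⟨sub_desc ok.1 r7, (List.forall_mem_cons.2 ⟨sub_desc ok.1 r8, (List.forall_mem_cons.2 ⟨sub_desc ok.1 r9, (List.forall_mem_cons.2 ⟨sub_desc ok.1 r10, (List.forall_mem_cons.2 ⟨sub_desc ok.1 r11, (List.forall_mem_cons.2 ⟨sub_desc ok.1 r12, (List.forall_mem_cons.2 ⟨sub_desc ok.1 r13, (List.forall_mem_cons.2 ⟨sub_desc ok.1 r14, (List.forall_mem_cons.2 ⟨sub_desc ok.1 r15, (List.forall_mem_cons.2 ⟨sub_desc ok.1 r16, (List.forall_mem_cons.2 ⟨sub_desc ok.1 r17, (List.forall_mem_cons.2 ⟨sub_desc ok.1 r18, (List.forall_mem_cons.2 ⟨sub_desc ok.1 r19,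 (fun _ hx => absurd hx List.not_mem_nil)⟩)⟩)⟩)⟩)⟩)⟩)⟩)⟩)⟩)⟩)⟩)⟩)⟩)⟩)⟩)⟩)⟩)⟩)⟩)⟩)
theorem hkd1 : ∀ x ∈ kn1, ∀ F ∈ Fam dat.k dat.MJ dat.JM dat.bs x.1 x.2.1, Dsc dat.k dat.MJ dat.P dat.AL F :=
  (List.forall_mem_cons.2 ⟨sub_desc ok.1 r20, (List.forall_mem_cons.2 ⟨sub_desc ok.1 r21, (List.forall_mem_cons.2 ⟨sub_desc ok.1 r22, (List.forall_mem_cons.2 ⟨sub_desc ok.1 r23, (List.forall_mem_cons.2 ⟨sub_desc ok.1 r24, (List.forall_mem_cons.2 ⟨sub_desc ok.1 r25, (List.forall_mem_cons.2 ⟨sub_desc ok.1 r26, (List.forall_mem_cons.2 ⟨sub_desc ok.1 r27, (List.forall_mem_cons.2 ⟨sub_desc ok.1 r28, (List.forall_mem_cons.2 ⟨sub_desc ok.1 r29, (List.forall_mem_cons.2 ⟨sub_desc ok.1 r30, (List.forall_mem_cons.2 ⟨sub_desc ok.1 r31, (List.forall_mem_cons.2 ⟨sub_desc ok.1 r32, (List.forall_mem_cons.2 ⟨sub_desc ok.1 r33, (List.forall_mem_cons.2 ⟨sub_desc ok.1 r34, (List.forall_mem_cons.2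 ⟨sub_desc ok.1 r35, (List.forall_mem_cons.2 ⟨sub_desc ok.1 r36, (List.forall_mem_cons.2 ⟨sub_desc ok.1 r37, (List.forall_mem_cons.2 ⟨sub_desc ok.1 r38, (List.forall_mem_cons.2 ⟨sub_desc ok.1 r39, (fun _ hx => absurd hx List.not_mem_nil)⟩)⟩)⟩)⟩)⟩)⟩)⟩)⟩)⟩)⟩)⟩)⟩)⟩)⟩)⟩)⟩)⟩)⟩)⟩)⟩)
theorem hkd2 : ∀ x ∈ kn2, ∀ F ∈ Fam dat.k dat.MJ dat.JM dat.bs x.1 x.2.1, Dsc dat.k dat.MJ dat.P dat.AL F :=
  (List.forall_mem_cons.2 ⟨sub_desc ok.1 r40, (List.forall_mem_cons.2 ⟨sub_desc ok.1 r41, (List.forall_mem_cons.2 ⟨sub_desc ok.1 r42, (List.forall_mem_cons.2 ⟨sub_desc ok.1 r43, (List.forall_mem_cons.2 ⟨sub_desc ok.1 r44, (List.forall_mem_cons.2 ⟨sub_desc ok.1 r45, (List.forall_mem_cons.2 ⟨sub_desc ok.1 r46, (List.forall_mem_cons.2 ⟨sub_desc ok.1 r47, (List.forall_mem_cons.2 ⟨sub_desc ok.1 r48, (List.forall_mem_cons.2 ⟨sub_desc ok.1 r49, (List.forall_mem_cons.2 ⟨sub_desc ok.1 r50,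 (List.forall_mem_cons.2 ⟨sub_desc ok.1 r51, (List.forall_mem_cons.2 ⟨sub_desc ok.1 r52, (List.forall_mem_cons.2 ⟨sub_desc ok.1 r53, (List.forall_mem_cons.2 ⟨sub_desc ok.1 r54, (List.forall_mem_cons.2 ⟨sub_desc ok.1 r55, (List.forall_mem_cons.2 ⟨sub_desc ok.1 r56, (List.forall_mem_cons.2 ⟨sub_desc ok.1 r57, (List.forall_mem_cons.2 ⟨sub_desc ok.1 r58, (List.forall_mem_cons.2 ⟨sub_desc ok.1 r59, (fun _ hx => absurd hx List.not_mem_nil)⟩)⟩)⟩)⟩)⟩)⟩)⟩)⟩)⟩)⟩)⟩)⟩)⟩)⟩)⟩)⟩)⟩)⟩)⟩)⟩)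
theorem hkd3 : ∀ x ∈ kn3, ∀ F ∈ Fam dat.k dat.MJ dat.JM dat.bs x.1 x.2.1, Dsc dat.k dat.MJ dat.P dat.AL F :=
  (List.forall_mem_cons.2 ⟨sub_desc ok.1 r60, (List.forall_mem_cons.2 ⟨sub_desc ok.1 r61, (List.forall_mem_cons.2 ⟨sub_desc ok.1 r62, (List.forall_mem_cons.2 ⟨sub_desc ok.1 r63, (List.forall_mem_cons.2 ⟨sub_desc ok.1 r64, (List.forall_mem_cons.2 ⟨sub_desc ok.1 r65, (List.forall_mem_cons.2 ⟨sub_desc ok.1 r66, (List.forall_mem_cons.2 ⟨sub_desc ok.1 r67, (List.forall_mem_cons.2 ⟨sub_desc ok.1 r68, (List.forall_mem_cons.2 ⟨sub_desc ok.1 r69, (List.forall_mem_cons.2 ⟨sub_desc ok.1 r70, (List.forall_mem_cons.2 ⟨sub_desc ok.1 r71, (List.forall_mem_cons.2 ⟨sub_desc ok.1 r72, (List.forall_mem_cons.2 ⟨sub_desc ok.1 r73, (List.forall_mem_cons.2 ⟨sub_desc ok.1 r74, (List.forall_mem_cons.2 ⟨sub_desc ok.1 r75, (List.forall_mem_cons.2 ⟨sub_desc ok.1 r76, (List.forall_mem_cons.2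 ⟨sub_desc ok.1 r77, (List.forall_mem_cons.2 ⟨sub_desc ok.1 r78, (List.forall_mem_cons.2 ⟨sub_desc ok.1 r79, (fun _ hx => absurd hx List.not_mem_nil)⟩)⟩)⟩)⟩)⟩)⟩)⟩)⟩)⟩)⟩)⟩)⟩)⟩)⟩)⟩)⟩)⟩)⟩)⟩)⟩)
theorem hkd4 : ∀ x ∈ kn4, ∀ F ∈ Fam dat.k dat.MJ dat.JM dat.bs x.1 x.2.1, Dsc dat.k dat.MJ dat.P dat.AL F :=
  (List.forall_mem_cons.2 ⟨sub_desc ok.1 r80, (List.forall_mem_cons.2 ⟨sub_desc ok.1 r81, (List.forall_mem_cons.2 ⟨sub_desc ok.1 r82, (List.forall_mem_cons.2 ⟨sub_desc ok.1 r83, (List.forall_mem_cons.2 ⟨sub_desc ok.1 r84, (List.forall_mem_cons.2 ⟨sub_desc ok.1 r85, (List.forall_mem_cons.2 ⟨sub_desc ok.1 r86, (List.forall_mem_cons.2 ⟨sub_desc ok.1 r87, (List.forall_mem_cons.2 ⟨sub_desc ok.1 r88, (List.forall_mem_cons.2 ⟨sub_desc ok.1 r89, (List.forall_mem_cons.2 ⟨sub_desc ok.1 r90, (List.forall_mem_cons.2 ⟨sub_desc ok.1 r91, (List.forall_mem_cons.2 ⟨sub_desc ok.1 r92,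 (List.forall_mem_cons.2 ⟨sub_desc ok.1 r93, (List.forall_mem_cons.2 ⟨sub_desc ok.1 r94, (List.forall_mem_cons.2 ⟨sub_desc ok.1 r95, (List.forall_mem_cons.2 ⟨sub_desc ok.1 r96, (List.forall_mem_cons.2 ⟨sub_desc ok.1 r97, (List.forall_mem_cons.2 ⟨sub_desc ok.1 r98, (List.forall_mem_cons.2 ⟨sub_desc ok.1 r99, (fun _ hx => absurd hx List.not_mem_nil)⟩)⟩)⟩)⟩)⟩)⟩)⟩)⟩)⟩)⟩)⟩)⟩)⟩)⟩)⟩)⟩)⟩)⟩)⟩)⟩)
theorem hkd5 : ∀ x ∈ kn5, ∀ F ∈ Fam dat.k dat.MJ dat.JM dat.bs x.1 x.2.1, Dsc dat.k dat.MJ dat.P dat.AL F :=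
  (List.forall_mem_cons.2 ⟨sub_desc ok.1 r100, (List.forall_mem_cons.2 ⟨sub_desc ok.1 r101, (List.forall_mem_cons.2 ⟨sub_desc ok.1 r102, (List.forall_mem_cons.2 ⟨sub_desc ok.1 r103, (List.forall_mem_cons.2 ⟨sub_desc ok.1 r104, (List.forall_mem_cons.2 ⟨sub_desc ok.1 r105, (List.forall_mem_cons.2 ⟨sub_desc ok.1 r106, (List.forall_mem_cons.2 ⟨sub_desc ok.1 r107, (List.forall_mem_cons.2 ⟨sub_desc ok.1 r108, (List.forall_mem_cons.2 ⟨sub_desc ok.1 r109, (List.forall_mem_cons.2 ⟨sub_desc ok.1 r110, (List.forall_mem_cons.2 ⟨sub_desc ok.1 r111, (List.forall_mem_cons.2 ⟨sub_desc ok.1 r112, (List.forall_mem_cons.2 ⟨sub_desc ok.1 r113, (List.forall_mem_cons.2 ⟨sub_desc ok.1 r114, (List.forall_mem_cons.2 ⟨sub_desc ok.1 r115, (List.forall_mem_cons.2 ⟨sub_desc ok.1 r116, (List.forall_mem_cons.2 ⟨sub_desc ok.1 r117, (List.forall_mem_cons.2 ⟨sub_desc ok.1 r118, (List.forall_mem_cons.2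 ⟨sub_desc ok.1 r119, (fun _ hx => absurd hx List.not_mem_nil)⟩)⟩)⟩)⟩)⟩)⟩)⟩)⟩)⟩)⟩)⟩)⟩)⟩)⟩)⟩)⟩)⟩)⟩)⟩)⟩)
theorem hkd6 : ∀ x ∈ kn6, ∀ F ∈ Fam dat.k dat.MJ dat.JM dat.bs x.1 x.2.1, Dsc dat.k dat.MJ dat.P dat.AL F :=
  (List.forall_mem_cons.2 ⟨sub_desc ok.1 r120, (List.forall_mem_cons.2 ⟨sub_desc ok.1 r121, (List.forall_mem_cons.2 ⟨sub_desc ok.1 r122, (List.forall_mem_cons.2 ⟨sub_desc ok.1 r123, (List.forall_mem_cons.2 ⟨sub_desc ok.1 r124, (List.forall_mem_cons.2 ⟨sub_desc ok.1 r125, (List.forall_mem_cons.2 ⟨sub_desc ok.1 r126, (List.forall_mem_cons.2 ⟨sub_desc ok.1 r127, (List.forall_mem_cons.2 ⟨sub_desc ok.1 r128, (List.forall_mem_cons.2 ⟨sub_desc ok.1 r129, (List.forall_mem_cons.2 ⟨sub_desc ok.1 r130, (List.forall_mem_cons.2 ⟨sub_desc ok.1 r131, (List.forall_mem_cons.2 ⟨sub_desc ok.1 r132, (List.forall_mem_cons.2 ⟨sub_desc ok.1 r133, (List.forall_mem_cons.2 ⟨sub_desc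 ok.1 r134, (List.forall_mem_cons.2 ⟨sub_desc ok.1 r135, (List.forall_mem_cons.2 ⟨sub_desc ok.1 r136, (List.forall_mem_cons.2 ⟨sub_desc ok.1 r137, (List.forall_mem_cons.2 ⟨sub_desc ok.1 r138, (List.forall_mem_cons.2 ⟨sub_desc ok.1 r139, (fun _ hx => absurd hx List.not_mem_nil)⟩)⟩)⟩)⟩)⟩)⟩)⟩)⟩)⟩)⟩)⟩)⟩)⟩)⟩)⟩)⟩)⟩)⟩)⟩)⟩)
theorem hkd7 : ∀ x ∈ kn7, ∀ F ∈ Fam dat.k dat.MJ dat.JM dat.bs x.1 x.2.1, Dsc dat.k dat.MJ dat.P dat.AL F :=
  (List.forall_mem_cons.2 ⟨sub_desc ok.1 r140, (List.forall_mem_cons.2 ⟨sub_desc ok.1 r141, (List.forall_mem_cons.2 ⟨sub_desc ok.1 r142, (List.forall_mem_cons.2 ⟨sub_desc ok.1 r143, (List.forall_mem_cons.2 ⟨sub_desc ok.1 r144, (List.forall_mem_cons.2 ⟨sub_desc ok.1 r145, (List.forall_mem_cons.2 ⟨sub_desc ok.1 r146, (List.forall_mem_cons.2 ⟨sub_desc ok.1 r147, (List.forall_mem_cons.2 ⟨sub_desc ok.1 r148, (List.forall_mem_cons.2 ⟨sub_desc ok.1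 r149, (fun _ hx => absurd hx List.not_mem_nil)⟩)⟩)⟩)⟩)⟩)⟩)⟩)⟩)⟩)⟩)
theorem hkd : ∀ x ∈ kn, ∀ F ∈ Fam dat.k dat.MJ dat.JM dat.bs x.1 x.2.1, Dsc dat.k dat.MJ dat.P dat.AL F :=
  List.forall_mem_append.2 ⟨hkd0, List.forall_mem_append.2 ⟨hkd1, List.forall_mem_append.2 ⟨hkd2, List.forall_mem_append.2 ⟨hkd3, List.forall_mem_append.2 ⟨hkd4, List.forall_mem_append.2 ⟨hkd5, List.forall_mem_append.2 ⟨hkd6, hkd7⟩⟩⟩⟩⟩⟩⟩
theorem descr : Full 2105369 RL :=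
  full_of cA cB (by decide +kernel) (chkV2_sound cV) cAL cP cPT cX cM cR (dat_desc cA ok hkd rt)
theorem cI : chkI (dat.rels.zip RL) dat.AL = true := by decide +kernel
theorem irr : Irr 2105369 RL := irr_of cA (chkV2_sound cV) cAL cP cX cM cR cI

end H78.BA.M2105369
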