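import Pool.Agent.H78.BA.G27
import Pool.Agent.H78.BA.Desc4

/-! Generated: description of the algebras by relations. -/

set_option linter.all false

namespace H78.BA.M7086081

open H78.BA

/-- the relations -/
def RL : List (ℕ × ℕ) :=
  [(3, 59908353), (3, 77891), (2, 245), (3, 13323), (4, 0x11050001411), (2, 283), (3, 30759),
    (3, 76685569), (3, 256485), (2, 309)]

theorem cX : chkX dat = true := by decide +kernel
theorem cR : chkR dat.rels RL = true := by decide +kernel
theorem cM : mt dat.rM 3 7086081 = true := by decide +kernel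
theorem hkd0 : ∀ x ∈ kn0, ∀ F ∈ Fam dat.k dat.MJ dat.JM dat.bs x.1 x.2.1, Dsc dat.k dat.MJ dat.P dat.AL F :=
  (List.forall_mem_cons.2 ⟨sub_desc ok.1 r0, (List.forall_mem_cons.2 ⟨sub_desc ok.1 r1, (fun _ hx => absurd hx List.not_mem_nil)⟩)⟩)
theorem hkd : ∀ x ∈ kn, ∀ F ∈ Fam dat.k dat.MJ dat.JM dat.bs x.1 x.2.1, Dsc dat.k dat.MJ dat.P dat.AL F :=
  hkd0
theorem descr : Full 7086081 RL :=
  full_of cA cB (by decide +kernel) (chkV2_sound cV) cAL cP cPT cX cM cR (dat_desc cA ok hkd rt)
theorem cI : chkI (dat.rels.zip RL) dat.AL = true := by decide +kernel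
theorem irr : Irr 7086081 RL := irr_of cA (chkV2_sound cV) cAL cP cX cM cR cI

end H78.BA.M7086081

namespace H78.BA.M133660639

open H78.BA

/-- the relations -/
def RL : List (ℕ × ℕ) :=
  [(3, 126973007), (4, 0x111501114111051101511)]

theorem cX : chkX dat = true := by decide +kernel
theorem cR : chkR dat.rels RL = true := by decide +kernel
theorem cM : mt dat.rM 3 133660639 = true := by decide +kernel
theorem hkd : ∀ x ∈ kn, ∀ F ∈ Fam dat.k dat.MJ dat.JM dat.bs x.1 x.2.1, Dsc dat.k dat.MJ dat.P dat.AL F := fun _ hx => absurd hx List.not_mem_nil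
theorem descr : Full 133660639 RL :=
  full_of cA cB (by decide +kernel) (chkV2_sound cV) cAL cP cPT cX cM cR (dat_desc cA ok hkd rt)
theorem cI : chkI (dat.rels.zip RL) dat.AL = true := by decide +kernel
theorem irr : Irr 133660639 RL := irr_of cA (chkV2_sound cV) cAL cP cX cM cR cI

end H78.BA.M133660639
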