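import Pool.Agent.H78.BA.G28
import Pool.Agent.H78.BA.Desc4

/-! Generated: description of the algebras by relations. -/

set_option linter.all false

namespace H78.BA.M87308127

open H78.BA

/-- the relations -/
def RL : List (ℕ × ℕ) :=
  [(3, 84948047), (4, 0x101001100011051101511), (4, 0x14505554001b0dd14375f),
    (4, 0x14d00594001b0dd94375f), (3, 95862655), (3, 85327871), (3, 85276543), (3, 118765439),
    (4, 0x1450d514001b0dd14375f), (3, 85276511), (3, 85276671), (3, 85342047),
    (4, 0x16d00594001b0dd14375f), (3, 118765567), (3, 85309311), (4, 0x15f6df7c001b0df7db7df),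
    (4, 0x1df65f7c001b0df7db7df), (3, 119289727), (3, 85227391), (3, 93599615), (3, 92026751),
    (3, 85376895), (3, 87308159), (3, 85213055)]

theorem cX : chkX dat = true := by decide +kernel
theorem cR : chkR dat.rels RL = true := by decide +kernel
theorem cM : mt dat.rM 3 87308127 = true := by decide +kernel
theorem hkd0 : ∀ x ∈ kn0, ∀ F ∈ Fam dat.k dat.MJ dat.JM dat.bs x.1 x.2.1, Dsc dat.k dat.MJ dat.P dat.AL F :=
  (List.forall_mem_cons.2 ⟨sub_desc ok.1 r0, (fun _ hx => absurd hx List.not_mem_nil)⟩)
theorem hkd : ∀ x ∈ kn, ∀ F ∈ Fam dat.k dat.MJ dat.JM dat.bs x.1 x.2.1, Dsc dat.k dat.MJ dat.P dat.AL F :=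
  hkd0
theorem descr : Full 87308127 RL :=
  full_of cA cB (by decide +kernel) (chkV2_sound cV) cAL cP cPT cX cM cR (dat_desc cA ok hkd rt)
theorem cI : chkI (dat.rels.zip RL) dat.AL = true := by decide +kernel
theorem irr : Irr 87308127 RL := irr_of cA (chkV2_sound cV) cAL cP cX cM cR cI

end H78.BA.M87308127

namespace H78.BA.M133658495

open H78.BA

/-- the relations -/
def RL : List (ℕ × ℕ) :=
  [(3, 126973007), (4, 0x111501114111051101511)]

theorem cX : chkX dat = true := by decide +kernel
theorem cR : chkR dat.rels RL = true := by decide +kernel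
theorem cM : mt dat.rM 3 133658495 = true := by decide +kernel
theorem hkd : ∀ x ∈ kn, ∀ F ∈ Fam dat.k dat.MJ dat.JM dat.bs x.1 x.2.1, Dsc dat.k dat.MJ dat.P dat.AL F := fun _ hx => absurd hx List.not_mem_nil
theorem descr : Full 133658495 RL :=
  full_of cA cB (by decide +kernel) (chkV2_sound cV) cAL cP cPT cX cM cR (dat_desc cA ok hkd rt)
theorem cI : chkI (dat.rels.zip RL) dat.AL = true := by decide +kernel
theorem irr : Irr 133658495 RL := irr_of cA (chkV2_sound cV) cAL cP cX cM cR cI

end H78.BA.M133658495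

namespace H78.BA.M133658463

open H78.BA

/-- the relations -/
def RL : List (ℕ × ℕ) :=
  [(3, 126973007), (4, 0x111501114111051101511)]

theorem cX : chkX dat = true := by decide +kernel
theorem cR : chkR dat.rels RL = true := by decide +kernel
theorem cM : mt dat.rM 3 133658463 = true := by decide +kernel
theorem hkd : ∀ x ∈ kn, ∀ F ∈ Fam dat.k dat.MJ dat.JM dat.bs x.1 x.2.1, Dsc dat.k dat.MJ dat.P dat.AL F := fun _ hx => absurd hx List.not_mem_nil
theorem descr : Full 133658463 RL :=
  full_of cA cB (by decide +kernel) (chkV2_sound cV) cAL cP cPT cX cM cR (dat_desc cA ok hkd rt)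
theorem cI : chkI (dat.rels.zip RL) dat.AL = true := by decide +kernel
theorem irr : Irr 133658463 RL := irr_of cA (chkV2_sound cV) cAL cP cX cM cR cI

end H78.BA.M133658463
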