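import Pool.Agent.H78.BA.G3
import Pool.Agent.H78.BA.Desc4

/-! Generated: description of the algebras by relations. -/

set_option linter.all false

namespace H78.BA.M69476881

open H78.BA

/-- the relations -/
def RL : List (ℕ × ℕ) :=
  [(4, 0x10000000001b0d8103513), (4, 0x10000000001b0dc103719), (3, 67122967),
    (4, 0x10000000001b0dc10271b), (4, 0x10000000001905810371b), (4, 0x10000000001b0d810271b),
    (3, 68166681), (4, 0x10000000001b0cc10371b), (3, 68167451), (4, 0x1000000000130dc10371b),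
    (4, 0x10000000001b0d010371f), (4, 0x10000000001b0d810271f), (3, 67121175), (3, 67221087),
    (3, 68171547), (3, 67122767), (4, 0x10000000001b0d810171f), (3, 67122783), (3, 67118097),
    (3, 117452847), (3, 83898407), (4, 0x10000000001b0c810371f), (3, 67121951)]

theorem cX : chkX dat = true := by decide +kernel
theorem cR : chkR dat.rels RL = true := by decide +kernel
theorem cM : mt dat.rM 3 69476881 = true := by decide +kernel
theorem hkd0 : ∀ x ∈ kn0, ∀ F ∈ Fam dat.k dat.MJ dat.JM dat.bs x.1 x.2.1, Dsc dat.k dat.MJ dat.P dat.AL F :=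
  (List.forall_mem_cons.2 ⟨sub_desc ok.1 r0, (List.forall_mem_cons.2 ⟨sub_desc ok.1 r1, (List.forall_mem_cons.2 ⟨sub_desc ok.1 r2, (List.forall_mem_cons.2 ⟨sub_desc ok.1 r3, (List.forall_mem_cons.2 ⟨sub_desc ok.1 r4, (List.forall_mem_cons.2 ⟨sub_desc ok.1 r5, (fun _ hx => absurd hx List.not_mem_nil)⟩)⟩)⟩)⟩)⟩)⟩)
theorem hkd : ∀ x ∈ kn, ∀ F ∈ Fam dat.k dat.MJ dat.JM dat.bs x.1 x.2.1, Dsc dat.k dat.MJ dat.P dat.AL F :=
  hkd0
theorem descr : Full 69476881 RL :=
  full_of cA cB (by decide +kernel) (chkV2_sound cV) cAL cP cPT cX cM cR (dat_desc cA ok hkd rt)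
theorem cI : chkI (dat.rels.zip RL) dat.AL = true := by decide +kernel
theorem irr : Irr 69476881 RL := irr_of cA (chkV2_sound cV) cAL cP cX cM cR cI

end H78.BA.M69476881

namespace H78.BA.M73802521

open H78.BA

/-- the relations -/
def RL : List (ℕ × ℕ) :=
  [(4, 0x11150111411b0d1103511), (3, 131561311), (3, 127008495), (4, 0x11b60300491b8c892271b),
    (3, 127008511), (3, 117469207), (4, 0x11b72391c91185b92171b), (4, 0x1118cc46231188c463319),
    (4, 0x11988c46231188c462319), (4, 0x11b72391c91b8db92371b), (3, 67118097),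
    (4, 0x1c000000003814000500f), (3, 76620875)]

theorem cX : chkX dat = true := by decide +kernel
theorem cR : chkR dat.rels RL = true := by decide +kernel
theorem cM : mt dat.rM 3 73802521 = true := by decide +kernel
theorem hkd0 : ∀ x ∈ kn0, ∀ F ∈ Fam dat.k dat.MJ dat.JM dat.bs x.1 x.2.1, Dsc dat.k dat.MJ dat.P dat.AL F :=
  (List.forall_mem_cons.2 ⟨sub_desc ok.1 r0, (List.forall_mem_cons.2 ⟨sub_desc ok.1 r1, (fun _ hx => absurd hx List.not_mem_nil)⟩)⟩)
theorem hkd : ∀ x ∈ kn, ∀ F ∈ Fam dat.k dat.MJ dat.JM dat.bs x.1 x.2.1, Dsc dat.k dat.MJ dat.P dat.AL F :=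
  hkd0
theorem descr : Full 73802521 RL :=
  full_of cA cB (by decide +kernel) (chkV2_sound cV) cAL cP cPT cX cM cR (dat_desc cA ok hkd rt)
theorem cI : chkI (dat.rels.zip RL) dat.AL = true := by decide +kernel
theorem irr : Irr 73802521 RL := irr_of cA (chkV2_sound cV) cAL cP cX cM cR cI

end H78.BA.M73802521

namespace H78.BA.M74195473

open H78.BA

/-- the relations -/
def RL : List (ℕ × ℕ) :=
  [(4, 0x100000004911850921511), (4, 0x100000004919858923513), (3, 67270431),
    (4, 0x10000000491b8c892271b), (4, 0x1db60300001b0d000161b), (3, 67271479),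
    (4, 0x1db60300001b0c800261b), (4, 0x11b69b64001b0d800361b),
    (5, 0x40000000006434000584c0080200002409000481200401000012048002409),
    (4, 0x100000004813058903419), (4, 0x100000004811050901411), (4, 0x1000d86d801a09b00320b),
    (3, 67239679), (3, 67188315), (4, 0x1000000048190d0901613), (4, 0x11b00000011b88802231b),
    (4, 0x100000000011050001411), (3, 76691227), (3, 67204703), (4, 0x11b6db6c00130d8003619),
    (3, 67122187), (3, 117471271), (4, 0x10000000481b0c890261b), (4, 0x11b6db6c001b0c800261b)]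

theorem cX : chkX dat = true := by decide +kernel
theorem cR : chkR dat.rels RL = true := by decide +kernel
theorem cM : mt dat.rM 3 74195473 = true := by decide +kernel
theorem hkd0 : ∀ x ∈ kn0, ∀ F ∈ Fam dat.k dat.MJ dat.JM dat.bs x.1 x.2.1, Dsc dat.k dat.MJ dat.P dat.AL F :=
  (List.forall_mem_cons.2 ⟨sub_desc ok.1 r0, (List.forall_mem_cons.2 ⟨sub_desc ok.1 r1, (fun _ hx => absurd hx List.not_mem_nil)⟩)⟩)
theorem hkd : ∀ x ∈ kn, ∀ F ∈ Fam dat.k dat.MJ dat.JM dat.bs x.1 x.2.1, Dsc dat.k dat.MJ dat.P dat.AL F :=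
  hkd0
theorem descr : Full 74195473 RL :=
  full_of cA cB (by decide +kernel) (chkV2_sound cV) cAL cP cPT cX cM cR (dat_desc cA ok hkd rt)
theorem cI : chkI (dat.rels.zip RL) dat.AL = true := by decide +kernel
theorem irr : Irr 74195473 RL := irr_of cA (chkV2_sound cV) cAL cP cX cM cR cI

end H78.BA.M74195473

namespace H78.BA.M2097153

open H78.BA

/-- the relations -/
def RL : List (ℕ × ℕ) :=
  [(2, 187), (3, 95259), (3, 28691), (3, 90623), (2, 55), (3, 213503), (3, 5137), (3, 24615),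
    (2, 485), (3, 28709), (3, 248133), (3, 24599), (2, 23), (2, 39), (3, 9233), (2, 161), (2, 255),
    (2, 21), (2, 495), (2, 35), (2, 147), (2, 177), (2, 417), (2, 19), (2, 11), (2, 59),
    (3, 130639), (3, 253519), (2, 47), (2, 31), (2, 211), (3, 131071), (3, 253951), (2, 49),
    (3, 28719), (3, 82943), (3, 233327), (3, 28703), (3, 112255), (3, 100223), (4, 0xc300000dfff)]

theorem cX : chkX dat = true := by decide +kernel
theorem cR : chkR dat.rels RL = true := by decide +kernel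
theorem cM : mt dat.rM 3 2097153 = true := by decide +kernel
theorem hkd0 : ∀ x ∈ kn0, ∀ F ∈ Fam dat.k dat.MJ dat.JM dat.bs x.1 x.2.1, Dsc dat.k dat.MJ dat.P dat.AL F :=
  (List.forall_mem_cons.2 ⟨sub_desc ok.1 r0, (List.forall_mem_cons.2 ⟨sub_desc ok.1 r1, (List.forall_mem_cons.2 ⟨sub_desc ok.1 r2, (List.forall_mem_cons.2 ⟨sub_desc ok.1 r3, (List.forall_mem_cons.2 ⟨sub_desc ok.1 r4, (List.forall_mem_cons.2 ⟨sub_desc ok.1 r5, (List.forall_mem_cons.2 ⟨sub_desc ok.1 r6, (List.forall_mem_cons.2 ⟨sub_desc ok.1 r7, (List.forall_mem_cons.2 ⟨sub_desc ok.1 r8, (fun _ hx => absurd hx List.not_mem_nil)⟩)⟩)⟩)⟩)⟩)⟩)⟩)⟩)⟩)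
theorem hkd : ∀ x ∈ kn, ∀ F ∈ Fam dat.k dat.MJ dat.JM dat.bs x.1 x.2.1, Dsc dat.k dat.MJ dat.P dat.AL F :=
  hkd0
theorem descr : Full 2097153 RL :=
  full_of cA cB (by decide +kernel) (chkV2_sound cV) cAL cP cPT cX cM cR (dat_desc cA ok hkd rt)
theorem cI : chkI (dat.rels.zip RL) dat.AL = true := by decide +kernel
theorem irr : Irr 2097153 RL := irr_of cA (chkV2_sound cV) cAL cP cX cM cR cI

end H78.BA.M2097153

namespace H78.BA.M73670681

open H78.BA

/-- the relations -/
def RL : List (ℕ × ℕ) :=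
  [(3, 76686089), (4, 0x1000000180380b900002d), (3, 67269381), (3, 67204165), (3, 67248899),
    (4, 0x113000000113000022313), (4, 0x12400000013d00002532d),
    (5, 0x4000000000000000000004800000027a00000a65a04000000000000020b05), (3, 67239493),
    (4, 0x10000000493d948100105), (3, 76690185), (3, 67117067), (3, 67118097), (3, 67137557),
    (4, 0x12400000013d00002132d), (4, 0x10000000413d148100105), (4, 0x10000002003806c00002d),
    (5, 0x46400000046622000046400000000020000000000000000000190c8000019),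
    (4, 0x10000000013d000005305), (4, 0x10000000013d000020305), (4, 0x1000000180380f900002d),
    (4, 0x1000000000ff000010645), (4, 0x100000000038000001a2d), (4, 0x10000000003814000500d),
    (3, 67183683), (3, 67204677)]

theorem cX : chkX dat = true := by decide +kernel
theorem cR : chkR dat.rels RL = true := by decide +kernel
theorem cM : mt dat.rM 3 73670681 = true := by decide +kernel
theorem hkd0 : ∀ x ∈ kn0, ∀ F ∈ Fam dat.k dat.MJ dat.JM dat.bs x.1 x.2.1, Dsc dat.k dat.MJ dat.P dat.AL F :=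
  (List.forall_mem_cons.2 ⟨sub_desc ok.1 r0, (List.forall_mem_cons.2 ⟨sub_desc ok.1 r1, (List.forall_mem_cons.2 ⟨sub_desc ok.1 r2, (List.forall_mem_cons.2 ⟨sub_desc ok.1 r3, (List.forall_mem_cons.2 ⟨sub_desc ok.1 r4, (List.forall_mem_cons.2 ⟨sub_desc ok.1 r5, (List.forall_mem_cons.2 ⟨sub_desc ok.1 r6, (List.forall_mem_cons.2 ⟨sub_desc ok.1 r7, (fun _ hx => absurd hx List.not_mem_nil)⟩)⟩)⟩)⟩)⟩)⟩)⟩)⟩)
theorem hkd : ∀ x ∈ kn, ∀ F ∈ Fam dat.k dat.MJ dat.JM dat.bs x.1 x.2.1, Dsc dat.k dat.MJ dat.P dat.AL F :=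
  hkd0
theorem descr : Full 73670681 RL :=
  full_of cA cB (by decide +kernel) (chkV2_sound cV) cAL cP cPT cX cM cR (dat_desc cA ok hkd rt)
theorem cI : chkI (dat.rels.zip RL) dat.AL = true := by decide +kernel
theorem irr : Irr 73670681 RL := irr_of cA (chkV2_sound cV) cAL cP cX cM cR cI

end H78.BA.M73670681

namespace H78.BA.M2101249

open H78.BA

/-- the relations -/
def RL : List (ℕ × ℕ) :=
  [(3, 71721777), (3, 42082305), (3, 75636737), (3, 71459377), (2, 59), (3, 32315), (3, 221969),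
    (2, 351), (2, 283), (3, 15935), (2, 31), (3, 5137), (3, 13657105), (3, 9233), (3, 140209),
    (2, 255), (2, 305), (2, 177), (3, 47939519), (2, 191), (2, 11), (2, 403), (3, 139697),
    (3, 11319), (2, 23), (2, 407), (2, 19), (2, 311), (3, 14181393), (3, 80964913), (3, 13659153),
    (3, 71459121), (3, 47934903), (2, 183), (3, 5794871)]

theorem cX : chkX dat = true := by decide +kernel
theorem cR : chkR dat.rels RL = true := by decide +kernel
theorem cM : mt dat.rM 3 2101249 = true := by decide +kernel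
theorem hkd0 : ∀ x ∈ kn0, ∀ F ∈ Fam dat.k dat.MJ dat.JM dat.bs x.1 x.2.1, Dsc dat.k dat.MJ dat.P dat.AL F :=
  (List.forall_mem_cons.2 ⟨sub_desc ok.1 r0, (List.forall_mem_cons.2 ⟨sub_desc ok.1 r1, (List.forall_mem_cons.2 ⟨sub_desc ok.1 r2, (List.forall_mem_cons.2 ⟨sub_desc ok.1 r3, (List.forall_mem_cons.2 ⟨sub_desc ok.1 r4, (List.forall_mem_cons.2 ⟨sub_desc ok.1 r5, (List.forall_mem_cons.2 ⟨sub_desc ok.1 r6, (List.forall_mem_cons.2 ⟨sub_desc ok.1 r7, (fun _ hx => absurd hx List.not_mem_nil)⟩)⟩)⟩)⟩)⟩)⟩)⟩)⟩)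
theorem hkd : ∀ x ∈ kn, ∀ F ∈ Fam dat.k dat.MJ dat.JM dat.bs x.1 x.2.1, Dsc dat.k dat.MJ dat.P dat.AL F :=
  hkd0
theorem descr : Full 2101249 RL :=
  full_of cA cB (by decide +kernel) (chkV2_sound cV) cAL cP cPT cX cM cR (dat_desc cA ok hkd rt)
theorem cI : chkI (dat.rels.zip RL) dat.AL = true := by decide +kernel
theorem irr : Irr 2101249 RL := irr_of cA (chkV2_sound cV) cAL cP cX cM cR cI

end H78.BA.M2101249
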