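import Pool.Agent.H78.BA.G4
import Pool.Agent.H78.BA.Desc4

/-! Generated: description of the algebras by relations. -/

set_option linter.all false

namespace H78.BA.M69214745

open H78.BA

/-- the relations -/
def RL : List (ℕ × ℕ) :=
  [(3, 67121951), (3, 100675627), (3, 67122859), (3, 68167451), (4, 0x10000000001b0d810171b),
    (4, 0x10000000001b0d8103719), (4, 0x1000000000130d810371b), (3, 83898411), (3, 67122831),
    (4, 0x10000000001905810371b), (3, 67117843), (3, 67122767), (4, 0x10000000001b0d8103513),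
    (3, 68166681), (5, 0x4000000000000000000000000000002600000442602000000013000022613),
    (4, 0x10000000001b0c810371b), (4, 0x1000000000180d900302b),
    (5, 0x40000000000000000000000000000026000004c2602000000013000022213),
    (4, 0x10000000001809a00303b), (4, 0x10000000001b0d082361b), (4, 0x10000000001b0d810271b),
    (3, 67118097), (3, 67121175)]

theorem cX : chkX dat = true := by decide +kernel
theorem cR : chkR dat.rels RL = true := by decide +kernel
theorem cM : mt dat.rM 3 69214745 = true := by decide +kernel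
theorem hkd0 : ∀ x ∈ kn0, ∀ F ∈ Fam dat.k dat.MJ dat.JM dat.bs x.1 x.2.1, Dsc dat.k dat.MJ dat.P dat.AL F :=
  (List.forall_mem_cons.2 ⟨sub_desc ok.1 r0, (List.forall_mem_cons.2 ⟨sub_desc ok.1 r1, (List.forall_mem_cons.2 ⟨sub_desc ok.1 r2, (List.forall_mem_cons.2 ⟨sub_desc ok.1 r3, (List.forall_mem_cons.2 ⟨sub_desc ok.1 r4, (List.forall_mem_cons.2 ⟨sub_desc ok.1 r5, (List.forall_mem_cons.2 ⟨sub_desc ok.1 r6, (List.forall_mem_cons.2 ⟨sub_desc ok.1 r7, (List.forall_mem_cons.2 ⟨sub_desc ok.1 r8, (List.forall_mem_cons.2 ⟨sub_desc ok.1 r9, (List.forall_mem_cons.2 ⟨sub_desc ok.1 r10, (List.forall_mem_cons.2 ⟨sub_desc ok.1 r11, (fun _ hx => absurd hx List.not_mem_nil)⟩)⟩)⟩)⟩)⟩)⟩)⟩)⟩)⟩)⟩)⟩)⟩)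
theorem hkd : ∀ x ∈ kn, ∀ F ∈ Fam dat.k dat.MJ dat.JM dat.bs x.1 x.2.1, Dsc dat.k dat.MJ dat.P dat.AL F :=
  hkd0
theorem descr : Full 69214745 RL :=
  full_of cA cB (by decide +kernel) (chkV2_sound cV) cAL cP cPT cX cM cR (dat_desc cA ok hkd rt)
theorem cI : chkI (dat.rels.zip RL) dat.AL = true := by decide +kernel
theorem irr : Irr 69214745 RL := irr_of cA (chkV2_sound cV) cAL cP cX cM cR cI

end H78.BA.M69214745

namespace H78.BA.M2368521

open H78.BA

/-- the relations -/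
def RL : List (ℕ × ℕ) :=
  [(3, 76949341), (3, 13323), (3, 17834241), (3, 76620909), (3, 68165889), (4, 0x11050001411),
    (4, 0x1f1d800761f), (4, 0x3b1d800761f), (2, 255), (2, 277), (2, 85), (4, 0x225140010080020345),
    (4, 0x825140010080020345), (3, 145247), (3, 15935), (3, 131071), (3, 79451), (3, 30271),
    (2, 283), (3, 68166765), (4, 0x82514001209000db6d), (3, 140117), (3, 9708589), (2, 31),
    (4, 0x5b6db6c001b0db6db6db), (3, 28770175), (3, 3417133), (3, 8140351), (2, 223)]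

theorem cX : chkX dat = true := by decide +kernel
theorem cR : chkR dat.rels RL = true := by decide +kernel
theorem cM : mt dat.rM 3 2368521 = true := by decide +kernel
theorem hkd0 : ∀ x ∈ kn0, ∀ F ∈ Fam dat.k dat.MJ dat.JM dat.bs x.1 x.2.1, Dsc dat.k dat.MJ dat.P dat.AL F :=
  (List.forall_mem_cons.2 ⟨sub_desc ok.1 r0, (List.forall_mem_cons.2 ⟨sub_desc ok.1 r1, (List.forall_mem_cons.2 ⟨sub_desc ok.1 r2, (List.forall_mem_cons.2 ⟨sub_desc ok.1 r3, (List.forall_mem_cons.2 ⟨sub_desc ok.1 r4, (List.forall_mem_cons.2 ⟨sub_desc ok.1 r5, (fun _ hx => absurd hx List.not_mem_nil)⟩)⟩)⟩)⟩)⟩)⟩)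
theorem hkd : ∀ x ∈ kn, ∀ F ∈ Fam dat.k dat.MJ dat.JM dat.bs x.1 x.2.1, Dsc dat.k dat.MJ dat.P dat.AL F :=
  hkd0
theorem descr : Full 2368521 RL :=
  full_of cA cB (by decide +kernel) (chkV2_sound cV) cAL cP cPT cX cM cR (dat_desc cA ok hkd rt)
theorem cI : chkI (dat.rels.zip RL) dat.AL = true := by decide +kernel
theorem irr : Irr 2368521 RL := irr_of cA (chkV2_sound cV) cAL cP cX cM cR cI

end H78.BA.M2368521

namespace H78.BA.M2392649

open H78.BA

/-- the relations -/
def RL : List (ℕ × ℕ) :=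
  [(3, 1049873), (3, 50615135), (3, 67117295), (2, 279), (2, 351), (3, 62774863),
    (5, 0x120908800120904824010120904004120904820024ffc9200ff92493ff), (3, 53271551),
    (4, 0x114092c43012683c8fff), (3, 10292815), (2, 79)]

theorem cX : chkX dat = true := by decide +kernel
theorem cR : chkR dat.rels RL = true := by decide +kernel
theorem cM : mt dat.rM 3 2392649 = true := by decide +kernel
theorem hkd0 : ∀ x ∈ kn0, ∀ F ∈ Fam dat.k dat.MJ dat.JM dat.bs x.1 x.2.1, Dsc dat.k dat.MJ dat.P dat.AL F :=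
  (List.forall_mem_cons.2 ⟨sub_desc ok.1 r0, (fun _ hx => absurd hx List.not_mem_nil)⟩)
theorem hkd : ∀ x ∈ kn, ∀ F ∈ Fam dat.k dat.MJ dat.JM dat.bs x.1 x.2.1, Dsc dat.k dat.MJ dat.P dat.AL F :=
  hkd0
theorem descr : Full 2392649 RL :=
  full_of cA cB (by decide +kernel) (chkV2_sound cV) cAL cP cPT cX cM cR (dat_desc cA ok hkd rt)
theorem cI : chkI (dat.rels.zip RL) dat.AL = true := by decide +kernel
theorem irr : Irr 2392649 RL := irr_of cA (chkV2_sound cV) cAL cP cX cM cR cI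

end H78.BA.M2392649

namespace H78.BA.M2109449

open H78.BA

/-- the relations -/
def RL : List (ℕ × ℕ) :=
  [(3, 42345039), (3, 76951423), (3, 8532495), (3, 67120697), (3, 1078547), (3, 22115601),
    (3, 80969529), (3, 27701839), (2, 255), (3, 62832639), (3, 95862655), (3, 8203), (3, 27718217),
    (3, 39396759), (3, 10366975), (3, 139783), (3, 143879), (3, 66846651), (3, 115048379),
    (3, 144903), (3, 67124795), (3, 28955), (3, 8531519), (3, 9233), (3, 1081145), (3, 15990585),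
    (3, 28947), (3, 39417235), (3, 5252113), (3, 29278207), (3, 15935), (3, 28770175), (2, 31),
    (3, 180223), (2, 351), (2, 383), (2, 279), (2, 407), (3, 32315), (3, 29023), (2, 403),
    (3, 139779), (3, 226823), (3, 50069435), (3, 16285243), (2, 59), (2, 443), (3, 47939519),
    (2, 447), (4, 0x3803b0f800003f), (3, 117470783), (2, 319), (4, 0x70000381d800701f),
    (3, 1057809), (2, 275), (2, 283)]

theorem cX : chkX dat = true := by decide +kernel
theorem cR : chkR dat.rels RL = true := by decide +kernel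
theorem cM : mt dat.rM 3 2109449 = true := by decide +kernel
theorem hkd0 : ∀ x ∈ kn0, ∀ F ∈ Fam dat.k dat.MJ dat.JM dat.bs x.1 x.2.1, Dsc dat.k dat.MJ dat.P dat.AL F :=
  (List.forall_mem_cons.2 ⟨sub_desc ok.1 r0, (List.forall_mem_cons.2 ⟨sub_desc ok.1 r1, (List.forall_mem_cons.2 ⟨sub_desc ok.1 r2, (List.forall_mem_cons.2 ⟨sub_desc ok.1 r3, (List.forall_mem_cons.2 ⟨sub_desc ok.1 r4, (List.forall_mem_cons.2 ⟨sub_desc ok.1 r5, (List.forall_mem_cons.2 ⟨sub_desc ok.1 r6, (List.forall_mem_cons.2 ⟨sub_desc ok.1 r7, (List.forall_mem_cons.2 ⟨sub_desc ok.1 r8, (fun _ hx => absurd hx List.not_mem_nil)⟩)⟩)⟩)⟩)⟩)⟩)⟩)⟩)⟩)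
theorem hkd : ∀ x ∈ kn, ∀ F ∈ Fam dat.k dat.MJ dat.JM dat.bs x.1 x.2.1, Dsc dat.k dat.MJ dat.P dat.AL F :=
  hkd0
theorem descr : Full 2109449 RL :=
  full_of cA cB (by decide +kernel) (chkV2_sound cV) cAL cP cPT cX cM cR (dat_desc cA ok hkd rt)
theorem cI : chkI (dat.rels.zip RL) dat.AL = true := by decide +kernel
theorem irr : Irr 2109449 RL := irr_of cA (chkV2_sound cV) cAL cP cX cM cR cI

end H78.BA.M2109449
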