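import Pool.Agent.H78.BA.G5
import Pool.Agent.H78.BA.Desc4

/-! Generated: description of the algebras by relations. -/

set_option linter.all false

namespace H78.BA.M81817625

open H78.BA

/-- the relations -/
def RL : List (ℕ × ℕ) :=
  [(3, 109060107), (3, 113508095), (3, 115048379), (4, 0x1b0d80000038000003e3f), (3, 100922887),
    (4, 0x1bbfdb6ff7fb6d800361b), (3, 113475263), (3, 115047995), (4, 0x1fbfdb6bf7fb6d800361b),
    (4, 0x12098002413904c823209), (3, 130052155), (3, 113321051), (3, 113473211), (3, 113475131),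
    (3, 105064211), (3, 105086871), (4, 0x1935d34bf7fb6d8003413), (3, 80969529), (3, 113341695),
    (3, 80815129), (3, 104886295), (4, 0x1fbfdb6975fb4d000361b), (4, 0x139fd967f7fb6d8003619),
    (3, 71377937)]

theorem cX : chkX dat = true := by decide +kernel
theorem cR : chkR dat.rels RL = true := by decide +kernel
theorem cM : mt dat.rM 3 81817625 = true := by decide +kernel
theorem hkd0 : ∀ x ∈ kn0, ∀ F ∈ Fam dat.k dat.MJ dat.JM dat.bs x.1 x.2.1, Dsc dat.k dat.MJ dat.P dat.AL F :=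
  (List.forall_mem_cons.2 ⟨sub_desc ok.1 r0, (List.forall_mem_cons.2 ⟨sub_desc ok.1 r1, (List.forall_mem_cons.2 ⟨sub_desc ok.1 r2, (fun _ hx => absurd hx List.not_mem_nil)⟩)⟩)⟩)
theorem hkd : ∀ x ∈ kn, ∀ F ∈ Fam dat.k dat.MJ dat.JM dat.bs x.1 x.2.1, Dsc dat.k dat.MJ dat.P dat.AL F :=
  hkd0
theorem descr : Full 81817625 RL :=
  full_of cA cB (by decide +kernel) (chkV2_sound cV) cAL cP cPT cX cM cR (dat_desc cA ok hkd rt)
theorem cI : chkI (dat.rels.zip RL) dat.AL = true := by decide +kernel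
theorem irr : Irr 81817625 RL := irr_of cA (chkV2_sound cV) cAL cP cX cM cR cI

end H78.BA.M81817625

namespace H78.BA.M81817657

open H78.BA

/-- the relations -/
def RL : List (ℕ × ℕ) :=
  [(3, 109060107), (3, 131298911), (3, 133788927), (3, 117440507), (3, 114369627),
    (4, 0x1bbffbebffffffafbffbb), (4, 0x1bbffbfbffffffbfbffbb), (4, 0x1115d15175ff5d1517511),
    (3, 132906687), (3, 116094651), (3, 121663511), (3, 71377937)]

theorem cX : chkX dat = true := by decide +kernel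
theorem cR : chkR dat.rels RL = true := by decide +kernel
theorem cM : mt dat.rM 3 81817657 = true := by decide +kernel
theorem hkd0 : ∀ x ∈ kn0, ∀ F ∈ Fam dat.k dat.MJ dat.JM dat.bs x.1 x.2.1, Dsc dat.k dat.MJ dat.P dat.AL F :=
  (List.forall_mem_cons.2 ⟨sub_desc ok.1 r0, (List.forall_mem_cons.2 ⟨sub_desc ok.1 r1, (fun _ hx => absurd hx List.not_mem_nil)⟩)⟩)
theorem hkd : ∀ x ∈ kn, ∀ F ∈ Fam dat.k dat.MJ dat.JM dat.bs x.1 x.2.1, Dsc dat.k dat.MJ dat.P dat.AL F :=
  hkd0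
theorem descr : Full 81817657 RL :=
  full_of cA cB (by decide +kernel) (chkV2_sound cV) cAL cP cPT cX cM cR (dat_desc cA ok hkd rt)
theorem cI : chkI (dat.rels.zip RL) dat.AL = true := by decide +kernel
theorem irr : Irr 81817657 RL := irr_of cA (chkV2_sound cV) cAL cP cX cM cR cI

end H78.BA.M81817657

namespace H78.BA.M69480977

open H78.BA

/-- the relations -/
def RL : List (ℕ × ℕ) :=
  [(3, 68171545), (4, 0x10000000001b0dc103719), (3, 68167451), (4, 0x10000000001b0d8103513),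
    (4, 0x1000000000130dc10371b), (4, 0x10000000001905810371b), (4, 0x10000000001b0cc10371b),
    (3, 67121951), (3, 83898423), (4, 0x10000000001b0dc10271b), (3, 67122967),
    (4, 0x10000000001b0c810371b), (3, 67139359), (4, 0x103000000013000022313), (3, 68171547),
    (3, 68166681), (3, 67117843), (3, 67118155), (3, 67188319), (3, 76693311), (3, 76560159),
    (4, 0x10000000001b0d010371f), (3, 67122271), (3, 67117067), (3, 67122783),
    (4, 0x10000000001809900303f), (4, 0x100000000413098042313),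
    (5, 0x40000000000000000000000000000026000004c2603000000013000022313),
    (4, 0x10000000001b0c810371f),
    (5, 0x4000000000000000000000000000002600000442603000000013000022713),
    (4, 0x10000000001b0d810171f), (4, 0x10000000001b0d810271f)]

theorem cX : chkX dat = true := by decide +kernel
theorem cR : chkR dat.rels RL = true := by decide +kernel
theorem cM : mt dat.rM 3 69480977 = true := by decide +kernel
theorem hkd0 : ∀ x ∈ kn0, ∀ F ∈ Fam dat.k dat.MJ dat.JM dat.bs x.1 x.2.1, Dsc dat.k dat.MJ dat.P dat.AL F :=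
  (List.forall_mem_cons.2 ⟨sub_desc ok.1 r0, (List.forall_mem_cons.2 ⟨sub_desc ok.1 r1, (List.forall_mem_cons.2 ⟨sub_desc ok.1 r2, (List.forall_mem_cons.2 ⟨sub_desc ok.1 r3, (List.forall_mem_cons.2 ⟨sub_desc ok.1 r4, (List.forall_mem_cons.2 ⟨sub_desc ok.1 r5, (List.forall_mem_cons.2 ⟨sub_desc ok.1 r6, (List.forall_mem_cons.2 ⟨sub_desc ok.1 r7, (List.forall_mem_cons.2 ⟨sub_desc ok.1 r8, (List.forall_mem_cons.2 ⟨sub_desc ok.1 r9, (List.forall_mem_cons.2 ⟨sub_desc ok.1 r10, (List.forall_mem_cons.2 ⟨sub_desc ok.1 r11, (List.forall_mem_cons.2 ⟨sub_desc ok.1 r12, (List.forall_mem_cons.2 ⟨sub_desc ok.1 r13, (List.forall_mem_cons.2 ⟨sub_desc ok.1 r14, (List.forall_mem_cons.2 ⟨sub_desc ok.1 r15, (List.forall_mem_cons.2 ⟨sub_desc ok.1 r16, (List.forall_mem_cons.2 ⟨sub_desc ok.1 r17, (List.forall_mem_cons.2 ⟨sub_desc ok.1 r18, (List.forall_mem_cons.2 ⟨sub_desc ok.1 r19, (fun _ hx => absurd hx List.not_mem_nil)⟩)⟩)⟩)⟩)⟩)⟩)⟩)⟩)⟩)⟩)⟩)⟩)⟩)⟩)⟩)⟩)⟩)⟩)⟩)⟩)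
theorem hkd1 : ∀ x ∈ kn1, ∀ F ∈ Fam dat.k dat.MJ dat.JM dat.bs x.1 x.2.1, Dsc dat.k dat.MJ dat.P dat.AL F :=
  (List.forall_mem_cons.2 ⟨sub_desc ok.1 r20, (List.forall_mem_cons.2 ⟨sub_desc ok.1 r21, (List.forall_mem_cons.2 ⟨sub_desc ok.1 r22, (List.forall_mem_cons.2 ⟨sub_desc ok.1 r23, (fun _ hx => absurd hx List.not_mem_nil)⟩)⟩)⟩)⟩)
theorem hkd : ∀ x ∈ kn, ∀ F ∈ Fam dat.k dat.MJ dat.JM dat.bs x.1 x.2.1, Dsc dat.k dat.MJ dat.P dat.AL F :=
  List.forall_mem_append.2 ⟨hkd0, hkd1⟩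
theorem descr : Full 69480977 RL :=
  full_of cA cB (by decide +kernel) (chkV2_sound cV) cAL cP cPT cX cM cR (dat_desc cA ok hkd rt)
theorem cI : chkI (dat.rels.zip RL) dat.AL = true := by decide +kernel
theorem irr : Irr 69480977 RL := irr_of cA (chkV2_sound cV) cAL cP cX cM cR cI

end H78.BA.M69480977
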