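import Pool.Agent.H78.BA.G6
import Pool.Agent.H78.BA.Desc4

/-! Generated: description of the algebras by relations. -/

set_option linter.all false

namespace H78.BA.M2626570

open H78.BA

/-- the relations -/
def RL : List (ℕ × ℕ) :=
  [(4, 0x4111050101511), (3, 67120697),
    (5, 0x28000000002000080000000000000361b0006c340000000000b0d800361b),
    (5, 0x21040000004000000000000000361b00064360000000001b09800361b), (3, 76687129), (3, 67124795),
    (3, 59914011), (3, 76691227), (4, 0x198d8023613), (4, 0xe400000011b88802231b),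
    (4, 0x12400000011b88802231b),
    (5, 0x2800000006c16000d06c140000000361b0006c360a00000001b0d800361b),
    (4, 0xa0d02c141b0d828361b), (2, 283), (2, 319), (3, 15931), (3, 144147), (4, 0x11b88802231b),
    (3, 78923), (4, 0xa8d802360a),
    (5, 0x2800000006c22000886c140000000361b0006c360a00000001b0d800361b),
    (5, 0x2800000002836000d828140000000361b0006c360a00000001b0d800361b), (4, 0xc84d801b0db00361b),
    (3, 95839), (2, 255), (3, 50347579)]

theorem cX : chkX dat = true := by decide +kernel
theorem cR : chkR dat.rels RL = true := by decide +kernel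
theorem cM : mt dat.rM 3 2626570 = true := by decide +kernel
theorem hkd0 : ∀ x ∈ kn0, ∀ F ∈ Fam dat.k dat.MJ dat.JM dat.bs x.1 x.2.1, Dsc dat.k dat.MJ dat.P dat.AL F :=
  (List.forall_mem_cons.2 ⟨sub_desc ok.1 r0, (List.forall_mem_cons.2 ⟨sub_desc ok.1 r1, (fun _ hx => absurd hx List.not_mem_nil)⟩)⟩)
theorem hkd : ∀ x ∈ kn, ∀ F ∈ Fam dat.k dat.MJ dat.JM dat.bs x.1 x.2.1, Dsc dat.k dat.MJ dat.P dat.AL F :=
  hkd0
theorem descr : Full 2626570 RL :=
  full_of cA cB (by decide +kernel) (chkV2_sound cV) cAL cP cPT cX cM cR (dat_desc cA ok hkd rt)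
theorem cI : chkI (dat.rels.zip RL) dat.AL = true := by decide +kernel
theorem irr : Irr 2626570 RL := irr_of cA (chkV2_sound cV) cAL cP cX cM cR cI

end H78.BA.M2626570

namespace H78.BA.M2102282

open H78.BA

/-- the relations -/
def RL : List (ℕ × ℕ) :=
  [(4, 0x11050101511), (3, 13079), (3, 10041), (3, 67120697), (4, 0x130d8823619),
    (5, 0x120040000000000000000000000361b00064360000000001b09800361b),
    (5, 0x20100000008000000000000000361b0006c26000000000190d800361b), (4, 0x1b0c810271b),
    (4, 0x1b0c892271b), (4, 0x130d8923719),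
    (5, 0x120020000000000000000000000361b0006c26000000000190d800361b), (3, 144959), (3, 67124795),
    (5, 0x20100000004000000000000000361b00064360000000001b09800361b), (4, 0x2400000011b0c802271b),
    (4, 0x2400000011b09802331b), (2, 319), (3, 179775), (3, 261691), (2, 383), (3, 261663),
    (2, 447), (3, 226879), (4, 0x1b08802221b), (3, 13387), (4, 0xa0d802360a),
    (6, 0x800000000000000000000000000020000000000000000000000000000000000000000000000001b05800341b0000000000d82c001a0c800000000000000000000000000000260b00068360000000001b05800341b),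
    (6, 0x800000004000000000000000000000000000000000000000000000000000000000000000000001b05800341b0000000000d82c001a09800000000000000000000000000000320b00068360000000001b05800341b),
    (4, 0x800c82d001b0da00361b), (4, 0x8009869001b0da00361b), (2, 283), (3, 117470783),
    (3, 196155), (2, 191), (2, 187), (4, 0x190d8023613), (2, 95), (2, 223), (3, 228895),
    (3, 50347579), (4, 0x800d84d001b0da00361b), (3, 50361919), (3, 10944127), (2, 159), (2, 351),
    (3, 5865407), (2, 443)]

theorem cX : chkX dat = true := by decide +kernel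
theorem cR : chkR dat.rels RL = true := by decide +kernel
theorem cM : mt dat.rM 3 2102282 = true := by decide +kernel
theorem hkd0 : ∀ x ∈ kn0, ∀ F ∈ Fam dat.k dat.MJ dat.JM dat.bs x.1 x.2.1, Dsc dat.k dat.MJ dat.P dat.AL F :=
  (List.forall_mem_cons.2 ⟨sub_desc ok.1 r0, (List.forall_mem_cons.2 ⟨sub_desc ok.1 r1, (List.forall_mem_cons.2 ⟨sub_desc ok.1 r2, (List.forall_mem_cons.2 ⟨sub_desc ok.1 r3, (List.forall_mem_cons.2 ⟨sub_desc ok.1 r4, (List.forall_mem_cons.2 ⟨sub_desc ok.1 r5, (fun _ hx => absurd hx List.not_mem_nil)⟩)⟩)⟩)⟩)⟩)⟩)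
theorem hkd : ∀ x ∈ kn, ∀ F ∈ Fam dat.k dat.MJ dat.JM dat.bs x.1 x.2.1, Dsc dat.k dat.MJ dat.P dat.AL F :=
  hkd0
theorem descr : Full 2102282 RL :=
  full_of cA cB (by decide +kernel) (chkV2_sound cV) cAL cP cPT cX cM cR (dat_desc cA ok hkd rt)
theorem cI : chkI (dat.rels.zip RL) dat.AL = true := by decide +kernel
theorem irr : Irr 2102282 RL := irr_of cA (chkV2_sound cV) cAL cP cX cM cR cI

end H78.BA.M2102282
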