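import Pool.Agent.H78.BA.G7
import Pool.Agent.H78.BA.Desc4

/-! Generated: description of the algebras by relations. -/

set_option linter.all false

namespace H78.BA.M87340895

open H78.BA

/-- the relations -/
def RL : List (ℕ × ℕ) :=
  [(3, 84948047), (4, 0x101001100011051101511), (3, 127235935), (3, 93665119), (3, 100646911),
    (4, 0x15f67ffcdf5ffffffffff), (4, 0x15f77ffddf5ffffffffff), (3, 92192767), (3, 85737471)]

theorem cX : chkX dat = true := by decide +kernel
theorem cR : chkR dat.rels RL = true := by decide +kernel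
theorem cM : mt dat.rM 3 87340895 = true := by decide +kernel
theorem hkd0 : ∀ x ∈ kn0, ∀ F ∈ Fam dat.k dat.MJ dat.JM dat.bs x.1 x.2.1, Dsc dat.k dat.MJ dat.P dat.AL F :=
  (List.forall_mem_cons.2 ⟨sub_desc ok.1 r0, (fun _ hx => absurd hx List.not_mem_nil)⟩)
theorem hkd : ∀ x ∈ kn, ∀ F ∈ Fam dat.k dat.MJ dat.JM dat.bs x.1 x.2.1, Dsc dat.k dat.MJ dat.P dat.AL F :=
  hkd0
theorem descr : Full 87340895 RL :=
  full_of cA cB (by decide +kernel) (chkV2_sound cV) cAL cP cPT cX cM cR (dat_desc cA ok hkd rt)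
theorem cI : chkI (dat.rels.zip RL) dat.AL = true := by decide +kernel
theorem irr : Irr 87340895 RL := irr_of cA (chkV2_sound cV) cAL cP cX cM cR cI

end H78.BA.M87340895

namespace H78.BA.M69480969

open H78.BA

/-- the relations -/
def RL : List (ℕ × ℕ) :=
  [(3, 68166929),
    (6, 0x10004004000000000000000000000000000400000000000000000000400000000000000000000000000000000001b04800340900000000000000001b008000000000000000000000000000000000000241200000000000000001201),
    (4, 0x10000000081208c102513),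
    (5, 0x400002400000000000000000000000201200000000000002001005c00201b),
    (4, 0x103000000013000022313), (3, 68166673),
    (5, 0x400002400000000000000000000000201200000000000002001007c00203f), (3, 67269439),
    (5, 0x40000000100000010000000000000026000004c0000000000113090002313), (3, 67270463),
    (3, 68166931), (3, 67204687), (4, 0x10000000413f1c0102f3f), (3, 67118097),
    (4, 0x1114996c00130d800361b),
    (6, 0x10004004000000000000000000000000000400804800000000000000404804000000000000000000000000000001b00800340900000000000000000b008000000000000000000000000000000000000241200000000000000001201),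
    (4, 0x1596492c001905800361b), (4, 0x1000000000381c000701f), (4, 0x1114996c001b0d800361b),
    (3, 67183711), (3, 67117151), (3, 67137823), (3, 76689215), (4, 0x100000000412010042313),
    (3, 67183695), (3, 67117135), (3, 67183691), (4, 0x100000000038000023f3f),
    (4, 0x100824100012090022717), (3, 67183707), (3, 70530623), (3, 76693311), (3, 67249943),
    (3, 76555551), (4, 0x1db65b6c001b0d800161b), (3, 67248915), (4, 0x10000000001000034163f),
    (3, 67117067), (4, 0x100924900012090023f3f), (4, 0x1db65b6c001b0d800361b), (3, 67256127),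
    (3, 67124799), (3, 67248919), (3, 67117131)]

theorem cX : chkX dat = true := by decide +kernel
theorem cR : chkR dat.rels RL = true := by decide +kernel
theorem cM : mt dat.rM 3 69480969 = true := by decide +kernel
theorem hkd0 : ∀ x ∈ kn0, ∀ F ∈ Fam dat.k dat.MJ dat.JM dat.bs x.1 x.2.1, Dsc dat.k dat.MJ dat.P dat.AL F :=
  (List.forall_mem_cons.2 ⟨sub_desc ok.1 r0, (List.forall_mem_cons.2 ⟨sub_desc ok.1 r1, (List.forall_mem_cons.2 ⟨sub_desc ok.1 r2, (List.forall_mem_cons.2 ⟨sub_desc ok.1 r3, (List.forall_mem_cons.2 ⟨sub_desc ok.1 r4, (List.forall_mem_cons.2 ⟨sub_desc ok.1 r5, (List.forall_mem_cons.2 ⟨sub_desc ok.1 r6, (List.forall_mem_cons.2 ⟨sub_desc ok.1 r7, (List.forall_mem_cons.2 ⟨sub_desc ok.1 r8, (List.forall_mem_cons.2 ⟨sub_desc ok.1 r9, (List.forall_mem_cons.2 ⟨sub_desc ok.1 r10, (List.forall_mem_cons.2 ⟨sub_desc ok.1 r11, (List.forall_mem_cons.2 ⟨sub_desc ok.1 r12, (List.forall_mem_cons.2 ⟨sub_desc ok.1 r13, (List.forall_mem_cons.2 ⟨sub_desc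 ok.1 r14, (List.forall_mem_cons.2 ⟨sub_desc ok.1 r15, (List.forall_mem_cons.2 ⟨sub_desc ok.1 r16, (List.forall_mem_cons.2 ⟨sub_desc ok.1 r17, (List.forall_mem_cons.2 ⟨sub_desc ok.1 r18, (List.forall_mem_cons.2 ⟨sub_desc ok.1 r19, (fun _ hx => absurd hx List.not_mem_nil)⟩)⟩)⟩)⟩)⟩)⟩)⟩)⟩)⟩)⟩)⟩)⟩)⟩)⟩)⟩)⟩)⟩)⟩)⟩)⟩)
theorem hkd1 : ∀ x ∈ kn1, ∀ F ∈ Fam dat.k dat.MJ dat.JM dat.bs x.1 x.2.1, Dsc dat.k dat.MJ dat.P dat.AL F :=
  (List.forall_mem_cons.2 ⟨sub_desc ok.1 r20, (List.forall_mem_cons.2 ⟨sub_desc ok.1 r21, (List.forall_mem_cons.2 ⟨sub_desc ok.1 r22, (List.forall_mem_cons.2 ⟨sub_desc ok.1 r23, (List.forall_mem_cons.2 ⟨sub_desc ok.1 r24, (List.forall_mem_cons.2 ⟨sub_desc ok.1 r25, (List.forall_mem_cons.2 ⟨sub_desc ok.1 r26, (List.forall_mem_cons.2 ⟨sub_desc ok.1 r27, (List.forall_mem_cons.2 ⟨sub_desc ok.1 r28, (List.forall_mem_cons.2 ⟨sub_desc ok.1 r29, (List.forall_mem_cons.2 ⟨sub_desc ok.1 r30, (List.forall_mem_cons.2 ⟨sub_desc ok.1 r31, (List.forall_mem_cons.2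 ⟨sub_desc ok.1 r32, (List.forall_mem_cons.2 ⟨sub_desc ok.1 r33, (fun _ hx => absurd hx List.not_mem_nil)⟩)⟩)⟩)⟩)⟩)⟩)⟩)⟩)⟩)⟩)⟩)⟩)⟩)⟩)
theorem hkd : ∀ x ∈ kn, ∀ F ∈ Fam dat.k dat.MJ dat.JM dat.bs x.1 x.2.1, Dsc dat.k dat.MJ dat.P dat.AL F :=
  List.forall_mem_append.2 ⟨hkd0, hkd1⟩
theorem descr : Full 69480969 RL :=
  full_of cA cB (by decide +kernel) (chkV2_sound cV) cAL cP cPT cX cM cR (dat_desc cA ok hkd rt)
theorem cI : chkI (dat.rels.zip RL) dat.AL = true := by decide +kernel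
theorem irr : Irr 69480969 RL := irr_of cA (chkV2_sound cV) cAL cP cX cM cR cI

end H78.BA.M69480969
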