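import Pool.Agent.H78.BA.G8
import Pool.Agent.H78.BA.Desc4

/-! Generated: description of the algebras by relations. -/

set_option linter.all false

namespace H78.BA.M2367497

open H78.BA

/-- the relations -/
def RL : List (ℕ × ℕ) :=
  [(3, 17834241), (3, 8203), (3, 9233), (3, 193349), (2, 255), (3, 68165889), (2, 467),
    (3, 28769133), (3, 76554349), (4, 0x225140010000020345), (3, 140103), (3, 28701), (3, 9707549),
    (3, 14893), (3, 130885), (2, 215), (2, 85), (2, 277), (2, 275), (4, 0x3814000500d),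
    (3, 140101), (3, 9707581), (3, 74819), (4, 0x825140010000020345), (4, 0x24b15b6d140145),
    (3, 172871), (3, 11804701), (4, 0x534934c00100034d24d3), (2, 83), (3, 7610429), (3, 3416109),
    (3, 142151), (2, 279), (4, 0x17d00000db45), (4, 0x82514001000000db45), (3, 9707565),
    (3, 76950381)]

theorem cX : chkX dat = true := by decide +kernel
theorem cR : chkR dat.rels RL = true := by decide +kernel
theorem cM : mt dat.rM 3 2367497 = true := by decide +kernel
theorem hkd0 : ∀ x ∈ kn0, ∀ F ∈ Fam dat.k dat.MJ dat.JM dat.bs x.1 x.2.1, Dsc dat.k dat.MJ dat.P dat.AL F :=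
  (List.forall_mem_cons.2 ⟨sub_desc ok.1 r0, (List.forall_mem_cons.2 ⟨sub_desc ok.1 r1, (List.forall_mem_cons.2 ⟨sub_desc ok.1 r2, (List.forall_mem_cons.2 ⟨sub_desc ok.1 r3, (List.forall_mem_cons.2 ⟨sub_desc ok.1 r4, (List.forall_mem_cons.2 ⟨sub_desc ok.1 r5, (List.forall_mem_cons.2 ⟨sub_desc ok.1 r6, (List.forall_mem_cons.2 ⟨sub_desc ok.1 r7, (List.forall_mem_cons.2 ⟨sub_desc ok.1 r8, (List.forall_mem_cons.2 ⟨sub_desc ok.1 r9, (List.forall_mem_cons.2 ⟨sub_desc ok.1 r10, (List.forall_mem_cons.2 ⟨sub_desc ok.1 r11, (List.forall_mem_cons.2 ⟨sub_desc ok.1 r12, (List.forall_mem_cons.2 ⟨sub_desc ok.1 r13, (List.forall_mem_cons.2 ⟨sub_desc ok.1 r14, (List.forall_mem_cons.2 ⟨sub_desc ok.1 r15, (List.forall_mem_cons.2 ⟨sub_desc ok.1 r16, (List.forall_mem_cons.2 ⟨sub_desc ok.1 r17, (List.forall_mem_cons.2 ⟨sub_desc ok.1 r18, (List.forall_mem_cons.2 ⟨sub_desc ok.1 r19, (fun _ hx => absurd hx List.not_mem_nil)⟩)⟩)⟩)⟩)⟩)⟩)⟩)⟩)⟩)⟩)⟩)⟩)⟩)⟩)⟩)⟩)⟩)⟩)⟩)⟩)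
theorem hkd1 : ∀ x ∈ kn1, ∀ F ∈ Fam dat.k dat.MJ dat.JM dat.bs x.1 x.2.1, Dsc dat.k dat.MJ dat.P dat.AL F :=
  (List.forall_mem_cons.2 ⟨sub_desc ok.1 r20, (List.forall_mem_cons.2 ⟨sub_desc ok.1 r21, (List.forall_mem_cons.2 ⟨sub_desc ok.1 r22, (List.forall_mem_cons.2 ⟨sub_desc ok.1 r23, (List.forall_mem_cons.2 ⟨sub_desc ok.1 r24, (List.forall_mem_cons.2 ⟨sub_desc ok.1 r25, (List.forall_mem_cons.2 ⟨sub_desc ok.1 r26, (List.forall_mem_cons.2 ⟨sub_desc ok.1 r27, (List.forall_mem_cons.2 ⟨sub_desc ok.1 r28, (List.forall_mem_cons.2 ⟨sub_desc ok.1 r29, (List.forall_mem_cons.2 ⟨sub_desc ok.1 r30, (List.forall_mem_cons.2 ⟨sub_desc ok.1 r31, (List.forall_mem_cons.2 ⟨sub_desc ok.1 r32, (List.forall_mem_cons.2 ⟨sub_desc ok.1 r33, (List.forall_mem_cons.2 ⟨sub_desc ok.1 r34, (fun _ hx => absurd hx List.not_mem_nil)⟩)⟩)⟩)⟩)⟩)⟩)⟩)⟩)⟩)⟩)⟩)⟩)⟩)⟩)⟩)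
theorem hkd : ∀ x ∈ kn, ∀ F ∈ Fam dat.k dat.MJ dat.JM dat.bs x.1 x.2.1, Dsc dat.k dat.MJ dat.P dat.AL F :=
  List.forall_mem_append.2 ⟨hkd0, hkd1⟩
theorem descr : Full 2367497 RL :=
  full_of cA cB (by decide +kernel) (chkV2_sound cV) cAL cP cPT cX cM cR (dat_desc cA ok hkd rt)
theorem cI : chkI (dat.rels.zip RL) dat.AL = true := by decide +kernel
theorem irr : Irr 2367497 RL := irr_of cA (chkV2_sound cV) cAL cP cX cM cR cI

end H78.BA.M2367497

namespace H78.BA.M10493992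

open H78.BA

/-- the relations -/
def RL : List (ℕ × ℕ) :=
  [(3, 129507567), (4, 0x16d00524015500494016d), (3, 126885967), (4, 0x155005040111004140155),
    (4, 0x155005440155004540155), (4, 0x111001500155001500111), (4, 0x16d004a40155004a4016d),
    (2, 443), (4, 0x155a05040010004140b55), (3, 84942917), (4, 0x144415044010044150445),
    (4, 0x101001100010001100101), (4, 0x144415045010144150445), (4, 0x111005540010005540111),
    (4, 0x111001100111001100111), (3, 117993607),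
    (5, 0x594014d00000014d00594000000410204100000014d00594000000594014d),
    (4, 0x155005440010004540155), (4, 0x155001500010001500155), (4, 0x155001100010001100155),
    (3, 117973127), (3, 118780231), (2, 471),
    (6, 0x145004140105004140145000000000000000000005140144005100144005150400010000000010010400000000010000000000410010000000010000415140045001140045005140000000000000000000145005040141005040145),
    (5, 0x594014d00000016d005b4000000410204100000016d005b4000000594014d),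
    (5, 0x5b4016d00000016d005340000004102041000000165005b40000005b4016d), (3, 129769967), (2, 186),
    (4, 0x144415040010004150445), (3, 127148367),
    (5, 0x5b4016d00000014d00594000000410204100000014d005940000005b4016d), (3, 44739242)]

theorem cX : chkX dat = true := by decide +kernel
theorem cR : chkR dat.rels RL = true := by decide +kernel
theorem cM : mt dat.rM 3 10493992 = true := by decide +kernel
theorem hkd0 : ∀ x ∈ kn0, ∀ F ∈ Fam dat.k dat.MJ dat.JM dat.bs x.1 x.2.1, Dsc dat.k dat.MJ dat.P dat.AL F :=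
  (List.forall_mem_cons.2 ⟨sub_desc ok.1 r0, (List.forall_mem_cons.2 ⟨sub_desc ok.1 r1, (List.forall_mem_cons.2 ⟨sub_desc ok.1 r2, (fun _ hx => absurd hx List.not_mem_nil)⟩)⟩)⟩)
theorem hkd : ∀ x ∈ kn, ∀ F ∈ Fam dat.k dat.MJ dat.JM dat.bs x.1 x.2.1, Dsc dat.k dat.MJ dat.P dat.AL F :=
  hkd0
theorem descr : Full 10493992 RL :=
  full_of cA cB (by decide +kernel) (chkV2_sound cV) cAL cP cPT cX cM cR (dat_desc cA ok hkd rt)
theorem cI : chkI (dat.rels.zip RL) dat.AL = true := by decide +kernel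
theorem irr : Irr 10493992 RL := irr_of cA (chkV2_sound cV) cAL cP cX cM cR cI

end H78.BA.M10493992
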