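import Pool.Agent.H78.BA.D0
import Pool.Agent.H78.BA.D1
import Pool.Agent.H78.BA.D2
import Pool.Agent.H78.BA.D3
import Pool.Agent.H78.BA.D4
import Pool.Agent.H78.BA.D5
import Pool.Agent.H78.BA.D6
import Pool.Agent.H78.BA.D7
import Pool.Agent.H78.BA.D8
import Pool.Agent.H78.BA.D9
import Pool.Agent.H78.BA.D10
import Pool.Agent.H78.BA.D11
import Pool.Agent.H78.BA.D12
import Pool.Agent.H78.BA.D13
import Pool.Agent.H78.BA.D14
import Pool.Agent.H78.BA.D15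
import Pool.Agent.H78.BA.D16
import Pool.Agent.H78.BA.D17
import Pool.Agent.H78.BA.D18
import Pool.Agent.H78.BA.D19
import Pool.Agent.H78.BA.D20
import Pool.Agent.H78.BA.D22
import Pool.Agent.H78.BA.D23
import Pool.Agent.H78.BA.D24
import Pool.Agent.H78.BA.D27
import Pool.Agent.H78.BA.D28
import Pool.Agent.H78.BA.M2097152.Desc
import Pool.Agent.H78.BA.All

/-! The table of unary parts with the number of algebras and the relations. -/

namespace H78.BA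

set_option maxHeartbeats 0
set_option maxRecDepth 100000
set_option linter.all false

/-- part 0 of the table -/
def TD0 : List (ℕ × ℕ × List (ℕ × ℕ)) :=
  [(2097152, 14232, M2097152.RL), (2097153, 735, M2097153.RL), (2129920, 53, M2097184.RL),
   (2097217, 7680, M2097217.RL), (2098184, 18, M2098184.RL), (2099328, 3, M2099328.RL),
   (2101249, 837, M2101249.RL), (2105345, 4, M2105345.RL), (2105376, 22, M2105376.RL),
   (2101257, 8177, M2101257.RL), (2101761, 14347, M2101761.RL), (2105353, 370, M2105353.RL),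
   (2105361, 4578, M2105361.RL), (2367489, 227, M2367489.RL), (2629633, 1, M2629633.RL),
   (7077888, 319, M7077888.RL), (10493960, 3013, M10493960.RL), (69214209, 1, M69214209.RL),
   (2102282, 555, M2102282.RL), (2105369, 14230, M2105369.RL)]

theorem hTD0 : ∀ p ∈ TD0, Full p.1 p.2.2 :=
  List.forall_mem_cons.2 ⟨M2097152.descr,
  List.forall_mem_cons.2 ⟨M2097153.descr,
  List.forall_mem_cons.2 ⟨M2097184.descr,
  List.forall_mem_cons.2 ⟨M2097217.descr,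
  List.forall_mem_cons.2 ⟨M2098184.descr,
  List.forall_mem_cons.2 ⟨M2099328.descr,
  List.forall_mem_cons.2 ⟨M2101249.descr,
  List.forall_mem_cons.2 ⟨M2105345.descr,
  List.forall_mem_cons.2 ⟨M2105376.descr,
  List.forall_mem_cons.2 ⟨M2101257.descr,
  List.forall_mem_cons.2 ⟨M2101761.descr,
  List.forall_mem_cons.2 ⟨M2105353.descr,
  List.forall_mem_cons.2 ⟨M2105361.descr,
  List.forall_mem_cons.2 ⟨M2367489.descr,
  List.forall_mem_cons.2 ⟨M2629633.descr,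
  List.forall_mem_cons.2 ⟨M7077888.descr,
  List.forall_mem_cons.2 ⟨M10493960.descr,
  List.forall_mem_cons.2 ⟨M69214209.descr,
  List.forall_mem_cons.2 ⟨M2102282.descr,
  List.forall_mem_cons.2 ⟨M2105369.descr,
  (fun _ h => absurd h List.not_mem_nil)⟩⟩⟩⟩⟩⟩⟩⟩⟩⟩⟩⟩⟩⟩⟩⟩⟩⟩⟩⟩

theorem hTI0 : ∀ p ∈ TD0, Irr p.1 p.2.2 :=
  List.forall_mem_cons.2 ⟨M2097152.irr,
  List.forall_mem_cons.2 ⟨M2097153.irr,
  List.forall_mem_cons.2 ⟨M2097184.irr,
  List.forall_mem_cons.2 ⟨M2097217.irr,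
  List.forall_mem_cons.2 ⟨M2098184.irr,
  List.forall_mem_cons.2 ⟨M2099328.irr,
  List.forall_mem_cons.2 ⟨M2101249.irr,
  List.forall_mem_cons.2 ⟨M2105345.irr,
  List.forall_mem_cons.2 ⟨M2105376.irr,
  List.forall_mem_cons.2 ⟨M2101257.irr,
  List.forall_mem_cons.2 ⟨M2101761.irr,
  List.forall_mem_cons.2 ⟨M2105353.irr,
  List.forall_mem_cons.2 ⟨M2105361.irr,
  List.forall_mem_cons.2 ⟨M2367489.irr,
  List.forall_mem_cons.2 ⟨M2629633.irr,
  List.forall_mem_cons.2 ⟨M7077888.irr,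
  List.forall_mem_cons.2 ⟨M10493960.irr,
  List.forall_mem_cons.2 ⟨M69214209.irr,
  List.forall_mem_cons.2 ⟨M2102282.irr,
  List.forall_mem_cons.2 ⟨M2105369.irr,
  (fun _ h => absurd h List.not_mem_nil)⟩⟩⟩⟩⟩⟩⟩⟩⟩⟩⟩⟩⟩⟩⟩⟩⟩⟩⟩⟩

/-- part 1 of the table -/
def TD1 : List (ℕ × ℕ × List (ℕ × ℕ)) :=
  [(2105865, 11826, M2105865.RL), (2106377, 64, M2106377.RL), (2109449, 1025, M2109449.RL),
   (2367497, 3418, M2367497.RL), (2367505, 2263, M2367505.RL), (6684928, 14, M6684928.RL),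
   (10493992, 327, M10493992.RL), (69214217, 6, M69214217.RL), (69214225, 4, M69214225.RL),
   (69214241, 1, M69214241.RL), (2367513, 5215, M2367513.RL), (2368521, 596, M2368521.RL),
   (2626570, 166, M2626570.RL), (2630161, 100, M2630161.RL), (2656416, 1, M2656416.RL),
   (7086081, 35, M7086081.RL), (7209216, 10, M7209216.RL), (10514440, 42, M10514440.RL),
   (69214233, 39, M69214233.RL), (69214281, 29, M69214281.RL)]

theorem hTD1 : ∀ p ∈ TD1, Full p.1 p.2.2 :=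
  List.forall_mem_cons.2 ⟨M2105865.descr,
  List.forall_mem_cons.2 ⟨M2106377.descr,
  List.forall_mem_cons.2 ⟨M2109449.descr,
  List.forall_mem_cons.2 ⟨M2367497.descr,
  List.forall_mem_cons.2 ⟨M2367505.descr,
  List.forall_mem_cons.2 ⟨M6684928.descr,
  List.forall_mem_cons.2 ⟨M10493992.descr,
  List.forall_mem_cons.2 ⟨M69214217.descr,
  List.forall_mem_cons.2 ⟨M69214225.descr,
  List.forall_mem_cons.2 ⟨M69214241.descr,
  List.forall_mem_cons.2 ⟨M2367513.descr,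
  List.forall_mem_cons.2 ⟨M2368521.descr,
  List.forall_mem_cons.2 ⟨M2626570.descr,
  List.forall_mem_cons.2 ⟨M2630161.descr,
  List.forall_mem_cons.2 ⟨M2656416.descr,
  List.forall_mem_cons.2 ⟨M7086081.descr,
  List.forall_mem_cons.2 ⟨M7209216.descr,
  List.forall_mem_cons.2 ⟨M10514440.descr,
  List.forall_mem_cons.2 ⟨M69214233.descr,
  List.forall_mem_cons.2 ⟨M69214281.descr,
  (fun _ h => absurd h List.not_mem_nil)⟩⟩⟩⟩⟩⟩⟩⟩⟩⟩⟩⟩⟩⟩⟩⟩⟩⟩⟩⟩

theorem hTI1 : ∀ p ∈ TD1, Irr p.1 p.2.2 :=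
  List.forall_mem_cons.2 ⟨M2105865.irr,
  List.forall_mem_cons.2 ⟨M2106377.irr,
  List.forall_mem_cons.2 ⟨M2109449.irr,
  List.forall_mem_cons.2 ⟨M2367497.irr,
  List.forall_mem_cons.2 ⟨M2367505.irr,
  List.forall_mem_cons.2 ⟨M6684928.irr,
  List.forall_mem_cons.2 ⟨M10493992.irr,
  List.forall_mem_cons.2 ⟨M69214217.irr,
  List.forall_mem_cons.2 ⟨M69214225.irr,
  List.forall_mem_cons.2 ⟨M69214241.irr,
  List.forall_mem_cons.2 ⟨M2367513.irr,
  List.forall_mem_cons.2 ⟨M2368521.irr,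
  List.forall_mem_cons.2 ⟨M2626570.irr,
  List.forall_mem_cons.2 ⟨M2630161.irr,
  List.forall_mem_cons.2 ⟨M2656416.irr,
  List.forall_mem_cons.2 ⟨M7086081.irr,
  List.forall_mem_cons.2 ⟨M7209216.irr,
  List.forall_mem_cons.2 ⟨M10514440.irr,
  List.forall_mem_cons.2 ⟨M69214233.irr,
  List.forall_mem_cons.2 ⟨M69214281.irr,
  (fun _ h => absurd h List.not_mem_nil)⟩⟩⟩⟩⟩⟩⟩⟩⟩⟩⟩⟩⟩⟩⟩⟩⟩⟩⟩⟩

/-- part 2 of the table -/
def TD2 : List (ℕ × ℕ × List (ℕ × ℕ)) :=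
  [(69214729, 12, M69214729.RL), (69214737, 256, M69214737.RL), (69215241, 4, M69215241.RL),
   (69216385, 1, M69216385.RL), (69218313, 24, M69218313.RL), (69476361, 65, M69476361.RL),
   (69476369, 18, M69476369.RL), (73670657, 12, M73670657.RL), (2110475, 39, M2110475.RL),
   (2392649, 33, M2392649.RL), (69214745, 1380, M69214745.RL), (69218329, 264, M69218329.RL),
   (69476377, 225, M69476377.RL), (69476425, 240, M69476425.RL), (69476617, 49, M69476617.RL),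
   (69476881, 734, M69476881.RL), (69480961, 295, M69480961.RL), (69739025, 18, M69739025.RL),
   (73670673, 106, M73670673.RL), (74194945, 10, M74194945.RL)]

theorem hTD2 : ∀ p ∈ TD2, Full p.1 p.2.2 :=
  List.forall_mem_cons.2 ⟨M69214729.descr,
  List.forall_mem_cons.2 ⟨M69214737.descr,
  List.forall_mem_cons.2 ⟨M69215241.descr,
  List.forall_mem_cons.2 ⟨M69216385.descr,
  List.forall_mem_cons.2 ⟨M69218313.descr,
  List.forall_mem_cons.2 ⟨M69476361.descr,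
  List.forall_mem_cons.2 ⟨M69476369.descr,
  List.forall_mem_cons.2 ⟨M73670657.descr,
  List.forall_mem_cons.2 ⟨M2110475.descr,
  List.forall_mem_cons.2 ⟨M2392649.descr,
  List.forall_mem_cons.2 ⟨M69214745.descr,
  List.forall_mem_cons.2 ⟨M69218329.descr,
  List.forall_mem_cons.2 ⟨M69476377.descr,
  List.forall_mem_cons.2 ⟨M69476425.descr,
  List.forall_mem_cons.2 ⟨M69476617.descr,
  List.forall_mem_cons.2 ⟨M69476881.descr,
  List.forall_mem_cons.2 ⟨M69480961.descr,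
  List.forall_mem_cons.2 ⟨M69739025.descr,
  List.forall_mem_cons.2 ⟨M73670673.descr,
  List.forall_mem_cons.2 ⟨M74194945.descr,
  (fun _ h => absurd h List.not_mem_nil)⟩⟩⟩⟩⟩⟩⟩⟩⟩⟩⟩⟩⟩⟩⟩⟩⟩⟩⟩⟩

theorem hTI2 : ∀ p ∈ TD2, Irr p.1 p.2.2 :=
  List.forall_mem_cons.2 ⟨M69214729.irr,
  List.forall_mem_cons.2 ⟨M69214737.irr,
  List.forall_mem_cons.2 ⟨M69215241.irr,
  List.forall_mem_cons.2 ⟨M69216385.irr,
  List.forall_mem_cons.2 ⟨M69218313.irr,
  List.forall_mem_cons.2 ⟨M69476361.irr,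
  List.forall_mem_cons.2 ⟨M69476369.irr,
  List.forall_mem_cons.2 ⟨M73670657.irr,
  List.forall_mem_cons.2 ⟨M2110475.irr,
  List.forall_mem_cons.2 ⟨M2392649.irr,
  List.forall_mem_cons.2 ⟨M69214745.irr,
  List.forall_mem_cons.2 ⟨M69218329.irr,
  List.forall_mem_cons.2 ⟨M69476377.irr,
  List.forall_mem_cons.2 ⟨M69476425.irr,
  List.forall_mem_cons.2 ⟨M69476617.irr,
  List.forall_mem_cons.2 ⟨M69476881.irr,
  List.forall_mem_cons.2 ⟨M69480961.irr,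
  List.forall_mem_cons.2 ⟨M69739025.irr,
  List.forall_mem_cons.2 ⟨M73670673.irr,
  List.forall_mem_cons.2 ⟨M74194945.irr,
  (fun _ h => absurd h List.not_mem_nil)⟩⟩⟩⟩⟩⟩⟩⟩⟩⟩⟩⟩⟩⟩⟩⟩⟩⟩⟩⟩

/-- part 3 of the table -/
def TD3 : List (ℕ × ℕ × List (ℕ × ℕ)) :=
  [(2634763, 13, M2634763.RL), (69215769, 80, M69215769.RL), (69219339, 3, M69219339.RL),
   (69476889, 8814, M69476889.RL), (69476937, 66, M69476937.RL), (69477137, 21, M69477137.RL),
   (69477641, 34, M69477641.RL), (69480969, 3246, M69480969.RL), (69480977, 2680, M69480977.RL),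
   (70524953, 21, M70524953.RL), (73670681, 677, M73670681.RL), (73671185, 10361, M73671185.RL),
   (73801985, 7, M73801985.RL), (77623305, 38, M77623305.RL), (69477145, 119, M69477145.RL),
   (69477913, 406, M69477913.RL), (69480979, 209, M69480979.RL), (69481233, 26, M69481233.RL),
   (69509705, 6, M69509705.RL), (69743627, 3, M69743627.RL)]

theorem hTD3 : ∀ p ∈ TD3, Full p.1 p.2.2 :=
  List.forall_mem_cons.2 ⟨M2634763.descr,
  List.forall_mem_cons.2 ⟨M69215769.descr,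
  List.forall_mem_cons.2 ⟨M69219339.descr,
  List.forall_mem_cons.2 ⟨M69476889.descr,
  List.forall_mem_cons.2 ⟨M69476937.descr,
  List.forall_mem_cons.2 ⟨M69477137.descr,
  List.forall_mem_cons.2 ⟨M69477641.descr,
  List.forall_mem_cons.2 ⟨M69480969.descr,
  List.forall_mem_cons.2 ⟨M69480977.descr,
  List.forall_mem_cons.2 ⟨M70524953.descr,
  List.forall_mem_cons.2 ⟨M73670681.descr,
  List.forall_mem_cons.2 ⟨M73671185.descr,
  List.forall_mem_cons.2 ⟨M73801985.descr,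
  List.forall_mem_cons.2 ⟨M77623305.descr,
  List.forall_mem_cons.2 ⟨M69477145.descr,
  List.forall_mem_cons.2 ⟨M69477913.descr,
  List.forall_mem_cons.2 ⟨M69480979.descr,
  List.forall_mem_cons.2 ⟨M69481233.descr,
  List.forall_mem_cons.2 ⟨M69509705.descr,
  List.forall_mem_cons.2 ⟨M69743627.descr,
  (fun _ h => absurd h List.not_mem_nil)⟩⟩⟩⟩⟩⟩⟩⟩⟩⟩⟩⟩⟩⟩⟩⟩⟩⟩⟩⟩

theorem hTI3 : ∀ p ∈ TD3, Irr p.1 p.2.2 :=
  List.forall_mem_cons.2 ⟨M2634763.irr,
  List.forall_mem_cons.2 ⟨M69215769.irr,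
  List.forall_mem_cons.2 ⟨M69219339.irr,
  List.forall_mem_cons.2 ⟨M69476889.irr,
  List.forall_mem_cons.2 ⟨M69476937.irr,
  List.forall_mem_cons.2 ⟨M69477137.irr,
  List.forall_mem_cons.2 ⟨M69477641.irr,
  List.forall_mem_cons.2 ⟨M69480969.irr,
  List.forall_mem_cons.2 ⟨M69480977.irr,
  List.forall_mem_cons.2 ⟨M70524953.irr,
  List.forall_mem_cons.2 ⟨M73670681.irr,
  List.forall_mem_cons.2 ⟨M73671185.irr,
  List.forall_mem_cons.2 ⟨M73801985.irr,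
  List.forall_mem_cons.2 ⟨M77623305.irr,
  List.forall_mem_cons.2 ⟨M69477145.irr,
  List.forall_mem_cons.2 ⟨M69477913.irr,
  List.forall_mem_cons.2 ⟨M69480979.irr,
  List.forall_mem_cons.2 ⟨M69481233.irr,
  List.forall_mem_cons.2 ⟨M69509705.irr,
  List.forall_mem_cons.2 ⟨M69743627.irr,
  (fun _ h => absurd h List.not_mem_nil)⟩⟩⟩⟩⟩⟩⟩⟩⟩⟩⟩⟩⟩⟩⟩⟩⟩⟩⟩⟩

/-- part 4 of the table -/
def TD4 : List (ℕ × ℕ × List (ℕ × ℕ)) :=
  [(69773473, 2, M69773473.RL), (74195473, 233, M74195473.RL), (74326273, 6, M74326273.RL),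
   (69478169, 8, M69478169.RL), (69481235, 7, M69481235.RL), (69481241, 1331, M69481241.RL),
   (73672217, 4024, M73672217.RL), (73802513, 53, M73802513.RL), (81817625, 270, M81817625.RL),
   (83107865, 7, M83107865.RL), (73802521, 78, M73802521.RL), (74326801, 33, M74326801.RL),
   (81817657, 29, M81817657.RL), (70526809, 1, M70526809.RL), (73803545, 12, M73803545.RL),
   (81995289, 1, M81995289.RL), (70559577, 1, M70559577.RL), (83306329, 1, M83306329.RL),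
   (87308127, 75, M87308127.RL), (83339097, 1, M83339097.RL)]

theorem hTD4 : ∀ p ∈ TD4, Full p.1 p.2.2 :=
  List.forall_mem_cons.2 ⟨M69773473.descr,
  List.forall_mem_cons.2 ⟨M74195473.descr,
  List.forall_mem_cons.2 ⟨M74326273.descr,
  List.forall_mem_cons.2 ⟨M69478169.descr,
  List.forall_mem_cons.2 ⟨M69481235.descr,
  List.forall_mem_cons.2 ⟨M69481241.descr,
  List.forall_mem_cons.2 ⟨M73672217.descr,
  List.forall_mem_cons.2 ⟨M73802513.descr,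
  List.forall_mem_cons.2 ⟨M81817625.descr,
  List.forall_mem_cons.2 ⟨M83107865.descr,
  List.forall_mem_cons.2 ⟨M73802521.descr,
  List.forall_mem_cons.2 ⟨M74326801.descr,
  List.forall_mem_cons.2 ⟨M81817657.descr,
  List.forall_mem_cons.2 ⟨M70526809.descr,
  List.forall_mem_cons.2 ⟨M73803545.descr,
  List.forall_mem_cons.2 ⟨M81995289.descr,
  List.forall_mem_cons.2 ⟨M70559577.descr,
  List.forall_mem_cons.2 ⟨M83306329.descr,
  List.forall_mem_cons.2 ⟨M87308127.descr,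
  List.forall_mem_cons.2 ⟨M83339097.descr,
  (fun _ h => absurd h List.not_mem_nil)⟩⟩⟩⟩⟩⟩⟩⟩⟩⟩⟩⟩⟩⟩⟩⟩⟩⟩⟩⟩

theorem hTI4 : ∀ p ∈ TD4, Irr p.1 p.2.2 :=
  List.forall_mem_cons.2 ⟨M69773473.irr,
  List.forall_mem_cons.2 ⟨M74195473.irr,
  List.forall_mem_cons.2 ⟨M74326273.irr,
  List.forall_mem_cons.2 ⟨M69478169.irr,
  List.forall_mem_cons.2 ⟨M69481235.irr,
  List.forall_mem_cons.2 ⟨M69481241.irr,
  List.forall_mem_cons.2 ⟨M73672217.irr,
  List.forall_mem_cons.2 ⟨M73802513.irr,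
  List.forall_mem_cons.2 ⟨M81817625.irr,
  List.forall_mem_cons.2 ⟨M83107865.irr,
  List.forall_mem_cons.2 ⟨M73802521.irr,
  List.forall_mem_cons.2 ⟨M74326801.irr,
  List.forall_mem_cons.2 ⟨M81817657.irr,
  List.forall_mem_cons.2 ⟨M70526809.irr,
  List.forall_mem_cons.2 ⟨M73803545.irr,
  List.forall_mem_cons.2 ⟨M81995289.irr,
  List.forall_mem_cons.2 ⟨M70559577.irr,
  List.forall_mem_cons.2 ⟨M83306329.irr,
  List.forall_mem_cons.2 ⟨M87308127.irr,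
  List.forall_mem_cons.2 ⟨M83339097.irr,
  (fun _ h => absurd h List.not_mem_nil)⟩⟩⟩⟩⟩⟩⟩⟩⟩⟩⟩⟩⟩⟩⟩⟩⟩⟩⟩⟩

/-- part 5 of the table -/
def TD5 : List (ℕ × ℕ × List (ℕ × ℕ)) :=
  [(87340895, 10, M87340895.RL), (133658463, 3, M133658463.RL), (133658495, 3, M133658495.RL),
   (133660639, 3, M133660639.RL)]

theorem hTD5 : ∀ p ∈ TD5, Full p.1 p.2.2 :=
  List.forall_mem_cons.2 ⟨M87340895.descr,
  List.forall_mem_cons.2 ⟨M133658463.descr,
  List.forall_mem_cons.2 ⟨M133658495.descr,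
  List.forall_mem_cons.2 ⟨M133660639.descr,
  (fun _ h => absurd h List.not_mem_nil)⟩⟩⟩⟩

theorem hTI5 : ∀ p ∈ TD5, Irr p.1 p.2.2 :=
  List.forall_mem_cons.2 ⟨M87340895.irr,
  List.forall_mem_cons.2 ⟨M133658463.irr,
  List.forall_mem_cons.2 ⟨M133658495.irr,
  List.forall_mem_cons.2 ⟨M133660639.irr,
  (fun _ h => absurd h List.not_mem_nil)⟩⟩⟩⟩

/-- the table -/
def TD : List (ℕ × ℕ × List (ℕ × ℕ)) := TD0 ++ (TD1 ++ (TD2 ++ (TD3 ++ (TD4 ++ (TD5)))))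

theorem hTD : ∀ p ∈ TD, Full p.1 p.2.2 :=
  List.forall_mem_append.2 ⟨hTD0, List.forall_mem_append.2 ⟨hTD1, List.forall_mem_append.2 ⟨hTD2, List.forall_mem_append.2 ⟨hTD3, List.forall_mem_append.2 ⟨hTD4, hTD5⟩⟩⟩⟩⟩

theorem hTI : ∀ p ∈ TD, Irr p.1 p.2.2 :=
  List.forall_mem_append.2 ⟨hTI0, List.forall_mem_append.2 ⟨hTI1, List.forall_mem_append.2 ⟨hTI2, List.forall_mem_append.2 ⟨hTI3, List.forall_mem_append.2 ⟨hTI4, hTI5⟩⟩⟩⟩⟩

theorem TD_eq : TD.map (fun p => (p.1, p.2.1)) = TabL := by decide +kernel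

theorem ex_TD (P : ℕ → Prop) : (∃ r ∈ TD, P r.1) ↔ ∃ r ∈ TabL, P r.1 := by
  rw [← TD_eq]
  constructor
  · rintro ⟨r, hr, h⟩
    exact ⟨_, List.mem_map.2 ⟨r, hr, rfl⟩, h⟩
  · rintro ⟨r, hr, h⟩
    obtain ⟨a, ha, rfl⟩ := List.mem_map.1 hr
    exact ⟨a, ha, h⟩

theorem final2 :
    (∀ p ∈ TD, ∀ σ : Equiv.Perm (Fin 3),
      num (cjS σ (SM p.1)) = p.2.1 ∧
      ∀ F : Set Op, (IsAlg F ∧ unaryPart F = cjS σ (SM p.1)) ↔
        ∃ Γ : List (ℕ × ℕ), Γ ⊆ p.2.2 ∧ F = {f | cj σ f ∈ Pol (SM p.1) Γ}) ∧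
    (∀ p ∈ TD, ∀ y ∈ p.2.2, ∀ Γ : List (ℕ × ℕ), Γ ⊆ p.2.2 → y ∉ Γ →
      Pol (SM p.1) Γ ≠ Pol (SM p.1) [y]) ∧
    {S : Set (Fin 3 → Fin 3) | ∃ p ∈ TD, ∃ σ : Equiv.Perm (Fin 3),
      S = cjS σ (SM p.1)}.ncard = 443 ∧
    {F : Set Op | IsAlg F ∧ ∃ p ∈ TD, ∃ σ : Equiv.Perm (Fin 3),
      unaryPart F = cjS σ (SM p.1)}.ncard = 662888 ∧
    {F : Set Op | IsAlg F ∧ ∀ f ∈ F, ∀ x, f x x = x}.ncard = 14232 ∧
    {F : Set Op | IsAlg F ∧ ∀ m ∈ unaryPart F,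
      (Function.Injective m ∨ ∃ c, m = fun _ => c)}.ncard = 16688 := by
  obtain ⟨h1, h2, h3, h4, h5⟩ := final
  refine ⟨fun p hp σ => ⟨?_, full_cj (hTD p hp) σ⟩, hTI, ?_, ?_, h1, h2⟩
  · have hm : (p.1, p.2.1) ∈ TabL := by
      rw [← TD_eq]; exact List.mem_map.2 ⟨p, hp, rfl⟩
    exact h3 _ hm σ
  · rw [← h4]
    congr 1
    ext S
    exact ex_TD (fun k => ∃ σ : Equiv.Perm (Fin 3), S = cjS σ (SM k))
  · rw [← h5]
    congr 1
    ext F
    exact and_congr Iff.rfl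
      (ex_TD (fun k => ∃ σ : Equiv.Perm (Fin 3), unaryPart F = cjS σ (SM k)))

end H78.BA
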