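import Pool.Agent.H78.BA.All2

/-! The description with relations given by one number each. -/

namespace H78.BA

set_option maxHeartbeats 400000

/-- arity and number of the relation with code `q` -/
def dq (q : ℕ) : ℕ × ℕ := (q % 8, q / 8)

/-- the relation with code `q` -/
def relq (q : ℕ) : Set (Fin (q % 8) → Fin 3) :=
  {t | (q / 8).testBit (∑ i, (t i : ℕ) * 3 ^ (i : ℕ)) = true}

/-- operations preserving a set of unary maps and coded relations -/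
def PolQ (S : Set (Fin 3 → Fin 3)) (Γ : List ℕ) : Set Op :=
  {f | Pres f S ∧ ∀ q ∈ Γ, Pres f (relq q)}

theorem dq_inj {a b : ℕ} (h : dq a = dq b) : a = b := by
  have h1 : a % 8 = b % 8 := congrArg Prod.fst h
  have h2 : a / 8 = b / 8 := congrArg Prod.snd h
  omega

theorem PolQ_eq (S : Set (Fin 3 → Fin 3)) (Γ : List ℕ) : PolQ S Γ = Pol S (Γ.map dq) := by
  ext f
  constructor
  · rintro ⟨h1, h2⟩
    refine ⟨h1, fun y hy => ?_⟩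
    obtain ⟨q, hq, rfl⟩ := List.mem_map.1 hy
    exact h2 q hq
  · rintro ⟨h1, h2⟩
    exact ⟨h1, fun q hq => h2 (dq q) (List.mem_map.2 ⟨q, hq, rfl⟩)⟩

theorem sub_dq {R : List ℕ} : ∀ Γ : List (ℕ × ℕ), Γ ⊆ R.map dq →
    ∃ Δ : List ℕ, Δ ⊆ R ∧ Δ.map dq = Γ := by
  intro Γ
  induction Γ with
  | nil => intro _; exact ⟨[], by simp, rfl⟩
  | cons y Γ ih =>
    intro h
    obtain ⟨h1, h2⟩ := List.cons_subset.1 h
    obtain ⟨Δ, h3, h4⟩ := ih h2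
    obtain ⟨q, hq, h5⟩ := List.mem_map.1 h1
    exact ⟨q :: Δ, List.cons_subset.2 ⟨hq, h3⟩, by rw [List.map_cons, h4, h5]⟩

/-- entry with coded relations to entry with pairs -/
def dT (p : ℕ × ℕ × List ℕ) : ℕ × ℕ × List (ℕ × ℕ) := (p.1, p.2.1, p.2.2.map dq)

theorem final3 {Tq : List (ℕ × ℕ × List ℕ)} (hT : Tq.map dT = TD) :
    (∀ p ∈ Tq, ∀ σ : Equiv.Perm (Fin 3),
      num (cjS σ (SM p.1)) = p.2.1 ∧
      ∀ F : Set Op, (IsAlg F ∧ unaryPart F = cjS σ (SM p.1)) ↔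
        ∃ Γ : List ℕ, Γ ⊆ p.2.2 ∧ F = {f | cj σ f ∈ PolQ (SM p.1) Γ}) ∧
    (∀ p ∈ Tq, ∀ q ∈ p.2.2, ∀ Γ : List ℕ, Γ ⊆ p.2.2 → q ∉ Γ →
      PolQ (SM p.1) Γ ≠ PolQ (SM p.1) [q]) ∧
    {S : Set (Fin 3 → Fin 3) | ∃ p ∈ Tq, ∃ σ : Equiv.Perm (Fin 3),
      S = cjS σ (SM p.1)}.ncard = {S : Set (Fin 3 → Fin 3) | ∃ p ∈ TD,
        ∃ σ : Equiv.Perm (Fin 3), S = cjS σ (SM p.1)}.ncard ∧
    {F : Set Op | IsAlg F ∧ ∃ p ∈ Tq, ∃ σ : Equiv.Perm (Fin 3),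
      unaryPart F = cjS σ (SM p.1)}.ncard = {F : Set Op | IsAlg F ∧ ∃ p ∈ TD,
        ∃ σ : Equiv.Perm (Fin 3), unaryPart F = cjS σ (SM p.1)}.ncard := by
  obtain ⟨h1, h2, h3, h4, h5, h6⟩ := final2
  have hm : ∀ p ∈ Tq, dT p ∈ TD := by
    intro p hp
    rw [← hT]
    exact List.mem_map.2 ⟨p, hp, rfl⟩
  have hex : ∀ P : ℕ → Prop, (∃ r ∈ Tq, P r.1) ↔ ∃ r ∈ TD, P r.1 := by
    intro P
    rw [← hT]
    constructor
    · rintro ⟨r, hr, h⟩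
      exact ⟨_, List.mem_map.2 ⟨r, hr, rfl⟩, h⟩
    · rintro ⟨r, hr, h⟩
      obtain ⟨a, ha, rfl⟩ := List.mem_map.1 hr
      exact ⟨a, ha, h⟩
  refine ⟨?_, ?_, ?_, ?_⟩
  · intro p hp σ
    obtain ⟨g1, g2⟩ := h1 _ (hm p hp) σ
    refine ⟨g1, fun F => ?_⟩
    have g3 := g2 F
    constructor
    · intro hF
      obtain ⟨Γ, e1, e2⟩ := g3.1 hF
      obtain ⟨Δ, e3, e4⟩ := sub_dq Γ e1
      refine ⟨Δ, e3, ?_⟩
      rw [e2, PolQ_eq, e4]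
      rfl
    · rintro ⟨Δ, e3, e4⟩
      apply g3.2
      refine ⟨Δ.map dq, List.map_subset dq e3, ?_⟩
      rw [e4, PolQ_eq]
      rfl
  · intro p hp q hq Γ hΓ hqΓ heq
    have g := h2 _ (hm p hp) (dq q) (List.mem_map.2 ⟨q, hq, rfl⟩) (Γ.map dq)
      (List.map_subset dq hΓ) (by
        intro hc
        obtain ⟨q', hq', e⟩ := List.mem_map.1 hc
        exact hqΓ (by rw [← dq_inj e]; exact hq'))
    apply g
    rw [PolQ_eq, PolQ_eq] at heq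
    exact heq
  · congr 1
    ext S
    exact hex (fun k => ∃ σ : Equiv.Perm (Fin 3), S = cjS σ (SM k))
  · congr 1
    ext F
    exact and_congr Iff.rfl
      (hex (fun k => ∃ σ : Equiv.Perm (Fin 3), unaryPart F = cjS σ (SM k)))

end H78.BA
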