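import Pool.Agent.H78.BA.Digits

/-! Assembly of the parameters of a run and the counting theorem for one monoid of unary
maps. -/

namespace H78.BA

set_option maxHeartbeats 400000

/-- all data belonging to one monoid of unary maps -/
structure Dat where
  k : ℕ
  MJ : ℕ
  JM : ℕ
  bs : ℕ
  full : ℕ
  AL : ℕ
  O0 : ℕ
  rM : List (List ℕ)
  VT : T
  D : T
  CD : T
  CU : T
  P : T
  rels : List (ℕ × ℕ × Tr × List (List ℕ))
  es : List Ent
  i1 : ℕ
  i2 : ℕ

/-- parameters of the run -/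
noncomputable def Dat.par (d : Dat) : Par :=
  ⟨d.D, d.CD, d.CU, d.P, d.es.length, d.AL, d.bs, d.full⟩

/-- cheap checks -/
noncomputable def chkA (d : Dat) : Bool :=
  cond (alln (fun j => cond (Nat.ble (Nat.succ (fld d.MJ j)) 27)
      (Nat.beq (fld d.JM (fld d.MJ j)) j) false) d.k)
    (cond (alln (fun m => cond (Nat.ble (Nat.succ (fld d.JM m)) d.k)
        (Nat.beq (fld d.MJ (fld d.JM m)) m) true) 27)
      (cond (Nat.beq d.full (Nat.sub (Nat.pow 2 (Nat.mul 729 d.k)) 1))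
        (cond (chkM d.k d.JM d.bs d.rM)
          (cond (Nat.beq (Nat.land d.AL d.full) d.AL)
            (cond (Nat.beq (Nat.land d.O0 d.AL) 0)
              (cond (Nat.beq (Nat.land d.O0 d.full) d.O0)
                (cond (bt d.bs d.i1) (cond (bt d.bs d.i2)
                  (cond (Nat.beq (cod d.MJ d.i1) 15993) (Nat.beq (cod d.MJ d.i2) 15613)
                    false) false) false) false) false) false) false) false) false) false

theorem dec_e1 : dec 15993 = fun x _ => x := by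
  funext x y; revert x y; decide

theorem dec_e2 : dec 15613 = fun _ y => y := by
  funext x y; revert x y; decide

structure AOk (d : Dat) : Prop where
  pt : PT d.k d.MJ d.JM
  hf : Nat.beq d.full (Nat.sub (Nat.pow 2 (729 * d.k)) 1) = true
  hM : MOk d.k d.JM d.bs d.rM
  hA2 : Nat.beq (Nat.land d.AL d.full) d.AL = true
  hO : Nat.beq (Nat.land d.O0 d.AL) 0 = true
  hO2 : Nat.beq (Nat.land d.O0 d.full) d.O0 = true
  h1 : d.bs.testBit d.i1 = true
  h2 : d.bs.testBit d.i2 = true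
  c1 : cod d.MJ d.i1 = 15993
  c2 : cod d.MJ d.i2 = 15613

theorem chkA_sound {d : Dat} (h : chkA d = true) : AOk d := by
  obtain ⟨g1, h⟩ := cond_false h
  obtain ⟨g2, h⟩ := cond_false h
  obtain ⟨g3, h⟩ := cond_false h
  obtain ⟨g4, h⟩ := cond_false h
  obtain ⟨g5, h⟩ := cond_false h
  obtain ⟨g6, h⟩ := cond_false h
  obtain ⟨g7, h⟩ := cond_false h
  obtain ⟨g8, h⟩ := cond_false h
  obtain ⟨g9, h⟩ := cond_false h
  obtain ⟨g10, g11⟩ := cond_false h
  refine ⟨⟨fun j hj => ?_, fun m hm hk => ?_⟩, g3, chkM_sound g4, g5, g6, g7,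
    (bt_iff _ _).1 g8, (bt_iff _ _).1 g9, Nat.eq_of_beq_eq_true g10,
    Nat.eq_of_beq_eq_true g11⟩
  · obtain ⟨q1, q2⟩ := cond_false (alln_iff g1 j hj)
    exact ⟨Nat.le_of_ble_eq_true q1, Nat.eq_of_beq_eq_true q2⟩
  · have q := alln_iff g2 m hm
    have q2 : Nat.ble (Nat.succ (fld d.JM m)) d.k = true := by rw [Nat.ble_eq]; exact hk
    rw [q2] at q
    exact Nat.eq_of_beq_eq_true q

/-- the parameters are correct -/
theorem dat_ok {d : Dat} {m s : ℕ} (hA : chkA d = true)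
    (hV : VOk d.MJ (729 * d.k) d.VT)
    (hAL : Nat.beq d.AL (polM d.VT d.full d.rM) = true)
    (hT : tab d.MJ d.JM d.D d.bs d.AL m s 0 = true) (hE : chkE d.D d.es = true)
    (hC : chkCt d.CD d.CU d.es d.es 0 = true) (hP : chkP d.VT d.full d.rels = true)
    (hPT : chkPT d.P d.rels = true) :
    ParOk d.k d.MJ d.JM d.bs d.par ∧
      ∀ F, Ok d.k d.MJ d.JM d.bs F → ∀ i, Holds d.k d.MJ F i → d.AL.testBit i = true := by
  have A := chkA_sound hA
  obtain ⟨hcl, hbit⟩ := Cl_AL A.pt hV A.hM A.hf hAL A.hA2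
  have hal : ∀ F, Ok d.k d.MJ d.JM d.bs F → ∀ i, Holds d.k d.MJ F i →
      d.AL.testBit i = true := by
    intro F hF i hi
    exact (hbit i hi.1).2 (alive A.pt A.hM hF hi)
  have hD : ∀ w F, Ok d.k d.MJ d.JM d.bs F → Holds d.k d.MJ F w →
      B d.k d.MJ F (d.D.get w) := by
    intro w F hF hw
    refine tab_sound A.pt m s 0 ?_ hT w (hal F hF w hw) F hF hw
    intro w' hw'
    rw [Nat.zero_testBit] at hw'
    exact absurd hw' (by simp)
  refine ⟨⟨rfl, A.pt, hD, fun a ha => class_ok hD hE hC a ha, ?_, hcl, ?_, ?_, ?_⟩, hal⟩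
  · exact chkP_sound A.pt hV (fun i hi => (full_bit A.hf i).2 hi) hP hPT
  · exact fun i hi => (full_bit A.hf i).2 hi
  · exact ⟨d.i1, A.h1, by rw [A.c1]; exact dec_e1⟩
  · exact ⟨d.i2, A.h2, by rw [A.c2]; exact dec_e2⟩

/-- the number of algebras belonging to the data -/
theorem dat_card {d : Dat} (hA : chkA d = true)
    (hp : ParOk d.k d.MJ d.JM d.bs d.par ∧
      ∀ F, Ok d.k d.MJ d.JM d.bs F → ∀ i, Holds d.k d.MJ F i → d.AL.testBit i = true)
    {tot fuel s : ℕ} {kn : List (ℕ × ℕ × ℕ)}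
    (hkn : ∀ x ∈ kn, (Fam d.k d.MJ d.JM d.bs x.1 x.2.1).ncard = x.2.2)
    (h : run d.MJ d.JM d.par tot fuel s d.bs d.O0 [] kn 0 = true) :
    (Fam d.k d.MJ d.JM d.bs d.bs 0).ncard = tot := by
  have A := chkA_sound hA
  have h1 := run_sound hp.1 tot fuel s d.bs d.O0 [] kn 0 hkn h
  have h2 : Fam d.k d.MJ d.JM d.bs d.bs 0 = Fam d.k d.MJ d.JM d.bs d.bs d.O0 := by
    ext F
    constructor
    · rintro ⟨g1, g2, _⟩
      exact ⟨g1, g2, fun i hi hH => land_zero A.hO hi (hp.2 F g1 i hH)⟩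
    · rintro ⟨g1, g2, _⟩
      refine ⟨g1, g2, fun i hi => ?_⟩
      rw [Nat.zero_testBit] at hi
      exact absurd hi (by simp)
  rw [h2]
  simpa [stkSum] using h1

/-- a part of the computation -/
theorem sub_card {d : Dat} (hp : ParOk d.k d.MJ d.JM d.bs d.par)
    {tot fuel s IN OUT : ℕ} (h : run d.MJ d.JM d.par tot fuel s IN OUT [] [] 0 = true) :
    (Fam d.k d.MJ d.JM d.bs IN OUT).ncard = tot := by
  have h1 := run_sound hp tot fuel s IN OUT [] [] 0 (fun x hx => absurd hx (by simp)) h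
  simpa [stkSum] using h1

end H78.BA
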