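import Mathlib.Data.Set.Card
import Mathlib.Data.Set.Finite.Lattice
import Mathlib.Data.Fintype.Powerset
import Mathlib.Data.Fintype.Pi
import Mathlib.Tactic.Ring
import Mathlib.Tactic.IntervalCases
import Mathlib.Tactic.NormNum
import Mathlib.Tactic.FinCases

/-! Binary operations on a three-element set, coded by base-3 numbers, and the
composition of codes. -/

namespace H78.BA

set_option maxHeartbeats 400000

/-- binary operations on `{0,1,2}` -/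
abbrev Op : Type := Fin 3 → Fin 3 → Fin 3

/-- algebras of binary operations -/
def IsAlg (F : Set Op) : Prop :=
  (fun x _ => x) ∈ F ∧ (fun _ y => y) ∈ F ∧
    ∀ f ∈ F, ∀ g ∈ F, ∀ h ∈ F, (fun x y => f (g x y) (h x y)) ∈ F

/-- value of the operation with code `c` -/
def ev (c a b : ℕ) : ℕ :=
  match a with
  | 0 => match b with
    | 0 => Nat.mod (Nat.div c 729) 3
    | 1 => Nat.mod c 3
    | _ => Nat.mod (Nat.div c 3) 3
  | 1 => match b with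
    | 0 => Nat.mod (Nat.div c 9) 3
    | 1 => Nat.mod (Nat.div c 2187) 3
    | _ => Nat.mod (Nat.div c 27) 3
  | _ => match b with
    | 0 => Nat.mod (Nat.div c 81) 3
    | 1 => Nat.mod (Nat.div c 243) 3
    | _ => Nat.mod (Nat.div c 6561) 3

theorem ev_lt (c a b : ℕ) : ev c a b < 3 := by
  have h : ∀ x : ℕ, Nat.mod x 3 < 3 := fun x => Nat.mod_lt x (by norm_num)
  unfold ev
  split <;> split <;> exact h _

/-- code from the nine values -/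
def mk9 (w0 w1 w2 w3 w4 w5 w6 w7 w8 : ℕ) : ℕ :=
  Nat.add w0 (Nat.mul 3 (Nat.add w1 (Nat.mul 3 (Nat.add w2 (Nat.mul 3 (Nat.add w3
    (Nat.mul 3 (Nat.add w4 (Nat.mul 3 (Nat.add w5 (Nat.mul 3 (Nat.add w6 (Nat.mul 3
      (Nat.add w7 (Nat.mul 3 w8)))))))))))))))

/-- composition of codes -/
def cmp (f u v : ℕ) : ℕ :=
  mk9 (ev f (ev u 0 1) (ev v 0 1)) (ev f (ev u 0 2) (ev v 0 2))
    (ev f (ev u 1 0) (ev v 1 0)) (ev f (ev u 1 2) (ev v 1 2))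
    (ev f (ev u 2 0) (ev v 2 0)) (ev f (ev u 2 1) (ev v 2 1))
    (ev f (ev u 0 0) (ev v 0 0)) (ev f (ev u 1 1) (ev v 1 1))
    (ev f (ev u 2 2) (ev v 2 2))

theorem mk9_eq (w0 w1 w2 w3 w4 w5 w6 w7 w8 : ℕ) :
    mk9 w0 w1 w2 w3 w4 w5 w6 w7 w8 = w0 + 3 * (w1 + 3 * (w2 + 3 * (w3 + 3 * (w4 + 3 *
      (w5 + 3 * (w6 + 3 * (w7 + 3 * w8))))))) := rfl

theorem ev00 (c : ℕ) : ev c 0 0 = c / 729 % 3 := rfl
theorem ev01 (c : ℕ) : ev c 0 1 = c % 3 := rfl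
theorem ev02 (c : ℕ) : ev c 0 2 = c / 3 % 3 := rfl
theorem ev10 (c : ℕ) : ev c 1 0 = c / 9 % 3 := rfl
theorem ev11 (c : ℕ) : ev c 1 1 = c / 2187 % 3 := rfl
theorem ev12 (c : ℕ) : ev c 1 2 = c / 27 % 3 := rfl
theorem ev20 (c : ℕ) : ev c 2 0 = c / 81 % 3 := rfl
theorem ev21 (c : ℕ) : ev c 2 1 = c / 243 % 3 := rfl
theorem ev22 (c : ℕ) : ev c 2 2 = c / 6561 % 3 := rfl

section
variable {w0 w1 w2 w3 w4 w5 w6 w7 w8 : ℕ}

theorem ev_mk9 (h0 : w0 < 3) (h1 : w1 < 3) (h2 : w2 < 3) (h3 : w3 < 3) (h4 : w4 < 3)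
    (h5 : w5 < 3) (h6 : w6 < 3) (h7 : w7 < 3) (h8 : w8 < 3) :
    ev (mk9 w0 w1 w2 w3 w4 w5 w6 w7 w8) 0 1 = w0 ∧
    ev (mk9 w0 w1 w2 w3 w4 w5 w6 w7 w8) 0 2 = w1 ∧
    ev (mk9 w0 w1 w2 w3 w4 w5 w6 w7 w8) 1 0 = w2 ∧
    ev (mk9 w0 w1 w2 w3 w4 w5 w6 w7 w8) 1 2 = w3 ∧
    ev (mk9 w0 w1 w2 w3 w4 w5 w6 w7 w8) 2 0 = w4 ∧
    ev (mk9 w0 w1 w2 w3 w4 w5 w6 w7 w8) 2 1 = w5 ∧
    ev (mk9 w0 w1 w2 w3 w4 w5 w6 w7 w8) 0 0 = w6 ∧
    ev (mk9 w0 w1 w2 w3 w4 w5 w6 w7 w8) 1 1 = w7 ∧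
    ev (mk9 w0 w1 w2 w3 w4 w5 w6 w7 w8) 2 2 = w8 := by
  rw [mk9_eq, ev01, ev02, ev10, ev12, ev20, ev21, ev00, ev11, ev22]
  refine ⟨?_, ?_, ?_, ?_, ?_, ?_, ?_, ?_, ?_⟩ <;> omega

theorem mk9_lt (h0 : w0 < 3) (h1 : w1 < 3) (h2 : w2 < 3) (h3 : w3 < 3) (h4 : w4 < 3)
    (h5 : w5 < 3) (h6 : w6 < 3) (h7 : w7 < 3) (h8 : w8 < 3) :
    mk9 w0 w1 w2 w3 w4 w5 w6 w7 w8 < 19683 := by
  rw [mk9_eq]; omega

end

theorem cmp_lt (f u v : ℕ) : cmp f u v < 19683 := by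
  unfold cmp
  exact mk9_lt (ev_lt _ _ _) (ev_lt _ _ _) (ev_lt _ _ _) (ev_lt _ _ _) (ev_lt _ _ _)
    (ev_lt _ _ _) (ev_lt _ _ _) (ev_lt _ _ _) (ev_lt _ _ _)

theorem ev_cmp (f u v : ℕ) {a b : ℕ} (ha : a < 3) (hb : b < 3) :
    ev (cmp f u v) a b = ev f (ev u a b) (ev v a b) := by
  have h := ev_mk9 (ev_lt f (ev u 0 1) (ev v 0 1)) (ev_lt f (ev u 0 2) (ev v 0 2))
    (ev_lt f (ev u 1 0) (ev v 1 0)) (ev_lt f (ev u 1 2) (ev v 1 2))
    (ev_lt f (ev u 2 0) (ev v 2 0)) (ev_lt f (ev u 2 1) (ev v 2 1))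
    (ev_lt f (ev u 0 0) (ev v 0 0)) (ev_lt f (ev u 1 1) (ev v 1 1))
    (ev_lt f (ev u 2 2) (ev v 2 2))
  obtain ⟨h01, h02, h10, h12, h20, h21, h00, h11, h22⟩ := h
  have ha' : a = 0 ∨ a = 1 ∨ a = 2 := by omega
  have hb' : b = 0 ∨ b = 1 ∨ b = 2 := by omega
  unfold cmp
  rcases ha' with ha' | ha' | ha'
  · rcases hb' with hb' | hb' | hb'
    · rw [ha', hb']; exact h00
    · rw [ha', hb']; exact h01
    · rw [ha', hb']; exact h02
  · rcases hb' with hb' | hb' | hb'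
    · rw [ha', hb']; exact h10
    · rw [ha', hb']; exact h11
    · rw [ha', hb']; exact h12
  · rcases hb' with hb' | hb' | hb'
    · rw [ha', hb']; exact h20
    · rw [ha', hb']; exact h21
    · rw [ha', hb']; exact h22

theorem fin3 (x : Fin 3) : x = 0 ∨ x = 1 ∨ x = 2 := by
  revert x; decide

/-- the operation with a given code -/
def dec (c : ℕ) : Op := fun x y => ⟨ev c x.1 y.1, ev_lt _ _ _⟩

theorem dec_cmp (f u v : ℕ) :
    dec (cmp f u v) = fun x y => dec f (dec u x y) (dec v x y) := by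
  funext x y
  apply Fin.ext
  exact ev_cmp f u v x.2 y.2

/-- the code of an operation -/
def enc (f : Op) : ℕ :=
  mk9 (f 0 1).1 (f 0 2).1 (f 1 0).1 (f 1 2).1 (f 2 0).1 (f 2 1).1 (f 0 0).1 (f 1 1).1
    (f 2 2).1

theorem enc_lt (f : Op) : enc f < 19683 :=
  mk9_lt (f 0 1).2 (f 0 2).2 (f 1 0).2 (f 1 2).2 (f 2 0).2 (f 2 1).2 (f 0 0).2 (f 1 1).2
    (f 2 2).2

theorem dec_enc (f : Op) : dec (enc f) = f := by
  obtain ⟨h01, h02, h10, h12, h20, h21, h00, h11, h22⟩ :=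
    ev_mk9 (f 0 1).2 (f 0 2).2 (f 1 0).2 (f 1 2).2 (f 2 0).2 (f 2 1).2 (f 0 0).2
      (f 1 1).2 (f 2 2).2
  funext x y
  apply Fin.ext
  change ev (enc f) x.1 y.1 = (f x y).1
  rcases fin3 x with hx | hx | hx
  · rcases fin3 y with hy | hy | hy
    · rw [hx, hy]; exact h00
    · rw [hx, hy]; exact h01
    · rw [hx, hy]; exact h02
  · rcases fin3 y with hy | hy | hy
    · rw [hx, hy]; exact h10
    · rw [hx, hy]; exact h11
    · rw [hx, hy]; exact h12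
  · rcases fin3 y with hy | hy | hy
    · rw [hx, hy]; exact h20
    · rw [hx, hy]; exact h21
    · rw [hx, hy]; exact h22

theorem enc_dec {c : ℕ} (hc : c < 19683) : enc (dec c) = c := by
  change mk9 (ev c 0 1) (ev c 0 2) (ev c 1 0) (ev c 1 2) (ev c 2 0) (ev c 2 1) (ev c 0 0)
    (ev c 1 1) (ev c 2 2) = c
  rw [mk9_eq, ev01, ev02, ev10, ev12, ev20, ev21, ev00, ev11, ev22]
  omega

theorem dec_inj {c d : ℕ} (hc : c < 19683) (hd : d < 19683) (h : dec c = dec d) : c = d := by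
  rw [← enc_dec hc, ← enc_dec hd, h]

/-- code of the diagonal -/
theorem div_lt_27 {c : ℕ} (hc : c < 19683) : c / 729 < 27 := by omega

/-- binary trees of numbers -/
inductive T
  | leaf (v : ℕ)
  | node (l r : T)

/-- entry `i` of a tree -/
noncomputable def T.get (t : T) : ℕ → ℕ :=
  T.rec (motive := fun _ => ℕ → ℕ) (fun v _ => v)
    (fun _ _ gl gr i => cond (Nat.beq (Nat.land i 1) 0) (gl (Nat.shiftRight i 1))
      (gr (Nat.shiftRight i 1))) t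

/-- strict application -/
noncomputable def st {α : Type} (n : ℕ) (k : ℕ → α) : α :=
  Nat.rec (motive := fun _ => α) (k 0) (fun m _ => k (Nat.succ m)) n

theorem st_eq {α : Type} (n : ℕ) (k : ℕ → α) : st n k = k n := by
  cases n <;> rfl

/-- bit test -/
def bt (m i : ℕ) : Bool := Nat.beq (Nat.land (Nat.shiftRight m i) 1) 1

theorem bt_iff (m i : ℕ) : bt m i = true ↔ m.testBit i = true := by
  have h1 : Nat.land (Nat.shiftRight m i) 1 = (m >>> i) % 2 := Nat.and_one_is_mod _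
  unfold bt
  rw [h1, Nat.beq_eq, Nat.testBit_eq_decide_div_mod_eq, Nat.shiftRight_eq_div_pow]
  simp

end H78.BA
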