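import Pool.Agent.H78.BA.G0
import Pool.Agent.H78.BA.Desc4

/-! Generated: description of the algebras by relations. -/

set_option linter.all false

namespace H78.BA.M2105345

open H78.BA

/-- the relations -/
def RL : List (ℕ × ℕ) :=
  [(2, 51), (2, 83)]

theorem cX : chkX dat = true := by decide +kernel
theorem cR : chkR dat.rels RL = true := by decide +kernel
theorem cM : mt dat.rM 3 2105345 = true := by decide +kernel
theorem hkd : ∀ x ∈ kn, ∀ F ∈ Fam dat.k dat.MJ dat.JM dat.bs x.1 x.2.1, Dsc dat.k dat.MJ dat.P dat.AL F := fun _ hx => absurd hx List.not_mem_nil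
theorem descr : Full 2105345 RL :=
  full_of cA cB (by decide +kernel) (chkV2_sound cV) cAL cP cPT cX cM cR (dat_desc cA ok hkd rt)
theorem cI : chkI (dat.rels.zip RL) dat.AL = true := by decide +kernel
theorem irr : Irr 2105345 RL := irr_of cA (chkV2_sound cV) cAL cP cX cM cR cI

end H78.BA.M2105345

namespace H78.BA.M2629633

open H78.BA

/-- the relations -/
def RL : List (ℕ × ℕ) :=
  []

theorem cX : chkX dat = true := by decide +kernel
theorem cR : chkR dat.rels RL = true := by decide +kernel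
theorem cM : mt dat.rM 3 2629633 = true := by decide +kernel
theorem hkd : ∀ x ∈ kn, ∀ F ∈ Fam dat.k dat.MJ dat.JM dat.bs x.1 x.2.1, Dsc dat.k dat.MJ dat.P dat.AL F := fun _ hx => absurd hx List.not_mem_nil
theorem descr : Full 2629633 RL :=
  full_of cA cB (by decide +kernel) (chkV2_sound cV) cAL cP cPT cX cM cR (dat_desc cA ok hkd rt)
theorem cI : chkI (dat.rels.zip RL) dat.AL = true := by decide +kernel
theorem irr : Irr 2629633 RL := irr_of cA (chkV2_sound cV) cAL cP cX cM cR cI

end H78.BA.M2629633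

namespace H78.BA.M69214209

open H78.BA

/-- the relations -/
def RL : List (ℕ × ℕ) :=
  []

theorem cX : chkX dat = true := by decide +kernel
theorem cR : chkR dat.rels RL = true := by decide +kernel
theorem cM : mt dat.rM 3 69214209 = true := by decide +kernel
theorem hkd : ∀ x ∈ kn, ∀ F ∈ Fam dat.k dat.MJ dat.JM dat.bs x.1 x.2.1, Dsc dat.k dat.MJ dat.P dat.AL F := fun _ hx => absurd hx List.not_mem_nil
theorem descr : Full 69214209 RL :=
  full_of cA cB (by decide +kernel) (chkV2_sound cV) cAL cP cPT cX cM cR (dat_desc cA ok hkd rt)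
theorem cI : chkI (dat.rels.zip RL) dat.AL = true := by decide +kernel
theorem irr : Irr 69214209 RL := irr_of cA (chkV2_sound cV) cAL cP cX cM cR cI

end H78.BA.M69214209

namespace H78.BA.M69214241

open H78.BA

/-- the relations -/
def RL : List (ℕ × ℕ) :=
  []

theorem cX : chkX dat = true := by decide +kernel
theorem cR : chkR dat.rels RL = true := by decide +kernel
theorem cM : mt dat.rM 3 69214241 = true := by decide +kernel
theorem hkd : ∀ x ∈ kn, ∀ F ∈ Fam dat.k dat.MJ dat.JM dat.bs x.1 x.2.1, Dsc dat.k dat.MJ dat.P dat.AL F := fun _ hx => absurd hx List.not_mem_nil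
theorem descr : Full 69214241 RL :=
  full_of cA cB (by decide +kernel) (chkV2_sound cV) cAL cP cPT cX cM cR (dat_desc cA ok hkd rt)
theorem cI : chkI (dat.rels.zip RL) dat.AL = true := by decide +kernel
theorem irr : Irr 69214241 RL := irr_of cA (chkV2_sound cV) cAL cP cX cM cR cI

end H78.BA.M69214241

namespace H78.BA.M2099328

open H78.BA

/-- the relations -/
def RL : List (ℕ × ℕ) :=
  [(2, 371), (3, 69773473)]

theorem cX : chkX dat = true := by decide +kernel
theorem cR : chkR dat.rels RL = true := by decide +kernel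
theorem cM : mt dat.rM 3 2099328 = true := by decide +kernel
theorem hkd : ∀ x ∈ kn, ∀ F ∈ Fam dat.k dat.MJ dat.JM dat.bs x.1 x.2.1, Dsc dat.k dat.MJ dat.P dat.AL F := fun _ hx => absurd hx List.not_mem_nil
theorem descr : Full 2099328 RL :=
  full_of cA cB (by decide +kernel) (chkV2_sound cV) cAL cP cPT cX cM cR (dat_desc cA ok hkd rt)
theorem cI : chkI (dat.rels.zip RL) dat.AL = true := by decide +kernel
theorem irr : Irr 2099328 RL := irr_of cA (chkV2_sound cV) cAL cP cX cM cR cI

end H78.BA.M2099328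

namespace H78.BA.M69214225

open H78.BA

/-- the relations -/
def RL : List (ℕ × ℕ) :=
  [(3, 68166409), (3, 67122245)]

theorem cX : chkX dat = true := by decide +kernel
theorem cR : chkR dat.rels RL = true := by decide +kernel
theorem cM : mt dat.rM 3 69214225 = true := by decide +kernel
theorem hkd : ∀ x ∈ kn, ∀ F ∈ Fam dat.k dat.MJ dat.JM dat.bs x.1 x.2.1, Dsc dat.k dat.MJ dat.P dat.AL F := fun _ hx => absurd hx List.not_mem_nil
theorem descr : Full 69214225 RL :=
  full_of cA cB (by decide +kernel) (chkV2_sound cV) cAL cP cPT cX cM cR (dat_desc cA ok hkd rt)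
theorem cI : chkI (dat.rels.zip RL) dat.AL = true := by decide +kernel
theorem irr : Irr 69214225 RL := irr_of cA (chkV2_sound cV) cAL cP cX cM cR cI

end H78.BA.M69214225

namespace H78.BA.M69216385

open H78.BA

/-- the relations -/
def RL : List (ℕ × ℕ) :=
  []

theorem cX : chkX dat = true := by decide +kernel
theorem cR : chkR dat.rels RL = true := by decide +kernel
theorem cM : mt dat.rM 3 69216385 = true := by decide +kernel
theorem hkd : ∀ x ∈ kn, ∀ F ∈ Fam dat.k dat.MJ dat.JM dat.bs x.1 x.2.1, Dsc dat.k dat.MJ dat.P dat.AL F := fun _ hx => absurd hx List.not_mem_nil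
theorem descr : Full 69216385 RL :=
  full_of cA cB (by decide +kernel) (chkV2_sound cV) cAL cP cPT cX cM cR (dat_desc cA ok hkd rt)
theorem cI : chkI (dat.rels.zip RL) dat.AL = true := by decide +kernel
theorem irr : Irr 69216385 RL := irr_of cA (chkV2_sound cV) cAL cP cX cM cR cI

end H78.BA.M69216385

namespace H78.BA.M2656416

open H78.BA

/-- the relations -/
def RL : List (ℕ × ℕ) :=
  []

theorem cX : chkX dat = true := by decide +kernel
theorem cR : chkR dat.rels RL = true := by decide +kernel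
theorem cM : mt dat.rM 3 2656416 = true := by decide +kernel
theorem hkd : ∀ x ∈ kn, ∀ F ∈ Fam dat.k dat.MJ dat.JM dat.bs x.1 x.2.1, Dsc dat.k dat.MJ dat.P dat.AL F := fun _ hx => absurd hx List.not_mem_nil
theorem descr : Full 2656416 RL :=
  full_of cA cB (by decide +kernel) (chkV2_sound cV) cAL cP cPT cX cM cR (dat_desc cA ok hkd rt)
theorem cI : chkI (dat.rels.zip RL) dat.AL = true := by decide +kernel
theorem irr : Irr 2656416 RL := irr_of cA (chkV2_sound cV) cAL cP cX cM cR cI

end H78.BA.M2656416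

namespace H78.BA.M69214217

open H78.BA

/-- the relations -/
def RL : List (ℕ × ℕ) :=
  [(3, 67117067), (3, 68165889), (3, 67118097)]

theorem cX : chkX dat = true := by decide +kernel
theorem cR : chkR dat.rels RL = true := by decide +kernel
theorem cM : mt dat.rM 3 69214217 = true := by decide +kernel
theorem hkd : ∀ x ∈ kn, ∀ F ∈ Fam dat.k dat.MJ dat.JM dat.bs x.1 x.2.1, Dsc dat.k dat.MJ dat.P dat.AL F := fun _ hx => absurd hx List.not_mem_nil
theorem descr : Full 69214217 RL :=
  full_of cA cB (by decide +kernel) (chkV2_sound cV) cAL cP cPT cX cM cR (dat_desc cA ok hkd rt)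
theorem cI : chkI (dat.rels.zip RL) dat.AL = true := by decide +kernel
theorem irr : Irr 69214217 RL := irr_of cA (chkV2_sound cV) cAL cP cX cM cR cI

end H78.BA.M69214217

namespace H78.BA.M69215241

open H78.BA

/-- the relations -/
def RL : List (ℕ × ℕ) :=
  [(3, 67122187), (4, 0x100000000011050001411), (3, 68165889)]

theorem cX : chkX dat = true := by decide +kernel
theorem cR : chkR dat.rels RL = true := by decide +kernel
theorem cM : mt dat.rM 3 69215241 = true := by decide +kernel
theorem hkd : ∀ x ∈ kn, ∀ F ∈ Fam dat.k dat.MJ dat.JM dat.bs x.1 x.2.1, Dsc dat.k dat.MJ dat.P dat.AL F := fun _ hx => absurd hx List.not_mem_nil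
theorem descr : Full 69215241 RL :=
  full_of cA cB (by decide +kernel) (chkV2_sound cV) cAL cP cPT cX cM cR (dat_desc cA ok hkd rt)
theorem cI : chkI (dat.rels.zip RL) dat.AL = true := by decide +kernel
theorem irr : Irr 69215241 RL := irr_of cA (chkV2_sound cV) cAL cP cX cM cR cI

end H78.BA.M69215241

namespace H78.BA.M69214729

open H78.BA

/-- the relations -/
def RL : List (ℕ × ℕ) :=
  [(3, 68166929), (3, 68166673), (3, 67117135), (3, 67118097), (3, 100675627)]

theorem cX : chkX dat = true := by decide +kernel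
theorem cR : chkR dat.rels RL = true := by decide +kernel
theorem cM : mt dat.rM 3 69214729 = true := by decide +kernel
theorem hkd0 : ∀ x ∈ kn0, ∀ F ∈ Fam dat.k dat.MJ dat.JM dat.bs x.1 x.2.1, Dsc dat.k dat.MJ dat.P dat.AL F :=
  (List.forall_mem_cons.2 ⟨sub_desc ok.1 r0, (fun _ hx => absurd hx List.not_mem_nil)⟩)
theorem hkd : ∀ x ∈ kn, ∀ F ∈ Fam dat.k dat.MJ dat.JM dat.bs x.1 x.2.1, Dsc dat.k dat.MJ dat.P dat.AL F :=
  hkd0
theorem descr : Full 69214729 RL :=
  full_of cA cB (by decide +kernel) (chkV2_sound cV) cAL cP cPT cX cM cR (dat_desc cA ok hkd rt)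
theorem cI : chkI (dat.rels.zip RL) dat.AL = true := by decide +kernel
theorem irr : Irr 69214729 RL := irr_of cA (chkV2_sound cV) cAL cP cX cM cR cI

end H78.BA.M69214729

namespace H78.BA.M2098184

open H78.BA

/-- the relations -/
def RL : List (ℕ × ℕ) :=
  [(2, 283), (3, 76620909), (2, 31), (2, 255), (3, 17834241), (3, 68165889), (2, 85), (2, 277)]

theorem cX : chkX dat = true := by decide +kernel
theorem cR : chkR dat.rels RL = true := by decide +kernel
theorem cM : mt dat.rM 3 2098184 = true := by decide +kernel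
theorem hkd0 : ∀ x ∈ kn0, ∀ F ∈ Fam dat.k dat.MJ dat.JM dat.bs x.1 x.2.1, Dsc dat.k dat.MJ dat.P dat.AL F :=
  (List.forall_mem_cons.2 ⟨sub_desc ok.1 r0, (List.forall_mem_cons.2 ⟨sub_desc ok.1 r1, (fun _ hx => absurd hx List.not_mem_nil)⟩)⟩)
theorem hkd : ∀ x ∈ kn, ∀ F ∈ Fam dat.k dat.MJ dat.JM dat.bs x.1 x.2.1, Dsc dat.k dat.MJ dat.P dat.AL F :=
  hkd0
theorem descr : Full 2098184 RL :=
  full_of cA cB (by decide +kernel) (chkV2_sound cV) cAL cP cPT cX cM cR (dat_desc cA ok hkd rt)
theorem cI : chkI (dat.rels.zip RL) dat.AL = true := by decide +kernel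
theorem irr : Irr 2098184 RL := irr_of cA (chkV2_sound cV) cAL cP cX cM cR cI

end H78.BA.M2098184

namespace H78.BA.M73670657

open H78.BA

/-- the relations -/
def RL : List (ℕ × ℕ) :=
  [(3, 67199045), (3, 67182659), (3, 67117067), (3, 67118097), (3, 76685569)]

theorem cX : chkX dat = true := by decide +kernel
theorem cR : chkR dat.rels RL = true := by decide +kernel
theorem cM : mt dat.rM 3 73670657 = true := by decide +kernel
theorem hkd0 : ∀ x ∈ kn0, ∀ F ∈ Fam dat.k dat.MJ dat.JM dat.bs x.1 x.2.1, Dsc dat.k dat.MJ dat.P dat.AL F :=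
  (List.forall_mem_cons.2 ⟨sub_desc ok.1 r0, (List.forall_mem_cons.2 ⟨sub_desc ok.1 r1, (fun _ hx => absurd hx List.not_mem_nil)⟩)⟩)
theorem hkd : ∀ x ∈ kn, ∀ F ∈ Fam dat.k dat.MJ dat.JM dat.bs x.1 x.2.1, Dsc dat.k dat.MJ dat.P dat.AL F :=
  hkd0
theorem descr : Full 73670657 RL :=
  full_of cA cB (by decide +kernel) (chkV2_sound cV) cAL cP cPT cX cM cR (dat_desc cA ok hkd rt)
theorem cI : chkI (dat.rels.zip RL) dat.AL = true := by decide +kernel
theorem irr : Irr 73670657 RL := irr_of cA (chkV2_sound cV) cAL cP cX cM cR cI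

end H78.BA.M73670657

namespace H78.BA.M69476369

open H78.BA

/-- the relations -/
def RL : List (ℕ × ℕ) :=
  [(3, 67122245), (3, 67121173), (3, 67122757), (3, 68166409), (3, 67118097), (3, 68170505)]

theorem cX : chkX dat = true := by decide +kernel
theorem cR : chkR dat.rels RL = true := by decide +kernel
theorem cM : mt dat.rM 3 69476369 = true := by decide +kernel
theorem hkd0 : ∀ x ∈ kn0, ∀ F ∈ Fam dat.k dat.MJ dat.JM dat.bs x.1 x.2.1, Dsc dat.k dat.MJ dat.P dat.AL F :=
  (List.forall_mem_cons.2 ⟨sub_desc ok.1 r0, (fun _ hx => absurd hx List.not_mem_nil)⟩)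
theorem hkd : ∀ x ∈ kn, ∀ F ∈ Fam dat.k dat.MJ dat.JM dat.bs x.1 x.2.1, Dsc dat.k dat.MJ dat.P dat.AL F :=
  hkd0
theorem descr : Full 69476369 RL :=
  full_of cA cB (by decide +kernel) (chkV2_sound cV) cAL cP cPT cX cM cR (dat_desc cA ok hkd rt)
theorem cI : chkI (dat.rels.zip RL) dat.AL = true := by decide +kernel
theorem irr : Irr 69476369 RL := irr_of cA (chkV2_sound cV) cAL cP cX cM cR cI

end H78.BA.M69476369

namespace H78.BA.M69773473

open H78.BA

/-- the relations -/
def RL : List (ℕ × ℕ) :=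
  [(3, 126973007)]

theorem cX : chkX dat = true := by decide +kernel
theorem cR : chkR dat.rels RL = true := by decide +kernel
theorem cM : mt dat.rM 3 69773473 = true := by decide +kernel
theorem hkd : ∀ x ∈ kn, ∀ F ∈ Fam dat.k dat.MJ dat.JM dat.bs x.1 x.2.1, Dsc dat.k dat.MJ dat.P dat.AL F := fun _ hx => absurd hx List.not_mem_nil
theorem descr : Full 69773473 RL :=
  full_of cA cB (by decide +kernel) (chkV2_sound cV) cAL cP cPT cX cM cR (dat_desc cA ok hkd rt)
theorem cI : chkI (dat.rels.zip RL) dat.AL = true := by decide +kernel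
theorem irr : Irr 69773473 RL := irr_of cA (chkV2_sound cV) cAL cP cX cM cR cI

end H78.BA.M69773473

namespace H78.BA.M69219339

open H78.BA

/-- the relations -/
def RL : List (ℕ × ℕ) :=
  [(3, 67121939), (3, 67253791)]

theorem cX : chkX dat = true := by decide +kernel
theorem cR : chkR dat.rels RL = true := by decide +kernel
theorem cM : mt dat.rM 3 69219339 = true := by decide +kernel
theorem hkd : ∀ x ∈ kn, ∀ F ∈ Fam dat.k dat.MJ dat.JM dat.bs x.1 x.2.1, Dsc dat.k dat.MJ dat.P dat.AL F := fun _ hx => absurd hx List.not_mem_nil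
theorem descr : Full 69219339 RL :=
  full_of cA cB (by decide +kernel) (chkV2_sound cV) cAL cP cPT cX cM cR (dat_desc cA ok hkd rt)
theorem cI : chkI (dat.rels.zip RL) dat.AL = true := by decide +kernel
theorem irr : Irr 69219339 RL := irr_of cA (chkV2_sound cV) cAL cP cX cM cR cI

end H78.BA.M69219339

namespace H78.BA.M81995289

open H78.BA

/-- the relations -/
def RL : List (ℕ × ℕ) :=
  []

theorem cX : chkX dat = true := by decide +kernel
theorem cR : chkR dat.rels RL = true := by decide +kernel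
theorem cM : mt dat.rM 3 81995289 = true := by decide +kernel
theorem hkd : ∀ x ∈ kn, ∀ F ∈ Fam dat.k dat.MJ dat.JM dat.bs x.1 x.2.1, Dsc dat.k dat.MJ dat.P dat.AL F := fun _ hx => absurd hx List.not_mem_nil
theorem descr : Full 81995289 RL :=
  full_of cA cB (by decide +kernel) (chkV2_sound cV) cAL cP cPT cX cM cR (dat_desc cA ok hkd rt)
theorem cI : chkI (dat.rels.zip RL) dat.AL = true := by decide +kernel
theorem irr : Irr 81995289 RL := irr_of cA (chkV2_sound cV) cAL cP cX cM cR cI

end H78.BA.M81995289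

namespace H78.BA.M70526809

open H78.BA

/-- the relations -/
def RL : List (ℕ × ℕ) :=
  []

theorem cX : chkX dat = true := by decide +kernel
theorem cR : chkR dat.rels RL = true := by decide +kernel
theorem cM : mt dat.rM 3 70526809 = true := by decide +kernel
theorem hkd : ∀ x ∈ kn, ∀ F ∈ Fam dat.k dat.MJ dat.JM dat.bs x.1 x.2.1, Dsc dat.k dat.MJ dat.P dat.AL F := fun _ hx => absurd hx List.not_mem_nil
theorem descr : Full 70526809 RL :=
  full_of cA cB (by decide +kernel) (chkV2_sound cV) cAL cP cPT cX cM cR (dat_desc cA ok hkd rt)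
theorem cI : chkI (dat.rels.zip RL) dat.AL = true := by decide +kernel
theorem irr : Irr 70526809 RL := irr_of cA (chkV2_sound cV) cAL cP cX cM cR cI

end H78.BA.M70526809

namespace H78.BA.M69214281

open H78.BA

/-- the relations -/
def RL : List (ℕ × ℕ) :=
  [(3, 68166929), (3, 68165905), (3, 67117135), (3, 68559367), (3, 68166933), (3, 67117391),
    (3, 68165889), (3, 68232301), (3, 67382033)]

theorem cX : chkX dat = true := by decide +kernel
theorem cR : chkR dat.rels RL = true := by decide +kernel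
theorem cM : mt dat.rM 3 69214281 = true := by decide +kernel
theorem hkd0 : ∀ x ∈ kn0, ∀ F ∈ Fam dat.k dat.MJ dat.JM dat.bs x.1 x.2.1, Dsc dat.k dat.MJ dat.P dat.AL F :=
  (List.forall_mem_cons.2 ⟨sub_desc ok.1 r0, (fun _ hx => absurd hx List.not_mem_nil)⟩)
theorem hkd : ∀ x ∈ kn, ∀ F ∈ Fam dat.k dat.MJ dat.JM dat.bs x.1 x.2.1, Dsc dat.k dat.MJ dat.P dat.AL F :=
  hkd0
theorem descr : Full 69214281 RL :=
  full_of cA cB (by decide +kernel) (chkV2_sound cV) cAL cP cPT cX cM cR (dat_desc cA ok hkd rt)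
theorem cI : chkI (dat.rels.zip RL) dat.AL = true := by decide +kernel
theorem irr : Irr 69214281 RL := irr_of cA (chkV2_sound cV) cAL cP cX cM cR cI

end H78.BA.M69214281

namespace H78.BA.M70559577

open H78.BA

/-- the relations -/
def RL : List (ℕ × ℕ) :=
  []

theorem cX : chkX dat = true := by decide +kernel
theorem cR : chkR dat.rels RL = true := by decide +kernel
theorem cM : mt dat.rM 3 70559577 = true := by decide +kernel
theorem hkd : ∀ x ∈ kn, ∀ F ∈ Fam dat.k dat.MJ dat.JM dat.bs x.1 x.2.1, Dsc dat.k dat.MJ dat.P dat.AL F := fun _ hx => absurd hx List.not_mem_nil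
theorem descr : Full 70559577 RL :=
  full_of cA cB (by decide +kernel) (chkV2_sound cV) cAL cP cPT cX cM cR (dat_desc cA ok hkd rt)
theorem cI : chkI (dat.rels.zip RL) dat.AL = true := by decide +kernel
theorem irr : Irr 70559577 RL := irr_of cA (chkV2_sound cV) cAL cP cX cM cR cI

end H78.BA.M70559577

namespace H78.BA.M69743627

open H78.BA

/-- the relations -/
def RL : List (ℕ × ℕ) :=
  [(3, 67253011), (3, 67270431)]

theorem cX : chkX dat = true := by decide +kernel
theorem cR : chkR dat.rels RL = true := by decide +kernel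
theorem cM : mt dat.rM 3 69743627 = true := by decide +kernel
theorem hkd : ∀ x ∈ kn, ∀ F ∈ Fam dat.k dat.MJ dat.JM dat.bs x.1 x.2.1, Dsc dat.k dat.MJ dat.P dat.AL F := fun _ hx => absurd hx List.not_mem_nil
theorem descr : Full 69743627 RL :=
  full_of cA cB (by decide +kernel) (chkV2_sound cV) cAL cP cPT cX cM cR (dat_desc cA ok hkd rt)
theorem cI : chkI (dat.rels.zip RL) dat.AL = true := by decide +kernel
theorem irr : Irr 69743627 RL := irr_of cA (chkV2_sound cV) cAL cP cX cM cR cI

end H78.BA.M69743627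

namespace H78.BA.M74194945

open H78.BA

/-- the relations -/
def RL : List (ℕ × ℕ) :=
  [(3, 67199045), (3, 67186755), (3, 67122187), (4, 0x100000000011050001411), (3, 76685569)]

theorem cX : chkX dat = true := by decide +kernel
theorem cR : chkR dat.rels RL = true := by decide +kernel
theorem cM : mt dat.rM 3 74194945 = true := by decide +kernel
theorem hkd0 : ∀ x ∈ kn0, ∀ F ∈ Fam dat.k dat.MJ dat.JM dat.bs x.1 x.2.1, Dsc dat.k dat.MJ dat.P dat.AL F :=
  (List.forall_mem_cons.2 ⟨sub_desc ok.1 r0, (List.forall_mem_cons.2 ⟨sub_desc ok.1 r1, (fun _ hx => absurd hx List.not_mem_nil)⟩)⟩)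
theorem hkd : ∀ x ∈ kn, ∀ F ∈ Fam dat.k dat.MJ dat.JM dat.bs x.1 x.2.1, Dsc dat.k dat.MJ dat.P dat.AL F :=
  hkd0
theorem descr : Full 74194945 RL :=
  full_of cA cB (by decide +kernel) (chkV2_sound cV) cAL cP cPT cX cM cR (dat_desc cA ok hkd rt)
theorem cI : chkI (dat.rels.zip RL) dat.AL = true := by decide +kernel
theorem irr : Irr 74194945 RL := irr_of cA (chkV2_sound cV) cAL cP cX cM cR cI

end H78.BA.M74194945

namespace H78.BA.M69218313

open H78.BA

/-- the relations -/
def RL : List (ℕ × ℕ) :=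
  [(3, 75637257), (3, 68166929), (3, 67248643), (3, 67249671), (3, 67137817), (3, 68166673),
    (3, 67117067), (3, 67124799), (3, 67141179), (3, 67118097)]

theorem cX : chkX dat = true := by decide +kernel
theorem cR : chkR dat.rels RL = true := by decide +kernel
theorem cM : mt dat.rM 3 69218313 = true := by decide +kernel
theorem hkd0 : ∀ x ∈ kn0, ∀ F ∈ Fam dat.k dat.MJ dat.JM dat.bs x.1 x.2.1, Dsc dat.k dat.MJ dat.P dat.AL F :=
  (List.forall_mem_cons.2 ⟨sub_desc ok.1 r0, (List.forall_mem_cons.2 ⟨sub_desc ok.1 r1, (fun _ hx => absurd hx List.not_mem_nil)⟩)⟩)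
theorem hkd : ∀ x ∈ kn, ∀ F ∈ Fam dat.k dat.MJ dat.JM dat.bs x.1 x.2.1, Dsc dat.k dat.MJ dat.P dat.AL F :=
  hkd0
theorem descr : Full 69218313 RL :=
  full_of cA cB (by decide +kernel) (chkV2_sound cV) cAL cP cPT cX cM cR (dat_desc cA ok hkd rt)
theorem cI : chkI (dat.rels.zip RL) dat.AL = true := by decide +kernel
theorem irr : Irr 69218313 RL := irr_of cA (chkV2_sound cV) cAL cP cX cM cR cI

end H78.BA.M69218313

namespace H78.BA.M6684928

open H78.BA

/-- the relations -/
def RL : List (ℕ × ℕ) :=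
  [(2, 501), (3, 117469223), (3, 117469231), (4, 0x113000000113000022313), (3, 117469239),
    (3, 67117067), (3, 67118097)]

theorem cX : chkX dat = true := by decide +kernel
theorem cR : chkR dat.rels RL = true := by decide +kernel
theorem cM : mt dat.rM 3 6684928 = true := by decide +kernel
theorem hkd0 : ∀ x ∈ kn0, ∀ F ∈ Fam dat.k dat.MJ dat.JM dat.bs x.1 x.2.1, Dsc dat.k dat.MJ dat.P dat.AL F :=
  (List.forall_mem_cons.2 ⟨sub_desc ok.1 r0, (fun _ hx => absurd hx List.not_mem_nil)⟩)
theorem hkd : ∀ x ∈ kn, ∀ F ∈ Fam dat.k dat.MJ dat.JM dat.bs x.1 x.2.1, Dsc dat.k dat.MJ dat.P dat.AL F :=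
  hkd0
theorem descr : Full 6684928 RL :=
  full_of cA cB (by decide +kernel) (chkV2_sound cV) cAL cP cPT cX cM cR (dat_desc cA ok hkd rt)
theorem cI : chkI (dat.rels.zip RL) dat.AL = true := by decide +kernel
theorem irr : Irr 6684928 RL := irr_of cA (chkV2_sound cV) cAL cP cX cM cR cI

end H78.BA.M6684928

namespace H78.BA.M83306329

open H78.BA

/-- the relations -/
def RL : List (ℕ × ℕ) :=
  []

theorem cX : chkX dat = true := by decide +kernel
theorem cR : chkR dat.rels RL = true := by decide +kernel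
theorem cM : mt dat.rM 3 83306329 = true := by decide +kernel
theorem hkd : ∀ x ∈ kn, ∀ F ∈ Fam dat.k dat.MJ dat.JM dat.bs x.1 x.2.1, Dsc dat.k dat.MJ dat.P dat.AL F := fun _ hx => absurd hx List.not_mem_nil
theorem descr : Full 83306329 RL :=
  full_of cA cB (by decide +kernel) (chkV2_sound cV) cAL cP cPT cX cM cR (dat_desc cA ok hkd rt)
theorem cI : chkI (dat.rels.zip RL) dat.AL = true := by decide +kernel
theorem irr : Irr 83306329 RL := irr_of cA (chkV2_sound cV) cAL cP cX cM cR cI

end H78.BA.M83306329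

namespace H78.BA.M73801985

open H78.BA

/-- the relations -/
def RL : List (ℕ × ℕ) :=
  [(3, 126967877), (4, 0x111501114110001100101), (3, 76619843), (3, 67117067), (3, 67118097)]

theorem cX : chkX dat = true := by decide +kernel
theorem cR : chkR dat.rels RL = true := by decide +kernel
theorem cM : mt dat.rM 3 73801985 = true := by decide +kernel
theorem hkd0 : ∀ x ∈ kn0, ∀ F ∈ Fam dat.k dat.MJ dat.JM dat.bs x.1 x.2.1, Dsc dat.k dat.MJ dat.P dat.AL F :=
  (List.forall_mem_cons.2 ⟨sub_desc ok.1 r0, (fun _ hx => absurd hx List.not_mem_nil)⟩)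
theorem hkd : ∀ x ∈ kn, ∀ F ∈ Fam dat.k dat.MJ dat.JM dat.bs x.1 x.2.1, Dsc dat.k dat.MJ dat.P dat.AL F :=
  hkd0
theorem descr : Full 73801985 RL :=
  full_of cA cB (by decide +kernel) (chkV2_sound cV) cAL cP cPT cX cM cR (dat_desc cA ok hkd rt)
theorem cI : chkI (dat.rels.zip RL) dat.AL = true := by decide +kernel
theorem irr : Irr 73801985 RL := irr_of cA (chkV2_sound cV) cAL cP cX cM cR cI

end H78.BA.M73801985

namespace H78.BA.M69214233

open H78.BA

/-- the relations -/
def RL : List (ℕ × ℕ) :=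
  [(3, 68166409), (3, 67117827), (4, 0x102000000013000022213), (4, 0x100000010018098000029),
    (3, 67122245), (3, 67117067), (3, 67121173), (3, 67187717), (3, 67252741), (3, 67118097),
    (4, 0x10000000001b000017401), (3, 67137553), (3, 67122363)]

theorem cX : chkX dat = true := by decide +kernel
theorem cR : chkR dat.rels RL = true := by decide +kernel
theorem cM : mt dat.rM 3 69214233 = true := by decide +kernel
theorem hkd0 : ∀ x ∈ kn0, ∀ F ∈ Fam dat.k dat.MJ dat.JM dat.bs x.1 x.2.1, Dsc dat.k dat.MJ dat.P dat.AL F :=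
  (List.forall_mem_cons.2 ⟨sub_desc ok.1 r0, (List.forall_mem_cons.2 ⟨sub_desc ok.1 r1, (fun _ hx => absurd hx List.not_mem_nil)⟩)⟩)
theorem hkd : ∀ x ∈ kn, ∀ F ∈ Fam dat.k dat.MJ dat.JM dat.bs x.1 x.2.1, Dsc dat.k dat.MJ dat.P dat.AL F :=
  hkd0
theorem descr : Full 69214233 RL :=
  full_of cA cB (by decide +kernel) (chkV2_sound cV) cAL cP cPT cX cM cR (dat_desc cA ok hkd rt)
theorem cI : chkI (dat.rels.zip RL) dat.AL = true := by decide +kernel
theorem irr : Irr 69214233 RL := irr_of cA (chkV2_sound cV) cAL cP cX cM cR cI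

end H78.BA.M69214233

namespace H78.BA.M69476361

open H78.BA

/-- the relations -/
def RL : List (ℕ × ℕ) :=
  [(3, 68165889), (3, 67118097), (4, 0x10000000003814000500d), (4, 0x100824100010000020305),
    (3, 67117125), (3, 67117067), (3, 67183683), (3, 67248901), (3, 70524973), (3, 67123757)]

theorem cX : chkX dat = true := by decide +kernel
theorem cR : chkR dat.rels RL = true := by decide +kernel
theorem cM : mt dat.rM 3 69476361 = true := by decide +kernel
theorem hkd0 : ∀ x ∈ kn0, ∀ F ∈ Fam dat.k dat.MJ dat.JM dat.bs x.1 x.2.1, Dsc dat.k dat.MJ dat.P dat.AL F :=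
  (List.forall_mem_cons.2 ⟨sub_desc ok.1 r0, (List.forall_mem_cons.2 ⟨sub_desc ok.1 r1, (fun _ hx => absurd hx List.not_mem_nil)⟩)⟩)
theorem hkd : ∀ x ∈ kn, ∀ F ∈ Fam dat.k dat.MJ dat.JM dat.bs x.1 x.2.1, Dsc dat.k dat.MJ dat.P dat.AL F :=
  hkd0
theorem descr : Full 69476361 RL :=
  full_of cA cB (by decide +kernel) (chkV2_sound cV) cAL cP cPT cX cM cR (dat_desc cA ok hkd rt)
theorem cI : chkI (dat.rels.zip RL) dat.AL = true := by decide +kernel
theorem irr : Irr 69476361 RL := irr_of cA (chkV2_sound cV) cAL cP cX cM cR cI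

end H78.BA.M69476361

namespace H78.BA.M83339097

open H78.BA

/-- the relations -/
def RL : List (ℕ × ℕ) :=
  []

theorem cX : chkX dat = true := by decide +kernel
theorem cR : chkR dat.rels RL = true := by decide +kernel
theorem cM : mt dat.rM 3 83339097 = true := by decide +kernel
theorem hkd : ∀ x ∈ kn, ∀ F ∈ Fam dat.k dat.MJ dat.JM dat.bs x.1 x.2.1, Dsc dat.k dat.MJ dat.P dat.AL F := fun _ hx => absurd hx List.not_mem_nil
theorem descr : Full 83339097 RL :=
  full_of cA cB (by decide +kernel) (chkV2_sound cV) cAL cP cPT cX cM cR (dat_desc cA ok hkd rt)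
theorem cI : chkI (dat.rels.zip RL) dat.AL = true := by decide +kernel
theorem irr : Irr 83339097 RL := irr_of cA (chkV2_sound cV) cAL cP cX cM cR cI

end H78.BA.M83339097

namespace H78.BA.M69739025

open H78.BA

/-- the relations -/
def RL : List (ℕ × ℕ) :=
  [(4, 0x100000004911850921511), (4, 0x1000000041130d8103719), (4, 0x10000000411b0d010171b),
    (4, 0x10000000411b0c810271b), (4, 0x100000004119058103513), (3, 67187787)]

theorem cX : chkX dat = true := by decide +kernel
theorem cR : chkR dat.rels RL = true := by decide +kernel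
theorem cM : mt dat.rM 3 69739025 = true := by decide +kernel
theorem hkd0 : ∀ x ∈ kn0, ∀ F ∈ Fam dat.k dat.MJ dat.JM dat.bs x.1 x.2.1, Dsc dat.k dat.MJ dat.P dat.AL F :=
  (List.forall_mem_cons.2 ⟨sub_desc ok.1 r0, (List.forall_mem_cons.2 ⟨sub_desc ok.1 r1, (fun _ hx => absurd hx List.not_mem_nil)⟩)⟩)
theorem hkd : ∀ x ∈ kn, ∀ F ∈ Fam dat.k dat.MJ dat.JM dat.bs x.1 x.2.1, Dsc dat.k dat.MJ dat.P dat.AL F :=
  hkd0
theorem descr : Full 69739025 RL :=
  full_of cA cB (by decide +kernel) (chkV2_sound cV) cAL cP cPT cX cM cR (dat_desc cA ok hkd rt)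
theorem cI : chkI (dat.rels.zip RL) dat.AL = true := by decide +kernel
theorem irr : Irr 69739025 RL := irr_of cA (chkV2_sound cV) cAL cP cX cM cR cI

end H78.BA.M69739025

namespace H78.BA.M2105376

open H78.BA

/-- the relations -/
def RL : List (ℕ × ℕ) :=
  [(3, 118497351), (3, 73429041), (3, 69773473), (3, 127148367), (2, 471), (3, 118759751),
    (2, 403), (2, 186), (2, 341), (3, 129769967), (2, 443), (3, 117993607), (3, 44739242)]

theorem cX : chkX dat = true := by decide +kernel
theorem cR : chkR dat.rels RL = true := by decide +kernel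
theorem cM : mt dat.rM 3 2105376 = true := by decide +kernel
theorem hkd0 : ∀ x ∈ kn0, ∀ F ∈ Fam dat.k dat.MJ dat.JM dat.bs x.1 x.2.1, Dsc dat.k dat.MJ dat.P dat.AL F :=
  (List.forall_mem_cons.2 ⟨sub_desc ok.1 r0, (List.forall_mem_cons.2 ⟨sub_desc ok.1 r1, (fun _ hx => absurd hx List.not_mem_nil)⟩)⟩)
theorem hkd : ∀ x ∈ kn, ∀ F ∈ Fam dat.k dat.MJ dat.JM dat.bs x.1 x.2.1, Dsc dat.k dat.MJ dat.P dat.AL F :=
  hkd0
theorem descr : Full 2105376 RL :=
  full_of cA cB (by decide +kernel) (chkV2_sound cV) cAL cP cPT cX cM cR (dat_desc cA ok hkd rt)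
theorem cI : chkI (dat.rels.zip RL) dat.AL = true := by decide +kernel
theorem irr : Irr 2105376 RL := irr_of cA (chkV2_sound cV) cAL cP cX cM cR cI

end H78.BA.M2105376

namespace H78.BA.M69509705

open H78.BA

/-- the relations -/
def RL : List (ℕ × ℕ) :=
  [(3, 68166929), (3, 117469535), (3, 129891919), (3, 76620879)]

theorem cX : chkX dat = true := by decide +kernel
theorem cR : chkR dat.rels RL = true := by decide +kernel
theorem cM : mt dat.rM 3 69509705 = true := by decide +kernel
theorem hkd0 : ∀ x ∈ kn0, ∀ F ∈ Fam dat.k dat.MJ dat.JM dat.bs x.1 x.2.1, Dsc dat.k dat.MJ dat.P dat.AL F :=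
  (List.forall_mem_cons.2 ⟨sub_desc ok.1 r0, (fun _ hx => absurd hx List.not_mem_nil)⟩)
theorem hkd : ∀ x ∈ kn, ∀ F ∈ Fam dat.k dat.MJ dat.JM dat.bs x.1 x.2.1, Dsc dat.k dat.MJ dat.P dat.AL F :=
  hkd0
theorem descr : Full 69509705 RL :=
  full_of cA cB (by decide +kernel) (chkV2_sound cV) cAL cP cPT cX cM cR (dat_desc cA ok hkd rt)
theorem cI : chkI (dat.rels.zip RL) dat.AL = true := by decide +kernel
theorem irr : Irr 69509705 RL := irr_of cA (chkV2_sound cV) cAL cP cX cM cR cI

end H78.BA.M69509705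

namespace H78.BA.M74326273

open H78.BA

/-- the relations -/
def RL : List (ℕ × ℕ) :=
  [(3, 126967877), (4, 0x111501114110001100101), (3, 76623939), (3, 67122187),
    (4, 0x100000000011050001411)]

theorem cX : chkX dat = true := by decide +kernel
theorem cR : chkR dat.rels RL = true := by decide +kernel
theorem cM : mt dat.rM 3 74326273 = true := by decide +kernel
theorem hkd0 : ∀ x ∈ kn0, ∀ F ∈ Fam dat.k dat.MJ dat.JM dat.bs x.1 x.2.1, Dsc dat.k dat.MJ dat.P dat.AL F :=
  (List.forall_mem_cons.2 ⟨sub_desc ok.1 r0, (fun _ hx => absurd hx List.not_mem_nil)⟩)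
theorem hkd : ∀ x ∈ kn, ∀ F ∈ Fam dat.k dat.MJ dat.JM dat.bs x.1 x.2.1, Dsc dat.k dat.MJ dat.P dat.AL F :=
  hkd0
theorem descr : Full 74326273 RL :=
  full_of cA cB (by decide +kernel) (chkV2_sound cV) cAL cP cPT cX cM cR (dat_desc cA ok hkd rt)
theorem cI : chkI (dat.rels.zip RL) dat.AL = true := by decide +kernel
theorem irr : Irr 74326273 RL := irr_of cA (chkV2_sound cV) cAL cP cX cM cR cI

end H78.BA.M74326273

namespace H78.BA.M2106377

open H78.BA

/-- the relations -/
def RL : List (ℕ × ℕ) :=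
  [(3, 13323), (3, 139797), (3, 76620909), (4, 0x11050001411), (3, 17834241), (3, 68165889),
    (3, 32315), (2, 443), (2, 85), (2, 277), (2, 283), (3, 11543593), (3, 15935), (2, 31)]

theorem cX : chkX dat = true := by decide +kernel
theorem cR : chkR dat.rels RL = true := by decide +kernel
theorem cM : mt dat.rM 3 2106377 = true := by decide +kernel
theorem hkd0 : ∀ x ∈ kn0, ∀ F ∈ Fam dat.k dat.MJ dat.JM dat.bs x.1 x.2.1, Dsc dat.k dat.MJ dat.P dat.AL F :=
  (List.forall_mem_cons.2 ⟨sub_desc ok.1 r0, (List.forall_mem_cons.2 ⟨sub_desc ok.1 r1, (fun _ hx => absurd hx List.not_mem_nil)⟩)⟩)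
theorem hkd : ∀ x ∈ kn, ∀ F ∈ Fam dat.k dat.MJ dat.JM dat.bs x.1 x.2.1, Dsc dat.k dat.MJ dat.P dat.AL F :=
  hkd0
theorem descr : Full 2106377 RL :=
  full_of cA cB (by decide +kernel) (chkV2_sound cV) cAL cP cPT cX cM cR (dat_desc cA ok hkd rt)
theorem cI : chkI (dat.rels.zip RL) dat.AL = true := by decide +kernel
theorem irr : Irr 2106377 RL := irr_of cA (chkV2_sound cV) cAL cP cX cM cR cI

end H78.BA.M2106377

namespace H78.BA.M69481235

open H78.BA

/-- the relations -/
def RL : List (ℕ × ℕ) :=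
  [(4, 0x10100100001b0c810271b), (3, 84948575), (4, 0x101001100011051101511),
    (4, 0x10100110001b0d910371b)]

theorem cX : chkX dat = true := by decide +kernel
theorem cR : chkR dat.rels RL = true := by decide +kernel
theorem cM : mt dat.rM 3 69481235 = true := by decide +kernel
theorem hkd0 : ∀ x ∈ kn0, ∀ F ∈ Fam dat.k dat.MJ dat.JM dat.bs x.1 x.2.1, Dsc dat.k dat.MJ dat.P dat.AL F :=
  (List.forall_mem_cons.2 ⟨sub_desc ok.1 r0, (fun _ hx => absurd hx List.not_mem_nil)⟩)
theorem hkd : ∀ x ∈ kn, ∀ F ∈ Fam dat.k dat.MJ dat.JM dat.bs x.1 x.2.1, Dsc dat.k dat.MJ dat.P dat.AL F :=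
  hkd0
theorem descr : Full 69481235 RL :=
  full_of cA cB (by decide +kernel) (chkV2_sound cV) cAL cP cPT cX cM cR (dat_desc cA ok hkd rt)
theorem cI : chkI (dat.rels.zip RL) dat.AL = true := by decide +kernel
theorem irr : Irr 69481235 RL := irr_of cA (chkV2_sound cV) cAL cP cX cM cR cI

end H78.BA.M69481235

namespace H78.BA.M69478169

open H78.BA

/-- the relations -/
def RL : List (ℕ × ℕ) :=
  [(4, 0x10100100001b0c810271b), (3, 84948575), (4, 0x101001100011051101511),
    (4, 0x10100110001b0d910371b), (3, 85342047)]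

theorem cX : chkX dat = true := by decide +kernel
theorem cR : chkR dat.rels RL = true := by decide +kernel
theorem cM : mt dat.rM 3 69478169 = true := by decide +kernel
theorem hkd0 : ∀ x ∈ kn0, ∀ F ∈ Fam dat.k dat.MJ dat.JM dat.bs x.1 x.2.1, Dsc dat.k dat.MJ dat.P dat.AL F :=
  (List.forall_mem_cons.2 ⟨sub_desc ok.1 r0, (fun _ hx => absurd hx List.not_mem_nil)⟩)
theorem hkd : ∀ x ∈ kn, ∀ F ∈ Fam dat.k dat.MJ dat.JM dat.bs x.1 x.2.1, Dsc dat.k dat.MJ dat.P dat.AL F :=
  hkd0
theorem descr : Full 69478169 RL :=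
  full_of cA cB (by decide +kernel) (chkV2_sound cV) cAL cP cPT cX cM cR (dat_desc cA ok hkd rt)
theorem cI : chkI (dat.rels.zip RL) dat.AL = true := by decide +kernel
theorem irr : Irr 69478169 RL := irr_of cA (chkV2_sound cV) cAL cP cX cM cR cI

end H78.BA.M69478169

namespace H78.BA.M69477137

open H78.BA

/-- the relations -/
def RL : List (ℕ × ℕ) :=
  [(4, 0x10100100001b0c810271b), (4, 0x10100110001b0d1103511), (4, 0x10100110001105910171b),
    (3, 84948575), (3, 83898391), (4, 0x10100110001b0d910371b), (3, 67118097)]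

theorem cX : chkX dat = true := by decide +kernel
theorem cR : chkR dat.rels RL = true := by decide +kernel
theorem cM : mt dat.rM 3 69477137 = true := by decide +kernel
theorem hkd0 : ∀ x ∈ kn0, ∀ F ∈ Fam dat.k dat.MJ dat.JM dat.bs x.1 x.2.1, Dsc dat.k dat.MJ dat.P dat.AL F :=
  (List.forall_mem_cons.2 ⟨sub_desc ok.1 r0, (List.forall_mem_cons.2 ⟨sub_desc ok.1 r1, (fun _ hx => absurd hx List.not_mem_nil)⟩)⟩)
theorem hkd : ∀ x ∈ kn, ∀ F ∈ Fam dat.k dat.MJ dat.JM dat.bs x.1 x.2.1, Dsc dat.k dat.MJ dat.P dat.AL F :=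
  hkd0
theorem descr : Full 69477137 RL :=
  full_of cA cB (by decide +kernel) (chkV2_sound cV) cAL cP cPT cX cM cR (dat_desc cA ok hkd rt)
theorem cI : chkI (dat.rels.zip RL) dat.AL = true := by decide +kernel
theorem irr : Irr 69477137 RL := irr_of cA (chkV2_sound cV) cAL cP cX cM cR cI

end H78.BA.M69477137
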