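import Pool.Agent.H78.BA.G15
import Pool.Agent.H78.BA.Desc4

/-! Generated: description of the algebras by relations. -/

set_option linter.all false

namespace H78.BA.M73672217

open H78.BA

/-- the relations -/
def RL : List (ℕ × ℕ) :=
  [(4, 0x100000004919858103513), (4, 0x1db60300001b0d000161b), (4, 0x1db60300001b0c800261b),
    (3, 67271447), (3, 67253011), (4, 0x12400000013f09002533f), (3, 76691227), (3, 67270463),
    (4, 0x12400000013f090021b3f), (4, 0x11300000011b08802231b), (4, 0x12400000013f09002133f),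
    (3, 67272479), (5, 0x46400000046622000046400000000026000004c26000000000190c8000019),
    (4, 0x10000000013f08002033f), (4, 0x10080400003a1d0005e0f), (4, 0x11b69b6c001b0c800261b),
    (4, 0x10000002003a07c00742f), (4, 0x1000d80d801a0db00360b), (4, 0x1196d96400130d8003619),
    (4, 0x11b69b6c001b0d800361b), (4, 0x10000001803b0bb00723f),
    (5, 0x40036036006806c00d80c000000000301b00060360000000001b018003603),
    (5, 0x400360300000000000000000000300361b60064060000000001809b00361b),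
    (5, 0x400360300000000000000000000300361b60068060000000001805b00361b),
    (4, 0x11b6db64001b0d800361b), (4, 0x1196d964001b0d800361b),
    (5, 0x40032036006c06c00c80c000000000301b00060360000000001b018003603),
    (6, 0x1000d80c00000000000000000000c00d80d80190180000000000000c00d80c00000000000000000000000000000180d80000000000000000c06c00180d80000000000000000000000000000036030006c0600000000000000003603),
    (6, 0x1000d80c00000000000000000000c00d80d801a0180000000000000c00d80c00000000000000000000000000000180d80000000000000000c06c00180d80000000000000000000000000000036030006c0600000000000000003603),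
    (3, 67239519), (5, 0x40036036006c06c00c80c000000000301b00060360000000001b018003603),
    (4, 0x1000d024481b0d890361b), (3, 67239679), (4, 0x1000c80d801b0db00361b), (3, 67204863)]

theorem cX : chkX dat = true := by decide +kernel
theorem cR : chkR dat.rels RL = true := by decide +kernel
theorem cM : mt dat.rM 3 73672217 = true := by decide +kernel
theorem hkd0 : ∀ x ∈ kn0, ∀ F ∈ Fam dat.k dat.MJ dat.JM dat.bs x.1 x.2.1, Dsc dat.k dat.MJ dat.P dat.AL F :=
  (List.forall_mem_cons.2 ⟨sub_desc ok.1 r0, (List.forall_mem_cons.2 ⟨sub_desc ok.1 r1, (List.forall_mem_cons.2 ⟨sub_desc ok.1 r2, (List.forall_mem_cons.2 ⟨sub_desc ok.1 r3, (List.forall_mem_cons.2 ⟨sub_desc ok.1 r4, (List.forall_mem_cons.2 ⟨sub_desc ok.1 r5, (List.forall_mem_cons.2 ⟨sub_desc ok.1 r6, (List.forall_mem_cons.2 ⟨sub_desc ok.1 r7, (List.forall_mem_cons.2 ⟨sub_desc ok.1 r8, (List.forall_mem_cons.2 ⟨sub_desc ok.1 r9, (List.forall_mem_cons.2 ⟨sub_desc ok.1 r10, (List.forall_mem_cons.2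 ⟨sub_desc ok.1 r11, (List.forall_mem_cons.2 ⟨sub_desc ok.1 r12, (List.forall_mem_cons.2 ⟨sub_desc ok.1 r13, (List.forall_mem_cons.2 ⟨sub_desc ok.1 r14, (List.forall_mem_cons.2 ⟨sub_desc ok.1 r15, (List.forall_mem_cons.2 ⟨sub_desc ok.1 r16, (List.forall_mem_cons.2 ⟨sub_desc ok.1 r17, (List.forall_mem_cons.2 ⟨sub_desc ok.1 r18, (List.forall_mem_cons.2 ⟨sub_desc ok.1 r19, (fun _ hx => absurd hx List.not_mem_nil)⟩)⟩)⟩)⟩)⟩)⟩)⟩)⟩)⟩)⟩)⟩)⟩)⟩)⟩)⟩)⟩)⟩)⟩)⟩)⟩)
theorem hkd1 : ∀ x ∈ kn1, ∀ F ∈ Fam dat.k dat.MJ dat.JM dat.bs x.1 x.2.1, Dsc dat.k dat.MJ dat.P dat.AL F :=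
  (List.forall_mem_cons.2 ⟨sub_desc ok.1 r20, (List.forall_mem_cons.2 ⟨sub_desc ok.1 r21, (List.forall_mem_cons.2 ⟨sub_desc ok.1 r22, (List.forall_mem_cons.2 ⟨sub_desc ok.1 r23, (List.forall_mem_cons.2 ⟨sub_desc ok.1 r24, (List.forall_mem_cons.2 ⟨sub_desc ok.1 r25, (List.forall_mem_cons.2 ⟨sub_desc ok.1 r26, (List.forall_mem_cons.2 ⟨sub_desc ok.1 r27, (List.forall_mem_cons.2 ⟨sub_desc ok.1 r28, (List.forall_mem_cons.2 ⟨sub_desc ok.1 r29, (List.forall_mem_cons.2 ⟨sub_desc ok.1 r30, (List.forall_mem_cons.2 ⟨sub_desc ok.1 r31, (List.forall_mem_cons.2 ⟨sub_desc ok.1 r32, (List.forall_mem_cons.2 ⟨sub_desc ok.1 r33, (List.forall_mem_cons.2 ⟨sub_desc ok.1 r34, (List.forall_mem_cons.2 ⟨sub_desc ok.1 r35, (List.forall_mem_cons.2 ⟨sub_desc ok.1 r36, (List.forall_mem_cons.2 ⟨sub_desc ok.1 r37, (List.forall_mem_cons.2 ⟨sub_desc ok.1 r38, (fun _ hx => absurd hx List.not_mem_nil)⟩)⟩)⟩)⟩)⟩)⟩)⟩)⟩)⟩)⟩)⟩)⟩)⟩)⟩)⟩)⟩)⟩)⟩)⟩)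
theorem hkd : ∀ x ∈ kn, ∀ F ∈ Fam dat.k dat.MJ dat.JM dat.bs x.1 x.2.1, Dsc dat.k dat.MJ dat.P dat.AL F :=
  List.forall_mem_append.2 ⟨hkd0, hkd1⟩
theorem descr : Full 73672217 RL :=
  full_of cA cB (by decide +kernel) (chkV2_sound cV) cAL cP cPT cX cM cR (dat_desc cA ok hkd rt)
theorem cI : chkI (dat.rels.zip RL) dat.AL = true := by decide +kernel
theorem irr : Irr 73672217 RL := irr_of cA (chkV2_sound cV) cAL cP cX cM cR cI

end H78.BA.M73672217
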