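import Pool.Agent.H78.BA.Unary

/-! Description of the algebras found by the machine: each is an intersection of tabulated
masks, that is, the set of the operations which preserve some of the tabulated relations. -/

namespace H78.BA

set_option maxHeartbeats 400000

theorem lf_desc {P : T} (m : ℕ) :
    ∀ {s acc : ℕ} {kk : ℕ → ℕ → Bool}, lf P m s acc kk = true →
      ∃ s' acc' js, kk s' acc' = true ∧ ∀ i, (acc'.testBit i = true ↔
        acc.testBit i = true ∧ ∀ j ∈ (js : List ℕ), (P.get j).testBit i = true) := by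
  induction m with
  | zero =>
    intro s acc kk h
    exact ⟨s, acc, [], h, fun i => by simp⟩
  | succ m ih =>
    intro s acc kk h
    have h' : (st (Nat.land acc (P.get (Nat.land s 1023))) fun acc' =>
      st (Nat.shiftRight s 10) fun s' => lf P m s' acc' kk) = true := h
    rw [st_eq, st_eq] at h'
    obtain ⟨s', acc', js, h1, h2⟩ := ih h'
    refine ⟨s', acc', Nat.land s 1023 :: js, h1, fun i => ?_⟩
    rw [h2]
    have h3 : (Nat.land acc (P.get (Nat.land s 1023))).testBit i = true ↔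
        acc.testBit i = true ∧ (P.get (Nat.land s 1023)).testBit i = true := by
      change (acc &&& (P.get (Nat.land s 1023))).testBit i = true ↔ _
      rw [Nat.testBit_and, Bool.and_eq_true]
    rw [h3]
    simp only [List.mem_cons, forall_eq_or_imp, and_assoc]

/-- `F` is an intersection of tabulated masks -/
def Dsc (k MJ : ℕ) (P : T) (AL : ℕ) (F : Set Op) : Prop :=
  ∃ js : List ℕ, ∀ i, i < 729 * k → (Holds k MJ F i ↔
    AL.testBit i = true ∧ ∀ j ∈ js, (P.get j).testBit i = true)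

theorem run_desc {k MJ JM bs : ℕ} {p : Par} (hp : ParOk k MJ JM bs p) (tot fuel : ℕ) :
    ∀ (s IN OUT : ℕ) (stk : List (ℕ × ℕ)) (kn : List (ℕ × ℕ × ℕ)) (cnt : ℕ),
      (∀ x ∈ kn, ∀ F ∈ Fam k MJ JM bs x.1 x.2.1, Dsc k MJ p.P p.AL F) →
      run MJ JM p tot fuel s IN OUT stk kn cnt = true →
      (∀ F ∈ Fam k MJ JM bs IN OUT, Dsc k MJ p.P p.AL F) ∧
        ∀ x ∈ stk, ∀ F ∈ Fam k MJ JM bs x.1 x.2, Dsc k MJ p.P p.AL F := by
  induction fuel with
  | zero => intro s IN OUT stk kn cnt _ h; exact absurd h (by simp [run])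
  | succ fuel ih =>
    intro s IN OUT stk kn cnt hkn h
    have hpop : ∀ (s' : ℕ) (kn' : List (ℕ × ℕ × ℕ)) (cnt' : ℕ),
        (∀ x ∈ kn', ∀ F ∈ Fam k MJ JM bs x.1 x.2.1, Dsc k MJ p.P p.AL F) →
        pop tot (run MJ JM p tot fuel) s' stk kn' cnt' = true →
        ∀ x ∈ stk, ∀ F ∈ Fam k MJ JM bs x.1 x.2, Dsc k MJ p.P p.AL F := by
      intro s' kn' cnt' hk h'
      cases stk with
      | nil => intro x hx; exact absurd hx (by simp)
      | cons x t =>
        obtain ⟨h2, h3⟩ := ih s' x.1 x.2 t kn' cnt' hk h'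
        intro y hy
        rcases List.mem_cons.1 hy with rfl | hy
        · exact h2
        · exact h3 y hy
    rw [run_succ] at h
    have h' := h
    unfold mstep at h'
    clear h
    simp only [st_eq] at h'
    split at h'
    · -- derive
      obtain ⟨s', w, h1, h2⟩ := stp_sound hp.pt h'
      have h3 := ih _ _ _ _ _ _ hkn h1
      rw [← Fam_derive (fun F hF hB => hp.hD w F hF (h2 F hF hB))] at h3
      exact h3
    · -- refute
      obtain ⟨ha, h'⟩ := cond_false h'
      have ha' : Nat.land (Nat.shiftRight s 3) 1023 < p.nc := Nat.le_of_ble_eq_true ha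
      obtain ⟨r, hr1, hr2, g1, g2⟩ := hp.hC _ ha'
      obtain ⟨s', IN', h1, h2⟩ := stps_sound hp.pt hp.hD _ h'
      obtain ⟨h3, h4⟩ := cond_zero h1
      obtain ⟨h5, h6⟩ := ih _ _ _ _ _ _ hkn h4
      refine ⟨?_, h6⟩
      rintro F ⟨q1, q2, q3⟩
      by_cases hr : Holds k MJ F r
      · exfalso
        obtain ⟨i, hi1, hi2⟩ := exists_bit h3
        exact q3 i hi2 (h2 F q1 (lor_B q2 (g1 F q1 hr)) i hi1)
      · exact h5 F ⟨q1, q2, lor_NB q3 (g2 F q1 hr)⟩
    · -- branch
      obtain ⟨ha, h'⟩ := cond_false h'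
      have ha' : Nat.land (Nat.shiftRight s 3) 1023 < p.nc := Nat.le_of_ble_eq_true ha
      obtain ⟨r, hr1, hr2, g1, g2⟩ := hp.hC _ ha'
      obtain ⟨h5, h6⟩ := ih _ _ _ _ _ _ hkn h'
      refine ⟨?_, fun x hx => h6 x (List.mem_cons_of_mem _ hx)⟩
      rintro F ⟨q1, q2, q3⟩
      by_cases hr : Holds k MJ F r
      · exact h5 F ⟨q1, lor_B q2 (g1 F q1 hr), q3⟩
      · exact h6 _ List.mem_cons_self F ⟨q1, q2, lor_NB q3 (g2 F q1 hr)⟩
    · -- leaf
      obtain ⟨s', acc, js, h1, h2⟩ := lf_desc _ h'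
      obtain ⟨h3, h4⟩ := cond_false h1
      obtain ⟨h5, h6⟩ := cond_false h4
      obtain ⟨h7, h8⟩ := cond_false h6
      obtain ⟨h9, h10⟩ := cond_false h8
      have hacc : acc = IN := Nat.eq_of_beq_eq_true h3
      refine ⟨?_, hpop _ _ _ hkn h10⟩
      rintro F ⟨q1, q2, q3⟩
      refine ⟨js, fun i hi => ?_⟩
      rw [← h2, hacc]
      constructor
      · intro hH
        have g4 := land_beq h7 (hp.hfull _ hi)
        have g5 : (IN ||| OUT).testBit i = true := g4
        rw [Nat.testBit_or, Bool.or_eq_true] at g5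
        rcases g5 with g5 | g5
        · exact g5
        · exact absurd hH (q3 i g5)
      · intro hb
        exact q2 i hb
    · -- jump
      cases kn with
      | nil => exact absurd h' (by simp)
      | cons x kn' =>
        obtain ⟨h3, h4⟩ := cond_false h'
        obtain ⟨h5, h6⟩ := cond_false h4
        have e1 : IN = x.1 := Nat.eq_of_beq_eq_true h3
        have e2 : OUT = x.2.1 := Nat.eq_of_beq_eq_true h5
        refine ⟨?_, hpop _ _ _ (fun y hy => hkn y (List.mem_cons_of_mem _ hy)) h6⟩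
        rw [e1, e2]
        exact hkn x List.mem_cons_self

/-- a part of the computation -/
theorem sub_desc {d : Dat} (hp : ParOk d.k d.MJ d.JM d.bs d.par)
    {tot fuel s IN OUT : ℕ} (h : run d.MJ d.JM d.par tot fuel s IN OUT [] [] 0 = true) :
    ∀ F ∈ Fam d.k d.MJ d.JM d.bs IN OUT, Dsc d.k d.MJ d.P d.AL F :=
  (run_desc hp tot fuel s IN OUT [] [] 0 (fun x hx => absurd hx (by simp)) h).1

/-- the whole computation -/
theorem dat_desc {d : Dat} (hA : chkA d = true)
    (hp : ParOk d.k d.MJ d.JM d.bs d.par ∧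
      ∀ F, Ok d.k d.MJ d.JM d.bs F → ∀ i, Holds d.k d.MJ F i → d.AL.testBit i = true)
    {tot fuel s : ℕ} {kn : List (ℕ × ℕ × ℕ)}
    (hkn : ∀ x ∈ kn, ∀ F ∈ Fam d.k d.MJ d.JM d.bs x.1 x.2.1, Dsc d.k d.MJ d.P d.AL F)
    (h : run d.MJ d.JM d.par tot fuel s d.bs d.O0 [] kn 0 = true) :
    ∀ F ∈ Fam d.k d.MJ d.JM d.bs d.bs 0, Dsc d.k d.MJ d.P d.AL F := by
  have A := chkA_sound hA
  intro F hF
  refine (run_desc hp.1 tot fuel s d.bs d.O0 [] kn 0 hkn h).1 F ?_
  exact ⟨hF.1, hF.2.1, fun i hi hH => land_zero A.hO hi (hp.2 F hF.1 i hH)⟩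

end H78.BA
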