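import Pool.Agent.H78.BA.Desc

/-! The algebras with a given unary part are exactly the sets of operations which preserve
the unary part and some of the tabulated relations. -/

namespace H78.BA

set_option maxHeartbeats 400000

/-- tries agree with the lists, and the base operations are in all masks -/
noncomputable def chkX (d : Dat) : Bool :=
  cond (Nat.beq (Nat.land d.bs d.AL) d.bs)
    (al (fun x => cond (al (fun w => ex (eqL w) x.2.2.1.words) x.2.2.2)
      (Nat.beq (Nat.land d.bs x.1) d.bs) false) d.rels) false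

/-- operations which preserve the unary maps and some relations -/
def PolL (rM : List (List ℕ)) (Γ : List (List (List ℕ))) : Set Op :=
  {f | PresL rM (enc f) ∧ ∀ ρ ∈ Γ, PresL ρ (enc f)}

theorem rel_bit {d : Dat} (hA : chkA d = true) (hV : VOk d.MJ (729 * d.k) d.VT)
    (hP : chkP d.VT d.full d.rels = true) (hX : chkX d = true)
    {x : ℕ × ℕ × Tr × List (List ℕ)} (hx : x ∈ d.rels) {i : ℕ} (hi : i < 729 * d.k) :
    (x.1.testBit i = true ↔ PresL x.2.2.2 (cod d.MJ i)) := by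
  have A := chkA_sound hA
  obtain ⟨_, hX2⟩ := cond_false hX
  obtain ⟨h1, _⟩ := cond_false (al_iff hX2 x hx)
  obtain ⟨h3, h4⟩ := cond_false (al_iff hP x hx)
  obtain ⟨h5, h6⟩ := cond_false h4
  rw [Nat.eq_of_beq_eq_true h6,
    polT_bit hV (fun i hi => (full_bit A.hf i).2 hi) hi h3]
  constructor
  · intro h s hs t ht
    obtain ⟨a, ha, h7⟩ := ex_iff (al_iff h5 _ (h s hs t ht))
    rw [eqL_sound _ _ h7]; exact ha
  · intro h s hs t ht
    obtain ⟨a, ha, h7⟩ := ex_iff (al_iff h1 _ (h s hs t ht))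
    rw [eqL_sound _ _ h7]; exact ha

theorem rel_wf {d : Dat} (hP : chkP d.VT d.full d.rels = true)
    {x : ℕ × ℕ × Tr × List (List ℕ)} (hx : x ∈ d.rels) : wf x.2.1 x.2.2.2 = true :=
  (cond_false (al_iff hP x hx)).1

theorem AL_bit {d : Dat} (hA : chkA d = true) (hV : VOk d.MJ (729 * d.k) d.VT)
    (hAL : Nat.beq d.AL (polM d.VT d.full d.rM) = true) {i : ℕ} (hi : i < 729 * d.k) :
    (d.AL.testBit i = true ↔ PresL d.rM (cod d.MJ i)) := by
  have A := chkA_sound hA
  exact (Cl_AL A.pt hV A.hM A.hf hAL A.hA2).2 i hi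

theorem diag_pres {k JM bs : ℕ} {ρ : List (List ℕ)} (hM : MOk k JM bs ρ) {c : ℕ}
    (hc : c < 19683) (h : PresL ρ c) : fld JM (c / 729) < k := by
  have hid : [0, 1, 2] ∈ ρ := hM.a2 21 (by norm_num) hM.a3
  have h6 : [ev c 0 0, ev c 1 1, ev c 2 2] ∈ ρ := h _ hid _ hid
  obtain ⟨_, h8⟩ := hM.a1 _ h6
  obtain ⟨h9, _⟩ := uc_div (ev_lt c 0 0) (ev_lt c 1 1) (ev_lt c 2 2)
  have h10 : ev c 0 0 + 3 * ev c 1 1 + 9 * ev c 2 2 = c / 729 := by
    rw [ev00, ev11, ev22]; omega
  rw [h9, h10] at h8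
  exact h8

theorem js_rels {d : Dat} (hA : chkA d = true) (hV : VOk d.MJ (729 * d.k) d.VT)
    (hP : chkP d.VT d.full d.rels = true) (hPT : chkPT d.P d.rels = true)
    (hX : chkX d = true) {F : Set Op} (hF : Holds d.k d.MJ F d.i1) :
    ∀ js : List ℕ, (∀ j ∈ js, (d.P.get j).testBit d.i1 = true) →
      ∃ Γ : List (List (List ℕ)), (∀ ρ ∈ Γ, ∃ x ∈ d.rels, ρ = x.2.2.2) ∧
        ∀ i, i < 729 * d.k → ((∀ j ∈ js, (d.P.get j).testBit i = true) ↔
          ∀ ρ ∈ Γ, PresL ρ (cod d.MJ i)) := by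
  intro js
  induction js with
  | nil => intro _; exact ⟨[], by simp, fun i _ => by simp⟩
  | cons j js ih =>
    intro h
    obtain ⟨Γ, h1, h2⟩ := ih (fun j' hj' => h j' (List.mem_cons_of_mem _ hj'))
    have h3 := allL_sound hPT j
    have hj := h j List.mem_cons_self
    cases h4 : Nat.beq (d.P.get j) 0
    · rw [h4] at h3
      obtain ⟨x, hx, h5⟩ := ex_iff h3
      have h6 : d.P.get j = x.1 := Nat.eq_of_beq_eq_true h5
      refine ⟨x.2.2.2 :: Γ, ?_, ?_⟩
      · intro ρ hρ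
        rcases List.mem_cons.1 hρ with rfl | hρ
        · exact ⟨x, hx, rfl⟩
        · exact h1 ρ hρ
      · intro i hi
        have h7 := rel_bit hA hV hP hX hx hi
        have h8 := h2 i hi
        constructor
        · intro g ρ hρ
          rcases List.mem_cons.1 hρ with rfl | hρ
          · exact h7.1 (by rw [← h6]; exact g j List.mem_cons_self)
          · exact h8.1 (fun j' hj' => g j' (List.mem_cons_of_mem _ hj')) ρ hρ
        · intro g j' hj'
          rcases List.mem_cons.1 hj' with rfl | hj'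
          · rw [h6]; exact h7.2 (g _ List.mem_cons_self)
          · exact h8.2 (fun ρ hρ => g ρ (List.mem_cons_of_mem _ hρ)) j' hj'
    · rw [Nat.eq_of_beq_eq_true h4, Nat.zero_testBit] at hj
      exact absurd hj (by simp)

theorem enc_comp (f g h : Op) :
    enc (fun x y => f (g x y) (h x y)) = cmp (enc f) (enc g) (enc h) := by
  have h1 := dec_cmp (enc f) (enc g) (enc h)
  rw [dec_enc, dec_enc, dec_enc] at h1
  rw [← h1, enc_dec (cmp_lt _ _ _)]

theorem descr_of {d : Dat} {mask : ℕ} (hA : chkA d = true)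
    (hB : chkB d.JM d.bs d.rM = true) (hS : chkS mask d.JM d.k = true)
    (hV : VOk d.MJ (729 * d.k) d.VT)
    (hAL : Nat.beq d.AL (polM d.VT d.full d.rM) = true)
    (hP : chkP d.VT d.full d.rels = true) (hPT : chkPT d.P d.rels = true)
    (hX : chkX d = true)
    (hD : ∀ F ∈ Fam d.k d.MJ d.JM d.bs d.bs 0, Dsc d.k d.MJ d.P d.AL F) (F : Set Op) :
    (IsAlg F ∧ unaryPart F = SM mask) ↔ ∃ Γ : List (List (List ℕ)),
      (∀ ρ ∈ Γ, ∃ x ∈ d.rels, ρ = x.2.2.2) ∧ F = PolL d.rM Γ := by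
  have A := chkA_sound hA
  have hSm : ∀ m, m ∈ SM mask ↔ fld d.JM (code m) < d.k := by
    intro m
    have h := eqb_iff (alln_iff hS (code m) (code_lt m))
    change mask.testBit (code m) = true ↔ _
    rw [← bt_iff, h, Nat.ble_eq]
    exact Iff.rfl
  obtain ⟨hX1, hX2⟩ := cond_false hX
  constructor
  · intro hF
    have hFam : F ∈ Fam d.k d.MJ d.JM d.bs d.bs 0 := by
      rw [fam_eq hA hB hSm]; exact hF
    obtain ⟨js, hjs⟩ := hD F hFam
    have hi1 : Holds d.k d.MJ F d.i1 := hFam.2.1 _ A.h1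
    obtain ⟨Γ, h1, h2⟩ := js_rels hA hV hP hPT hX hi1 js ((hjs _ hi1.1).1 hi1).2
    refine ⟨Γ, h1, ?_⟩
    ext f
    constructor
    · intro hf
      have h3 := hFam.1.2.1 f hf
      have h4 : idx d.JM (enc f) < 729 * d.k := idx_lt A.pt (enc_lt f) h3
      have h5 : cod d.MJ (idx d.JM (enc f)) = enc f := cod_idx A.pt (enc_lt f) h3
      have h6 : Holds d.k d.MJ F (idx d.JM (enc f)) := ⟨h4, by rw [h5, dec_enc]; exact hf⟩
      obtain ⟨h7, h8⟩ := (hjs _ h4).1 h6
      have h9 := (AL_bit hA hV hAL h4).1 h7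
      have h10 := (h2 _ h4).1 h8
      rw [h5] at h9 h10
      exact ⟨h9, h10⟩
    · rintro ⟨h9, h10⟩
      have h3 := diag_pres A.hM (enc_lt f) h9
      have h4 : idx d.JM (enc f) < 729 * d.k := idx_lt A.pt (enc_lt f) h3
      have h5 : cod d.MJ (idx d.JM (enc f)) = enc f := cod_idx A.pt (enc_lt f) h3
      rw [← h5] at h9 h10
      have h11 := ((hjs _ h4).2 ⟨(AL_bit hA hV hAL h4).2 h9, (h2 _ h4).2 h10⟩).2
      rw [h5, dec_enc] at h11
      exact h11
  · rintro ⟨Γ, hΓ, rfl⟩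
    -- base operations preserve everything
    have hbase : ∀ i, i < 729 * d.k → d.bs.testBit i = true →
        PresL d.rM (cod d.MJ i) ∧ ∀ ρ ∈ Γ, PresL ρ (cod d.MJ i) := by
      intro i hi hb
      refine ⟨(AL_bit hA hV hAL hi).1 (land_beq hX1 hb), fun ρ hρ => ?_⟩
      obtain ⟨x, hx, rfl⟩ := hΓ ρ hρ
      obtain ⟨_, h2⟩ := cond_false (al_iff hX2 x hx)
      exact (rel_bit hA hV hP hX hx hi).1 (land_beq h2 hb)
    have hlt : ∀ i, d.bs.testBit i = true → i < 729 * d.k := by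
      intro i hi
      exact (full_bit A.hf i).1 (land_beq A.hA2 (land_beq hX1 hi))
    have hproj : ∀ i, d.bs.testBit i = true → ∀ f : Op, dec (cod d.MJ i) = f →
        f ∈ PolL d.rM Γ := by
      intro i hi f hf
      have h1 := hbase i (hlt i hi) hi
      have h2 : enc f = cod d.MJ i := by
        rw [← hf, enc_dec (cod_lt A.pt (hlt i hi))]
      unfold PolL
      rw [Set.mem_setOf_eq, h2]
      exact h1
    refine ⟨⟨?_, ?_, ?_⟩, ?_⟩
    · exact hproj d.i1 A.h1 _ (by rw [A.c1]; exact dec_e1)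
    · exact hproj d.i2 A.h2 _ (by rw [A.c2]; exact dec_e2)
    · rintro f ⟨f1, f2⟩ g ⟨g1, g2⟩ h ⟨h1, h2⟩
      refine ⟨?_, fun ρ hρ => ?_⟩
      · rw [enc_comp]; exact PresL_cmp A.hM.w f1 g1 h1
      · obtain ⟨x, hx, rfl⟩ := hΓ ρ hρ
        rw [enc_comp]
        exact PresL_cmp (rel_wf hP hx) (f2 _ hρ) (g2 _ hρ) (h2 _ hρ)
    · ext m
      constructor
      · rintro ⟨h1, _⟩
        have h2 := diag_pres A.hM (enc_lt _) h1
        rw [enc_div] at h2
        exact (hSm m).2 h2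
      · intro hm
        have h4 := (hSm m).1 hm
        have h5 := A.hM.a2 _ (code_lt m) h4
        obtain ⟨h6, h7⟩ := A.hM.a1 _ h5
        have e0 : code m % 3 = (m 0).1 := by unfold code; omega
        have e1 : code m / 3 % 3 = (m 1).1 := by unfold code; omega
        have e2 : code m / 9 % 3 = (m 2).1 := by unfold code; omega
        rw [e0, e1, e2] at h6 h7
        obtain ⟨_, h9⟩ := uc_div (m 0).2 (m 1).2 (m 2).2
        refine hproj _ h6 _ ?_
        rw [cod_idx A.pt h9 h7]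
        exact (dec_uc (m 0).2 (m 1).2 (m 2).2 m rfl rfl rfl).1

end H78.BA
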