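import Pool.Agent.H78.BA.Unary
import Mathlib.Algebra.BigOperators.Fin

/-! Coded relations and their correspondence with lists of tuples. -/

namespace H78.BA

set_option maxHeartbeats 400000

/-- the relation of arity `r` with code `c` -/
def rel (r c : ℕ) : Set (Fin r → Fin 3) :=
  {t | c.testBit (∑ i, (t i : ℕ) * 3 ^ (i : ℕ)) = true}

/-- the operation preserves the relation -/
def Pres (f : Op) {r : ℕ} (ρ : Set (Fin r → Fin 3)) : Prop :=
  ∀ s ∈ ρ, ∀ t ∈ ρ, (fun i => f (s i) (t i)) ∈ ρ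

/-- code of a tuple -/
noncomputable def cd (t : List ℕ) : ℕ := fr (fun x a => Nat.add x (Nat.mul 3 a)) 0 t

/-- check that a list of tuples has the code `c` -/
noncomputable def mt (ρ : List (List ℕ)) (r c : ℕ) : Bool :=
  cond (wf r ρ) (Nat.beq c (fr (fun t a => Nat.lor (Nat.shiftLeft 1 (cd t)) a) 0 ρ)) false

theorem cd_inj : ∀ (s t : List ℕ), s.length = t.length → (∀ x ∈ s, x < 3) →
    (∀ x ∈ t, x < 3) → cd s = cd t → s = t := by
  intro s
  induction s with
  | nil =>
    intro t h _ _ _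
    exact (List.eq_nil_of_length_eq_zero h.symm).symm
  | cons x s ih =>
    intro t h hs ht hc
    cases t with
    | nil => exact absurd h (by simp)
    | cons y t =>
      have e1 : cd (x :: s) = x + 3 * cd s := rfl
      have e2 : cd (y :: t) = y + 3 * cd t := rfl
      rw [e1, e2] at hc
      have hx := hs x (by simp)
      have hy := ht y (by simp)
      have h1 : x = y := by omega
      have h2 : cd s = cd t := by omega
      rw [h1, ih t (by simpa using h) (fun a ha => hs a (List.mem_cons_of_mem _ ha))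
        (fun a ha => ht a (List.mem_cons_of_mem _ ha)) h2]

theorem cd_ofFn : ∀ {r : ℕ} (t : Fin r → Fin 3),
    cd (List.ofFn fun i => (t i : ℕ)) = ∑ i, (t i : ℕ) * 3 ^ (i : ℕ) := by
  intro r
  induction r with
  | zero => intro t; rfl
  | succ r ih =>
    intro t
    rw [List.ofFn_succ, Fin.sum_univ_succ]
    change (t 0 : ℕ) + 3 * cd (List.ofFn fun i : Fin r => (t i.succ : ℕ)) = _
    rw [ih (fun i => t i.succ), Finset.mul_sum]
    congr 1
    · simp
    · apply Finset.sum_congr rfl
      intro i _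
      rw [Fin.val_succ, pow_succ]
      ring

theorem lor_list_bit (g : List ℕ → ℕ) (i : ℕ) : ∀ ρ : List (List ℕ),
    ((fr (fun t a => Nat.lor (Nat.shiftLeft 1 (g t)) a) 0 ρ).testBit i = true ↔
      ∃ t ∈ ρ, g t = i) := by
  intro ρ
  induction ρ with
  | nil =>
    change (0 : ℕ).testBit i = true ↔ _
    simp
  | cons t ρ ih =>
    change ((1 <<< g t) ||| (fr (fun t a => Nat.lor (Nat.shiftLeft 1 (g t)) a) 0 ρ)).testBit i
      = true ↔ _
    rw [Nat.testBit_or, Bool.or_eq_true, ih, Nat.one_shiftLeft]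
    constructor
    · rintro (h | ⟨t', h1, h2⟩)
      · refine ⟨t, List.mem_cons_self, ?_⟩
        by_contra hne
        rw [Nat.testBit_two_pow_of_ne hne] at h
        exact absurd h (by simp)
      · exact ⟨t', List.mem_cons_of_mem _ h1, h2⟩
    · rintro ⟨t', h1, h2⟩
      rcases List.mem_cons.1 h1 with rfl | h1
      · left; rw [h2, Nat.testBit_two_pow_self]
      · exact Or.inr ⟨t', h1, h2⟩

theorem mem_rel {ρ : List (List ℕ)} {r c : ℕ} (h : mt ρ r c = true) (t : Fin r → Fin 3) :
    t ∈ rel r c ↔ (List.ofFn fun i => (t i : ℕ)) ∈ ρ := by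
  obtain ⟨hw, h2⟩ := cond_false h
  have hc := Nat.eq_of_beq_eq_true h2
  change c.testBit (∑ i, (t i : ℕ) * 3 ^ (i : ℕ)) = true ↔ _
  rw [← cd_ofFn t, hc, lor_list_bit cd]
  constructor
  · rintro ⟨s, hs, h3⟩
    obtain ⟨h4, h5⟩ := wf_sound hw s hs
    have h6 : s = List.ofFn fun i => (t i : ℕ) := by
      apply cd_inj s _ (by rw [h4, List.length_ofFn]) h5 _ h3
      intro x hx
      rw [List.mem_ofFn] at hx
      obtain ⟨i, rfl⟩ := hx
      exact (t i).2
    rw [← h6]; exact hs
  · intro h3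
    exact ⟨_, h3, rfl⟩

theorem ev_enc (f : Op) (a b : Fin 3) : ev (enc f) a.1 b.1 = (f a b).1 := by
  have h := congrFun (congrFun (dec_enc f) a) b
  exact congrArg Fin.val h

theorem zip_ofFn (f : Op) : ∀ {r : ℕ} (s t : Fin r → Fin 3),
    List.zipWith (ev (enc f)) (List.ofFn fun i => (s i : ℕ)) (List.ofFn fun i => (t i : ℕ)) =
      List.ofFn fun i => (f (s i) (t i) : ℕ) := by
  intro r
  induction r with
  | zero => intro s t; simp
  | succ r ih =>
    intro s t
    rw [List.ofFn_succ, List.ofFn_succ, List.ofFn_succ, List.zipWith_cons_cons,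
      ih (fun i => s i.succ) (fun i => t i.succ), ev_enc]

theorem exists_ofFn {r : ℕ} : ∀ {s : List ℕ}, s.length = r → (∀ x ∈ s, x < 3) →
    ∃ t : Fin r → Fin 3, s = List.ofFn fun i => (t i : ℕ) := by
  intro s hs hx
  subst hs
  refine ⟨fun i => ⟨s.get i, hx _ (List.get_mem s i)⟩, ?_⟩
  exact (List.ofFn_get s).symm

theorem pres_iff {ρ : List (List ℕ)} {r c : ℕ} (h : mt ρ r c = true) (f : Op) :
    PresL ρ (enc f) ↔ Pres f (rel r c) := by
  have hw := (cond_false h).1
  constructor
  · intro hp s hs t ht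
    rw [mem_rel h] at hs ht ⊢
    have h1 := hp _ hs _ ht
    rw [zip_ofFn] at h1
    exact h1
  · intro hp s hs t ht
    obtain ⟨h1, h2⟩ := wf_sound hw s hs
    obtain ⟨h3, h4⟩ := wf_sound hw t ht
    obtain ⟨s', rfl⟩ := exists_ofFn h1 h2
    obtain ⟨t', rfl⟩ := exists_ofFn h3 h4
    have h5 := hp s' ((mem_rel h s').2 hs) t' ((mem_rel h t').2 ht)
    rw [mem_rel h] at h5
    rw [zip_ofFn]
    exact h5

end H78.BA
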