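import Pool.Agent.H78.BA.Desc2
import Pool.Agent.H78.BA.Rel
import Mathlib.Data.Fintype.Pi

/-! Description of the algebras with a given unary part, in final form. -/

namespace H78.BA

set_option maxHeartbeats 400000

/-- two lists agree entry by entry -/
noncomputable def al2 {α β : Type} (p : α → β → Bool) (l : List α) : List β → Bool :=
  List.rec (motive := fun _ => List β → Bool)
    (fun t => match t with
      | [] => true
      | _ :: _ => false)
    (fun x _ ih t => match t with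
      | [] => false
      | y :: t' => cond (p x y) (ih t') false) l

theorem al2_sound {α β : Type} {p : α → β → Bool} : ∀ (l : List α) (t : List β),
    al2 p l t = true → (∀ a ∈ l, ∃ b ∈ t, p a b = true) ∧ ∀ b ∈ t, ∃ a ∈ l, p a b = true := by
  intro l
  induction l with
  | nil =>
    intro t h
    cases t with
    | nil => exact ⟨by simp, by simp⟩
    | cons y t => exact absurd h (by simp [al2])
  | cons x l ih =>
    intro t h
    cases t with
    | nil => exact absurd h (by simp [al2])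
    | cons y t =>
      have h' : cond (p x y) (al2 p l t) false = true := h
      obtain ⟨h1, h2⟩ := cond_false h'
      obtain ⟨h3, h4⟩ := ih t h2
      constructor
      · intro a ha
        rcases List.mem_cons.1 ha with rfl | ha
        · exact ⟨y, List.mem_cons_self, h1⟩
        · obtain ⟨b, hb, h5⟩ := h3 a ha
          exact ⟨b, List.mem_cons_of_mem _ hb, h5⟩
      · intro b hb
        rcases List.mem_cons.1 hb with rfl | hb
        · exact ⟨x, List.mem_cons_self, h1⟩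
        · obtain ⟨a, ha, h5⟩ := h4 b hb
          exact ⟨a, List.mem_cons_of_mem _ ha, h5⟩

/-- the coded relations are the relations of the data -/
noncomputable def chkR (rels : List (ℕ × ℕ × Tr × List (List ℕ))) (R : List (ℕ × ℕ)) :
    Bool :=
  al2 (fun x y => mt x.2.2.2 y.1 y.2) rels R

/-- the operations preserving a set of unary maps and some coded relations -/
def Pol (S : Set (Fin 3 → Fin 3)) (Γ : List (ℕ × ℕ)) : Set Op :=
  {f | Pres f S ∧ ∀ y ∈ Γ, Pres f (rel y.1 y.2)}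

/-- the description of the algebras with unary part `SM n` -/
def Full (n : ℕ) (R : List (ℕ × ℕ)) : Prop :=
  ∀ F : Set Op, (IsAlg F ∧ unaryPart F = SM n) ↔ ∃ Γ : List (ℕ × ℕ), Γ ⊆ R ∧ F = Pol (SM n) Γ

theorem rel3 (n : ℕ) : (rel 3 n : Set (Fin 3 → Fin 3)) = SM n := by
  ext m
  change n.testBit (∑ i : Fin 3, (m i : ℕ) * 3 ^ (i : ℕ)) = true ↔
    n.testBit (code m) = true
  have : (∑ i : Fin 3, (m i : ℕ) * 3 ^ (i : ℕ)) = code m := by
    rw [Fin.sum_univ_three]
    unfold code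
    simp
    ring
  rw [this]

theorem full_of {d : Dat} {mask : ℕ} {R : List (ℕ × ℕ)} (hA : chkA d = true)
    (hB : chkB d.JM d.bs d.rM = true) (hS : chkS mask d.JM d.k = true)
    (hV : VOk d.MJ (729 * d.k) d.VT)
    (hAL : Nat.beq d.AL (polM d.VT d.full d.rM) = true)
    (hP : chkP d.VT d.full d.rels = true) (hPT : chkPT d.P d.rels = true)
    (hX : chkX d = true) (hM : mt d.rM 3 mask = true) (hR : chkR d.rels R = true)
    (hD : ∀ F ∈ Fam d.k d.MJ d.JM d.bs d.bs 0, Dsc d.k d.MJ d.P d.AL F) : Full mask R := by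
  intro F
  rw [descr_of hA hB hS hV hAL hP hPT hX hD]
  obtain ⟨g1, g2⟩ := al2_sound _ _ hR
  have hM' : ∀ f : Op, PresL d.rM (enc f) ↔ Pres f (SM mask) := by
    intro f
    rw [pres_iff hM f, rel3]
  constructor
  · rintro ⟨Γ, hΓ, rfl⟩
    have key : ∀ Γ : List (List (List ℕ)), (∀ ρ ∈ Γ, ∃ x ∈ d.rels, ρ = x.2.2.2) →
        ∃ Δ : List (ℕ × ℕ), Δ ⊆ R ∧ ∀ f : Op, (∀ ρ ∈ Γ, PresL ρ (enc f)) ↔
          ∀ y ∈ Δ, Pres f (rel y.1 y.2) := by
      intro Γ
      induction Γ with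
      | nil => intro _; exact ⟨[], by simp, fun f => by simp⟩
      | cons ρ Γ ih =>
        intro h
        obtain ⟨Δ, h1, h2⟩ := ih (fun ρ' hρ' => h ρ' (List.mem_cons_of_mem _ hρ'))
        obtain ⟨x, hx, rfl⟩ := h ρ List.mem_cons_self
        obtain ⟨y, hy, h3⟩ := g1 x hx
        refine ⟨y :: Δ, List.cons_subset.2 ⟨hy, h1⟩, fun f => ?_⟩
        simp only [List.mem_cons, forall_eq_or_imp, h2 f, pres_iff h3 f]
    obtain ⟨Δ, h1, h2⟩ := key Γ hΓ
    refine ⟨Δ, h1, ?_⟩
    ext f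
    exact and_congr (hM' f) (h2 f)
  · rintro ⟨Δ, hΔ, rfl⟩
    have key : ∀ Δ : List (ℕ × ℕ), Δ ⊆ R →
        ∃ Γ : List (List (List ℕ)), (∀ ρ ∈ Γ, ∃ x ∈ d.rels, ρ = x.2.2.2) ∧
          ∀ f : Op, (∀ ρ ∈ Γ, PresL ρ (enc f)) ↔ ∀ y ∈ Δ, Pres f (rel y.1 y.2) := by
      intro Δ
      induction Δ with
      | nil => intro _; exact ⟨[], by simp, fun f => by simp⟩
      | cons y Δ ih =>
        intro h
        obtain ⟨hy, h'⟩ := List.cons_subset.1 h
        obtain ⟨Γ, h1, h2⟩ := ih h'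
        obtain ⟨x, hx, h3⟩ := g2 y hy
        refine ⟨x.2.2.2 :: Γ, ?_, fun f => ?_⟩
        · intro ρ hρ
          rcases List.mem_cons.1 hρ with rfl | hρ
          · exact ⟨x, hx, rfl⟩
          · exact h1 ρ hρ
        · simp only [List.mem_cons, forall_eq_or_imp, h2 f, pres_iff h3 f]
    obtain ⟨Γ, h1, h2⟩ := key Δ hΔ
    refine ⟨Γ, h1, ?_⟩
    ext f
    exact (and_congr (hM' f) (h2 f)).symm

/-- the description for a conjugate of the unary part -/
theorem full_cj {n : ℕ} {R : List (ℕ × ℕ)} (h : Full n R) (σ : Equiv.Perm (Fin 3))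
    (F : Set Op) : (IsAlg F ∧ unaryPart F = cjS σ (SM n)) ↔
      ∃ Γ : List (ℕ × ℕ), Γ ⊆ R ∧ F = {f | cj σ f ∈ Pol (SM n) Γ} := by
  constructor
  · rintro ⟨h1, h2⟩
    have h3 : IsAlg (cjF σ.symm F) ∧ unaryPart (cjF σ.symm F) = SM n := by
      refine ⟨cjF_alg h1, ?_⟩
      rw [unary_cj, h2]
      ext m
      simp [cjS]
    obtain ⟨Γ, h4, h5⟩ := (h _).1 h3
    refine ⟨Γ, h4, ?_⟩
    rw [← h5]
    exact (cjF_symm' σ F).symm
  · rintro ⟨Γ, h4, rfl⟩
    obtain ⟨h5, h6⟩ := (h (Pol (SM n) Γ)).2 ⟨Γ, h4, rfl⟩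
    exact ⟨cjF_alg (σ := σ) h5, by
      change unaryPart (cjF σ (Pol (SM n) Γ)) = _
      rw [unary_cj, h6]⟩

end H78.BA
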