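import Pool.Agent.H78.BA.Tables2

/-! The digit masks for several blocks are repetitions of those for one block. -/

namespace H78.BA

set_option maxHeartbeats 400000

def w3 : ℕ := 0x49249249249249249249249249249249249249249249249249249249249249249249249249249249249249249249249249249249249249249249249249249249249249249249249249249249249249249249249249249249249249
def w4 : ℕ := 0x92492492492492492492492492492492492492492492492492492492492492492492492492492492492492492492492492492492492492492492492492492492492492492492492492492492492492492492492492492492492492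
def w5 : ℕ := 0x124924924924924924924924924924924924924924924924924924924924924924924924924924924924924924924924924924924924924924924924924924924924924924924924924924924924924924924924924924924924924
def w6 : ℕ := 0x70381c0e070381c0e070381c0e070381c0e070381c0e070381c0e070381c0e070381c0e070381c0e070381c0e070381c0e070381c0e070381c0e070381c0e070381c0e070381c0e070381c0e070381c0e070381c0e070381c0e07
def w7 : ℕ := 0x381c0e070381c0e070381c0e070381c0e070381c0e070381c0e070381c0e070381c0e070381c0e070381c0e070381c0e070381c0e070381c0e070381c0e070381c0e070381c0e070381c0e070381c0e070381c0e070381c0e07038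
def w8 : ℕ := 0x1c0e070381c0e070381c0e070381c0e070381c0e070381c0e070381c0e070381c0e070381c0e070381c0e070381c0e070381c0e070381c0e070381c0e070381c0e070381c0e070381c0e070381c0e070381c0e070381c0e070381c0
def w9 : ℕ := 0x7fc0000ff80001ff00003fe00007fc0000ff80001ff00003fe00007fc0000ff80001ff00003fe00007fc0000ff80001ff00003fe00007fc0000ff80001ff00003fe00007fc0000ff80001ff00003fe00007fc0000ff80001ff
def w10 : ℕ := 0xff80001ff00003fe00007fc0000ff80001ff00003fe00007fc0000ff80001ff00003fe00007fc0000ff80001ff00003fe00007fc0000ff80001ff00003fe00007fc0000ff80001ff00003fe00007fc0000ff80001ff00003fe00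
def w11 : ℕ := 0x1ff00003fe00007fc0000ff80001ff00003fe00007fc0000ff80001ff00003fe00007fc0000ff80001ff00003fe00007fc0000ff80001ff00003fe00007fc0000ff80001ff00003fe00007fc0000ff80001ff00003fe00007fc0000
def w15 : ℕ := 0x7ffffff00000000000003ffffff80000000000001ffffffc0000000000000ffffffe00000000000007ffffff00000000000003ffffff80000000000001ffffffc0000000000000ffffffe00000000000007ffffff
def w16 : ℕ := 0x3ffffff80000000000001ffffffc0000000000000ffffffe00000000000007ffffff00000000000003ffffff80000000000001ffffffc0000000000000ffffffe00000000000007ffffff00000000000003ffffff8000000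
def w17 : ℕ := 0x1ffffffc0000000000000ffffffe00000000000007ffffff00000000000003ffffff80000000000001ffffffc0000000000000ffffffe00000000000007ffffff00000000000003ffffff80000000000001ffffffc0000000000000
def w18 : ℕ := 0x7fffffffffffffffffffc0000000000000000000000000000000000000000ffffffffffffffffffff80000000000000000000000000000000000000001ffffffffffffffffffff
def w19 : ℕ := 0xffffffffffffffffffff80000000000000000000000000000000000000001ffffffffffffffffffff00000000000000000000000000000000000000003fffffffffffffffffffe00000000000000000000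
def w20 : ℕ := 0x1ffffffffffffffffffff00000000000000000000000000000000000000003fffffffffffffffffffe00000000000000000000000000000000000000007fffffffffffffffffffc0000000000000000000000000000000000000000
def w21 : ℕ := 0x7ffffffffffffffffffffffffffffffffffffffffffffffffffffffffffff
def w22 : ℕ := 0x3ffffffffffffffffffffffffffffffffffffffffffffffffffffffffffff8000000000000000000000000000000000000000000000000000000000000
def w23 : ℕ := 0x1ffffffffffffffffffffffffffffffffffffffffffffffffffffffffffffc0000000000000000000000000000000000000000000000000000000000000000000000000000000000000000000000000000000000000000000000000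
/-- digit masks of one block -/
def WT : T := .node (.node (.node (.node (.node (.leaf 0) (.leaf w16)) (.node (.leaf w8) (.leaf 0))) (.node (.node (.leaf w4) (.leaf w20)) (.leaf 0))) (.node (.node (.node (.leaf 0) (.leaf w18)) (.node (.leaf w10) (.leaf 0))) (.node (.node (.leaf w6) (.leaf w22)) (.leaf 0)))) (.node (.node (.node (.node (.leaf 0) (.leaf w17)) (.node (.leaf w9) (.leaf 0))) (.node (.node (.leaf w5) (.leaf w21)) (.leaf 0))) (.node (.node (.node (.leaf w3) (.leaf w19)) (.node (.leaf w11) (.leaf 0))) (.node (.node (.leaf w7) (.leaf w23)) (.node (.leaf w15) (.leaf 0)))))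

/-- check of the digit masks of one block -/
noncomputable def chkW : Bool :=
  alln (fun x => alln (fun y => cond (Nat.beq x y) true (alln (fun z =>
    st (WT.get (Nat.add (Nat.mul 9 x) (Nat.add (Nat.mul 3 y) z))) fun m =>
      cond (Nat.beq (Nat.shiftRight m 729) 0)
        (alln (fun i => eqb (bt m i) (Nat.beq (ev i x y) z)) 729) false) 3)) 3) 3

theorem cond_false' {α : Type} (a b : α) : cond false a b = b := rfl

theorem cond_true' {α : Type} (a b : α) : cond true a b = a := rfl

theorem chkW_ok : chkW = true := by decide +kernel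

/-- `k` copies of a block -/
noncomputable def rep (k v : ℕ) : ℕ :=
  Nat.rec (motive := fun _ => ℕ) 0
    (fun j acc => Nat.lor acc (Nat.shiftLeft v (Nat.mul 729 j))) k

theorem shr_zero {m : ℕ} (h : Nat.beq (Nat.shiftRight m 729) 0 = true) (i : ℕ)
    (hi : 729 ≤ i) : m.testBit i = false := by
  have h1 : m >>> 729 = 0 := Nat.eq_of_beq_eq_true h
  have h2 : (m >>> 729).testBit (i - 729) = m.testBit (729 + (i - 729)) :=
    Nat.testBit_shiftRight _
  rw [h1, Nat.zero_testBit, show 729 + (i - 729) = i by omega] at h2
  exact h2.symm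

theorem rep_bit {v : ℕ} (hv : ∀ i, 729 ≤ i → v.testBit i = false) (k : ℕ) : ∀ i,
    ((rep k v).testBit i = true ↔ i < 729 * k ∧ v.testBit (i % 729) = true) := by
  induction k with
  | zero =>
    intro i
    change (0 : ℕ).testBit i = true ↔ _
    rw [Nat.zero_testBit]
    constructor
    · intro h; exact absurd h (by simp)
    · rintro ⟨h, _⟩; omega
  | succ k ih =>
    intro i
    have e : rep (k + 1) v = (rep k v) ||| (v <<< (729 * k)) := rfl
    rw [e, Nat.testBit_or, Bool.or_eq_true, ih, Nat.testBit_shiftLeft, Bool.and_eq_true,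
      decide_eq_true_iff]
    constructor
    · rintro (⟨h1, h2⟩ | ⟨h1, h2⟩)
      · exact ⟨by omega, h2⟩
      · have h3 : i - 729 * k < 729 := by
          by_contra hc
          rw [hv _ (by omega)] at h2
          exact absurd h2 (by simp)
        have h4 : i % 729 = i - 729 * k := by omega
        rw [h4]
        exact ⟨by omega, h2⟩
    · rintro ⟨h1, h2⟩
      by_cases h3 : i < 729 * k
      · exact Or.inl ⟨h3, h2⟩
      · right
        have h4 : i % 729 = i - 729 * k := by omega
        rw [h4] at h2
        exact ⟨by omega, h2⟩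

/-- digit masks on the diagonal -/
noncomputable def dgm (k MJ f x z : ℕ) : ℕ :=
  Nat.rec (motive := fun _ => ℕ) 0
    (fun j acc => Nat.lor acc (cond (Nat.beq (ev (Nat.mul 729 (fld MJ j)) x x) z)
      (Nat.shiftLeft f (Nat.mul 729 j)) 0)) k

theorem dgm_bit {MJ f x z : ℕ} (hf : f = 2 ^ 729 - 1) (k : ℕ) : ∀ i,
    ((dgm k MJ f x z).testBit i = true ↔
      i < 729 * k ∧ ev (729 * fld MJ (i / 729)) x x = z) := by
  induction k with
  | zero =>
    intro i
    change (0 : ℕ).testBit i = true ↔ _
    rw [Nat.zero_testBit]
    constructor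
    · intro h; exact absurd h (by simp)
    · rintro ⟨h, _⟩; omega
  | succ k ih =>
    intro i
    have e : dgm (k + 1) MJ f x z = (dgm k MJ f x z) |||
      (cond (Nat.beq (ev (Nat.mul 729 (fld MJ k)) x x) z) (f <<< (729 * k)) 0) := rfl
    rw [e, Nat.testBit_or, Bool.or_eq_true, ih]
    cases hb : Nat.beq (ev (Nat.mul 729 (fld MJ k)) x x) z
    · have hne : ev (729 * fld MJ k) x x ≠ z := by
        intro hh
        have h5 : Nat.beq (ev (Nat.mul 729 (fld MJ k)) x x) z = true := by
          rw [Nat.beq_eq]; exact hh
        rw [hb] at h5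
        exact absurd h5 (by simp)
      rw [cond_false', Nat.zero_testBit]
      constructor
      · rintro (⟨h1, h2⟩ | h1)
        · exact ⟨by omega, h2⟩
        · exact absurd h1 (by simp)
      · rintro ⟨h1, h2⟩
        left
        refine ⟨?_, h2⟩
        by_contra hc
        have h3 : i / 729 = k := by omega
        rw [h3] at h2
        exact hne h2
    · have he : ev (729 * fld MJ k) x x = z := Nat.eq_of_beq_eq_true hb
      rw [cond_true', Nat.testBit_shiftLeft, Bool.and_eq_true, decide_eq_true_iff, hf,
        Nat.testBit_two_pow_sub_one, decide_eq_true_iff]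
      constructor
      · rintro (⟨h1, h2⟩ | ⟨h1, h2⟩)
        · exact ⟨by omega, h2⟩
        · have h3 : i / 729 = k := by omega
          rw [h3]
          exact ⟨by omega, he⟩
      · rintro ⟨h1, h2⟩
        by_cases h3 : i < 729 * k
        · exact Or.inl ⟨h3, h2⟩
        · exact Or.inr ⟨by omega, by omega⟩

/-- check of the digit masks, cheap version -/
noncomputable def chkV2 (k MJ : ℕ) (VT : T) : Bool :=
  st (Nat.sub (Nat.pow 2 729) 1) fun f =>
  alln (fun x => alln (fun y => alln (fun z =>
    Nat.beq (VT.get (Nat.add (Nat.mul 9 x) (Nat.add (Nat.mul 3 y) z)))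
      (cond (Nat.beq x y) (dgm k MJ f x z)
        (rep k (WT.get (Nat.add (Nat.mul 9 x) (Nat.add (Nat.mul 3 y) z)))))) 3) 3) 3

theorem ev_mod {MJ i x y : ℕ} (hx : x < 3) (hy : y < 3) (hxy : x ≠ y) :
    ev (cod MJ i) x y = ev (i % 729) x y := by
  have h : ∀ p, p ∣ 243 → (i % 729 + 729 * fld MJ (i / 729)) / p % 3 = i % 729 / p % 3 := by
    rintro p ⟨q, hq⟩
    have hp : 0 < p := by
      rcases Nat.eq_zero_or_pos p with h0 | h0
      · rw [h0] at hq; omega
      · exact h0
    have e : 729 * fld MJ (i / 729) = p * (3 * (q * fld MJ (i / 729))) := by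
      calc 729 * fld MJ (i / 729) = 243 * 3 * fld MJ (i / 729) := by ring
        _ = p * q * 3 * fld MJ (i / 729) := by rw [← hq]
        _ = p * (3 * (q * fld MJ (i / 729))) := by ring
    rw [e, Nat.add_mul_div_left _ _ hp, Nat.add_mul_mod_self_left]
  rw [cod_eq]
  have hx' : x = 0 ∨ x = 1 ∨ x = 2 := by omega
  have hy' : y = 0 ∨ y = 1 ∨ y = 2 := by omega
  rcases hx' with rfl | rfl | rfl
  · rcases hy' with rfl | rfl | rfl
    · exact absurd rfl hxy
    · rw [ev01, ev01]; have := h 1 (by norm_num); simpa using this
    · rw [ev02, ev02]; exact h 3 (by norm_num)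
  · rcases hy' with rfl | rfl | rfl
    · rw [ev10, ev10]; exact h 9 (by norm_num)
    · exact absurd rfl hxy
    · rw [ev12, ev12]; exact h 27 (by norm_num)
  · rcases hy' with rfl | rfl | rfl
    · rw [ev20, ev20]; exact h 81 (by norm_num)
    · rw [ev21, ev21]; exact h 243 (by norm_num)
    · exact absurd rfl hxy

theorem ev_dg {MJ i x : ℕ} (hx : x < 3) :
    ev (cod MJ i) x x = ev (729 * fld MJ (i / 729)) x x := by
  rw [cod_eq]
  have hx' : x = 0 ∨ x = 1 ∨ x = 2 := by omega
  rcases hx' with rfl | rfl | rfl
  · rw [ev00, ev00]; omega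
  · rw [ev11, ev11]; omega
  · rw [ev22, ev22]; omega

theorem f729 : Nat.sub (Nat.pow 2 729) 1 = 2 ^ 729 - 1 := by decide +kernel

theorem chkV2_sound {k MJ : ℕ} {VT : T} (h : chkV2 k MJ VT = true) :
    VOk MJ (729 * k) VT := by
  intro x y z i hx hy hz hi
  unfold chkV2 at h
  rw [st_eq] at h
  have h1 := alln_iff h x hx
  have h2 := alln_iff h1 y hy
  have h3 := Nat.eq_of_beq_eq_true (alln_iff h2 z hz)
  have h5 : VT.get (9 * x + (3 * y + z)) =
    VT.get (Nat.add (Nat.mul 9 x) (Nat.add (Nat.mul 3 y) z)) := rfl
  rw [h5, h3]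
  cases hxy : Nat.beq x y
  · have hne : x ≠ y := by
      intro hh
      have h6 : Nat.beq x y = true := by rw [Nat.beq_eq]; exact hh
      rw [hxy] at h6
      exact absurd h6 (by simp)
    have g1 := alln_iff chkW_ok x hx
    have g2 := alln_iff g1 y hy
    simp only [hxy, cond_false'] at g2
    have g3 := alln_iff g2 z hz
    rw [st_eq] at g3
    obtain ⟨g4, g5⟩ := cond_false g3
    rw [cond_false', rep_bit (shr_zero g4)]
    have g6 := eqb_iff (alln_iff g5 (i % 729) (by omega))
    rw [← bt_iff, g6, Nat.beq_eq, ev_mod hx hy hne]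
    exact ⟨fun hh => hh.2, fun hh => ⟨hi, hh⟩⟩
  · have he : x = y := Nat.eq_of_beq_eq_true hxy
    subst he
    rw [cond_true', dgm_bit f729, ev_dg hx]
    exact ⟨fun hh => hh.2, fun hh => ⟨hi, hh⟩⟩

end H78.BA
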