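import Pool.Agent.H78.BA.Core

/-! The certificate machine: it counts the algebras of binary operations with a given
unary part between two masks. -/

namespace H78.BA

set_option maxHeartbeats 400000
set_option linter.unusedSectionVars false

/-- field `j` of a packed table (5 bits per field) -/
def fld (P j : ℕ) : ℕ := Nat.land (Nat.shiftRight P (Nat.mul 5 j)) 31

/-- index to code -/
def cod (MJ i : ℕ) : ℕ := Nat.add (Nat.mod i 729) (Nat.mul 729 (fld MJ (Nat.div i 729)))

/-- code to index -/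
def idx (JM c : ℕ) : ℕ := Nat.add (Nat.mod c 729) (Nat.mul 729 (fld JM (Nat.div c 729)))

theorem cod_eq (MJ i : ℕ) : cod MJ i = i % 729 + 729 * fld MJ (i / 729) := rfl
theorem idx_eq (JM c : ℕ) : idx JM c = c % 729 + 729 * fld JM (c / 729) := rfl

/-- the packed tables describe a bijection between `k` block numbers and a set of
diagonal codes -/
structure PT (k MJ JM : ℕ) : Prop where
  h1 : ∀ j < k, fld MJ j < 27 ∧ fld JM (fld MJ j) = j
  h2 : ∀ m < 27, fld JM m < k → fld MJ (fld JM m) = m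

section
variable {k MJ JM : ℕ} (hp : PT k MJ JM)
include hp

theorem cod_lt {i : ℕ} (hi : i < 729 * k) : cod MJ i < 19683 := by
  have h := (hp.h1 (i / 729) (by omega)).1
  rw [cod_eq]; omega

theorem cod_div {i : ℕ} (_hi : i < 729 * k) : cod MJ i / 729 = fld MJ (i / 729) := by
  rw [cod_eq]; omega

theorem idx_cod {i : ℕ} (hi : i < 729 * k) : idx JM (cod MJ i) = i := by
  have h := (hp.h1 (i / 729) (by omega)).2
  have h2 := cod_div hp hi
  have h3 : cod MJ i % 729 = i % 729 := by rw [cod_eq]; omega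
  rw [idx_eq, h2, h3, h]; omega

theorem idx_lt {c : ℕ} (_hc : c < 19683) (h : fld JM (c / 729) < k) :
    idx JM c < 729 * k := by
  rw [idx_eq]; omega

theorem cod_idx {c : ℕ} (hc : c < 19683) (h : fld JM (c / 729) < k) :
    cod MJ (idx JM c) = c := by
  have h2 := hp.h2 (c / 729) (by omega) h
  have h3 : idx JM c / 729 = fld JM (c / 729) := by rw [idx_eq]; omega
  have h4 : idx JM c % 729 = c % 729 := by rw [idx_eq]; omega
  rw [cod_eq, h3, h4, h2]; omega

theorem fld_of_idx {c : ℕ} (_hc : c < 19683) (h : idx JM c < 729 * k) :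
    fld JM (c / 729) < k := by
  rw [idx_eq] at h; omega

end

/-- operation number `i` is in `F` -/
def Holds (k MJ : ℕ) (F : Set Op) (i : ℕ) : Prop := i < 729 * k ∧ dec (cod MJ i) ∈ F

/-- all operations of the mask are in `F` -/
def B (k MJ : ℕ) (F : Set Op) (m : ℕ) : Prop := ∀ i, m.testBit i = true → Holds k MJ F i

/-- no operation of the mask is in `F` -/
def NB (k MJ : ℕ) (F : Set Op) (m : ℕ) : Prop := ∀ i, m.testBit i = true → ¬ Holds k MJ F i

/-- algebras which contain the base operations and whose diagonals all lie in `M` -/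
def Ok (k MJ JM bs : ℕ) (F : Set Op) : Prop :=
  IsAlg F ∧ (∀ f ∈ F, fld JM (enc f / 729) < k) ∧ B k MJ F bs

/-- the algebras between two masks -/
def Fam (k MJ JM bs IN OUT : ℕ) : Set (Set Op) :=
  {F | Ok k MJ JM bs F ∧ B k MJ F IN ∧ NB k MJ F OUT}

theorem step_holds {k MJ JM bs : ℕ} (hp : PT k MJ JM) {F : Set Op} (hF : Ok k MJ JM bs F)
    {a b c : ℕ} (ha : Holds k MJ F a) (hb : Holds k MJ F b) (hc : Holds k MJ F c) :
    Holds k MJ F (idx JM (cmp (cod MJ a) (cod MJ b) (cod MJ c))) := by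
  have hw := cmp_lt (cod MJ a) (cod MJ b) (cod MJ c)
  have h1 : dec (cmp (cod MJ a) (cod MJ b) (cod MJ c)) ∈ F := by
    rw [dec_cmp]; exact hF.1.2.2 _ ha.2 _ hb.2 _ hc.2
  have h2 := hF.2.1 _ h1
  rw [enc_dec hw] at h2
  refine ⟨idx_lt hp hw h2, ?_⟩
  rw [cod_idx hp hw h2]; exact h1

theorem cond_false {x y : Bool} (h : cond x y false = true) : x = true ∧ y = true := by
  cases x
  · exact absurd h (by simp)
  · exact ⟨rfl, h⟩

/-- one composition step -/
noncomputable def stp (MJ JM s IN : ℕ) (kk : ℕ → ℕ → Bool) : Bool :=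
  st (Nat.land s 32767) fun a => st (Nat.land (Nat.shiftRight s 15) 32767) fun b =>
  st (Nat.land (Nat.shiftRight s 30) 32767) fun c =>
  cond (bt IN a) (cond (bt IN b) (cond (bt IN c)
    (st (cod MJ a) fun f => st (cod MJ b) fun u => st (cod MJ c) fun v =>
      st (cmp f u v) fun w => st (idx JM w) fun i =>
      st (Nat.shiftRight s 45) fun s' => kk s' i) false) false) false

theorem stp_sound {k MJ JM bs : ℕ} (hp : PT k MJ JM) {s IN : ℕ} {kk : ℕ → ℕ → Bool}
    (h : stp MJ JM s IN kk = true) :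
    ∃ s' w, kk s' w = true ∧ ∀ F, Ok k MJ JM bs F → B k MJ F IN → Holds k MJ F w := by
  unfold stp at h
  simp only [st_eq] at h
  obtain ⟨h1, h⟩ := cond_false h
  obtain ⟨h2, h⟩ := cond_false h
  obtain ⟨h3, h⟩ := cond_false h
  rw [bt_iff] at h1 h2 h3
  exact ⟨_, _, h, fun F hF hB => step_holds hp hF (hB _ h1) (hB _ h2) (hB _ h3)⟩

/-- several steps, adding the mask `DD w` for each derived `w` -/
noncomputable def stps (MJ JM : ℕ) (DD : ℕ → ℕ) (m : ℕ) : ℕ → ℕ → (ℕ → ℕ → Bool) → Bool :=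
  Nat.rec (motive := fun _ => ℕ → ℕ → (ℕ → ℕ → Bool) → Bool) (fun s IN kk => kk s IN)
    (fun _ ih s IN kk => stp MJ JM s IN fun s' w => st (Nat.lor IN (DD w)) fun IN' =>
      ih s' IN' kk) m

theorem lor_B {k MJ : ℕ} {F : Set Op} {a b : ℕ} (ha : B k MJ F a) (hb : B k MJ F b) :
    B k MJ F (Nat.lor a b) := by
  intro i hi
  have h : (a ||| b).testBit i = true := hi
  rw [Nat.testBit_or, Bool.or_eq_true] at h
  rcases h with h | h
  · exact ha i h
  · exact hb i h

theorem lor_NB {k MJ : ℕ} {F : Set Op} {a b : ℕ} (ha : NB k MJ F a) (hb : NB k MJ F b) :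
    NB k MJ F (Nat.lor a b) := by
  intro i hi
  have h : (a ||| b).testBit i = true := hi
  rw [Nat.testBit_or, Bool.or_eq_true] at h
  rcases h with h | h
  · exact ha i h
  · exact hb i h

theorem B_left {k MJ : ℕ} {F : Set Op} {a b : ℕ} (h : B k MJ F (Nat.lor a b)) :
    B k MJ F a := by
  intro i hi
  refine h i ?_
  change (a ||| b).testBit i = true
  rw [Nat.testBit_or, hi, Bool.true_or]

theorem B_right {k MJ : ℕ} {F : Set Op} {a b : ℕ} (h : B k MJ F (Nat.lor a b)) :
    B k MJ F b := by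
  intro i hi
  refine h i ?_
  change (a ||| b).testBit i = true
  rw [Nat.testBit_or, hi, Bool.or_true]

theorem NB_left {k MJ : ℕ} {F : Set Op} {a b : ℕ} (h : NB k MJ F (Nat.lor a b)) :
    NB k MJ F a := by
  intro i hi
  refine h i ?_
  change (a ||| b).testBit i = true
  rw [Nat.testBit_or, hi, Bool.true_or]

theorem NB_right {k MJ : ℕ} {F : Set Op} {a b : ℕ} (h : NB k MJ F (Nat.lor a b)) :
    NB k MJ F b := by
  intro i hi
  refine h i ?_
  change (a ||| b).testBit i = true
  rw [Nat.testBit_or, hi, Bool.or_true]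

theorem stps_sound {k MJ JM bs : ℕ} (hp : PT k MJ JM) {DD : ℕ → ℕ}
    (hD : ∀ w F, Ok k MJ JM bs F → Holds k MJ F w → B k MJ F (DD w)) (m : ℕ) :
    ∀ {s IN : ℕ} {kk : ℕ → ℕ → Bool}, stps MJ JM DD m s IN kk = true →
      ∃ s' IN', kk s' IN' = true ∧ ∀ F, Ok k MJ JM bs F → B k MJ F IN → B k MJ F IN' := by
  induction m with
  | zero => intro s IN kk h; exact ⟨s, IN, h, fun _ _ hB => hB⟩
  | succ m ih =>
    intro s IN kk h
    have h' : stp MJ JM s IN (fun s' w => st (Nat.lor IN (DD w)) fun IN' =>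
      stps MJ JM DD m s' IN' kk) = true := h
    obtain ⟨s', w, h1, h2⟩ := stp_sound hp h'
    rw [st_eq] at h1
    obtain ⟨s'', IN', h3, h4⟩ := ih h1
    exact ⟨s'', IN', h3, fun F hF hB => h4 F hF (lor_B hB (hD w F hF (h2 F hF hB)))⟩

/-- the class data: for the class number `a` the masks `CD a` and `CU a` decide whether
its representative is in `F` -/
def ClassOk (k MJ JM bs D U : ℕ) : Prop :=
  ∃ r, D.testBit r = true ∧ U.testBit r = true ∧
    (∀ F, Ok k MJ JM bs F → Holds k MJ F r → B k MJ F D) ∧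
    (∀ F, Ok k MJ JM bs F → ¬ Holds k MJ F r → NB k MJ F U)

/-- masks closed under composition inside the universe -/
def ClP (k MJ JM m : ℕ) : Prop :=
  ∀ a b c, a < 729 * k → b < 729 * k → c < 729 * k → m.testBit a = true →
    m.testBit b = true → m.testBit c = true →
    idx JM (cmp (cod MJ a) (cod MJ b) (cod MJ c)) < 729 * k →
    m.testBit (idx JM (cmp (cod MJ a) (cod MJ b) (cod MJ c))) = true

/-- masks which are closed and never leave the universe -/
def Cl (k MJ JM m : ℕ) : Prop :=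
  (∀ i, m.testBit i = true → i < 729 * k) ∧
    ∀ a b c, m.testBit a = true → m.testBit b = true → m.testBit c = true →
      m.testBit (idx JM (cmp (cod MJ a) (cod MJ b) (cod MJ c))) = true

theorem Cl_land {k MJ JM m p : ℕ} (hm : Cl k MJ JM m) (hp : ClP k MJ JM p) :
    Cl k MJ JM (Nat.land m p) := by
  have key : ∀ i, (Nat.land m p).testBit i = true ↔ m.testBit i = true ∧ p.testBit i = true := by
    intro i
    change (m &&& p).testBit i = true ↔ _
    rw [Nat.testBit_and, Bool.and_eq_true]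
  refine ⟨fun i hi => hm.1 i ((key i).1 hi).1, fun a b c ha hb hc => ?_⟩
  rw [key] at ha hb hc ⊢
  have h := hm.2 a b c ha.1 hb.1 hc.1
  exact ⟨h, hp a b c (hm.1 _ ha.1) (hm.1 _ hb.1) (hm.1 _ hc.1) ha.2 hb.2 hc.2 (hm.1 _ h)⟩

/-- intersect with some of the tabulated masks -/
noncomputable def lf (P : T) (m : ℕ) : ℕ → ℕ → (ℕ → ℕ → Bool) → Bool :=
  Nat.rec (motive := fun _ => ℕ → ℕ → (ℕ → ℕ → Bool) → Bool) (fun s acc kk => kk s acc)
    (fun _ ih s acc kk => st (Nat.land acc (P.get (Nat.land s 1023))) fun acc' =>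
      st (Nat.shiftRight s 10) fun s' => ih s' acc' kk) m

theorem lf_sound {k MJ JM : ℕ} {P : T} (hP : ∀ i, ClP k MJ JM (P.get i)) (m : ℕ) :
    ∀ {s acc : ℕ} {kk : ℕ → ℕ → Bool}, lf P m s acc kk = true → Cl k MJ JM acc →
      ∃ s' acc', kk s' acc' = true ∧ Cl k MJ JM acc' := by
  induction m with
  | zero => intro s acc kk h hc; exact ⟨s, acc, h, hc⟩
  | succ m ih =>
    intro s acc kk h hc
    have h' : (st (Nat.land acc (P.get (Nat.land s 1023))) fun acc' =>
      st (Nat.shiftRight s 10) fun s' => lf P m s' acc' kk) = true := h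
    rw [st_eq, st_eq] at h'
    exact ih h' (Cl_land hc (hP _))

/-- parameters of a run -/
structure Par where
  D : T
  CD : T
  CU : T
  P : T
  nc : ℕ
  AL : ℕ
  base : ℕ
  full : ℕ

/-- correctness of the parameters -/
structure ParOk (k MJ JM bs : ℕ) (p : Par) : Prop where
  hbs : p.base = bs
  pt : PT k MJ JM
  hD : ∀ w F, Ok k MJ JM bs F → Holds k MJ F w → B k MJ F (p.D.get w)
  hC : ∀ a, a < p.nc → ClassOk k MJ JM bs (p.CD.get a) (p.CU.get a)
  hP : ∀ i, ClP k MJ JM (p.P.get i)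
  hAL : Cl k MJ JM p.AL
  hfull : ∀ i, i < 729 * k → p.full.testBit i = true
  hb1 : ∃ i, p.base.testBit i = true ∧ dec (cod MJ i) = fun x _ => x
  hb2 : ∃ i, p.base.testBit i = true ∧ dec (cod MJ i) = fun _ y => y

/-- go on with the next open problem on the stack, or finish -/
def pop (tot : ℕ) (ih : ℕ → ℕ → ℕ → List (ℕ × ℕ) → List (ℕ × ℕ × ℕ) → ℕ → Bool)
    (s : ℕ) (stk : List (ℕ × ℕ)) (kn : List (ℕ × ℕ × ℕ)) (cnt : ℕ) : Bool :=
  match stk with
  | [] => Nat.beq cnt tot
  | x :: t => ih s x.1 x.2 t kn cnt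

/-- one instruction of the machine -/
noncomputable def mstep (MJ JM : ℕ) (p : Par) (tot : ℕ)
    (ih : ℕ → ℕ → ℕ → List (ℕ × ℕ) → List (ℕ × ℕ × ℕ) → ℕ → Bool)
    (s IN OUT : ℕ) (stk : List (ℕ × ℕ)) (kn : List (ℕ × ℕ × ℕ)) (cnt : ℕ) : Bool :=
      st (Nat.shiftRight s 3) fun s1 =>
      match Nat.land s 7 with
      | 0 => stp MJ JM s1 IN fun s' w => st (Nat.lor IN (p.D.get w)) fun IN' =>
          ih s' IN' OUT stk kn cnt
      | 1 => st (Nat.land s1 1023) fun a => cond (Nat.ble (Nat.succ a) p.nc)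
          (stps MJ JM p.D.get (Nat.land (Nat.shiftRight s1 10) 15) (Nat.shiftRight s1 14)
            (Nat.lor IN (p.CD.get a)) fun s' IN' => cond (Nat.beq (Nat.land IN' OUT) 0) false
              (st (Nat.lor OUT (p.CU.get a)) fun OUT' => ih s' IN OUT' stk kn cnt)) false
      | 2 => st (Nat.land s1 1023) fun a => cond (Nat.ble (Nat.succ a) p.nc)
          (st (Nat.lor OUT (p.CU.get a)) fun OUT' => st (Nat.lor IN (p.CD.get a)) fun IN' =>
            st (Nat.shiftRight s1 10) fun s' => ih s' IN' OUT ((IN, OUT') :: stk) kn cnt) false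
      | 3 => lf p.P (Nat.land s1 15) (Nat.shiftRight s1 4) p.AL fun s' acc =>
          cond (Nat.beq acc IN) (cond (Nat.beq (Nat.land p.base IN) p.base)
            (cond (Nat.beq (Nat.land p.full (Nat.lor IN OUT)) p.full)
              (cond (Nat.beq (Nat.land IN OUT) 0)
                (st (Nat.succ cnt) fun cnt' => pop tot ih s' stk kn cnt') false) false)
                false) false
      | _ => match kn with
        | [] => false
        | x :: kn' => cond (Nat.beq IN x.1) (cond (Nat.beq OUT x.2.1)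
            (st (Nat.add cnt x.2.2) fun cnt' => pop tot ih s1 stk kn' cnt') false) false

/-- the machine -/
noncomputable def run (MJ JM : ℕ) (p : Par) (tot fuel : ℕ) :
    ℕ → ℕ → ℕ → List (ℕ × ℕ) → List (ℕ × ℕ × ℕ) → ℕ → Bool :=
  Nat.rec (motive := fun _ => ℕ → ℕ → ℕ → List (ℕ × ℕ) → List (ℕ × ℕ × ℕ) → ℕ → Bool)
    (fun _ _ _ _ _ _ => false) (fun _ ih => mstep MJ JM p tot ih) fuel

theorem run_succ (MJ JM : ℕ) (p : Par) (tot fuel s IN OUT : ℕ) (stk : List (ℕ × ℕ))
    (kn : List (ℕ × ℕ × ℕ)) (cnt : ℕ) :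
    run MJ JM p tot (fuel + 1) s IN OUT stk kn cnt =
      mstep MJ JM p tot (run MJ JM p tot fuel) s IN OUT stk kn cnt := rfl

end H78.BA
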