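import Pool.Agent.H78.BA.Machine

/-! Soundness of the certificate machine. -/

namespace H78.BA

set_option maxHeartbeats 400000

theorem land_beq {a b : ℕ} (h : Nat.beq (Nat.land a b) a = true) {i : ℕ}
    (hi : a.testBit i = true) : b.testBit i = true := by
  have h1 : Nat.land a b = a := Nat.eq_of_beq_eq_true h
  have h2 : (a &&& b).testBit i = true := by
    change (Nat.land a b).testBit i = true
    rw [h1]; exact hi
  rw [Nat.testBit_and, Bool.and_eq_true] at h2
  exact h2.2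

theorem land_zero {a b : ℕ} (h : Nat.beq (Nat.land a b) 0 = true) {i : ℕ}
    (hi : a.testBit i = true) (hj : b.testBit i = true) : False := by
  have h1 : Nat.land a b = 0 := Nat.eq_of_beq_eq_true h
  have h2 : (a &&& b).testBit i = true := by
    rw [Nat.testBit_and, hi, hj]; rfl
  have h3 : (Nat.land a b).testBit i = true := h2
  rw [h1, Nat.zero_testBit] at h3
  exact absurd h3 (by simp)

/-- the set of operations of a mask -/
def SS (MJ m : ℕ) : Set Op := {f | ∃ i, m.testBit i = true ∧ f = dec (cod MJ i)}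

theorem leaf_card {k MJ JM bs : ℕ} {p : Par} (hp : ParOk k MJ JM bs p) {IN OUT : ℕ}
    (hc : Cl k MJ JM IN) (hb : Nat.beq (Nat.land p.base IN) p.base = true)
    (hf : Nat.beq (Nat.land p.full (Nat.lor IN OUT)) p.full = true)
    (hz : Nat.beq (Nat.land IN OUT) 0 = true) : (Fam k MJ JM bs IN OUT).ncard = 1 := by
  rw [Set.ncard_eq_one]
  refine ⟨SS MJ IN, ?_⟩
  ext F
  rw [Set.mem_singleton_iff]
  constructor
  · rintro ⟨hF, hB, hNB⟩
    apply Set.Subset.antisymm
    · intro f hf'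
      have h1 := hF.2.1 f hf'
      have h2 : idx JM (enc f) < 729 * k := idx_lt hp.pt (enc_lt f) h1
      have h3 : cod MJ (idx JM (enc f)) = enc f := cod_idx hp.pt (enc_lt f) h1
      have h4 := land_beq hf (hp.hfull _ h2)
      have h5 : (IN ||| OUT).testBit (idx JM (enc f)) = true := h4
      rw [Nat.testBit_or, Bool.or_eq_true] at h5
      rcases h5 with h5 | h5
      · exact ⟨_, h5, by rw [h3, dec_enc]⟩
      · refine absurd ⟨h2, ?_⟩ (hNB _ h5)
        rw [h3, dec_enc]; exact hf'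
    · rintro f ⟨i, hi, rfl⟩
      exact (hB i hi).2
  · rintro rfl
    refine ⟨⟨⟨?_, ?_, ?_⟩, ?_, ?_⟩, ?_, ?_⟩
    · obtain ⟨i, hi, he⟩ := hp.hb1
      exact ⟨i, land_beq hb hi, he.symm⟩
    · obtain ⟨i, hi, he⟩ := hp.hb2
      exact ⟨i, land_beq hb hi, he.symm⟩
    · rintro f ⟨a, ha, rfl⟩ g ⟨b, hb', rfl⟩ h ⟨c, hc', rfl⟩
      have h1 := hc.2 a b c ha hb' hc'
      have h2 := hc.1 _ h1
      refine ⟨_, h1, ?_⟩
      rw [cod_idx hp.pt (cmp_lt _ _ _) (fld_of_idx hp.pt (cmp_lt _ _ _) h2), dec_cmp]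
    · rintro f ⟨i, hi, rfl⟩
      have h1 := hc.1 i hi
      rw [enc_dec (cod_lt hp.pt h1), cod_div hp.pt h1, (hp.pt.h1 _ (by omega)).2]
      omega
    · intro i hi
      have hi' : IN.testBit i = true := land_beq hb (by rw [hp.hbs]; exact hi)
      exact ⟨hc.1 i hi', i, hi', rfl⟩
    · intro i hi
      exact ⟨hc.1 i hi, i, hi, rfl⟩
    · rintro i hi ⟨h1, j, hj, he⟩
      have h2 := hc.1 j hj
      have h3 : cod MJ i = cod MJ j := dec_inj (cod_lt hp.pt h1) (cod_lt hp.pt h2) he
      have h4 : i = j := by rw [← idx_cod hp.pt h1, h3, idx_cod hp.pt h2]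
      subst h4
      exact land_zero hz hj hi

theorem Fam_finite (k MJ JM bs IN OUT : ℕ) : (Fam k MJ JM bs IN OUT).Finite := Set.toFinite _

theorem Fam_derive {k MJ JM bs IN OUT m : ℕ}
    (h : ∀ F, Ok k MJ JM bs F → B k MJ F IN → B k MJ F m) :
    Fam k MJ JM bs IN OUT = Fam k MJ JM bs (Nat.lor IN m) OUT := by
  ext F
  constructor
  · rintro ⟨h1, h2, h3⟩
    exact ⟨h1, lor_B h2 (h F h1 h2), h3⟩
  · rintro ⟨h1, h2, h3⟩
    exact ⟨h1, B_left h2, h3⟩

theorem Fam_branch {k MJ JM bs IN OUT D U : ℕ} (hc : ClassOk k MJ JM bs D U) :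
    (Fam k MJ JM bs IN OUT).ncard = (Fam k MJ JM bs (Nat.lor IN D) OUT).ncard +
      (Fam k MJ JM bs IN (Nat.lor OUT U)).ncard := by
  obtain ⟨r, hr1, hr2, h1, h2⟩ := hc
  rw [← Set.ncard_union_eq _ (Fam_finite _ _ _ _ _ _) (Fam_finite _ _ _ _ _ _)]
  · congr 1
    ext F
    constructor
    · rintro ⟨g1, g2, g3⟩
      by_cases hr : Holds k MJ F r
      · exact Or.inl ⟨g1, lor_B g2 (h1 F g1 hr), g3⟩
      · exact Or.inr ⟨g1, g2, lor_NB g3 (h2 F g1 hr)⟩
    · rintro (⟨g1, g2, g3⟩ | ⟨g1, g2, g3⟩)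
      · exact ⟨g1, B_left g2, g3⟩
      · exact ⟨g1, g2, NB_left g3⟩
  · rw [Set.disjoint_left]
    rintro F ⟨_, g2, _⟩ ⟨_, _, g3⟩
    exact NB_right g3 r hr2 (B_right g2 r hr1)

theorem Fam_empty {k MJ JM bs IN OUT : ℕ}
    (h : ∀ F, Ok k MJ JM bs F → B k MJ F IN → NB k MJ F OUT → False) :
    (Fam k MJ JM bs IN OUT).ncard = 0 := by
  have : Fam k MJ JM bs IN OUT = ∅ := by
    ext F
    constructor
    · rintro ⟨h1, h2, h3⟩
      exact h F h1 h2 h3
    · intro h'; exact absurd h' (Set.notMem_empty F)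
  rw [this, Set.ncard_empty]

/-- total number of algebras in the open problems -/
noncomputable def stkSum (k MJ JM bs : ℕ) : List (ℕ × ℕ) → ℕ
  | [] => 0
  | x :: t => (Fam k MJ JM bs x.1 x.2).ncard + stkSum k MJ JM bs t

theorem cond_zero {a : ℕ} {x : Bool} (h : cond (Nat.beq a 0) false x = true) :
    a ≠ 0 ∧ x = true := by
  cases hb : Nat.beq a 0
  · rw [hb] at h
    refine ⟨?_, h⟩
    rintro rfl
    exact absurd hb (by decide)
  · rw [hb] at h
    exact absurd h (by simp)

theorem exists_bit {a b : ℕ} (h : Nat.land a b ≠ 0) :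
    ∃ i, a.testBit i = true ∧ b.testBit i = true := by
  obtain ⟨i, hi⟩ := Nat.exists_testBit_of_ne_zero h
  have h' : (a &&& b).testBit i = true := hi
  rw [Nat.testBit_and, Bool.and_eq_true] at h'
  exact ⟨i, h'.1, h'.2⟩

theorem run_sound {k MJ JM bs : ℕ} {p : Par} (hp : ParOk k MJ JM bs p) (tot fuel : ℕ) :
    ∀ (s IN OUT : ℕ) (stk : List (ℕ × ℕ)) (kn : List (ℕ × ℕ × ℕ)) (cnt : ℕ),
      (∀ x ∈ kn, (Fam k MJ JM bs x.1 x.2.1).ncard = x.2.2) →
      run MJ JM p tot fuel s IN OUT stk kn cnt = true →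
      (Fam k MJ JM bs IN OUT).ncard + stkSum k MJ JM bs stk + cnt = tot := by
  induction fuel with
  | zero => intro s IN OUT stk kn cnt _ h; exact absurd h (by simp [run])
  | succ fuel ih =>
    intro s IN OUT stk kn cnt hkn h
    -- finishing one problem
    have hpop : ∀ (s' : ℕ) (kn' : List (ℕ × ℕ × ℕ)) (cnt' : ℕ),
        (∀ x ∈ kn', (Fam k MJ JM bs x.1 x.2.1).ncard = x.2.2) →
        pop tot (run MJ JM p tot fuel) s' stk kn' cnt' = true →
        stkSum k MJ JM bs stk + cnt' = tot := by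
      intro s' kn' cnt' hk h'
      cases stk with
      | nil =>
        have : cnt' = tot := Nat.eq_of_beq_eq_true h'
        simp [stkSum, this]
      | cons x t =>
        have h2 := ih s' x.1 x.2 t kn' cnt' hk h'
        simpa [stkSum] using h2
    rw [run_succ] at h
    have h' := h
    unfold mstep at h'
    clear h
    simp only [st_eq] at h'
    split at h'
    · -- derive
      obtain ⟨s', w, h1, h2⟩ := stp_sound hp.pt h'
      have h3 := ih _ _ _ _ _ _ hkn h1
      rw [← Fam_derive (fun F hF hB => hp.hD w F hF (h2 F hF hB))] at h3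
      exact h3
    · -- refute
      obtain ⟨ha, h'⟩ := cond_false h'
      have ha' : Nat.land (Nat.shiftRight s 3) 1023 < p.nc := Nat.le_of_ble_eq_true ha
      have hcl := hp.hC _ ha'
      obtain ⟨s', IN', h1, h2⟩ := stps_sound hp.pt hp.hD _ h'
      obtain ⟨h3, h4⟩ := cond_zero h1
      have h5 := ih _ _ _ _ _ _ hkn h4
      rw [Fam_branch hcl, Fam_empty, zero_add]
      · exact h5
      · intro F hF hB hNB
        obtain ⟨i, hi1, hi2⟩ := exists_bit h3
        exact hNB i hi2 (h2 F hF hB i hi1)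
    · -- branch
      obtain ⟨ha, h'⟩ := cond_false h'
      have ha' : Nat.land (Nat.shiftRight s 3) 1023 < p.nc := Nat.le_of_ble_eq_true ha
      have hcl := hp.hC _ ha'
      have h5 := ih _ _ _ _ _ _ hkn h'
      rw [stkSum] at h5
      rw [Fam_branch hcl]
      simp only at h5
      omega
    · -- leaf
      obtain ⟨s', acc, h1, h2⟩ := lf_sound hp.hP _ h' hp.hAL
      obtain ⟨h3, h4⟩ := cond_false h1
      obtain ⟨h5, h6⟩ := cond_false h4
      obtain ⟨h7, h8⟩ := cond_false h6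
      obtain ⟨h9, h10⟩ := cond_false h8
      have hacc : acc = IN := Nat.eq_of_beq_eq_true h3
      rw [hacc] at h2
      have h11 := hpop _ _ _ hkn h10
      rw [leaf_card hp h2 h5 h7 h9]
      have h12 : Nat.succ cnt = cnt + 1 := rfl
      omega
    · -- jump
      cases kn with
      | nil => exact absurd h' (by simp)
      | cons x kn' =>
        obtain ⟨h3, h4⟩ := cond_false h'
        obtain ⟨h5, h6⟩ := cond_false h4
        have e1 : IN = x.1 := Nat.eq_of_beq_eq_true h3
        have e2 : OUT = x.2.1 := Nat.eq_of_beq_eq_true h5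
        have h11 := hpop _ _ _ (fun y hy => hkn y (List.mem_cons_of_mem _ hy)) h6
        have h12 := hkn x List.mem_cons_self
        rw [e1, e2, h12]
        have h13 : Nat.add cnt x.2.2 = cnt + x.2.2 := rfl
        omega

end H78.BA
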