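import Pool.Agent.H78.BA.Unary
import Mathlib.Data.Fintype.Pi
import Mathlib.Data.Fintype.Perm

/-! Conjugates of a table of unary parts and the number of algebras belonging to it. -/

namespace H78.BA

set_option maxHeartbeats 400000

/-- the six permutations -/
def sv (j : ℕ) : Fin 3 → Fin 3 :=
  match j with
  | 0 => ![0, 1, 2]
  | 1 => ![0, 2, 1]
  | 2 => ![1, 0, 2]
  | 3 => ![1, 2, 0]
  | 4 => ![2, 0, 1]
  | _ => ![2, 1, 0]

/-- their inverses -/
def tv (j : ℕ) : Fin 3 → Fin 3 :=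
  match j with
  | 0 => ![0, 1, 2]
  | 1 => ![0, 2, 1]
  | 2 => ![1, 0, 2]
  | 3 => ![2, 0, 1]
  | 4 => ![1, 2, 0]
  | _ => ![2, 1, 0]

/-- conjugation on codes, packed -/
def TB (j : ℕ) : ℕ :=
  match j with
  | 0 => 36485634846548906633991799739614356408352
  | 1 => 18307072515038130206183815488806270338112
  | 2 => 36271665491648384200224253778019935994189
  | 3 => 17894570503812844302992983143864089724186
  | 4 => 259979167586051330264819285574593227277
  | _ => 406884818816444929905647567845043446330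

theorem sv_all : ∀ s t : Fin 3 → Fin 3, (∀ x, t (s x) = x) →
    ∃ j : Fin 6, s = sv j.1 ∧ t = tv j.1 := by decide +kernel

theorem tb_all : ∀ j : Fin 6, ∀ m : Fin 3 → Fin 3,
    code (fun x => tv j.1 (m (sv j.1 x))) = fld (TB j.1) (code m) := by decide +kernel

theorem inv_all : ∀ j : Fin 6, (∀ x, tv j.1 (sv j.1 x) = x) ∧ (∀ x, sv j.1 (tv j.1 x) = x) := by
  decide +kernel

/-- conjugate mask -/
noncomputable def cjm (j mask : ℕ) : ℕ :=
  Nat.rec (motive := fun _ => ℕ) 0
    (fun c acc => Nat.lor acc (cond (bt mask (fld (TB j) c)) (Nat.shiftLeft 1 c) 0)) 27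

theorem cjm_aux (j mask n : ℕ) : ∀ i,
    ((Nat.rec (motive := fun _ => ℕ) 0 (fun c acc => Nat.lor acc
      (cond (bt mask (fld (TB j) c)) (Nat.shiftLeft 1 c) 0)) n : ℕ).testBit i = true ↔
        i < n ∧ mask.testBit (fld (TB j) i) = true) := by
  induction n with
  | zero =>
    intro i
    change (0 : ℕ).testBit i = true ↔ _
    rw [Nat.zero_testBit]
    constructor
    · intro h; exact absurd h (by simp)
    · rintro ⟨h, _⟩; omega
  | succ n ih =>
    intro i
    change ((Nat.rec (motive := fun _ => ℕ) 0 (fun c acc => Nat.lor acc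
      (cond (bt mask (fld (TB j) c)) (Nat.shiftLeft 1 c) 0)) n : ℕ) |||
      (cond (bt mask (fld (TB j) n)) (1 <<< n) 0)).testBit i = true ↔ _
    rw [Nat.testBit_or, Bool.or_eq_true, ih, Nat.one_shiftLeft]
    cases hb : bt mask (fld (TB j) n)
    · rw [cond_false', Nat.zero_testBit]
      constructor
      · rintro (⟨h1, h2⟩ | h1)
        · exact ⟨by omega, h2⟩
        · exact absurd h1 (by simp)
      · rintro ⟨h1, h2⟩
        left
        refine ⟨?_, h2⟩
        by_contra hc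
        have h3 : i = n := by omega
        rw [h3, ← bt_iff, hb] at h2
        exact absurd h2 (by simp)
    · rw [cond_true']
      constructor
      · rintro (⟨h1, h2⟩ | h1)
        · exact ⟨by omega, h2⟩
        · have h3 : n = i := by
            by_contra hne
            rw [Nat.testBit_two_pow_of_ne hne] at h1
            exact absurd h1 (by simp)
          rw [← h3]
          exact ⟨by omega, (bt_iff _ _).1 hb⟩
      · rintro ⟨h1, h2⟩
        by_cases h3 : i < n
        · exact Or.inl ⟨h3, h2⟩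
        · have h4 : i = n := by omega
          right
          rw [h4, Nat.testBit_two_pow_self]

theorem cjm_bit (j mask i : ℕ) :
    ((cjm j mask).testBit i = true ↔ i < 27 ∧ mask.testBit (fld (TB j) i) = true) :=
  cjm_aux j mask 27 i

theorem SM_cjm {σ : Equiv.Perm (Fin 3)} {j : Fin 6} (h1 : (σ : Fin 3 → Fin 3) = sv j.1)
    (h2 : (σ.symm : Fin 3 → Fin 3) = tv j.1) (mask : ℕ) :
    SM (cjm j.1 mask) = cjS σ (SM mask) := by
  ext m
  change (cjm j.1 mask).testBit (code m) = true ↔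
    mask.testBit (code (fun x => σ.symm (m (σ x)))) = true
  rw [cjm_bit, h1, h2, tb_all]
  exact ⟨fun h => h.2, fun h => ⟨code_lt m, h⟩⟩

theorem perm_cases (σ : Equiv.Perm (Fin 3)) :
    ∃ j : Fin 6, (σ : Fin 3 → Fin 3) = sv j.1 ∧ (σ.symm : Fin 3 → Fin 3) = tv j.1 :=
  sv_all σ σ.symm (fun x => σ.symm_apply_apply x)

theorem perm_of (j : Fin 6) :
    ∃ σ : Equiv.Perm (Fin 3), (σ : Fin 3 → Fin 3) = sv j.1 ∧
      (σ.symm : Fin 3 → Fin 3) = tv j.1 :=
  ⟨⟨sv j.1, tv j.1, (inv_all j).1, (inv_all j).2⟩, rfl, rfl⟩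

theorem code_surj {c : ℕ} (hc : c < 27) : ∃ m : Fin 3 → Fin 3, code m = c := by
  have h : ∀ c : Fin 27, ∃ m : Fin 3 → Fin 3, code m = c.1 := by decide +kernel
  exact h ⟨c, hc⟩

theorem SM_inj {a b : ℕ} (ha : a < 2 ^ 27) (hb : b < 2 ^ 27) (h : SM a = SM b) : a = b := by
  apply Nat.eq_of_testBit_eq
  intro i
  by_cases hi : i < 27
  · obtain ⟨m, hm⟩ := code_surj hi
    have h1 : m ∈ SM a ↔ m ∈ SM b := by rw [h]
    change a.testBit (code m) = true ↔ b.testBit (code m) = true at h1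
    rw [hm] at h1
    exact Bool.eq_iff_iff.2 h1
  · have h2 : 2 ^ 27 ≤ 2 ^ i := Nat.pow_le_pow_right (by norm_num) (by omega)
    rw [Nat.testBit_lt_two_pow (lt_of_lt_of_le ha h2),
      Nat.testBit_lt_two_pow (lt_of_lt_of_le hb h2)]

theorem cjm_lt (j mask : ℕ) : cjm j mask < 2 ^ 27 := by
  apply Nat.lt_pow_two_of_testBit
  intro i hi
  cases h : (cjm j mask).testBit i
  · rfl
  · have := ((cjm_bit j mask i).1 h).1
    omega

/-- number of algebras with a given unary part -/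
noncomputable def num (S : Set (Fin 3 → Fin 3)) : ℕ :=
  {F : Set Op | IsAlg F ∧ unaryPart F = S}.ncard

theorem union_card : ∀ (L : List (ℕ × ℕ)), (∀ e ∈ L, e.1 < 2 ^ 27) →
    (L.map Prod.fst).Nodup → (∀ e ∈ L, num (SM e.1) = e.2) →
    {F : Set Op | IsAlg F ∧ ∃ e ∈ L, unaryPart F = SM e.1}.ncard = (L.map Prod.snd).sum := by
  intro L
  induction L with
  | nil =>
    intro _ _ _
    have : {F : Set Op | IsAlg F ∧ ∃ e ∈ ([] : List (ℕ × ℕ)), unaryPart F = SM e.1} = ∅ := by
      ext F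
      simp
    rw [this, Set.ncard_empty]
    rfl
  | cons x L ih =>
    intro h1 h2 h3
    rw [List.map_cons, List.nodup_cons] at h2
    have e : {F : Set Op | IsAlg F ∧ ∃ e ∈ x :: L, unaryPart F = SM e.1} =
        {F : Set Op | IsAlg F ∧ unaryPart F = SM x.1} ∪
          {F : Set Op | IsAlg F ∧ ∃ e ∈ L, unaryPart F = SM e.1} := by
      ext F
      constructor
      · rintro ⟨hF, e, he, hu⟩
        rcases List.mem_cons.1 he with rfl | he
        · exact Or.inl ⟨hF, hu⟩
        · exact Or.inr ⟨hF, e, he, hu⟩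
      · rintro (⟨hF, hu⟩ | ⟨hF, e, he, hu⟩)
        · exact ⟨hF, x, List.mem_cons_self, hu⟩
        · exact ⟨hF, e, List.mem_cons_of_mem _ he, hu⟩
    rw [e, Set.ncard_union_eq _ (Set.toFinite _) (Set.toFinite _),
      ih (fun e he => h1 e (List.mem_cons_of_mem _ he)) h2.2
        (fun e he => h3 e (List.mem_cons_of_mem _ he))]
    · have := h3 x List.mem_cons_self
      unfold num at this
      rw [this, List.map_cons, List.sum_cons]
    · rw [Set.disjoint_left]
      rintro F ⟨_, hu⟩ ⟨_, e, he, hu'⟩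
      have h4 : x.1 = e.1 := SM_inj (h1 x List.mem_cons_self)
        (h1 e (List.mem_cons_of_mem _ he)) (by rw [← hu, ← hu'])
      apply h2.1
      rw [h4]
      exact List.mem_map_of_mem he

theorem parts_card : ∀ (L : List (ℕ × ℕ)), (∀ e ∈ L, e.1 < 2 ^ 27) →
    (L.map Prod.fst).Nodup →
    {S : Set (Fin 3 → Fin 3) | ∃ e ∈ L, S = SM e.1}.ncard = L.length := by
  intro L
  induction L with
  | nil =>
    intro _ _
    have : {S : Set (Fin 3 → Fin 3) | ∃ e ∈ ([] : List (ℕ × ℕ)), S = SM e.1} = ∅ := by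
      ext F
      simp
    rw [this, Set.ncard_empty]
    rfl
  | cons x L ih =>
    intro h1 h2
    rw [List.map_cons, List.nodup_cons] at h2
    have e : {S : Set (Fin 3 → Fin 3) | ∃ e ∈ x :: L, S = SM e.1} =
        insert (SM x.1) {S : Set (Fin 3 → Fin 3) | ∃ e ∈ L, S = SM e.1} := by
      ext S
      simp
    rw [e, Set.ncard_insert_of_notMem _ (Set.toFinite _),
      ih (fun e he => h1 e (List.mem_cons_of_mem _ he)) h2.2, List.length_cons]
    rintro ⟨e, he, hS⟩
    have h4 : x.1 = e.1 := SM_inj (h1 x List.mem_cons_self)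
      (h1 e (List.mem_cons_of_mem _ he)) hS
    apply h2.1
    rw [h4]
    exact List.mem_map_of_mem he

/-- the table with all conjugates: `r.2.2` lists the permutations used for `r` -/
noncomputable def expand (R : List (ℕ × ℕ × List ℕ)) : List (ℕ × ℕ) :=
  fr (fun r acc => fr (fun j acc' => (cjm j r.1, r.2.1) :: acc') acc r.2.2) [] R

/-- no two equal entries -/
noncomputable def nd (L : List (ℕ × ℕ)) : Bool :=
  List.rec (motive := fun _ => Bool) true
    (fun x l ih => cond (ex (fun y => Nat.beq x.1 y.1) l) false ih) L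

theorem ex_false {α : Type} {p : α → Bool} {l : List α} (h : ex p l = false) :
    ∀ a ∈ l, p a = false := by
  induction l with
  | nil => intro a ha; exact absurd ha (by simp)
  | cons x l ih =>
    have h' : cond (p x) true (ex p l) = false := h
    cases hx : p x
    · rw [hx] at h'
      intro a ha
      rcases List.mem_cons.1 ha with rfl | ha
      · exact hx
      · exact ih h' a ha
    · rw [hx] at h'
      exact absurd h' (by simp)

theorem nd_sound : ∀ (L : List (ℕ × ℕ)), nd L = true → (L.map Prod.fst).Nodup := by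
  intro L
  induction L with
  | nil => intro _; simp
  | cons x L ih =>
    intro h
    have h' : cond (ex (fun y => Nat.beq x.1 y.1) L) false (nd L) = true := h
    cases hx : ex (fun y : ℕ × ℕ => Nat.beq x.1 y.1) L
    · rw [hx] at h'
      rw [List.map_cons, List.nodup_cons]
      refine ⟨?_, ih h'⟩
      intro hm
      obtain ⟨y, hy, he⟩ := List.mem_map.1 hm
      have h2 := ex_false hx y hy
      have h3 : Nat.beq x.1 y.1 = true := by rw [Nat.beq_eq]; exact he.symm
      rw [h3] at h2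
      exact absurd h2 (by simp)
    · rw [hx] at h'
      exact absurd h' (by simp)

theorem expand_mem (R : List (ℕ × ℕ × List ℕ)) (e : ℕ × ℕ) :
    e ∈ expand R ↔ ∃ r ∈ R, ∃ j ∈ r.2.2, e = (cjm j r.1, r.2.1) := by
  have h1 : ∀ (r : ℕ × ℕ × List ℕ) (acc : List (ℕ × ℕ)) (js : List ℕ),
      (e ∈ fr (fun j acc' => (cjm j r.1, r.2.1) :: acc') acc js ↔
        (∃ j ∈ js, e = (cjm j r.1, r.2.1)) ∨ e ∈ acc) := by
    intro r acc js
    induction js with
    | nil =>
      change e ∈ acc ↔ _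
      simp
    | cons j js ih =>
      change e ∈ (cjm j r.1, r.2.1) :: fr (fun j acc' => (cjm j r.1, r.2.1) :: acc') acc js ↔ _
      rw [List.mem_cons, ih]
      simp only [List.mem_cons, exists_eq_or_imp, or_assoc]
  induction R with
  | nil =>
    change e ∈ ([] : List (ℕ × ℕ)) ↔ _
    simp
  | cons r R ih =>
    change e ∈ fr (fun j acc' => (cjm j r.1, r.2.1) :: acc') (expand R) r.2.2 ↔ _
    simp only [List.mem_cons, exists_eq_or_imp]
    exact (h1 r (expand R) r.2.2).trans (or_congr Iff.rfl ih)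

/-- every conjugate of an entry is an entry -/
noncomputable def chkO (R : List (ℕ × ℕ × List ℕ)) : Bool :=
  al (fun r => cond (al (fun j => Nat.ble j 5) r.2.2)
    (alln (fun i => ex (fun j => Nat.beq (cjm j r.1) (cjm i r.1)) r.2.2) 6) false) R

theorem table_num {R : List (ℕ × ℕ × List ℕ)} (hR : ∀ r ∈ R, num (SM r.1) = r.2.1)
    (hO : chkO R = true) : ∀ e ∈ expand R, num (SM e.1) = e.2 := by
  intro e he
  obtain ⟨r, hr, j, hj, rfl⟩ := (expand_mem R e).1 he
  obtain ⟨h1, _⟩ := cond_false (al_iff hO r hr)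
  have h2 := Nat.le_of_ble_eq_true (al_iff h1 j hj)
  obtain ⟨σ, g1, g2⟩ := perm_of ⟨j, by omega⟩
  change num (SM (cjm j r.1)) = r.2.1
  rw [SM_cjm (j := ⟨j, by omega⟩) g1 g2 r.1]
  unfold num
  rw [card_cj]
  exact hR r hr

/-- all entries of one list occur in the other -/
noncomputable def subL (A B : List (ℕ × ℕ)) : Bool :=
  al (fun e => ex (fun e' => cond (Nat.beq e.1 e'.1) (Nat.beq e.2 e'.2) false) B) A

theorem subL_sound {A B : List (ℕ × ℕ)} (h : subL A B = true) : ∀ e ∈ A, e ∈ B := by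
  intro e he
  obtain ⟨e', h1, h2⟩ := ex_iff (al_iff h e he)
  obtain ⟨h3, h4⟩ := cond_false h2
  have : e = e' := Prod.ext (Nat.eq_of_beq_eq_true h3) (Nat.eq_of_beq_eq_true h4)
  rw [this]; exact h1

theorem table_count {R : List (ℕ × ℕ × List ℕ)} {n tot : ℕ}
    (hR : ∀ r ∈ R, num (SM r.1) = r.2.1) (hO : chkO R = true) (hN : nd (expand R) = true)
    (hn : (expand R).length = n) (ht : ((expand R).map Prod.snd).sum = tot) :
    (∀ r ∈ R, ∀ σ : Equiv.Perm (Fin 3), num (cjS σ (SM r.1)) = r.2.1) ∧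
    {S : Set (Fin 3 → Fin 3) | ∃ r ∈ R, ∃ σ : Equiv.Perm (Fin 3),
      S = cjS σ (SM r.1)}.ncard = n ∧
    {F : Set Op | IsAlg F ∧ ∃ r ∈ R, ∃ σ : Equiv.Perm (Fin 3),
      unaryPart F = cjS σ (SM r.1)}.ncard = tot := by
  have hc : ∀ r ∈ R, ∀ σ : Equiv.Perm (Fin 3), num (cjS σ (SM r.1)) = r.2.1 := by
    intro r hr σ
    unfold num
    rw [card_cj]
    exact hR r hr
  have hlt : ∀ e ∈ expand R, e.1 < 2 ^ 27 := by
    intro e he
    obtain ⟨r, _, j, _, rfl⟩ := (expand_mem R e).1 he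
    exact cjm_lt j r.1
  have hj : ∀ r ∈ R, ∀ j ∈ r.2.2, ∃ σ : Equiv.Perm (Fin 3),
      SM (cjm j r.1) = cjS σ (SM r.1) := by
    intro r hr j hj
    obtain ⟨h1, _⟩ := cond_false (al_iff hO r hr)
    have h2 := Nat.le_of_ble_eq_true (al_iff h1 j hj)
    obtain ⟨σ, g1, g2⟩ := perm_of ⟨j, by omega⟩
    exact ⟨σ, SM_cjm (j := ⟨j, by omega⟩) g1 g2 r.1⟩
  have hσ : ∀ r ∈ R, ∀ σ : Equiv.Perm (Fin 3), ∃ j ∈ r.2.2,
      cjS σ (SM r.1) = SM (cjm j r.1) := by
    intro r hr σ
    obtain ⟨i, g1, g2⟩ := perm_cases σ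
    obtain ⟨_, h1⟩ := cond_false (al_iff hO r hr)
    obtain ⟨j, hj', h2⟩ := ex_iff (alln_iff h1 i.1 i.2)
    refine ⟨j, hj', ?_⟩
    rw [← SM_cjm g1 g2, Nat.eq_of_beq_eq_true h2]
  have hnum : ∀ e ∈ expand R, num (SM e.1) = e.2 := by
    intro e he
    obtain ⟨r, hr, j, hj', rfl⟩ := (expand_mem R e).1 he
    obtain ⟨σ, g⟩ := hj r hr j hj'
    change num (SM (cjm j r.1)) = r.2.1
    rw [g]; exact hc r hr σ
  refine ⟨hc, ?_, ?_⟩
  · have e : {S : Set (Fin 3 → Fin 3) | ∃ r ∈ R, ∃ σ : Equiv.Perm (Fin 3),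
        S = cjS σ (SM r.1)} = {S | ∃ e ∈ expand R, S = SM e.1} := by
      ext S
      constructor
      · rintro ⟨r, hr, σ, rfl⟩
        obtain ⟨j, hj', g⟩ := hσ r hr σ
        exact ⟨_, (expand_mem R _).2 ⟨r, hr, j, hj', rfl⟩, g⟩
      · rintro ⟨e, he, rfl⟩
        obtain ⟨r, hr, j, hj', rfl⟩ := (expand_mem R e).1 he
        obtain ⟨σ, g⟩ := hj r hr j hj'
        exact ⟨r, hr, σ, g⟩
    rw [e, parts_card _ hlt (nd_sound _ hN), hn]
  · have e : {F : Set Op | IsAlg F ∧ ∃ r ∈ R, ∃ σ : Equiv.Perm (Fin 3),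
        unaryPart F = cjS σ (SM r.1)} =
        {F : Set Op | IsAlg F ∧ ∃ e ∈ expand R, unaryPart F = SM e.1} := by
      ext F
      constructor
      · rintro ⟨hF, r, hr, σ, hu⟩
        obtain ⟨j, hj', g⟩ := hσ r hr σ
        exact ⟨hF, _, (expand_mem R _).2 ⟨r, hr, j, hj', rfl⟩, by rw [hu, g]⟩
      · rintro ⟨hF, e, he, hu⟩
        obtain ⟨r, hr, j, hj', rfl⟩ := (expand_mem R e).1 he
        obtain ⟨σ, g⟩ := hj r hr j hj'
        exact ⟨hF, r, hr, σ, by rw [hu, ← g]⟩
    rw [e, union_card _ hlt (nd_sound _ hN) hnum, ht]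

end H78.BA
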