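import Pool.Agent.H78.BA.Sound

/-! Checks which establish the correctness of the parameters of a run. -/

namespace H78.BA

set_option maxHeartbeats 400000

/-- right fold -/
noncomputable def fr {α β : Type} (f : α → β → β) (z : β) (l : List α) : β :=
  List.rec (motive := fun _ => β) z (fun a _ ih => f a ih) l

/-- all elements of a list -/
noncomputable def al {α : Type} (p : α → Bool) (l : List α) : Bool :=
  fr (fun a b => cond (p a) b false) true l

theorem al_iff {α : Type} {p : α → Bool} {l : List α} (h : al p l = true) :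
    ∀ a ∈ l, p a = true := by
  induction l with
  | nil => intro a ha; exact absurd ha (by simp)
  | cons x l ih =>
    have h' : cond (p x) (al p l) false = true := h
    obtain ⟨h1, h2⟩ := cond_false h'
    intro a ha
    rcases List.mem_cons.1 ha with rfl | ha
    · exact h1
    · exact ih h2 a ha

/-- all numbers below `n` -/
noncomputable def alln (p : ℕ → Bool) (n : ℕ) : Bool :=
  Nat.rec (motive := fun _ => Bool) true (fun i b => cond (p i) b false) n

theorem alln_iff {p : ℕ → Bool} {n : ℕ} (h : alln p n = true) : ∀ i < n, p i = true := by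
  induction n with
  | zero => intro i hi; omega
  | succ n ih =>
    have h' : cond (p n) (alln p n) false = true := h
    obtain ⟨h1, h2⟩ := cond_false h'
    intro i hi
    rcases Nat.lt_succ_iff_lt_or_eq.1 hi with hi | rfl
    · exact ih h2 i hi
    · exact h1

/-- equality of booleans -/
def eqb (a b : Bool) : Bool := cond a b (cond b false true)

theorem eqb_iff {a b : Bool} (h : eqb a b = true) : a = b := by
  revert h; cases a <;> cases b <;> decide

/-- check of the digit masks -/
noncomputable def chkV (MJ n : ℕ) (VT : T) : Bool :=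
  alln (fun x => alln (fun y => alln (fun z =>
    st (VT.get (Nat.add (Nat.mul 9 x) (Nat.add (Nat.mul 3 y) z))) fun m =>
      alln (fun i => eqb (bt m i) (Nat.beq (ev (cod MJ i) x y) z)) n) 3) 3) 3

/-- the digit masks are correct -/
def VOk (MJ n : ℕ) (VT : T) : Prop :=
  ∀ {x y z i : ℕ}, x < 3 → y < 3 → z < 3 → i < n →
    ((VT.get (9 * x + (3 * y + z))).testBit i = true ↔ ev (cod MJ i) x y = z)

theorem chkV_sound {MJ n : ℕ} {VT : T} (h : chkV MJ n VT = true) : VOk MJ n VT := by
  intro x y z i hx hy hz hi
  have h1 := alln_iff h x hx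
  have h2 := alln_iff h1 y hy
  have h3 := alln_iff h2 z hz
  rw [st_eq] at h3
  have h4 := eqb_iff (alln_iff h3 i hi)
  rw [← bt_iff]
  have h5 : VT.get (9 * x + (3 * y + z)) =
    VT.get (Nat.add (Nat.mul 9 x) (Nat.add (Nat.mul 3 y) z)) := rfl
  rw [h5, h4, Nat.beq_eq]

/-- mask of the operations with `f(s,t) = w` -/
noncomputable def andV (VT : T) (full : ℕ) (s : List ℕ) : List ℕ → List ℕ → ℕ :=
  List.rec (motive := fun _ => List ℕ → List ℕ → ℕ) (fun _ _ => full)
    (fun x _ ih t w => match t with
      | [] => 0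
      | y :: t' => match w with
        | [] => 0
        | z :: w' => Nat.land (VT.get (Nat.add (Nat.mul 9 x) (Nat.add (Nat.mul 3 y) z)))
            (ih t' w')) s

theorem andV_bit {MJ n full : ℕ} {VT : T} (hV : VOk MJ n VT)
    (hfull : ∀ i, i < n → full.testBit i = true) {i : ℕ} (hi : i < n) :
    ∀ (s t w : List ℕ), s.length = t.length → s.length = w.length →
      (∀ x ∈ s, x < 3) → (∀ x ∈ t, x < 3) → (∀ x ∈ w, x < 3) →
      ((andV VT full s t w).testBit i = true ↔ List.zipWith (ev (cod MJ i)) s t = w) := by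
  intro s
  induction s with
  | nil =>
    intro t w h1 h2 _ _ _
    have ht : t = [] := List.length_eq_zero_iff.1 h1.symm
    have hw : w = [] := List.length_eq_zero_iff.1 h2.symm
    subst ht; subst hw
    constructor
    · intro _; rfl
    · intro _; exact hfull i hi
  | cons x s ih =>
    intro t w h1 h2 hs ht hw
    cases t with
    | nil => exact absurd h1 (by simp)
    | cons y t =>
      cases w with
      | nil => exact absurd h2 (by simp)
      | cons z w =>
        have e : andV VT full (x :: s) (y :: t) (z :: w) =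
          (VT.get (9 * x + (3 * y + z))) &&& (andV VT full s t w) := rfl
        rw [e, Nat.testBit_and, Bool.and_eq_true,
          hV (hs x (by simp)) (ht y (by simp)) (hw z (by simp)) hi,
          ih t w (by simpa using h1) (by simpa using h2)
            (fun a ha => hs a (List.mem_cons_of_mem _ ha))
            (fun a ha => ht a (List.mem_cons_of_mem _ ha))
            (fun a ha => hw a (List.mem_cons_of_mem _ ha))]
        rw [List.zipWith_cons_cons, List.cons_eq_cons]

/-- mask of the operations with `f(s,t) ∈ ρ` -/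
noncomputable def orV (VT : T) (full : ℕ) (ρ : List (List ℕ)) (s t : List ℕ) : ℕ :=
  fr (fun w acc => Nat.lor (andV VT full s t w) acc) 0 ρ

/-- mask of the operations which preserve `ρ` -/
noncomputable def polM (VT : T) (full : ℕ) (ρ : List (List ℕ)) : ℕ :=
  fr (fun s acc => fr (fun t acc' => Nat.land (orV VT full ρ s t) acc') acc ρ) full ρ

/-- well formed relations -/
noncomputable def wf (L : ℕ) (ρ : List (List ℕ)) : Bool :=
  al (fun s => cond (Nat.beq s.length L) (al (fun x => Nat.ble x 2) s) false) ρ

theorem wf_sound {L : ℕ} {ρ : List (List ℕ)} (h : wf L ρ = true) :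
    ∀ s ∈ ρ, s.length = L ∧ ∀ x ∈ s, x < 3 := by
  intro s hs
  obtain ⟨h1, h2⟩ := cond_false (al_iff h s hs)
  refine ⟨Nat.eq_of_beq_eq_true h1, fun x hx => ?_⟩
  have h3 := Nat.le_of_ble_eq_true (al_iff h2 x hx)
  omega

/-- the operation with code `c` preserves `ρ` -/
def PresL (ρ : List (List ℕ)) (c : ℕ) : Prop :=
  ∀ s ∈ ρ, ∀ t ∈ ρ, List.zipWith (ev c) s t ∈ ρ

theorem zipWith_cmp (f u v : ℕ) : ∀ (s t : List ℕ), (∀ x ∈ s, x < 3) → (∀ x ∈ t, x < 3) →
    List.zipWith (ev (cmp f u v)) s t =
      List.zipWith (ev f) (List.zipWith (ev u) s t) (List.zipWith (ev v) s t) := by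
  intro s
  induction s with
  | nil => intro t _ _; simp
  | cons x s ih =>
    intro t hs ht
    cases t with
    | nil => simp
    | cons y t =>
      rw [List.zipWith_cons_cons, List.zipWith_cons_cons, List.zipWith_cons_cons,
        List.zipWith_cons_cons, ev_cmp f u v (hs x (by simp)) (ht y (by simp)),
        ih t (fun a ha => hs a (List.mem_cons_of_mem _ ha))
          (fun a ha => ht a (List.mem_cons_of_mem _ ha))]

theorem PresL_cmp {L : ℕ} {ρ : List (List ℕ)} (hw : wf L ρ = true) {f u v : ℕ}
    (hf : PresL ρ f) (hu : PresL ρ u) (hv : PresL ρ v) : PresL ρ (cmp f u v) := by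
  intro s hs t ht
  rw [zipWith_cmp f u v s t (wf_sound hw s hs).2 (wf_sound hw t ht).2]
  exact hf _ (hu s hs t ht) _ (hv s hs t ht)

theorem orV_bit {MJ n full L : ℕ} {VT : T} (hV : VOk MJ n VT)
    (hfull : ∀ i, i < n → full.testBit i = true) {i : ℕ} (hi : i < n)
    {s t : List ℕ} (hs : s.length = L ∧ ∀ x ∈ s, x < 3) (ht : t.length = L ∧ ∀ x ∈ t, x < 3) :
    ∀ (ρ : List (List ℕ)), (∀ w ∈ ρ, w.length = L ∧ ∀ x ∈ w, x < 3) →
      ((orV VT full ρ s t).testBit i = true ↔ List.zipWith (ev (cod MJ i)) s t ∈ ρ) := by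
  intro ρ
  induction ρ with
  | nil => intro _; simp [orV, fr]
  | cons w ρ ih =>
    intro h
    have e : orV VT full (w :: ρ) s t = (andV VT full s t w) ||| (orV VT full ρ s t) := rfl
    have hw := h w (by simp)
    rw [e, Nat.testBit_or, Bool.or_eq_true,
      andV_bit hV hfull hi s t w (by rw [hs.1, ht.1]) (by rw [hs.1, hw.1]) hs.2 ht.2 hw.2,
      ih (fun a ha => h a (List.mem_cons_of_mem _ ha)), List.mem_cons]

theorem fr_land_bit {i : ℕ} (g : List ℕ → ℕ) (acc : ℕ) :
    ∀ (ρ : List (List ℕ)), ((fr (fun t a => Nat.land (g t) a) acc ρ).testBit i = true ↔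
      (∀ t ∈ ρ, (g t).testBit i = true) ∧ acc.testBit i = true) := by
  intro ρ
  induction ρ with
  | nil => simp [fr]
  | cons w ρ ih =>
    have e : fr (fun t a => Nat.land (g t) a) acc (w :: ρ) =
      (g w) &&& (fr (fun t a => Nat.land (g t) a) acc ρ) := rfl
    rw [e, Nat.testBit_and, Bool.and_eq_true, ih]
    simp [and_assoc]

theorem polM_bit {MJ n full L : ℕ} {VT : T} (hV : VOk MJ n VT)
    (hfull : ∀ i, i < n → full.testBit i = true) {i : ℕ} (hi : i < n)
    {ρ : List (List ℕ)} (hw : wf L ρ = true) :
    ((polM VT full ρ).testBit i = true ↔ PresL ρ (cod MJ i)) := by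
  have key : ∀ (σ : List (List ℕ)), (∀ s ∈ σ, s ∈ ρ) →
      ((fr (fun s acc => fr (fun t acc' => Nat.land (orV VT full ρ s t) acc') acc ρ)
        full σ).testBit i = true ↔
        ∀ s ∈ σ, ∀ t ∈ ρ, List.zipWith (ev (cod MJ i)) s t ∈ ρ) := by
    intro σ
    induction σ with
    | nil =>
      intro _
      constructor
      · intro _ s hs; exact absurd hs (by simp)
      · intro _; exact hfull i hi
    | cons s σ ih =>
      intro hσ
      have e : fr (fun s acc => fr (fun t acc' => Nat.land (orV VT full ρ s t) acc') acc ρ)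
          full (s :: σ) = fr (fun t acc' => Nat.land (orV VT full ρ s t) acc')
            (fr (fun s acc => fr (fun t acc' => Nat.land (orV VT full ρ s t) acc') acc ρ)
              full σ) ρ := rfl
      rw [e, fr_land_bit, ih (fun a ha => hσ a (List.mem_cons_of_mem _ ha))]
      have hs := wf_sound hw s (hσ s (by simp))
      constructor
      · rintro ⟨h1, h2⟩ s' hs' t ht
        rcases List.mem_cons.1 hs' with rfl | hs'
        · exact (orV_bit hV hfull hi hs (wf_sound hw t ht) ρ (wf_sound hw)).1 (h1 t ht)
        · exact h2 s' hs' t ht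
      · intro h
        refine ⟨fun t ht => ?_, fun s' hs' => h s' (List.mem_cons_of_mem _ hs')⟩
        exact (orV_bit hV hfull hi hs (wf_sound hw t ht) ρ (wf_sound hw)).2
          (h s (by simp) t ht)
  exact key ρ (fun _ h => h)

theorem ClP_pol {k MJ JM full L : ℕ} {VT : T} (hp : PT k MJ JM)
    (hV : VOk MJ (729 * k) VT)
    (hfull : ∀ i, i < 729 * k → full.testBit i = true)
    {ρ : List (List ℕ)} (hw : wf L ρ = true) : ClP k MJ JM (polM VT full ρ) := by
  intro a b c ha hb hc ha' hb' hc' h
  rw [polM_bit hV hfull ha hw] at ha'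
  rw [polM_bit hV hfull hb hw] at hb'
  rw [polM_bit hV hfull hc hw] at hc'
  rw [polM_bit hV hfull h hw,
    cod_idx hp (cmp_lt _ _ _) (fld_of_idx hp (cmp_lt _ _ _) h)]
  exact PresL_cmp hw ha' hb' hc'

theorem ClP_zero (k MJ JM : ℕ) : ClP k MJ JM 0 := by
  intro a b c _ _ _ ha
  rw [Nat.zero_testBit] at ha
  exact absurd ha (by simp)

/-- all leaves of a tree satisfy `p` -/
noncomputable def allL (p : ℕ → Bool) (t : T) : Bool :=
  T.rec (motive := fun _ => Bool) p (fun _ _ a b => cond a b false) t

theorem allL_sound {p : ℕ → Bool} {t : T} (h : allL p t = true) : ∀ i, p (t.get i) = true := by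
  induction t with
  | leaf v => intro i; exact h
  | node l r ihl ihr =>
    have h' : cond (allL p l) (allL p r) false = true := h
    obtain ⟨h1, h2⟩ := cond_false h'
    intro i
    have e : (T.node l r).get i = cond (Nat.beq (Nat.land i 1) 0) (l.get (Nat.shiftRight i 1))
      (r.get (Nat.shiftRight i 1)) := rfl
    rw [e]
    cases Nat.beq (Nat.land i 1) 0
    · exact ihr h2 _
    · exact ihl h1 _

/-- some element of a list -/
noncomputable def ex {α : Type} (p : α → Bool) (l : List α) : Bool :=
  fr (fun a b => cond (p a) true b) false l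

theorem ex_iff {α : Type} {p : α → Bool} {l : List α} (h : ex p l = true) :
    ∃ a ∈ l, p a = true := by
  induction l with
  | nil => exact absurd h (by simp [ex, fr])
  | cons x l ih =>
    have h' : cond (p x) true (ex p l) = true := h
    cases hx : p x
    · rw [hx] at h'
      obtain ⟨a, ha, h2⟩ := ih h'
      exact ⟨a, List.mem_cons_of_mem _ ha, h2⟩
    · exact ⟨x, by simp, hx⟩

/-- tries of tuples -/
inductive Tr
  | z
  | e
  | n (a b c : Tr)

/-- the tuples of a trie -/
def Tr.words : Tr → List (List ℕ)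
  | .z => []
  | .e => [[]]
  | .n a b c => (a.words.map (List.cons 0)) ++ ((b.words.map (List.cons 1)) ++
      (c.words.map (List.cons 2)))

/-- mask of the operations with `f(s,t)` in the trie -/
noncomputable def Tr.G (VT : T) (full : ℕ) (tr : Tr) : List ℕ → List ℕ → ℕ :=
  Tr.rec (motive := fun _ => List ℕ → List ℕ → ℕ) (fun _ _ => 0)
    (fun s _ => match s with
      | [] => full
      | _ :: _ => 0)
    (fun _ _ _ ga gb gc s t => match s with
      | [] => 0
      | x :: s' => match t with
        | [] => 0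
        | y :: t' =>
          Nat.lor (Nat.land (VT.get (Nat.add (Nat.mul 9 x) (Nat.add (Nat.mul 3 y) 0)))
              (ga s' t'))
            (Nat.lor (Nat.land (VT.get (Nat.add (Nat.mul 9 x) (Nat.add (Nat.mul 3 y) 1)))
              (gb s' t'))
            (Nat.land (VT.get (Nat.add (Nat.mul 9 x) (Nat.add (Nat.mul 3 y) 2)))
              (gc s' t')))) tr

theorem G_bit {MJ n full : ℕ} {VT : T} (hV : VOk MJ n VT)
    (hfull : ∀ i, i < n → full.testBit i = true) {i : ℕ} (hi : i < n) (tr : Tr) :
    ∀ (s t : List ℕ), s.length = t.length → (∀ x ∈ s, x < 3) → (∀ x ∈ t, x < 3) →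
      ((tr.G VT full s t).testBit i = true ↔
        List.zipWith (ev (cod MJ i)) s t ∈ tr.words) := by
  induction tr with
  | z =>
    intro s t _ _ _
    change (0 : ℕ).testBit i = true ↔ _ ∈ []
    rw [Nat.zero_testBit]
    simp
  | e =>
    intro s t h _ _
    cases s with
    | nil =>
      constructor
      · intro _; simp [Tr.words]
      · intro _; exact hfull i hi
    | cons x s =>
      cases t with
      | nil => exact absurd h (by simp)
      | cons y t =>
        change (0 : ℕ).testBit i = true ↔ _
        rw [Nat.zero_testBit]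
        simp [Tr.words]
  | n a b c iha ihb ihc =>
    intro s t h hs ht
    cases s with
    | nil =>
      change (0 : ℕ).testBit i = true ↔ _
      rw [Nat.zero_testBit]
      simp [Tr.words]
    | cons x s =>
      cases t with
      | nil => exact absurd h (by simp)
      | cons y t =>
        have hx : x < 3 := hs x (by simp)
        have hy : y < 3 := ht y (by simp)
        have h' : s.length = t.length := by simpa using h
        have hs' : ∀ x ∈ s, x < 3 := fun a ha => hs a (List.mem_cons_of_mem _ ha)
        have ht' : ∀ x ∈ t, x < 3 := fun a ha => ht a (List.mem_cons_of_mem _ ha)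
        have e : (Tr.n a b c).G VT full (x :: s) (y :: t) =
          ((VT.get (9 * x + (3 * y + 0))) &&& (a.G VT full s t)) |||
            (((VT.get (9 * x + (3 * y + 1))) &&& (b.G VT full s t)) |||
            ((VT.get (9 * x + (3 * y + 2))) &&& (c.G VT full s t))) := rfl
        rw [e, Nat.testBit_or, Nat.testBit_or, Nat.testBit_and, Nat.testBit_and,
          Nat.testBit_and, Bool.or_eq_true, Bool.or_eq_true, Bool.and_eq_true,
          Bool.and_eq_true, Bool.and_eq_true, hV hx hy (by omega) hi,
          hV hx hy (by omega) hi, hV hx hy (by omega) hi, iha s t h' hs' ht',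
          ihb s t h' hs' ht', ihc s t h' hs' ht', List.zipWith_cons_cons]
        simp only [Tr.words, List.mem_append, List.mem_map, List.cons.injEq]
        constructor
        · rintro (⟨h1, h2⟩ | ⟨h1, h2⟩ | ⟨h1, h2⟩)
          · exact Or.inl ⟨_, h2, h1.symm, rfl⟩
          · exact Or.inr (Or.inl ⟨_, h2, h1.symm, rfl⟩)
          · exact Or.inr (Or.inr ⟨_, h2, h1.symm, rfl⟩)
        · rintro (⟨w, h2, h1, rfl⟩ | ⟨w, h2, h1, rfl⟩ | ⟨w, h2, h1, rfl⟩)
          · exact Or.inl ⟨h1.symm, h2⟩
          · exact Or.inr (Or.inl ⟨h1.symm, h2⟩)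
          · exact Or.inr (Or.inr ⟨h1.symm, h2⟩)

/-- mask of the operations which preserve a relation given by a list and a trie -/
noncomputable def polT (VT : T) (full : ℕ) (tr : Tr) (ρ : List (List ℕ)) : ℕ :=
  fr (fun s acc => fr (fun t acc' => Nat.land (tr.G VT full s t) acc') acc ρ) full ρ

theorem polT_bit {MJ n full L : ℕ} {VT : T} (hV : VOk MJ n VT)
    (hfull : ∀ i, i < n → full.testBit i = true) {i : ℕ} (hi : i < n) {tr : Tr}
    {ρ : List (List ℕ)} (hw : wf L ρ = true) :
    ((polT VT full tr ρ).testBit i = true ↔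
      ∀ s ∈ ρ, ∀ t ∈ ρ, List.zipWith (ev (cod MJ i)) s t ∈ tr.words) := by
  have key : ∀ (σ : List (List ℕ)), (∀ s ∈ σ, s ∈ ρ) →
      ((fr (fun s acc => fr (fun t acc' => Nat.land (tr.G VT full s t) acc') acc ρ)
        full σ).testBit i = true ↔
        ∀ s ∈ σ, ∀ t ∈ ρ, List.zipWith (ev (cod MJ i)) s t ∈ tr.words) := by
    intro σ
    induction σ with
    | nil =>
      intro _
      constructor
      · intro _ s hs; exact absurd hs (by simp)
      · intro _; exact hfull i hi
    | cons s σ ih =>
      intro hσ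
      have e : fr (fun s acc => fr (fun t acc' => Nat.land (tr.G VT full s t) acc') acc ρ)
          full (s :: σ) = fr (fun t acc' => Nat.land (tr.G VT full s t) acc')
            (fr (fun s acc => fr (fun t acc' => Nat.land (tr.G VT full s t) acc') acc ρ)
              full σ) ρ := rfl
      rw [e, fr_land_bit, ih (fun a ha => hσ a (List.mem_cons_of_mem _ ha))]
      have hs := wf_sound hw s (hσ s (by simp))
      constructor
      · rintro ⟨h1, h2⟩ s' hs' t ht
        rcases List.mem_cons.1 hs' with rfl | hs'
        · have ht2 := wf_sound hw t ht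
          exact (G_bit hV hfull hi tr s' t (by rw [hs.1, ht2.1]) hs.2 ht2.2).1 (h1 t ht)
        · exact h2 s' hs' t ht
      · intro h
        refine ⟨fun t ht => ?_, fun s' hs' => h s' (List.mem_cons_of_mem _ hs')⟩
        have ht2 := wf_sound hw t ht
        exact (G_bit hV hfull hi tr s t (by rw [hs.1, ht2.1]) hs.2 ht2.2).2
          (h s (by simp) t ht)
  exact key ρ (fun _ h => h)

/-- equality of lists of numbers -/
noncomputable def eqL (s : List ℕ) : List ℕ → Bool :=
  List.rec (motive := fun _ => List ℕ → Bool)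
    (fun t => match t with
      | [] => true
      | _ :: _ => false)
    (fun x _ ih t => match t with
      | [] => false
      | y :: t' => cond (Nat.beq x y) (ih t') false) s

theorem eqL_sound : ∀ (s t : List ℕ), eqL s t = true → s = t := by
  intro s
  induction s with
  | nil =>
    intro t h
    cases t with
    | nil => rfl
    | cons y t => exact absurd h (by simp [eqL])
  | cons x s ih =>
    intro t h
    cases t with
    | nil => exact absurd h (by simp [eqL])
    | cons y t =>
      have h' : cond (Nat.beq x y) (eqL s t) false = true := h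
      obtain ⟨h1, h2⟩ := cond_false h'
      rw [Nat.eq_of_beq_eq_true h1, ih t h2]

theorem ClP_polT {k MJ JM full L : ℕ} {VT : T} (hp : PT k MJ JM)
    (hV : VOk MJ (729 * k) VT)
    (hfull : ∀ i, i < 729 * k → full.testBit i = true) {tr : Tr}
    {ρ : List (List ℕ)} (hw : wf L ρ = true)
    (hs : al (fun w => ex (eqL w) ρ) tr.words = true) : ClP k MJ JM (polT VT full tr ρ) := by
  have hsub : ∀ w ∈ tr.words, w ∈ ρ := by
    intro w hw'
    obtain ⟨a, ha, h⟩ := ex_iff (al_iff hs w hw')
    rw [eqL_sound w a h]; exact ha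
  intro a b c ha hb hc ha' hb' hc' h
  rw [polT_bit hV hfull ha hw] at ha'
  rw [polT_bit hV hfull hb hw] at hb'
  rw [polT_bit hV hfull hc hw] at hc'
  rw [polT_bit hV hfull h hw,
    cod_idx hp (cmp_lt _ _ _) (fld_of_idx hp (cmp_lt _ _ _) h)]
  intro s hs' t ht'
  rw [zipWith_cmp _ _ _ s t (wf_sound hw s hs').2 (wf_sound hw t ht').2]
  exact ha' _ (hsub _ (hb' s hs' t ht')) _ (hsub _ (hc' s hs' t ht'))

/-- check of the tabulated masks against relations -/
noncomputable def chkP (VT : T) (full : ℕ) (rels : List (ℕ × ℕ × Tr × List (List ℕ))) :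
    Bool :=
  al (fun x => cond (wf x.2.1 x.2.2.2) (cond (al (fun w => ex (eqL w) x.2.2.2)
    x.2.2.1.words) (Nat.beq x.1 (polT VT full x.2.2.1 x.2.2.2)) false) false) rels

/-- check that the tree only contains tabulated masks -/
noncomputable def chkPT (P : T) (rels : List (ℕ × ℕ × Tr × List (List ℕ))) : Bool :=
  allL (fun v => cond (Nat.beq v 0) true (ex (fun x => Nat.beq v x.1) rels)) P

theorem chkP_sound {k MJ JM full : ℕ} {VT P : T} {rels : List (ℕ × ℕ × Tr × List (List ℕ))}
    (hp : PT k MJ JM) (hV : VOk MJ (729 * k) VT)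
    (hfull : ∀ i, i < 729 * k → full.testBit i = true)
    (h1 : chkP VT full rels = true) (h2 : chkPT P rels = true) (i : ℕ) :
    ClP k MJ JM (P.get i) := by
  have h3 := allL_sound h2 i
  cases h4 : Nat.beq (P.get i) 0
  · rw [h4] at h3
    obtain ⟨x, hx, h5⟩ := ex_iff h3
    obtain ⟨h6, h7⟩ := cond_false (al_iff h1 x hx)
    obtain ⟨h8, h9⟩ := cond_false h7
    rw [Nat.eq_of_beq_eq_true h5, Nat.eq_of_beq_eq_true h9]
    exact ClP_polT hp hV hfull h6 h8
  · rw [Nat.eq_of_beq_eq_true h4]
    exact ClP_zero k MJ JM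

end H78.BA
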