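import Pool.Agent.H78.BA.Tables

/-! The universe of a monoid of unary maps, the table of one-generated algebras and the
classes; assembly of the parameters. -/

namespace H78.BA

set_option maxHeartbeats 400000

/-- code of the operation `(x, y) ↦ t x` -/
def uc (t : List ℕ) : ℕ :=
  match t with
  | [a, b, c] => mk9 a a b b c c a b c
  | _ => 0

/-- check of the relation describing the unary maps -/
noncomputable def chkM (k JM bs : ℕ) (ρ : List (List ℕ)) : Bool :=
  cond (wf 3 ρ) (cond (al (fun t => cond (bt bs (idx JM (uc t)))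
      (Nat.ble (Nat.succ (fld JM (Nat.div (uc t) 729))) k) false) ρ)
    (cond (al (fun m => cond (Nat.ble (Nat.succ (fld JM m)) k)
        (ex (fun t => match t with
          | [a, b, c] => Nat.beq (Nat.add a (Nat.add (Nat.mul 3 b) (Nat.mul 9 c))) m
          | _ => false) ρ) true)
        [0, 1, 2, 3, 4, 5, 6, 7, 8, 9, 10, 11, 12, 13, 14, 15, 16, 17, 18, 19, 20, 21, 22,
          23, 24, 25, 26])
      (Nat.ble (Nat.succ (fld JM 21)) k) false) false) false

structure MOk (k JM bs : ℕ) (ρ : List (List ℕ)) : Prop where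
  w : wf 3 ρ = true
  a1 : ∀ t ∈ ρ, bs.testBit (idx JM (uc t)) = true ∧ fld JM (uc t / 729) < k
  a2 : ∀ m < 27, fld JM m < k → [m % 3, m / 3 % 3, m / 9 % 3] ∈ ρ
  a3 : fld JM 21 < k

theorem chkM_sound {k JM bs : ℕ} {ρ : List (List ℕ)} (h : chkM k JM bs ρ = true) :
    MOk k JM bs ρ := by
  obtain ⟨h1, h⟩ := cond_false h
  obtain ⟨h2, h⟩ := cond_false h
  obtain ⟨h3, h4⟩ := cond_false h
  refine ⟨h1, fun t ht => ?_, fun m hm hk => ?_, Nat.le_of_ble_eq_true h4⟩
  · obtain ⟨h5, h6⟩ := cond_false (al_iff h2 t ht)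
    rw [bt_iff] at h5
    exact ⟨h5, Nat.le_of_ble_eq_true h6⟩
  · have hmem : m ∈ [0, 1, 2, 3, 4, 5, 6, 7, 8, 9, 10, 11, 12, 13, 14, 15, 16, 17, 18, 19,
        20, 21, 22, 23, 24, 25, 26] := by
      interval_cases m <;> simp
    have h5 := al_iff h3 m hmem
    have h6 : Nat.ble (Nat.succ (fld JM m)) k = true := by rw [Nat.ble_eq]; exact hk
    rw [h6] at h5
    obtain ⟨t, ht, h7⟩ := ex_iff h5
    obtain ⟨hl, hx⟩ := wf_sound h1 t ht
    match t, hl, hx, h7, ht with
    | [a, b, c], _, hx, h7, ht =>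
      have h8 : a + (3 * b + 9 * c) = m := Nat.eq_of_beq_eq_true h7
      have ha : a < 3 := hx a (by simp)
      have hb : b < 3 := hx b (by simp)
      have hc : c < 3 := hx c (by simp)
      have e1 : m % 3 = a := by omega
      have e2 : m / 3 % 3 = b := by omega
      have e3 : m / 9 % 3 = c := by omega
      rw [e1, e2, e3]; exact ht

theorem uc_div {a b c : ℕ} (ha : a < 3) (hb : b < 3) (hc : c < 3) :
    uc [a, b, c] / 729 = a + 3 * b + 9 * c ∧ uc [a, b, c] < 19683 := by
  change mk9 a a b b c c a b c / 729 = _ ∧ mk9 a a b b c c a b c < 19683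
  rw [mk9_eq]
  omega

theorem ev_uc {a b c : ℕ} (ha : a < 3) (hb : b < 3) (hc : c < 3) :
    ev (uc [a, b, c]) 0 0 = a ∧ ev (uc [a, b, c]) 1 1 = b ∧ ev (uc [a, b, c]) 2 2 = c := by
  obtain ⟨_, _, _, _, _, _, h1, h2, h3⟩ := ev_mk9 ha ha hb hb hc hc ha hb hc
  exact ⟨h1, h2, h3⟩

theorem len3 {t : List ℕ} (h : t.length = 3) : ∃ a b c, t = [a, b, c] := by
  match t, h with
  | [a, b, c], _ => exact ⟨a, b, c, rfl⟩

theorem alive {k MJ JM bs : ℕ} {ρ : List (List ℕ)} (hp : PT k MJ JM) (hM : MOk k JM bs ρ)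
    {F : Set Op} (hF : Ok k MJ JM bs F) {i : ℕ} (hi : Holds k MJ F i) :
    PresL ρ (cod MJ i) := by
  have key : ∀ s ∈ ρ, dec (uc s) ∈ F := by
    intro s hs
    obtain ⟨h1, h2⟩ := hM.a1 s hs
    have h3 := hF.2.2 _ h1
    obtain ⟨hl, hx⟩ := wf_sound hM.w s hs
    obtain ⟨a, b, c, rfl⟩ := len3 hl
    obtain ⟨_, h4⟩ := uc_div (hx a (by simp)) (hx b (by simp)) (hx c (by simp))
    have h5 := h3.2
    rwa [cod_idx hp h4 h2] at h5
  intro s hs t ht
  have h1 := key s hs
  have h2 := key t ht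
  have h3 := hF.1.2.2 _ hi.2 _ h1 _ h2
  rw [← dec_cmp] at h3
  have h4 := hF.2.1 _ h3
  have hlt := cmp_lt (cod MJ i) (uc s) (uc t)
  rw [enc_dec hlt] at h4
  have h5 := hM.a2 _ (div_lt_27 hlt) h4
  obtain ⟨hl, hx⟩ := wf_sound hM.w s hs
  obtain ⟨hl', hx'⟩ := wf_sound hM.w t ht
  obtain ⟨a, b, c, rfl⟩ := len3 hl
  obtain ⟨a', b', c', rfl⟩ := len3 hl'
  obtain ⟨e0, e1, e2⟩ := ev_uc (hx a (by simp)) (hx b (by simp)) (hx c (by simp))
  obtain ⟨e0', e1', e2'⟩ := ev_uc (hx' a' (by simp)) (hx' b' (by simp)) (hx' c' (by simp))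
  have g0 := ev_cmp (cod MJ i) (uc [a, b, c]) (uc [a', b', c']) (a := 0) (b := 0)
    (by omega) (by omega)
  have g1 := ev_cmp (cod MJ i) (uc [a, b, c]) (uc [a', b', c']) (a := 1) (b := 1)
    (by omega) (by omega)
  have g2 := ev_cmp (cod MJ i) (uc [a, b, c]) (uc [a', b', c']) (a := 2) (b := 2)
    (by omega) (by omega)
  rw [e0, e0', ev00] at g0
  rw [e1, e1', ev11] at g1
  rw [e2, e2', ev22] at g2
  have q1 : cmp (cod MJ i) (uc [a, b, c]) (uc [a', b', c']) / 729 / 3 % 3 =
    cmp (cod MJ i) (uc [a, b, c]) (uc [a', b', c']) / 2187 % 3 := by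
    rw [Nat.div_div_eq_div_mul]
  have q2 : cmp (cod MJ i) (uc [a, b, c]) (uc [a', b', c']) / 729 / 9 % 3 =
    cmp (cod MJ i) (uc [a, b, c]) (uc [a', b', c']) / 6561 % 3 := by
    rw [Nat.div_div_eq_div_mul]
  rw [q1, q2, g0, g1, g2] at h5
  exact h5

theorem full_bit {n full : ℕ} (h : Nat.beq full (Nat.sub (Nat.pow 2 n) 1) = true) (i : ℕ) :
    full.testBit i = true ↔ i < n := by
  have h1 : full = 2 ^ n - 1 := Nat.eq_of_beq_eq_true h
  rw [h1, Nat.testBit_two_pow_sub_one, decide_eq_true_iff]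

theorem Cl_AL {k MJ JM bs full AL : ℕ} {VT : T} {ρ : List (List ℕ)} (hp : PT k MJ JM)
    (hV : VOk MJ (729 * k) VT) (hM : MOk k JM bs ρ)
    (hfull : Nat.beq full (Nat.sub (Nat.pow 2 (729 * k)) 1) = true)
    (hA : Nat.beq AL (polM VT full ρ) = true)
    (hA2 : Nat.beq (Nat.land AL full) AL = true) :
    Cl k MJ JM AL ∧ ∀ i, i < 729 * k → (AL.testBit i = true ↔ PresL ρ (cod MJ i)) := by
  have hf : ∀ i, i < 729 * k → full.testBit i = true := fun i hi => (full_bit hfull i).2 hi
  have hAe : AL = polM VT full ρ := Nat.eq_of_beq_eq_true hA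
  have hbit : ∀ i, i < 729 * k → (AL.testBit i = true ↔ PresL ρ (cod MJ i)) := by
    intro i hi
    rw [hAe]; exact polM_bit hV hf hi hM.w
  have hlt : ∀ i, AL.testBit i = true → i < 729 * k := by
    intro i hi
    exact (full_bit hfull i).1 (land_beq hA2 hi)
  refine ⟨⟨hlt, ?_⟩, hbit⟩
  intro a b c ha hb hc
  have h1 := (hbit a (hlt a ha)).1 ha
  have h2 := (hbit b (hlt b hb)).1 hb
  have h3 := (hbit c (hlt c hc)).1 hc
  have h4 := PresL_cmp hM.w h1 h2 h3
  have hid : [0, 1, 2] ∈ ρ := hM.a2 21 (by norm_num) hM.a3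
  have h5 := h4 _ hid _ hid
  have hlt' := cmp_lt (cod MJ a) (cod MJ b) (cod MJ c)
  have h6 : [ev (cmp (cod MJ a) (cod MJ b) (cod MJ c)) 0 0,
    ev (cmp (cod MJ a) (cod MJ b) (cod MJ c)) 1 1,
    ev (cmp (cod MJ a) (cod MJ b) (cod MJ c)) 2 2] ∈ ρ := h5
  obtain ⟨_, h8⟩ := hM.a1 _ h6
  obtain ⟨h9, _⟩ := uc_div (ev_lt (cmp (cod MJ a) (cod MJ b) (cod MJ c)) 0 0)
    (ev_lt (cmp (cod MJ a) (cod MJ b) (cod MJ c)) 1 1)
    (ev_lt (cmp (cod MJ a) (cod MJ b) (cod MJ c)) 2 2)
  have h10 : ev (cmp (cod MJ a) (cod MJ b) (cod MJ c)) 0 0 +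
      3 * ev (cmp (cod MJ a) (cod MJ b) (cod MJ c)) 1 1 +
      9 * ev (cmp (cod MJ a) (cod MJ b) (cod MJ c)) 2 2 =
      cmp (cod MJ a) (cod MJ b) (cod MJ c) / 729 := by
    rw [ev00, ev11, ev22]; omega
  rw [h9, h10] at h8
  have h11 := idx_lt hp hlt' h8
  rw [hbit _ h11, cod_idx hp hlt' h8]
  exact h4

/-- verification of the table of one-generated algebras -/
noncomputable def tab (MJ JM : ℕ) (D : T) (bs AL : ℕ) (m : ℕ) : ℕ → ℕ → Bool :=
  Nat.rec (motive := fun _ => ℕ → ℕ → Bool) (fun _ V => Nat.beq (Nat.land AL V) AL)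
    (fun _ ih s V => st (Nat.land s 32767) fun i =>
      stps MJ JM (fun w => Nat.lor (Nat.shiftLeft 1 w) (cond (bt V w) (D.get w) 0))
        (Nat.land (Nat.shiftRight s 15) 32767) (Nat.shiftRight s 30)
        (Nat.lor bs (Nat.shiftLeft 1 i)) fun s' IN' => st (D.get i) fun d =>
          cond (Nat.beq (Nat.land d IN') d)
            (st (Nat.lor V (Nat.shiftLeft 1 i)) fun V' => ih s' V') false) m

theorem B_shift {k MJ : ℕ} {F : Set Op} {w : ℕ} (h : Holds k MJ F w) :
    B k MJ F (Nat.shiftLeft 1 w) := by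
  intro i hi
  have h1 : (1 <<< w).testBit i = true := hi
  rw [Nat.one_shiftLeft] at h1
  have h2 : w = i := by
    by_contra hne
    rw [Nat.testBit_two_pow_of_ne hne] at h1
    exact absurd h1 (by simp)
  rw [← h2]; exact h

theorem testBit_lor_shift {V i w : ℕ} (h : (Nat.lor V (Nat.shiftLeft 1 i)).testBit w = true) :
    V.testBit w = true ∨ w = i := by
  have h1 : (V ||| (1 <<< i)).testBit w = true := h
  rw [Nat.testBit_or, Bool.or_eq_true] at h1
  rcases h1 with h1 | h1
  · exact Or.inl h1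
  · right
    rw [Nat.one_shiftLeft] at h1
    by_contra hne
    rw [Nat.testBit_two_pow_of_ne (fun h => hne h.symm)] at h1
    exact absurd h1 (by simp)

theorem tab_sound {k MJ JM bs AL : ℕ} {D : T} (hp : PT k MJ JM) (m : ℕ) :
    ∀ (s V : ℕ), (∀ w, V.testBit w = true → ∀ F, Ok k MJ JM bs F → Holds k MJ F w →
        B k MJ F (D.get w)) → tab MJ JM D bs AL m s V = true →
      ∀ w, AL.testBit w = true → ∀ F, Ok k MJ JM bs F → Holds k MJ F w →
        B k MJ F (D.get w) := by
  induction m with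
  | zero =>
    intro s V hV h w hw
    exact hV w (land_beq h hw)
  | succ m ih =>
    intro s V hV h
    have h' : (st (Nat.land s 32767) fun i =>
      stps MJ JM (fun w => Nat.lor (Nat.shiftLeft 1 w) (cond (bt V w) (D.get w) 0))
        (Nat.land (Nat.shiftRight s 15) 32767) (Nat.shiftRight s 30)
        (Nat.lor bs (Nat.shiftLeft 1 i)) fun s' IN' => st (D.get i) fun d =>
          cond (Nat.beq (Nat.land d IN') d)
            (st (Nat.lor V (Nat.shiftLeft 1 i)) fun V' => tab MJ JM D bs AL m s' V')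
            false) = true := h
    rw [st_eq] at h'
    have hDD : ∀ w F, Ok k MJ JM bs F → Holds k MJ F w →
        B k MJ F ((fun w => Nat.lor (Nat.shiftLeft 1 w) (cond (bt V w) (D.get w) 0)) w) := by
      intro w F hF hw
      refine lor_B (B_shift hw) ?_
      cases hb : bt V w
      · intro i hi
        change (0 : ℕ).testBit i = true at hi
        rw [Nat.zero_testBit] at hi
        exact absurd hi (by simp)
      · exact hV w ((bt_iff V w).1 hb) F hF hw
    obtain ⟨s', IN', h1, h2⟩ := stps_sound hp hDD _ h'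
    simp only [st_eq] at h1
    obtain ⟨h3, h4⟩ := cond_false h1
    refine ih s' _ ?_ h4
    intro w hw F hF hH
    rcases testBit_lor_shift hw with hw | rfl
    · exact hV w hw F hF hH
    · have h5 := h2 F hF (lor_B hF.2.2 (B_shift hH))
      intro j hj
      exact h5 j (land_beq h3 hj)

/-- one class of operations: representative, mask, mask of the generated algebra, members -/
structure Ent where
  r : ℕ
  K : ℕ
  D : ℕ
  ks : List ℕ

/-- mask of a list -/
noncomputable def km (ks : List ℕ) : ℕ := fr (fun i a => Nat.lor (Nat.shiftLeft 1 i) a) 0 ks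

theorem km_bit {ks : List ℕ} {i : ℕ} (h : (km ks).testBit i = true) : i ∈ ks := by
  induction ks with
  | nil =>
    change (0 : ℕ).testBit i = true at h
    rw [Nat.zero_testBit] at h
    exact absurd h (by simp)
  | cons x ks ih =>
    have h1 : ((1 <<< x) ||| km ks).testBit i = true := h
    rw [Nat.testBit_or, Bool.or_eq_true] at h1
    rcases h1 with h1 | h1
    · rw [Nat.one_shiftLeft] at h1
      by_contra hne
      rw [Nat.testBit_two_pow_of_ne (fun h => hne (by simp [h]))] at h1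
      exact absurd h1 (by simp)
    · exact List.mem_cons_of_mem _ (ih h1)

/-- mask of the operations which generate operation `r` -/
noncomputable def um (es : List Ent) (r : ℕ) : ℕ :=
  fr (fun e a => cond (bt e.D r) (Nat.lor e.K a) a) 0 es

/-- check of the classes -/
noncomputable def chkE (D : T) (es : List Ent) : Bool :=
  al (fun e => cond (Nat.beq e.K (km e.ks)) (cond (Nat.beq (D.get e.r) e.D)
    (cond (bt e.D e.r) (al (fun i => Nat.beq (D.get i) e.D) e.ks) false) false) false) es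

/-- check of the class trees -/
noncomputable def chkCt (CD CU : T) (all : List Ent) (es : List Ent) : ℕ → Bool :=
  List.rec (motive := fun _ => ℕ → Bool) (fun _ => true)
    (fun e _ ih a => cond (Nat.beq (CD.get a) e.D) (cond (Nat.beq (CU.get a) (um all e.r))
      (cond (bt (CU.get a) e.r) (st (Nat.succ a) fun a' => ih a') false) false) false) es

theorem chkCt_sound {CD CU : T} {all : List Ent} (es : List Ent) : ∀ (a0 : ℕ),
    chkCt CD CU all es a0 = true → ∀ a, a < es.length → ∃ e ∈ es,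
      CD.get (a0 + a) = e.D ∧ CU.get (a0 + a) = um all e.r ∧
        (CU.get (a0 + a)).testBit e.r = true := by
  induction es with
  | nil => intro a0 _ a ha; exact absurd ha (by simp)
  | cons e es ih =>
    intro a0 h a ha
    have h' : cond (Nat.beq (CD.get a0) e.D) (cond (Nat.beq (CU.get a0) (um all e.r))
      (cond (bt (CU.get a0) e.r) (st (Nat.succ a0) fun a' => chkCt CD CU all es a')
        false) false) false = true := h
    rw [st_eq] at h'
    obtain ⟨h1, h'⟩ := cond_false h'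
    obtain ⟨h2, h'⟩ := cond_false h'
    obtain ⟨h3, h4⟩ := cond_false h'
    cases a with
    | zero =>
      refine ⟨e, by simp, Nat.eq_of_beq_eq_true h1, Nat.eq_of_beq_eq_true h2, ?_⟩
      exact (bt_iff _ _).1 h3
    | succ a =>
      have ha' : a < es.length := by simpa using ha
      obtain ⟨e', he', g⟩ := ih (a0 + 1) h4 a ha'
      refine ⟨e', List.mem_cons_of_mem _ he', ?_⟩
      have hh : a0 + (a + 1) = a0 + 1 + a := by ring
      rw [hh]; exact g

theorem um_bit {es : List Ent} {r i : ℕ} (h : (um es r).testBit i = true) :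
    ∃ e ∈ es, e.D.testBit r = true ∧ e.K.testBit i = true := by
  induction es with
  | nil =>
    change (0 : ℕ).testBit i = true at h
    rw [Nat.zero_testBit] at h
    exact absurd h (by simp)
  | cons e es ih =>
    have h1 : (cond (bt e.D r) (Nat.lor e.K (um es r)) (um es r)).testBit i = true := h
    cases hb : bt e.D r
    · rw [hb] at h1
      obtain ⟨e', he', g⟩ := ih h1
      exact ⟨e', List.mem_cons_of_mem _ he', g⟩
    · rw [hb] at h1
      have h2 : (e.K ||| um es r).testBit i = true := h1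
      rw [Nat.testBit_or, Bool.or_eq_true] at h2
      rcases h2 with h2 | h2
      · exact ⟨e, by simp, (bt_iff _ _).1 hb, h2⟩
      · obtain ⟨e', he', g⟩ := ih h2
        exact ⟨e', List.mem_cons_of_mem _ he', g⟩

theorem class_ok {k MJ JM bs : ℕ} {D CD CU : T} {es : List Ent}
    (hD : ∀ w F, Ok k MJ JM bs F → Holds k MJ F w → B k MJ F (D.get w))
    (h1 : chkE D es = true) (h2 : chkCt CD CU es es 0 = true) (a : ℕ) (ha : a < es.length) :
    ClassOk k MJ JM bs (CD.get a) (CU.get a) := by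
  obtain ⟨e, he, g1, g2, g3⟩ := chkCt_sound es 0 h2 a ha
  rw [Nat.zero_add] at g1 g2 g3
  obtain ⟨_, h4⟩ := cond_false (al_iff h1 e he)
  obtain ⟨h5, h6⟩ := cond_false h4
  obtain ⟨h7, _⟩ := cond_false h6
  have e5 : D.get e.r = e.D := Nat.eq_of_beq_eq_true h5
  refine ⟨e.r, ?_, g3, ?_, ?_⟩
  · rw [g1]; exact (bt_iff _ _).1 h7
  · intro F hF hr
    rw [g1, ← e5]; exact hD _ F hF hr
  · intro F hF hr i hi hH
    rw [g2] at hi
    obtain ⟨e', he', q1, q2⟩ := um_bit hi
    obtain ⟨h8, h9⟩ := cond_false (al_iff h1 e' he')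
    obtain ⟨_, h10⟩ := cond_false h9
    obtain ⟨_, h11⟩ := cond_false h10
    rw [Nat.eq_of_beq_eq_true h8] at q2
    have h12 : D.get i = e'.D := Nat.eq_of_beq_eq_true (al_iff h11 i (km_bit q2))
    have h13 := hD i F hF hH
    rw [h12] at h13
    exact hr (h13 _ q1)

end H78.BA
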