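import Pool.Agent.H78.BA.Assemble
import Mathlib.Data.Fin.VecNotation

/-! The families of the machine are the algebras with a given unary part; conjugation. -/

namespace H78.BA

set_option maxHeartbeats 400000

/-- number of a unary map -/
def code (m : Fin 3 → Fin 3) : ℕ := (m 0).1 + 3 * (m 1).1 + 9 * (m 2).1

/-- the unary part: the maps `m` with `(x, y) ↦ m x` in `F` -/
def unaryPart (F : Set Op) : Set (Fin 3 → Fin 3) := {m | (fun x _ => m x) ∈ F}

/-- code of the operation `(x, y) ↦ t y` -/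
def uc2 (t : List ℕ) : ℕ :=
  match t with
  | [a, b, c] => mk9 b c a c a b a b c
  | _ => 0

/-- the base mask consists of the unary operations -/
noncomputable def chkB (JM bs : ℕ) (ρ : List (List ℕ)) : Bool :=
  Nat.beq bs (fr (fun t acc => Nat.lor (Nat.shiftLeft 1 (idx JM (uc t)))
    (Nat.lor (Nat.shiftLeft 1 (idx JM (uc2 t))) acc)) 0 ρ)

theorem chkB_sound {JM bs : ℕ} {ρ : List (List ℕ)} (h : chkB JM bs ρ = true) {i : ℕ}
    (hi : bs.testBit i = true) : ∃ t ∈ ρ, i = idx JM (uc t) ∨ i = idx JM (uc2 t) := by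
  have h1 : bs = fr (fun t acc => Nat.lor (Nat.shiftLeft 1 (idx JM (uc t)))
    (Nat.lor (Nat.shiftLeft 1 (idx JM (uc2 t))) acc)) 0 ρ := Nat.eq_of_beq_eq_true h
  rw [h1] at hi
  clear h1 h
  induction ρ with
  | nil =>
    change (0 : ℕ).testBit i = true at hi
    rw [Nat.zero_testBit] at hi
    exact absurd hi (by simp)
  | cons t ρ ih =>
    have h2 : ((1 <<< idx JM (uc t)) ||| ((1 <<< idx JM (uc2 t)) |||
      fr (fun t acc => Nat.lor (Nat.shiftLeft 1 (idx JM (uc t)))
        (Nat.lor (Nat.shiftLeft 1 (idx JM (uc2 t))) acc)) 0 ρ)).testBit i = true := hi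
    rw [Nat.testBit_or, Nat.testBit_or, Bool.or_eq_true, Bool.or_eq_true,
      Nat.one_shiftLeft, Nat.one_shiftLeft] at h2
    rcases h2 with h2 | h2 | h2
    · refine ⟨t, by simp, Or.inl ?_⟩
      by_contra hne
      rw [Nat.testBit_two_pow_of_ne (fun h => hne h.symm)] at h2
      exact absurd h2 (by simp)
    · refine ⟨t, by simp, Or.inr ?_⟩
      by_contra hne
      rw [Nat.testBit_two_pow_of_ne (fun h => hne h.symm)] at h2
      exact absurd h2 (by simp)
    · obtain ⟨t', ht', g⟩ := ih h2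
      exact ⟨t', List.mem_cons_of_mem _ ht', g⟩

theorem enc_div (f : Op) : enc f / 729 = code (fun x => f x x) := by
  have h0 := (f 0 0).2
  have h1 := (f 1 1).2
  have h2 := (f 2 2).2
  have h3 := (f 0 1).2
  have h4 := (f 0 2).2
  have h5 := (f 1 0).2
  have h6 := (f 1 2).2
  have h7 := (f 2 0).2
  have h8 := (f 2 1).2
  change enc f / 729 = (f 0 0).1 + 3 * (f 1 1).1 + 9 * (f 2 2).1
  unfold enc
  rw [mk9_eq]
  omega

theorem dec_uc {a b c : ℕ} (ha : a < 3) (hb : b < 3) (hc : c < 3) (m : Fin 3 → Fin 3)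
    (h0 : (m 0).1 = a) (h1 : (m 1).1 = b) (h2 : (m 2).1 = c) :
    dec (uc [a, b, c]) = (fun x _ => m x) ∧ dec (uc2 [a, b, c]) = (fun _ y => m y) := by
  subst h0; subst h1; subst h2
  constructor
  · exact dec_enc (fun x _ => m x)
  · exact dec_enc (fun _ y => m y)

theorem code_lt (m : Fin 3 → Fin 3) : code m < 27 := by
  have h0 := (m 0).2
  have h1 := (m 1).2
  have h2 := (m 2).2
  unfold code
  omega

theorem code_inj {m m' : Fin 3 → Fin 3} (h : code m = code m') : m = m' := by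
  have h0 := (m 0).2
  have h1 := (m 1).2
  have h2 := (m 2).2
  have h0' := (m' 0).2
  have h1' := (m' 1).2
  have h2' := (m' 2).2
  unfold code at h
  funext x
  apply Fin.ext
  rcases fin3 x with rfl | rfl | rfl <;> omega

theorem fam_eq {d : Dat} (hA : chkA d = true) (hB : chkB d.JM d.bs d.rM = true)
    {S : Set (Fin 3 → Fin 3)} (hS : ∀ m, m ∈ S ↔ fld d.JM (code m) < d.k) :
    Fam d.k d.MJ d.JM d.bs d.bs 0 = {F | IsAlg F ∧ unaryPart F = S} := by
  have A := chkA_sound hA
  ext F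
  constructor
  · rintro ⟨⟨h1, h2, h3⟩, _, _⟩
    refine ⟨h1, ?_⟩
    ext m
    constructor
    · intro hm
      have h4 := h2 _ hm
      rw [enc_div] at h4
      exact (hS m).2 h4
    · intro hm
      have h4 := (hS m).1 hm
      have h5 := A.hM.a2 _ (code_lt m) h4
      obtain ⟨h6, h7⟩ := A.hM.a1 _ h5
      have h8 := h3 _ h6
      have e0 : code m % 3 = (m 0).1 := by unfold code; omega
      have e1 : code m / 3 % 3 = (m 1).1 := by unfold code; omega
      have e2 : code m / 9 % 3 = (m 2).1 := by unfold code; omega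
      rw [e0, e1, e2] at h8 h7
      obtain ⟨_, h9⟩ := uc_div (m 0).2 (m 1).2 (m 2).2
      have h10 := h8.2
      rw [cod_idx A.pt h9 h7, (dec_uc (m 0).2 (m 1).2 (m 2).2 m rfl rfl rfl).1] at h10
      exact h10
  · rintro ⟨h1, h2⟩
    have hd : ∀ f ∈ F, fld d.JM (enc f / 729) < d.k := by
      intro f hf
      rw [enc_div, ← hS, ← h2]
      exact h1.2.2 f hf _ h1.1 _ h1.1
    have hb : B d.k d.MJ F d.bs := by
      intro i hi
      obtain ⟨t, ht, hit⟩ := chkB_sound hB hi
      obtain ⟨hl, hx⟩ := wf_sound A.hM.w t ht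
      obtain ⟨a, b, c, rfl⟩ := len3 hl
      have ha : a < 3 := hx a (by simp)
      have hb : b < 3 := hx b (by simp)
      have hc : c < 3 := hx c (by simp)
      obtain ⟨_, h4⟩ := A.hM.a1 _ ht
      obtain ⟨h5, h6⟩ := uc_div ha hb hc
      let m : Fin 3 → Fin 3 := ![⟨a, ha⟩, ⟨b, hb⟩, ⟨c, hc⟩]
      have hm : m ∈ S := by
        rw [hS]
        have : code m = uc [a, b, c] / 729 := by
          rw [h5]; rfl
        rw [this]; exact h4
      obtain ⟨g1, g2⟩ := dec_uc ha hb hc m rfl rfl rfl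
      rw [← h2] at hm
      have hm1 : dec (uc [a, b, c]) ∈ F := by rw [g1]; exact hm
      have hm2 : dec (uc2 [a, b, c]) ∈ F := by
        rw [g2]; exact h1.2.2 _ hm _ h1.2.1 _ h1.2.1
      have h7 : uc2 [a, b, c] < 19683 ∧ uc2 [a, b, c] / 729 = uc [a, b, c] / 729 := by
        rw [h5]
        change mk9 b c a c a b a b c < 19683 ∧ mk9 b c a c a b a b c / 729 = _
        rw [mk9_eq]
        omega
      rcases hit with rfl | rfl
      · exact ⟨idx_lt A.pt h6 h4, by rw [cod_idx A.pt h6 h4]; exact hm1⟩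
      · rw [← h7.2] at h4
        exact ⟨idx_lt A.pt h7.1 h4, by rw [cod_idx A.pt h7.1 h4]; exact hm2⟩
    refine ⟨⟨h1, hd, hb⟩, hb, ?_⟩
    intro i hi
    rw [Nat.zero_testBit] at hi
    exact absurd hi (by simp)

/-- the set of unary maps of a 27-bit mask -/
def SM (mask : ℕ) : Set (Fin 3 → Fin 3) := {m | mask.testBit (code m) = true}

/-- check that a mask describes the unary maps of the data -/
noncomputable def chkS (mask JM k : ℕ) : Bool :=
  alln (fun c => eqb (bt mask c) (Nat.ble (Nat.succ (fld JM c)) k)) 27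

theorem entry_of {d : Dat} {mask N : ℕ} (hA : chkA d = true)
    (hB : chkB d.JM d.bs d.rM = true) (hS : chkS mask d.JM d.k = true)
    (hc : (Fam d.k d.MJ d.JM d.bs d.bs 0).ncard = N) :
    {F : Set Op | IsAlg F ∧ unaryPart F = SM mask}.ncard = N := by
  rw [← hc, fam_eq hA hB]
  intro m
  have h := eqb_iff (alln_iff hS (code m) (code_lt m))
  change mask.testBit (code m) = true ↔ _
  rw [← bt_iff, h, Nat.ble_eq]
  exact Iff.rfl

/-- conjugate of an operation -/
def cj (σ : Equiv.Perm (Fin 3)) (f : Op) : Op := fun x y => σ.symm (f (σ x) (σ y))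

/-- conjugate of a set of operations -/
def cjF (σ : Equiv.Perm (Fin 3)) (F : Set Op) : Set Op := {f | cj σ f ∈ F}

/-- conjugate of a set of unary maps -/
def cjS (σ : Equiv.Perm (Fin 3)) (S : Set (Fin 3 → Fin 3)) : Set (Fin 3 → Fin 3) :=
  {m | (fun x => σ.symm (m (σ x))) ∈ S}

theorem cjF_alg {σ : Equiv.Perm (Fin 3)} {F : Set Op} (h : IsAlg F) : IsAlg (cjF σ F) := by
  refine ⟨?_, ?_, ?_⟩
  · change (fun x _ => σ.symm (σ x)) ∈ F
    simpa using h.1
  · change (fun _ y => σ.symm (σ y)) ∈ F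
    simpa using h.2.1
  · intro f hf g hg k hk
    have := h.2.2 _ hf _ hg _ hk
    change (fun x y => σ.symm (f (g (σ x) (σ y)) (k (σ x) (σ y)))) ∈ F
    simpa [cj] using this

theorem cj_symm (σ : Equiv.Perm (Fin 3)) (f : Op) : cj σ.symm (cj σ f) = f := by
  funext x y; simp [cj]

theorem cj_symm' (σ : Equiv.Perm (Fin 3)) (f : Op) : cj σ (cj σ.symm f) = f := by
  funext x y; simp [cj]

theorem cjF_symm (σ : Equiv.Perm (Fin 3)) (F : Set Op) : cjF σ.symm (cjF σ F) = F := by
  ext f; simp only [cjF, Set.mem_setOf_eq, cj_symm']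

theorem cjF_symm' (σ : Equiv.Perm (Fin 3)) (F : Set Op) : cjF σ (cjF σ.symm F) = F := by
  ext f; simp only [cjF, Set.mem_setOf_eq, cj_symm]

theorem unary_cj (σ : Equiv.Perm (Fin 3)) (F : Set Op) :
    unaryPart (cjF σ F) = cjS σ (unaryPart F) := rfl

theorem card_cj (σ : Equiv.Perm (Fin 3)) (S : Set (Fin 3 → Fin 3)) :
    {F : Set Op | IsAlg F ∧ unaryPart F = cjS σ S}.ncard =
      {F : Set Op | IsAlg F ∧ unaryPart F = S}.ncard := by
  have h : {F : Set Op | IsAlg F ∧ unaryPart F = cjS σ S} =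
      (cjF σ) '' {F : Set Op | IsAlg F ∧ unaryPart F = S} := by
    ext F
    constructor
    · rintro ⟨h1, h2⟩
      refine ⟨cjF σ.symm F, ⟨cjF_alg h1, ?_⟩, cjF_symm' σ F⟩
      rw [unary_cj, h2]
      ext m
      simp [cjS]
    · rintro ⟨G, ⟨h1, h2⟩, rfl⟩
      exact ⟨cjF_alg h1, by rw [unary_cj, h2]⟩
  rw [h, Set.ncard_image_of_injective]
  intro F G hFG
  have := congrArg (cjF σ.symm) hFG
  rwa [cjF_symm, cjF_symm] at this

end H78.BA
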